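import Pool.Agent.P.MP_a31c1c_an.AccB

set_option autoImplicit false

namespace Pool.Agent.P.MP_a31c1c_an

open MvPolynomial Metric

section

open Filter Topology Set

/-- The point `(0, 0, c)` is not in the closed invariant cone. -/
theorem not_pole {d : ℕ} {F1 F2 : MP} (H : Hyp d F1 F2) {Cb : Set E}
    (hsmul : ∀ z ∈ Cb, ∀ c : ℂ, c ≠ 0 → c • z ∈ Cb)
    (hstay : ∀ q ∈ Cb, ∀ i j : Fin 3, q i * W F1 F2 q j - q j * W F1 F2 q i ≠ 0 →
      Stay F1 F2 Cb q)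
    (hno : ∀ a : ℂ, (![0, 1, a] : E) ∈ Cb → (res (RR F1 F2)).eval a = 0) :
    (![0, 0, 1] : E) ∉ Cb := by
  intro hq
  obtain ⟨γ, h0, hγ⟩ := hstay _ hq 2 1 (by simpa [W] using H.top)
  have d1 : HasDerivAt (fun t => γ t 1) (eval ![0, 0, 1] F1) 0 := by
    simpa [W, h0] using hasDerivAt_pi.1 hγ.self_of_nhds.1 1
  have e1 := d1.eventually_ne (c := 0) H.top
  have hc : ContinuousAt (fun t => eval (γ t) (RR F1 F2)) 0 :=
    (hasDerivAt_eval _ hγ.self_of_nhds.1).continuousAt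
  have e2 : ∀ᶠ t in 𝓝 (0 : ℂ), eval (γ t) (RR F1 F2) ≠ 0 :=
    hc.eventually_ne (by simpa [h0, RR] using H.top)
  obtain ⟨t, a1, a2, a3⟩ := (e1.and ((e2.and hγ).filter_mono nhdsWithin_le_nhds)).exists
  have h1 := hsmul _ a3.2.1 (γ t 1)⁻¹ (inv_ne_zero a1)
  have h2 : (γ t 1)⁻¹ • γ t = ![0, 1, (γ t 1)⁻¹ * γ t 2] := by
    ext i
    fin_cases i
    · simp [a3.2.2]
    · simp [a1]
    · simp
  have hR : (RR F1 F2).IsHomogeneous (1 + d) :=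
    ((isHomogeneous_X ℂ 1).mul H.h2).sub ((isHomogeneous_X ℂ 2).mul H.h1)
  have h3 := hno _ (h2 ▸ h1)
  rw [eval_res, ← h2, eval_smul_of_hom hR] at h3
  exact mul_ne_zero (pow_ne_zero _ (inv_ne_zero a1)) a2 h3

/-- Smallness of `P` near a singular point at infinity. -/
theorem small_near {Cb : Set E} (hsmul : ∀ z ∈ Cb, ∀ c : ℂ, c ≠ 0 → c • z ∈ Cb)
    {n : ℕ} {P : MP} (hP : P.IsHomogeneous n) {s : Polynomial ℂ}
    (hs : Polynomial.X ^ (n + 1) ∣ cur s P) {K δ : ℝ} (hδ : 0 < δ)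
    (hK : ∀ w v : ℂ, ‖w‖ ≤ δ → ‖v‖ ≤ δ → (![w, 1, s.eval w + v] : E) ∈ Cb →
      ‖v‖ ≤ K * ‖w‖ ^ (n + 1))
    {q : E} (hq0 : q 0 = 0) (hq1 : q 1 ≠ 0) (hq2 : q 2 / q 1 = s.eval 0) {η : ℝ} (hη : 0 < η) :
    ∀ᶠ y in 𝓝 q, y ∈ Cb → ‖eval y P‖ ≤ η * ‖y 0‖ ^ n := by
  obtain ⟨g, hg⟩ := hs
  obtain ⟨Q, cQ, eQ, -⟩ := divdiff P
  let w : E → ℂ := fun y => y 0 / y 1
  let v : E → ℂ := fun y => y 2 / y 1 - s.eval (w y)
  have cw : ContinuousAt w q := by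
    simp only [w]
    fun_prop (disch := assumption)
  have cv : ContinuousAt v q := by
    simp only [v]
    fun_prop (disch := assumption)
  have w0 : w q = 0 := by simp [w, hq0]
  have v0 : v q = 0 := by simp [v, w0, hq2]
  have e1 : ∀ᶠ y in 𝓝 q, ‖w y‖ < δ := cw.norm.eventually (gt_mem_nhds (by simpa [w0] using hδ))
  have e2 : ∀ᶠ y in 𝓝 q, ‖v y‖ < δ := cv.norm.eventually (gt_mem_nhds (by simpa [v0] using hδ))
  have e3 : ∀ᶠ y : E in 𝓝 q, y 1 ≠ 0 := (continuous_apply 1).continuousAt.eventually_ne hq1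
  have e4 : ∀ᶠ y in 𝓝 q,
      ‖w y‖ * (‖g.eval (w y)‖ + K * ‖Q (w y, s.eval (w y), v y)‖) < η := by
    have : ContinuousAt
        (fun y => ‖w y‖ * (‖g.eval (w y)‖ + K * ‖Q (w y, s.eval (w y), v y)‖)) q := by
      fun_prop
    exact this.eventually (gt_mem_nhds (by simpa [w0] using hη))
  filter_upwards [e1, e2, e3, e4] with y a1 a2 a3 a4 hy
  have h1 : (y 1)⁻¹ • y = ![w y, 1, s.eval (w y) + v y] := by
    ext i
    fin_cases i
    · simp [w, div_eq_inv_mul]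
    · simp [a3]
    · simp [v, div_eq_inv_mul]
  have h2 := hK _ _ a1.le a2.le (h1 ▸ hsmul y hy _ (inv_ne_zero a3))
  have h3 : eval y P = y 1 ^ n * (w y ^ (n + 1) * g.eval (w y) +
      v y * Q (w y, s.eval (w y), v y)) := by
    have h4 := congrArg (Polynomial.eval (w y)) hg
    simp only [eval_cur, Polynomial.eval_mul, Polynomial.eval_pow, Polynomial.eval_X] at h4
    rw [← h4, ← eQ, ← h1, ← eval_smul_of_hom hP, smul_smul, mul_inv_cancel₀ a3, one_smul]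
  have h5 : ‖y 0‖ = ‖y 1‖ * ‖w y‖ := by
    rw [← norm_mul]; simp only [w]; rw [mul_div_cancel₀ _ a3]
  rw [h3, h5, norm_mul, norm_pow, mul_pow]
  have h6 : ‖w y ^ (n + 1) * g.eval (w y) + v y * Q (w y, s.eval (w y), v y)‖ ≤
      ‖w y‖ ^ n * η := by
    refine (norm_add_le _ _).trans ?_
    rw [norm_mul, norm_mul, norm_pow]
    calc _ ≤ ‖w y‖ ^ (n + 1) * ‖g.eval (w y)‖ +
          K * ‖w y‖ ^ (n + 1) * ‖Q (w y, s.eval (w y), v y)‖ := by gcongr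
      _ = ‖w y‖ ^ n * (‖w y‖ * (‖g.eval (w y)‖ + K * ‖Q (w y, s.eval (w y), v y)‖)) := by ring
      _ ≤ _ := by gcongr
  calc _ ≤ ‖y 1‖ ^ n * (‖w y‖ ^ n * η) := by gcongr
    _ = _ := by ring

/-- Smallness of `P` at infinity on the affine part of the cone. -/
theorem small_far {Cb : Set E} (hsmul : ∀ z ∈ Cb, ∀ c : ℂ, c ≠ 0 → c • z ∈ Cb)
    {n : ℕ} {P : MP} (hP : P.IsHomogeneous n) {η : ℝ}
    (h : ∀ q : E, q ≠ 0 → q 0 = 0 → ∀ᶠ y in 𝓝 q, y ∈ Cb → ‖eval y P‖ ≤ η * ‖y 0‖ ^ n) :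
    ∃ R : ℝ, ∀ z ∈ Cb, z 0 = 1 → R < ‖z‖ → ‖eval z P‖ ≤ η := by
  let U := interior {y : E | y ∈ Cb → ‖eval y P‖ ≤ η * ‖y 0‖ ^ n}
  have hT : IsCompact (sphere (0 : E) 1 \ U) := (isCompact_sphere _ _).diff isOpen_interior
  obtain ⟨μ, hμ, hμ'⟩ := hT.exists_forall_le' (f := fun y => ‖y 0‖) (a := 0)
    (by fun_prop) (by
      rintro y ⟨hy, hyU⟩
      refine norm_pos_iff.2 fun h0 => hyU (mem_interior_iff_mem_nhds.2 (h y ?_ h0))
      rintro rfl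
      simp at hy)
  refine ⟨μ⁻¹, fun z hz hz0 hR => ?_⟩
  have hpos : 0 < ‖z‖ := (inv_pos.2 hμ).trans hR
  have hc : ((‖z‖⁻¹ : ℝ) : ℂ) ≠ 0 := by exact_mod_cast (inv_pos.2 hpos).ne'
  have hn : ‖((‖z‖⁻¹ : ℝ) : ℂ)‖ = ‖z‖⁻¹ := by simp
  have hy0 : ‖(((‖z‖⁻¹ : ℝ) : ℂ) • z) 0‖ = ‖z‖⁻¹ := by simp [hz0]
  have hyU : ((‖z‖⁻¹ : ℝ) : ℂ) • z ∈ U := by
    by_contra hU
    have := hμ' _ ⟨by rw [mem_sphere_zero_iff_norm, norm_smul, hn, inv_mul_cancel₀ hpos.ne'], hU⟩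
    simp only [hy0] at this
    have h2 := inv_lt_of_inv_lt₀ hμ hR
    linarith
  have h1 := interior_subset hyU (hsmul z hz _ hc)
  rw [hy0, eval_smul_of_hom hP, norm_mul, norm_pow, hn, mul_comm] at h1
  exact le_of_mul_le_mul_right h1 (pow_pos (inv_pos.2 hpos) n)

end

/-- A non-algebraic invariant cone accumulates at a regular point of the line at infinity. -/
theorem acc {d : ℕ} {F1 F2 : MP} (H : Hyp d F1 F2) (C : Set E)
    (hsmul : ∀ z ∈ C, ∀ c : ℂ, c ≠ 0 → c • z ∈ C)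
    (h0 : ∀ z ∈ C, z 0 ≠ 0)
    (hflow : ∀ (γ : ℂ → E) (r : ℝ), 0 < r →
      (∀ t ∈ ball (0 : ℂ) r, HasDerivAt γ (W F1 F2 (γ t)) t ∧ ∀ c : ℂ, W F1 F2 (γ t) ≠ c • γ t) →
      γ 0 ∈ C → ∀ t ∈ ball (0 : ℂ) r, γ t ∈ C)
    (S : Finset E) (hS : ∀ z : E, z 0 = 1 → W F1 F2 z = 0 → ∃ s ∈ S, ∃ t : ℂ, z = t • s)
    (hna : ∀ (k : ℕ) (P : MP), 0 < k → P.IsHomogeneous k → P ≠ 0 → ∃ z ∈ C, eval z P ≠ 0) :
    ∃ a : ℂ, (res (RR F1 F2)).eval a ≠ 0 ∧ (![0, 1, a] : E) ∈ closure C := by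
  classical
  by_contra hcon
  have hno : ∀ a : ℂ, (![0, 1, a] : E) ∈ closure C → (res (RR F1 F2)).eval a = 0 := by
    intro a ha
    by_contra h
    exact hcon ⟨a, h, ha⟩
  have hsm : ∀ z ∈ closure C, ∀ c : ℂ, c ≠ 0 → c • z ∈ closure C := fun z hz c hc =>
    map_mem_closure (f := fun z : E => c • z) (continuous_const_smul c) hz
      fun y hy => hsmul y hy c hc
  have hstay : ∀ q ∈ closure C, ∀ i j : Fin 3, q i * W F1 F2 q j - q j * W F1 F2 q i ≠ 0 →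
      Stay F1 F2 (closure C) q := fun q hq i j hij => stay_closure hflow hq hij
  have hR0 : res (RR F1 F2) ≠ 0 := by
    intro h
    apply H.inf 0 (by simp [h])
    simp [h]
  have hj : ∀ (k : ℕ) (u : ℂ), ∃ s : Polynomial ℂ, (res (RR F1 F2)).eval u = 0 →
      s.eval 0 = u ∧ Polynomial.X ^ (k + 1) ∣
        cur s (RR F1 F2) + s.derivative * Polynomial.X * cur s F1 := by
    intro k u
    by_cases hu : (res (RR F1 F2)).eval u = 0
    · obtain ⟨s, hs⟩ := jets H hu k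
      exact ⟨s, fun _ => hs⟩
    · exact ⟨0, fun h => absurd h hu⟩
  choose σ hσ using hj
  obtain ⟨n, P, hn, hP, hP0, hPS, hPT⟩ := exists_poly (res (RR F1 F2)).roots.toFinset σ S
  obtain ⟨z, hzC, hz⟩ := hna n P hn hP hP0
  have hz0 := h0 z hzC
  have hx : (z 0)⁻¹ • z ∈ closure C := subset_closure (hsmul z hzC _ (inv_ne_zero hz0))
  have hx0 : ((z 0)⁻¹ • z) 0 = 1 := by simp [hz0]
  have hxP : 0 < ‖eval ((z 0)⁻¹ • z) P‖ := by
    rw [eval_smul_of_hom hP]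
    exact norm_pos_iff.2 (mul_ne_zero (pow_ne_zero _ (inv_ne_zero hz0)) hz)
  set x := (z 0)⁻¹ • z with hxdef
  obtain ⟨R, hR⟩ := small_far hsm hP (η := ‖eval x P‖ / 2) (by
    intro q hq hq0
    by_cases hqC : q ∈ closure C
    swap
    · filter_upwards [isClosed_closure.isOpen_compl.mem_nhds hqC] with y hy hy' using
        absurd hy' hy
    have hq1 : q 1 ≠ 0 := by
      intro hq1
      have hq2 : q 2 ≠ 0 := by
        intro hq2
        apply hq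
        ext i
        fin_cases i <;> simp [hq0, hq1, hq2]
      apply not_pole H hsm hstay hno
      convert hsm q hqC _ (inv_ne_zero hq2) using 1
      ext i
      fin_cases i <;> simp [hq0, hq1, hq2]
    have hu : (res (RR F1 F2)).eval (q 2 / q 1) = 0 := by
      apply hno
      convert hsm q hqC _ (inv_ne_zero hq1) using 1
      ext i
      fin_cases i <;> simp [hq0, hq1, div_eq_inv_mul]
    obtain ⟨hs0, hs⟩ := hσ n _ hu
    obtain ⟨K, δ, hδ, hK⟩ := cone H isClosed_closure hsm hstay hno hu hs0 hs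
    exact small_near hsm hP (hPT _ (by simpa [hR0] using hu)) hδ hK hq0 hq1 hs0.symm
      (by positivity))
  let L : Set E := {y | y ∈ closure C ∧ y 0 = 1}
  have hLc : IsClosed L :=
    isClosed_closure.inter (isClosed_eq (continuous_apply 0) continuous_const)
  have hK : IsCompact (closedBall (0 : E) R ∩ L) := (isCompact_closedBall _ _).inter_right hLc
  have hxK : ∀ y ∈ L, ‖eval x P‖ ≤ ‖eval y P‖ → y ∈ closedBall (0 : E) R ∩ L := by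
    intro y hy hle
    refine ⟨mem_closedBall_zero_iff.2 (not_lt.1 fun h => ?_), hy⟩
    have := hR y hy.1 hy.2 h
    linarith
  let M : Set E := {y | y ∈ L ∧ ∀ x ∈ L, ‖eval x P‖ ≤ ‖eval y P‖}
  have hxL : x ∈ L := ⟨hx, hx0⟩
  have hMeq : M = {y | y ∈ closedBall (0 : E) R ∩ L ∧
      ∀ x ∈ closedBall (0 : E) R ∩ L, ‖eval x P‖ ≤ ‖eval y P‖} := by
    ext y
    refine ⟨fun hy => ⟨hxK y hy.1 (hy.2 x hxL), fun t ht => hy.2 t ht.2⟩,
      fun hy => ⟨hy.1.2, fun t ht => ?_⟩⟩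
    rcases le_total ‖eval x P‖ ‖eval t P‖ with h | h
    · exact hy.2 t (hxK t ht h)
    · exact h.trans (hy.2 x (hxK x hxL le_rfl))
  have hW : ∀ q ∈ M, W F1 F2 q ≠ 0 := by
    intro q hq hW
    obtain ⟨s, hs, t, rfl⟩ := hS q hq.1.2 hW
    have := hq.2 x hxL
    rw [eval_smul_of_hom hP t s, hPS s hs, mul_zero, norm_zero] at this
    linarith
  obtain ⟨q, hq, hq0⟩ := exists_zero_of_compact (F1 := F1) (F2 := F2) (M := M)
    (hMeq ▸ isCompact_argmax hK P) (hMeq ▸ argmax_nonempty hK ⟨x, hxK x hxL le_rfl⟩ P) (by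
      intro q hq
      refine (stay_max ?_ P hq.2).1
      obtain ⟨i, hi⟩ := Function.ne_iff.1 (hW q hq)
      obtain ⟨γ, g0, hγ⟩ := hstay q hq.1.1 0 i (by simpa [hq.1.2, W] using hi)
      refine ⟨γ, g0, ?_⟩
      filter_upwards [hγ] with t ht using ⟨ht.1, ⟨ht.2.1, ht.2.2.trans hq.1.2⟩, ht.2.2⟩)
  exact hW q hq hq0

end Pool.Agent.P.MP_a31c1c_an
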