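import Pool.Agent.P.MP_a31c1c_an.Defs

/-!
Auxiliary facts for the accumulation theorem: local invariance of the closure, the maximum
principle along leaves, divided differences and jets of separatrices.
-/

set_option autoImplicit false

namespace Pool.Agent.P.MP_a31c1c_an

open MvPolynomial Metric Filter Topology Set

/-- The solution through `q` stays in `L` for small complex time. -/
def Stay (F1 F2 : MP) (L : Set E) (q : E) : Prop :=
  ∃ γ : ℂ → E, γ 0 = q ∧ ∀ᶠ t in 𝓝 (0 : ℂ),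
    HasDerivAt γ (W F1 F2 (γ t)) t ∧ γ t ∈ L ∧ γ t 0 = q 0

theorem stay_closure {F1 F2 : MP} {C : Set E}
    (hflow : ∀ (γ : ℂ → E) (r : ℝ), 0 < r →
      (∀ t ∈ ball (0 : ℂ) r, HasDerivAt γ (W F1 F2 (γ t)) t ∧ ∀ c : ℂ, W F1 F2 (γ t) ≠ c • γ t) →
      γ 0 ∈ C → ∀ t ∈ ball (0 : ℂ) r, γ t ∈ C)
    {q : E} (hq : q ∈ closure C) {i j : Fin 3}
    (hij : q i * W F1 F2 q j - q j * W F1 F2 q i ≠ 0) : Stay F1 F2 (closure C) q := by
  have hW : Continuous (W F1 F2) := (contDiff_W F1 F2 (n := 0)).continuous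
  have hc : Continuous fun z : E => z i * W F1 F2 z j - z j * W F1 F2 z i := by fun_prop
  have hS : {z : E | z i * W F1 F2 z j - z j * W F1 F2 z i ≠ 0} ∈ 𝓝 q :=
    hc.continuousAt.eventually_ne hij
  obtain ⟨a, r, K, ha, hr, hsub, hK, hsol⟩ :=
    exists_sol (v := W F1 F2) (z₀ := q) (contDiff_W F1 F2).contDiffAt hS
  obtain ⟨γ, hγ0, hγ⟩ := hsol q (mem_closedBall_self (by linarith))
  refine ⟨γ, hγ0, ?_⟩
  filter_upwards [ball_mem_nhds (0 : ℂ) hr] with t ht
  refine ⟨(hγ t ht).1, ?_, ?_⟩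
  · rw [Metric.mem_closure_iff]
    intro ε hε
    have he : 0 < Real.exp (K * ‖t - 0‖) := Real.exp_pos _
    obtain ⟨z, hzC, hz⟩ := Metric.mem_closure_iff.1 hq (min (a / 2) (ε / Real.exp (K * ‖t - 0‖)))
      (by positivity)
    have hz1 : z ∈ closedBall q (a / 2) := by
      rw [mem_closedBall, dist_comm]
      exact (hz.trans_le (min_le_left _ _)).le
    obtain ⟨δ, hδ0, hδ⟩ := hsol z hz1
    refine ⟨δ t, hflow δ r hr (fun s hs => ⟨(hδ s hs).1, fun c hc => ?_⟩) (hδ0 ▸ hzC) t ht, ?_⟩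
    · have := hsub (hδ s hs).2
      apply this
      rw [hc]
      simp only [Pi.smul_apply, smul_eq_mul]
      ring
    · have := gronwall_sub (v := fun _ z => W F1 F2 z) (S := closedBall q a) (K := K)
        (convex_ball (0 : ℂ) r) (fun _ _ x hx y hy => by
          have := hK.dist_le_mul x hx y hy
          rwa [dist_eq_norm, dist_eq_norm] at this) hγ hδ (mem_ball_self hr) ht
      rw [hγ0, hδ0, ← dist_eq_norm, ← dist_eq_norm] at this
      refine this.trans_lt ?_
      exact (lt_div_iff₀ he).1 (hz.trans_le (min_le_right _ _))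
  · have := gronwall (y := fun s => γ s 0 - q 0) (y' := fun _ => (0 : ℂ)) (K := 0)
      (convex_ball (0 : ℂ) r) (fun s hs => by
        have h1 := (hasDerivAt_pi.1 (hγ s hs).1 0).sub_const (q 0)
        simpa [W] using h1) (fun s _ => by simp) (mem_ball_self hr) ht
    rw [hγ0, sub_self, norm_zero, zero_mul] at this
    exact sub_eq_zero.1 (norm_le_zero_iff.1 this)

/-- Maximum principle along leaves. -/
theorem stay_max {F1 F2 : MP} {L : Set E} {q : E} (hq : Stay F1 F2 L q) (P : MP)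
    (hmax : ∀ y ∈ L, ‖eval y P‖ ≤ ‖eval q P‖) :
    Stay F1 F2 {y | y ∈ L ∧ ∀ x ∈ L, ‖eval x P‖ ≤ ‖eval y P‖} q ∧
      ∑ i, eval q (pderiv i P) * W F1 F2 q i = 0 := by
  obtain ⟨γ, h0, hγ⟩ := hq
  have hd : ∀ᶠ t in 𝓝 (0 : ℂ), DifferentiableAt ℂ (fun s => eval (γ s) P) t := by
    filter_upwards [hγ] with t ht using (hasDerivAt_eval P ht.1).differentiableAt
  have hm : IsLocalMax (norm ∘ fun s => eval (γ s) P) 0 := by
    filter_upwards [hγ] with t ht
    simp only [Function.comp, h0]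
    exact hmax _ ht.2.1
  have he := Complex.eventually_eq_of_isLocalMax_norm hd hm
  refine ⟨⟨γ, h0, ?_⟩, ?_⟩
  · filter_upwards [hγ, he] with t ht ht'
    refine ⟨ht.1, ⟨ht.2.1, fun x hx => ?_⟩, ht.2.2⟩
    rw [ht', h0]
    exact hmax x hx
  · have h1 := hasDerivAt_eval P hγ.self_of_nhds.1
    have h2 : HasDerivAt (fun s => eval (γ s) P) 0 0 :=
      (hasDerivAt_const (0 : ℂ) (eval (γ 0) P)).congr_of_eventuallyEq he
    rw [h0] at h1
    exact h1.unique h2

theorem isCompact_argmax {L : Set E} (hL : IsCompact L) (P : MP) :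
    IsCompact {y | y ∈ L ∧ ∀ x ∈ L, ‖eval x P‖ ≤ ‖eval y P‖} := by
  have hc : Continuous fun z : E => ‖eval z P‖ := (contDiff_eval P (n := 0)).continuous.norm
  have : {y | y ∈ L ∧ ∀ x ∈ L, ‖eval x P‖ ≤ ‖eval y P‖} =
      L ∩ ⋂ x ∈ L, {y | ‖eval x P‖ ≤ ‖eval y P‖} := by
    ext y; simp
  rw [this]
  exact hL.inter_right (isClosed_biInter fun x _ => isClosed_le continuous_const hc)

theorem argmax_nonempty {L : Set E} (hL : IsCompact L) (hne : L.Nonempty) (P : MP) :
    {y | y ∈ L ∧ ∀ x ∈ L, ‖eval x P‖ ≤ ‖eval y P‖}.Nonempty := by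
  have hc : Continuous fun z : E => ‖eval z P‖ := (contDiff_eval P (n := 0)).continuous.norm
  obtain ⟨y, hy, hm⟩ := hL.exists_isMaxOn hne hc.continuousOn
  exact ⟨y, hy, fun x hx => hm hx⟩

/-- A nonempty compact locally invariant set contains a zero of the field. -/
theorem exists_zero_of_compact {F1 F2 : MP} {M : Set E} (hM : IsCompact M) (hne : M.Nonempty)
    (hst : ∀ q ∈ M, Stay F1 F2 M q) : ∃ q ∈ M, W F1 F2 q = 0 := by
  let M1 := {y | y ∈ M ∧ ∀ x ∈ M, ‖eval x (X 1 : MP)‖ ≤ ‖eval y (X 1 : MP)‖}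
  let M2 := {y | y ∈ M1 ∧ ∀ x ∈ M1, ‖eval x (X 2 : MP)‖ ≤ ‖eval y (X 2 : MP)‖}
  have h1 : IsCompact M1 := isCompact_argmax hM _
  obtain ⟨q, hq1, hq2⟩ : M2.Nonempty := argmax_nonempty h1 (argmax_nonempty hM hne _) _
  obtain ⟨s1, e1⟩ := stay_max (hst q hq1.1) (X 1) hq1.2
  obtain ⟨-, e2⟩ := stay_max s1 (X 2) hq2
  refine ⟨q, hq1.1, ?_⟩
  simp [Fin.sum_univ_three, pderiv_X, W] at e1 e2
  ext i
  fin_cases i <;> simp [W, e1, e2]

/-- The modulus increases in a suitable real direction. -/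
theorem norm_incr {f : ℂ → ℂ} {f' ω : ℂ} (h : HasDerivAt f f' 0)
    (hp : 0 < (starRingEnd ℂ (f 0) * (ω * f')).re) :
    ∀ᶠ τ : ℝ in 𝓝[>] 0, ‖f 0‖ < ‖f (ω * τ)‖ := by
  have h1 : HasDerivAt (fun z : ℂ => starRingEnd ℂ (f 0) * f (ω * z))
      (starRingEnd ℂ (f 0) * (ω * f')) ((0 : ℝ) : ℂ) := by
    have h2 : HasDerivAt (fun z : ℂ => ω * z) ω ((0 : ℝ) : ℂ) := by
      simpa using (hasDerivAt_id ((0 : ℝ) : ℂ)).const_mul ω
    have h3 : HasDerivAt f f' (ω * ((0 : ℝ) : ℂ)) := by simpa using h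
    have := (h3.comp ((0 : ℝ) : ℂ) h2).const_mul (starRingEnd ℂ (f 0))
    simpa [Function.comp_def, mul_comm] using this
  have h4 := h1.real_of_complex
  have h5 := (hasDerivAt_iff_tendsto_slope_left_right.1 h4).2
  filter_upwards [h5.eventually (lt_mem_nhds hp), self_mem_nhdsWithin] with τ hτ hτ0
  have hτ1 : 0 < τ := hτ0
  rw [slope_def_field, sub_zero, div_pos_iff_of_pos_right hτ1] at hτ
  simp only [Complex.ofReal_zero, mul_zero] at hτ
  have h6 : (starRingEnd ℂ (f 0) * f 0).re = ‖f 0‖ * ‖f 0‖ := by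
    rw [← Complex.normSq_eq_conj_mul_self, Complex.ofReal_re, Complex.normSq_eq_norm_sq, sq]
  have h7 : (starRingEnd ℂ (f 0) * f (ω * τ)).re ≤ ‖f 0‖ * ‖f (ω * τ)‖ := by
    refine (Complex.re_le_norm _).trans ?_
    rw [norm_mul, Complex.norm_conj]
  by_contra hc
  push Not at hc
  have := mul_le_mul_of_nonneg_left hc (norm_nonneg (f 0))
  linarith

/-- Divided difference in the last variable. -/
theorem divdiff (H : MP) : ∃ Q : ℂ × ℂ × ℂ → ℂ, Continuous Q ∧
    (∀ w a v : ℂ, eval ![w, 1, a + v] H = eval ![w, 1, a] H + v * Q (w, a, v)) ∧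
    ∀ w a : ℂ, Q (w, a, 0) = eval ![w, 1, a] (pderiv 2 H) := by
  induction H using MvPolynomial.induction_on with
  | C c => exact ⟨fun _ => 0, continuous_const, by simp, by simp⟩
  | add p q hp hq =>
    obtain ⟨Q1, c1, e1, d1⟩ := hp
    obtain ⟨Q2, c2, e2, d2⟩ := hq
    refine ⟨fun x => Q1 x + Q2 x, c1.add c2, fun w a v => ?_, fun w a => ?_⟩
    · simp only [map_add, e1, e2]; ring
    · simp only [map_add, d1, d2]
  | mul_X p j hp =>
    obtain ⟨Q, c, e, d⟩ := hp
    have hc : Continuous fun x : ℂ × ℂ × ℂ => eval ![x.1, 1, x.2.1 + x.2.2] p := by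
      refine (contDiff_eval p (n := 0)).continuous.comp (continuous_pi fun i => ?_)
      fin_cases i <;> simp <;> fun_prop
    fin_cases j
    · refine ⟨fun x => Q x * x.1, by fun_prop, fun w a v => ?_, fun w a => ?_⟩
      · simp [e]; ring
      · simp [d, pderiv_X]; ring
    · refine ⟨Q, c, fun w a v => ?_, fun w a => ?_⟩
      · simp [e]
      · simp [d, pderiv_X]
    · refine ⟨fun x => eval ![x.1, 1, x.2.1 + x.2.2] p + x.2.1 * Q x, by fun_prop,
        fun w a v => ?_, fun w a => ?_⟩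
      · simp [e]; ring
      · simp [d, pderiv_X]

/-- Restriction of a polynomial to the curve `w ↦ (w, 1, s w)`. -/
noncomputable def cur (s : Polynomial ℂ) (H : MP) : Polynomial ℂ := aeval ![Polynomial.X, 1, s] H

theorem eval_cur (s : Polynomial ℂ) (H : MP) (w : ℂ) :
    (cur s H).eval w = eval ![w, 1, s.eval w] H := by
  unfold cur
  induction H using MvPolynomial.induction_on with
  | C a => simp
  | add p q hp hq => simp only [map_add, Polynomial.eval_add, hp, hq]
  | mul_X p i hp =>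
    simp only [map_mul, Polynomial.eval_mul, hp, aeval_X, eval_X]
    congr 1
    fin_cases i <;> simp

theorem cur_taylor (s y : Polynomial ℂ) (H : MP) :
    ∃ b, cur (s + y) H = cur s H + y * cur s (pderiv 2 H) + y ^ 2 * b := by
  unfold cur
  induction H using MvPolynomial.induction_on with
  | C a => exact ⟨0, by simp⟩
  | add p q hp hq =>
    obtain ⟨b1, e1⟩ := hp
    obtain ⟨b2, e2⟩ := hq
    refine ⟨b1 + b2, ?_⟩
    simp only [map_add, e1, e2]; ring
  | mul_X p j hp =>
    obtain ⟨b, e⟩ := hp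
    fin_cases j
    · refine ⟨b * Polynomial.X, ?_⟩
      simp [e, pderiv_X]; ring
    · refine ⟨b, ?_⟩
      simp [e, pderiv_X]
    · refine ⟨aeval ![Polynomial.X, 1, s] (pderiv 2 p) + b * (s + y), ?_⟩
      simp [e, pderiv_X]; ring

theorem eval_derivative_res (H : MP) (u : ℂ) :
    (res H).derivative.eval u = eval ![0, 1, u] (pderiv 2 H) := by
  have h1 := (res H).hasDerivAt u
  have h2 : HasDerivAt (fun s : ℂ => (![0, 1, s] : E)) ![0, 0, 1] u := by
    refine hasDerivAt_pi.2 fun i => ?_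
    fin_cases i
    · simpa using hasDerivAt_const u (0 : ℂ)
    · simpa using hasDerivAt_const u (1 : ℂ)
    · simpa using hasDerivAt_id' u
  have h3 := hasDerivAt_eval H h2
  simp only [← eval_res] at h3
  have := h1.unique h3
  simpa [Fin.sum_univ_three, eval_res] using this

/-- Jets of the separatrix transverse to the line at infinity. -/
theorem jets {d : ℕ} {F1 F2 : MP} (H : Hyp d F1 F2) {u : ℂ} (hu : (res (RR F1 F2)).eval u = 0)
    (k : ℕ) : ∃ s : Polynomial ℂ, s.eval 0 = u ∧ Polynomial.X ^ (k + 1) ∣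
      cur s (RR F1 F2) + s.derivative * Polynomial.X * cur s F1 := by
  induction k with
  | zero =>
    refine ⟨Polynomial.C u, by simp, ?_⟩
    rw [zero_add, pow_one, Polynomial.X_dvd_iff, Polynomial.coeff_zero_eq_eval_zero]
    simp [eval_cur, ← eval_res, hu]
  | succ k ih =>
    obtain ⟨s, hs0, e, he⟩ := ih
    have hinf := H.inf u hu
    set β := (res (RR F1 F2)).derivative.eval u with hβ
    set f := (res F1).eval u with hf
    have hne : β + (k + 1) * f ≠ 0 := by
      intro h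
      apply hinf
      have hk : ((k : ℂ) + 1) ≠ 0 := by exact_mod_cast Nat.succ_ne_zero k
      by_cases hf0 : f = 0
      · simp [hf0]
      · have : f / β = ((-1 / ((k : ℝ) + 1) : ℝ) : ℂ) := by
          rw [eq_neg_of_add_eq_zero_left h]
          push_cast
          field_simp
        rw [this, Complex.ofReal_im]
    set c := -e.eval 0 / (β + (k + 1) * f) with hc
    obtain ⟨b1, e1⟩ := cur_taylor s (Polynomial.C c * Polynomial.X ^ (k + 1)) (RR F1 F2)
    obtain ⟨b2, e2⟩ := cur_taylor s (Polynomial.C c * Polynomial.X ^ (k + 1)) F1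
    refine ⟨s + Polynomial.C c * Polynomial.X ^ (k + 1), by simp [hs0], ?_⟩
    have hX : Polynomial.X ∣ e + Polynomial.C c * cur s (pderiv 2 (RR F1 F2)) +
        Polynomial.C c * ((k : Polynomial ℂ) + 1) * cur s F1 := by
      rw [Polynomial.X_dvd_iff, Polynomial.coeff_zero_eq_eval_zero]
      simp only [Polynomial.eval_add, Polynomial.eval_mul, Polynomial.eval_C, eval_cur, hs0,
        Polynomial.eval_natCast, Polynomial.eval_one]
      rw [← eval_derivative_res, ← eval_res, ← hβ, ← hf, hc]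
      field_simp
      ring
    obtain ⟨g, hg⟩ := hX
    rw [e1, e2]
    set y2 := cur s (pderiv 2 F1) + Polynomial.C c * Polynomial.X ^ (k + 1) * b2 with hy2
    refine ⟨g + Polynomial.C c ^ 2 * Polynomial.X ^ k * b1 +
      Polynomial.C c * (s.derivative + Polynomial.C c * ((k : Polynomial ℂ) + 1) *
        Polynomial.X ^ k) * y2, ?_⟩
    have hd : (s + Polynomial.C c * Polynomial.X ^ (k + 1)).derivative =
        s.derivative + Polynomial.C c * ((k : Polynomial ℂ) + 1) * Polynomial.X ^ k := by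
      simp [Polynomial.derivative_X_pow_succ, mul_assoc]
    rw [hd]
    linear_combination he + Polynomial.X ^ (k + 1) * hg

end Pool.Agent.P.MP_a31c1c_an
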