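import Pool.Agent.P.MP_a31c1c_an.AccA

/-!
The cone argument near a singular point at infinity, and the dimension count.
-/

set_option autoImplicit false

namespace Pool.Agent.P.MP_a31c1c_an

open MvPolynomial Metric Filter Topology Set

theorem continuous_chart (s : Polynomial ℂ) :
    Continuous fun p : ℂ × ℂ => (![p.1, 1, s.eval p.1 + p.2] : E) := by
  refine continuous_pi fun i => ?_
  fin_cases i <;> simp <;> fun_prop

/-- One step of the cone argument: a point where the transverse coordinate is large can be moved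
so that the transverse coordinate increases while the first one does not. -/
theorem cone_step {F1 F2 : MP} {Cb : Set E} (hsmul : ∀ z ∈ Cb, ∀ c : ℂ, c ≠ 0 → c • z ∈ Cb)
    (hstay : ∀ q ∈ Cb, ∀ i j : Fin 3, q i * W F1 F2 q j - q j * W F1 F2 q i ≠ 0 →
      Stay F1 F2 Cb q) (s : Polynomial ℂ) {w v ω : ℂ} {ρ : ℝ}
    (hq : (![w, 1, s.eval w + v] : E) ∈ Cb) (hv : ‖v‖ < ρ)
    (h1 : 0 < (ω * eval ![w, 1, s.eval w + v] F1).re)
    (h2 : 0 < (starRingEnd ℂ v * (ω * (eval ![w, 1, s.eval w + v] (RR F1 F2) +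
      s.derivative.eval w * w * eval ![w, 1, s.eval w + v] F1))).re) :
    ∃ w' v' : ℂ, ‖w'‖ ≤ ‖w‖ ∧ ‖v‖ < ‖v'‖ ∧ ‖v'‖ < ρ ∧ (![w', 1, s.eval w' + v'] : E) ∈ Cb := by
  set q : E := ![w, 1, s.eval w + v] with hqdef
  have hst : Stay F1 F2 Cb q := by
    by_cases hR : eval q (RR F1 F2) = 0
    · refine hstay q hq 0 1 fun h => ?_
      have h3 : w * eval q F1 = 0 := by simpa [W, hqdef] using h
      rw [hR, mul_assoc, h3] at h2
      simp at h2
    · refine hstay q hq 1 2 fun h => hR ?_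
      simpa [W, RR, hqdef] using h
  obtain ⟨γ, h0, hγ⟩ := hst
  have hd := hasDerivAt_pi.1 hγ.self_of_nhds.1
  have g0 : γ 0 0 = w := by simp [h0, hqdef]
  have g1 : γ 0 1 = 1 := by simp [h0, hqdef]
  have g2 : γ 0 2 = s.eval w + v := by simp [h0, hqdef]
  have d0 : HasDerivAt (fun t => γ t 0) 0 0 := by simpa [W] using hd 0
  have d1 : HasDerivAt (fun t => γ t 1) (eval q F1) 0 := by simpa [W, h0] using hd 1
  have d2 : HasDerivAt (fun t => γ t 2) (eval q F2) 0 := by simpa [W, h0] using hd 2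
  have hne : γ 0 1 ≠ 0 := by rw [g1]; exact one_ne_zero
  have dw := d0.div d1 hne
  have du := d2.div d1 hne
  have ds := (s.hasDerivAt (γ 0 0 / γ 0 1)).comp (0 : ℂ) dw
  let f : ℂ → ℂ := fun t => γ t 2 / γ t 1 - s.eval (γ t 0 / γ t 1)
  have f0 : f 0 = v := by simp [f, g0, g1, g2]
  have df : HasDerivAt f (eval q (RR F1 F2) + s.derivative.eval w * w * eval q F1) 0 := by
    refine (du.sub ds).congr_deriv ?_
    have : eval q (RR F1 F2) = eval q F2 - (s.eval w + v) * eval q F1 := by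
      simp [RR, hqdef]
    rw [this, g0, g1, g2]
    simp only [div_one, one_pow]
    ring
  have e1 := norm_incr (ω := ω) df (by rw [f0]; exact h2)
  have e2 := norm_incr (ω := ω) d1 (by simpa [g1] using h1)
  have hT : Tendsto (fun τ : ℝ => ω * (τ : ℂ)) (𝓝[>] 0) (𝓝 0) := by
    have : Continuous fun τ : ℝ => ω * (τ : ℂ) := by fun_prop
    have h := this.tendsto 0
    simp only [Complex.ofReal_zero, mul_zero] at h
    exact h.mono_left nhdsWithin_le_nhds
  have e3 : ∀ᶠ t in 𝓝 (0 : ℂ), ‖f t‖ < ρ :=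
    df.continuousAt.norm.eventually (gt_mem_nhds (by simp only [f0]; exact hv))
  obtain ⟨τ, a1, a2, a3, a4⟩ := (e1.and (e2.and ((hT.eventually hγ).and (hT.eventually e3)))).exists
  rw [g1, norm_one] at a2
  have hne' : γ (ω * τ) 1 ≠ 0 := by
    intro h
    rw [h, norm_zero] at a2
    linarith
  refine ⟨γ (ω * τ) 0 / γ (ω * τ) 1, f (ω * τ), ?_, f0 ▸ a1, a4, ?_⟩
  · rw [norm_div, a3.2.2]
    have : q 0 = w := by simp [hqdef]
    rw [this]
    exact div_le_self (norm_nonneg _) a2.le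
  · have := hsmul _ a3.2.1 (γ (ω * τ) 1)⁻¹ (inv_ne_zero hne')
    convert this using 1
    ext i
    fin_cases i
    · simp [div_eq_inv_mul]
    · simp [hne']
    · simp [f, div_eq_inv_mul]

/-- Near a singular point at infinity the closed invariant cone is tangent to high order to the
jet of the separatrix. -/
theorem cone {d : ℕ} {F1 F2 : MP} (H : Hyp d F1 F2) {Cb : Set E} (hcl : IsClosed Cb)
    (hsmul : ∀ z ∈ Cb, ∀ c : ℂ, c ≠ 0 → c • z ∈ Cb)
    (hstay : ∀ q ∈ Cb, ∀ i j : Fin 3, q i * W F1 F2 q j - q j * W F1 F2 q i ≠ 0 →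
      Stay F1 F2 Cb q)
    (hno : ∀ a : ℂ, (![0, 1, a] : E) ∈ Cb → (res (RR F1 F2)).eval a = 0) {u : ℂ}
    (hu : (res (RR F1 F2)).eval u = 0) {k : ℕ} {s : Polynomial ℂ} (hs0 : s.eval 0 = u)
    (hs : Polynomial.X ^ (k + 1) ∣ cur s (RR F1 F2) + s.derivative * Polynomial.X * cur s F1) :
    ∃ K δ : ℝ, 0 < δ ∧ ∀ w v : ℂ, ‖w‖ ≤ δ → ‖v‖ ≤ δ → (![w, 1, s.eval w + v] : E) ∈ Cb →
      ‖v‖ ≤ K * ‖w‖ ^ (k + 1) := by
  obtain ⟨e, he⟩ := hs
  have hinf := H.inf u hu
  set β := (res (RR F1 F2)).derivative.eval u with hβ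
  set f := (res F1).eval u with hf
  have hβ0 : β ≠ 0 := by
    intro h; apply hinf; simp [h]
  let κ : ℝ := ((f / β).re - 1) / (f / β).im
  let ω : ℂ := (1 + κ * Complex.I) / β
  have hω1 : (ω * β).re = 1 := by
    have : ω * β = 1 + κ * Complex.I := div_mul_cancel₀ _ hβ0
    rw [this]; simp
  have hω2 : (ω * f).re = 1 := by
    have : ω * f = (1 + κ * Complex.I) * (f / β) := by simp only [ω]; ring
    rw [this, Complex.mul_re]
    simp only [Complex.add_re, Complex.one_re, Complex.mul_re, Complex.ofReal_re, Complex.I_re,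
      mul_zero, Complex.ofReal_im, Complex.I_im, mul_one, sub_self, add_zero, one_mul,
      Complex.add_im, Complex.one_im, Complex.mul_im, zero_add, κ]
    field_simp
    ring
  obtain ⟨Q1, c1, e1, d1⟩ := divdiff (RR F1 F2)
  obtain ⟨Q2, c2, e2, -⟩ := divdiff F1
  let Q : ℂ × ℂ → ℂ := fun p => Q1 (p.1, s.eval p.1, p.2) +
    s.derivative.eval p.1 * p.1 * Q2 (p.1, s.eval p.1, p.2)
  have cQ : Continuous Q := by fun_prop
  have Q0 : Q 0 = β := by simp [Q, d1, hs0, hβ, eval_derivative_res]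
  have hN : ∀ w v : ℂ, eval ![w, 1, s.eval w + v] (RR F1 F2) +
      s.derivative.eval w * w * eval ![w, 1, s.eval w + v] F1 =
      w ^ (k + 1) * e.eval w + v * Q (w, v) := by
    intro w v
    have := congrArg (Polynomial.eval w) he
    simp only [Polynomial.eval_add, Polynomial.eval_mul, eval_cur, Polynomial.eval_X,
      Polynomial.eval_pow] at this
    rw [e1, e2, ← this]
    simp only [Q]
    ring
  have cF : Continuous fun p : ℂ × ℂ => eval ![p.1, 1, s.eval p.1 + p.2] F1 :=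
    (contDiff_eval F1 (n := 0)).continuous.comp (continuous_chart s)
  set B : ℝ := ‖ω * e.eval 0‖ + 1 with hB
  have v1 : ∀ᶠ p in 𝓝 (0 : ℂ × ℂ), 1 / 2 < (ω * Q p).re := by
    have : Continuous fun p => (ω * Q p).re := by fun_prop
    exact this.continuousAt.eventually (lt_mem_nhds (by simp only [Q0, hω1]; norm_num))
  have v2 : ∀ᶠ p in 𝓝 (0 : ℂ × ℂ), 0 < (ω * eval ![p.1, 1, s.eval p.1 + p.2] F1).re := by
    have : Continuous fun p : ℂ × ℂ => (ω * eval ![p.1, 1, s.eval p.1 + p.2] F1).re := by fun_prop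
    refine this.continuousAt.eventually (lt_mem_nhds ?_)
    simp only [Prod.fst_zero, Prod.snd_zero, add_zero, hs0, ← eval_res, ← hf, hω2]
    norm_num
  have v3 : ∀ᶠ p in 𝓝 (0 : ℂ × ℂ), ‖ω * e.eval p.1‖ < B := by
    have : Continuous fun p : ℂ × ℂ => ‖ω * e.eval p.1‖ := by fun_prop
    exact this.continuousAt.eventually (gt_mem_nhds (by simp [hB]))
  obtain ⟨ρ, hρ, hb⟩ := Metric.nhds_basis_closedBall.eventually_iff.1 (v1.and (v2.and v3))
  have hb' : ∀ w v : ℂ, ‖w‖ ≤ ρ → ‖v‖ ≤ ρ → 1 / 2 < (ω * Q (w, v)).re ∧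
      0 < (ω * eval ![w, 1, s.eval w + v] F1).re ∧ ‖ω * e.eval w‖ < B := fun w v hw hv =>
    hb (x := (w, v)) (by simp [Prod.norm_def, hw, hv])
  have hZ : IsClosed {p : ℂ × ℂ | (![p.1, 1, s.eval p.1 + p.2] : E) ∈ Cb} :=
    hcl.preimage (continuous_chart s)
  have hT : IsCompact (closedBall (0 : ℂ) ρ ×ˢ sphere (0 : ℂ) ρ ∩
      {p : ℂ × ℂ | (![p.1, 1, s.eval p.1 + p.2] : E) ∈ Cb}) :=
    ((isCompact_closedBall _ _).prod (isCompact_sphere _ _)).inter_right hZ
  obtain ⟨μ, hμ, hμ'⟩ := hT.exists_forall_le' (f := fun p => ‖p.1‖) (a := 0)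
    continuous_fst.norm.continuousOn (by
      rintro ⟨w, v⟩ ⟨⟨-, hv⟩, hp⟩
      have hv' : ‖v‖ = ρ := by simpa using hv
      refine norm_pos_iff.2 fun hw => ?_
      simp only at hw
      subst hw
      have h1 := hno _ hp
      have h2 := hN 0 v
      rw [eval_res] at h1
      simp only at h1
      rw [h1] at h2
      simp only [mul_zero, zero_mul, add_zero, ne_eq, Nat.add_eq_zero_iff, one_ne_zero, and_false,
        not_false_eq_true, zero_pow, zero_add, zero_eq_mul] at h2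
      have h3 := (hb' 0 v (by simpa using hρ.le) hv'.le).1
      rcases h2 with h2 | h2
      · rw [h2, norm_zero] at hv'; linarith
      · rw [h2] at h3; norm_num at h3)
  refine ⟨2 * B, min ρ (μ / 2), by positivity, fun w₀ v₀ hw₀ hv₀ hq₀ => ?_⟩
  by_contra hcon
  push Not at hcon
  have hw1 : ‖w₀‖ ≤ ρ := hw₀.trans (min_le_left _ _)
  have hw2 : ‖w₀‖ ≤ μ / 2 := hw₀.trans (min_le_right _ _)
  have hZc : IsCompact (closedBall (0 : ℂ) ‖w₀‖ ×ˢ closedBall (0 : ℂ) ρ ∩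
      {p : ℂ × ℂ | (![p.1, 1, s.eval p.1 + p.2] : E) ∈ Cb}) :=
    ((isCompact_closedBall _ _).prod (isCompact_closedBall _ _)).inter_right hZ
  have hm₀ : (w₀, v₀) ∈ closedBall (0 : ℂ) ‖w₀‖ ×ˢ closedBall (0 : ℂ) ρ ∩
      {p : ℂ × ℂ | (![p.1, 1, s.eval p.1 + p.2] : E) ∈ Cb} :=
    ⟨⟨by simp, by simpa using hv₀.trans (min_le_left _ _)⟩, hq₀⟩
  obtain ⟨⟨w, v⟩, ⟨⟨hw, hv⟩, hq⟩, hmax⟩ := hZc.exists_isMaxOn ⟨_, hm₀⟩
    (f := fun p => ‖p.2‖) continuous_snd.norm.continuousOn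
  have hw' : ‖w‖ ≤ ‖w₀‖ := by simpa using hw
  have hv' : ‖v‖ ≤ ρ := by simpa using hv
  have hv0 : ‖v₀‖ ≤ ‖v‖ := hmax hm₀
  have hvρ : ‖v‖ < ρ := by
    refine lt_of_le_of_ne hv' fun h => ?_
    have := hμ' (w, v) ⟨⟨by simpa using hw'.trans hw1, by simpa using h⟩, hq⟩
    simp only at this
    linarith
  obtain ⟨b1, b2, b3⟩ := hb' w v (hw'.trans hw1) hv'
  have hB0 : 0 < B := by positivity
  have hlt : 2 * B * ‖w‖ ^ (k + 1) < ‖v‖ := by
    refine lt_of_le_of_lt ?_ (hcon.trans_le hv0)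
    gcongr
  have hvpos : 0 < ‖v‖ := lt_of_le_of_lt (by positivity) hlt
  obtain ⟨w', v', a1, a2, a3, a4⟩ := cone_step hsmul hstay s (ω := ω) hq hvρ b2 (by
    rw [hN]
    have h1 : starRingEnd ℂ v * (ω * (w ^ (k + 1) * e.eval w + v * Q (w, v))) =
        starRingEnd ℂ v * w ^ (k + 1) * (ω * e.eval w) + ((‖v‖ ^ 2 : ℝ) : ℂ) * (ω * Q (w, v)) := by
      rw [← Complex.normSq_eq_norm_sq, Complex.normSq_eq_conj_mul_self]
      ring
    rw [h1, Complex.add_re, Complex.re_ofReal_mul]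
    have h2 : |(starRingEnd ℂ v * w ^ (k + 1) * (ω * e.eval w)).re| ≤
        ‖v‖ * (‖w‖ ^ (k + 1) * B) := by
      refine (Complex.abs_re_le_norm _).trans ?_
      rw [norm_mul, norm_mul, Complex.norm_conj, norm_pow, mul_assoc]
      gcongr
    have h3 := (abs_le.1 h2).1
    nlinarith [mul_lt_mul_of_pos_left hlt hvpos, mul_lt_mul_of_pos_left b1 (pow_pos hvpos 2)])
  have := hmax (a := (w', v')) ⟨⟨by simpa using a1.trans hw', by simpa using a3.le⟩, a4⟩
  simp only [mem_ofPred_eq] at this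
  linarith

/-- The dimension count. -/
theorem exists_poly (T : Finset ℂ) (σ : ℕ → ℂ → Polynomial ℂ) (S : Finset E) :
    ∃ (n : ℕ) (P : MP), 0 < n ∧ P.IsHomogeneous n ∧ P ≠ 0 ∧ (∀ s ∈ S, eval s P = 0) ∧
      ∀ u ∈ T, Polynomial.X ^ (n + 1) ∣ cur (σ n u) P := by
  classical
  set m := 2 * T.card + S.card + 1 with hm
  let ex : Fin (m + 1) × Fin (m + 1) → (Fin 3 →₀ ℕ) := fun p =>
    Finsupp.equivFunOnFinite.symm ![2 * m - p.1 - p.2, p.1, p.2]
  have hex : Function.Injective ex := by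
    rintro ⟨a, b⟩ ⟨a', b'⟩ h
    have h1 := congrArg (fun x => x 1) h
    have h2 := congrArg (fun x => x 2) h
    simp only [ex, Finsupp.equivFunOnFinite_symm_apply_apply] at h1 h2
    simp at h1 h2
    exact Prod.ext (Fin.ext h1) (Fin.ext h2)
  have hli : LinearIndependent ℂ fun p => (monomial (ex p) (1 : ℂ) : MP) := by
    have := (basisMonomials (Fin 3) ℂ).linearIndependent.comp ex hex
    simpa [Function.comp_def] using this
  let Φ : (Fin (m + 1) × Fin (m + 1) → ℂ) →ₗ[ℂ] MP :=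
    Fintype.linearCombination ℂ fun p => (monomial (ex p) (1 : ℂ) : MP)
  have hΦ : Function.Injective Φ := hli.fintypeLinearCombination_injective
  let Ψ1 : MP →ₗ[ℂ] (T × Fin (2 * m + 1) → ℂ) := LinearMap.pi fun p =>
    (Polynomial.lcoeff ℂ p.2).comp (aeval ![Polynomial.X, 1, σ (2 * m) p.1]).toLinearMap
  let Ψ2 : MP →ₗ[ℂ] (S → ℂ) := LinearMap.pi fun p => (aeval (p : E)).toLinearMap
  have hk : LinearMap.ker ((Ψ1.prod Ψ2).comp Φ) ≠ ⊥ := by
    apply LinearMap.ker_ne_bot_of_finrank_lt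
    simp only [Module.finrank_prod, Module.finrank_fintype_fun_eq_card, Fintype.card_prod,
      Fintype.card_coe, Fintype.card_fin]
    rw [hm]
    nlinarith [Nat.zero_le (T.card * S.card), Nat.zero_le (S.card * S.card)]
  obtain ⟨c, hc, hc0⟩ := (Submodule.ne_bot_iff _).1 hk
  rw [LinearMap.mem_ker, LinearMap.comp_apply, LinearMap.prod_apply, Prod.ext_iff] at hc
  refine ⟨2 * m, Φ c, by omega, ?_, fun h => hc0 (hΦ (by rw [h, map_zero])), fun s hs => ?_,
    fun u hu => ?_⟩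
  · simp only [Φ, Fintype.linearCombination_apply]
    refine IsHomogeneous.sum _ _ _ fun p _ => ?_
    rw [smul_monomial]
    apply isHomogeneous_monomial
    have h1 := p.1.2
    have h2 := p.2.2
    rw [Finsupp.degree_eq_sum, Fin.sum_univ_three]
    simp [ex]
    omega
  · have := congrFun hc.2 ⟨s, hs⟩
    simpa [Ψ2, aeval_eq_eval] using this
  · rw [Polynomial.X_pow_dvd_iff]
    intro i hi
    have := congrFun hc.1 (⟨u, hu⟩, ⟨i, hi⟩)
    simpa [Ψ1, cur] using this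

end Pool.Agent.P.MP_a31c1c_an
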