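import Pool.Agent.P.MP_a31c1c_an.Alg

/-!
The approximate affine coordinate `s = w^(-p) exp(-p β)` near the line at infinity.
-/

set_option autoImplicit false

namespace Pool.Agent.P.MP_a31c1c_an

open MvPolynomial Metric Set Filter Topology MeasureTheory

/-- Evaluation in the chart `(w, 1, u)`. -/
noncomputable def ev (H : MP) (u w : ℂ) : ℂ := eval ![w, 1, u] H

theorem hasDerivAt_ev (H : MP) {u w : ℂ → ℂ} {u' w' t : ℂ} (hu : HasDerivAt u u' t)
    (hw : HasDerivAt w w' t) : HasDerivAt (fun s => ev H (u s) (w s))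
      (ev (pderiv 0 H) (u t) (w t) * w' + ev (pderiv 2 H) (u t) (w t) * u') t := by
  have h : HasDerivAt (fun s => (![w s, 1, u s] : E)) ![w', 0, u'] t := by
    refine hasDerivAt_pi.2 fun i => ?_
    fin_cases i
    · exact hw
    · exact hasDerivAt_const t (1 : ℂ)
    · exact hu
  simpa [ev, Fin.sum_univ_three] using hasDerivAt_eval H h

theorem contDiff_ev (H : MP) {n : WithTop ℕ∞} : ContDiff ℂ n fun z : ℂ × ℂ => ev H z.1 z.2 := by
  refine (contDiff_eval H).comp (contDiff_pi.2 fun i => ?_)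
  fin_cases i
  · exact contDiff_snd
  · exact contDiff_const
  · exact contDiff_fst

theorem ev_zero (H : MP) (u : ℂ) : ev H u 0 = (res H).eval u := (eval_res H u).symm

theorem ev_def (H : MP) (u w : ℂ) : ev H u w = eval ![w, 1, u] H := rfl

attribute [irreducible] ev

@[fun_prop]
theorem continuous_ev (H : MP) : Continuous fun z : ℂ × ℂ => ev H z.1 z.2 :=
  (contDiff_ev H (n := 0)).continuous

/-- The algebraic data of the first obstruction. -/
structure Dat where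
  d : ℕ
  p : ℕ
  F1 : MP
  F2 : MP
  Φ : MP
  B : MP
  G : MP
  hp : 1 ≤ p
  h1 : F1.IsHomogeneous d
  h2 : F2.IsHomogeneous d
  hΦ : Φ.IsHomogeneous (d + 1)
  hB : RR F1 F2 - Φ = X 0 * B
  hG : F1 * pderiv 1 Φ + F2 * pderiv 2 Φ - (pderiv 1 F1 + pderiv 2 F2) * Φ = X 0 ^ p * G

namespace Dat

variable (D : Dat)

/-- The polynomial `R` on the line at infinity. -/
noncomputable def R : Polynomial ℂ := res (RR D.F1 D.F2)
/-- The polynomial `A` on the line at infinity. -/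
noncomputable def A : Polynomial ℂ := -res D.F1
/-- The polynomial `g` on the line at infinity. -/
noncomputable def g : Polynomial ℂ := res D.G
/-- Right-hand side of the equation `dw/du`. -/
noncomputable def fld (u w : ℂ) : ℂ := -(w * ev D.F1 u w) / ev (RR D.F1 D.F2) u w
/-- The regular part of the transverse form. -/
noncomputable def bb (u w : ℂ) : ℂ := ev D.B u w / ev D.Φ u w
/-- Its primitive in `w`. -/
noncomputable def β (u w : ℂ) : ℂ := ∫ τ in (0 : ℝ)..1, w * D.bb u (τ * w)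
/-- The defect. -/
noncomputable def jj (u w : ℂ) : ℂ := ev D.G u w / ev D.Φ u w ^ 2
/-- The averaged defect. -/
noncomputable def J (u w : ℂ) : ℂ := ∫ τ in (0 : ℝ)..1, (τ : ℂ) ^ (D.p - 1) * D.jj u (τ * w)
/-- The approximate affine coordinate. -/
noncomputable def sf (u w : ℂ) : ℂ := (w ^ D.p)⁻¹ * Complex.exp (-(D.p * D.β u w))

/-- No zero of `Φ` or `B` on a closed bidisc. -/
def Good (b : ℂ) (ρ a : ℝ) : Prop :=
  ∀ u ∈ closedBall b ρ, ∀ w ∈ closedBall (0 : ℂ) a, ev D.Φ u w ≠ 0 ∧ ev (RR D.F1 D.F2) u w ≠ 0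

theorem ev_B (u w : ℂ) : ev (RR D.F1 D.F2) u w - ev D.Φ u w = w * ev D.B u w := by
  simpa [ev_def] using congrArg (eval ![w, 1, u]) D.hB

theorem ev_RR (u w : ℂ) : ev (RR D.F1 D.F2) u w = ev D.F2 u w - u * ev D.F1 u w := by
  simp [ev_def, RR]

theorem ev_Φ_zero (u : ℂ) : ev D.Φ u 0 = D.R.eval u := by
  have := D.ev_B u 0
  rw [zero_mul, sub_eq_zero] at this
  rw [← this, ev_zero, R]

theorem defect (u w : ℂ) :
    ev (pderiv 2 D.B) u w * ev D.Φ u w - ev D.B u w * ev (pderiv 2 D.Φ) u w -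
      (ev (pderiv 0 D.F1) u w * ev D.Φ u w - ev D.F1 u w * ev (pderiv 0 D.Φ) u w) =
      -(w ^ (D.p - 1) * ev D.G u w) := by
  have key : ∀ w : ℂ, w ≠ 0 →
      ev (pderiv 2 D.B) u w * ev D.Φ u w - ev D.B u w * ev (pderiv 2 D.Φ) u w -
      (ev (pderiv 0 D.F1) u w * ev D.Φ u w - ev D.F1 u w * ev (pderiv 0 D.Φ) u w) =
      -(w ^ (D.p - 1) * ev D.G u w) := by
    intro w hw
    have e1 := congrArg (eval ![w, 1, u]) D.h1.sum_X_mul_pderiv
    have e2 := congrArg (eval ![w, 1, u]) D.hΦ.sum_X_mul_pderiv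
    have e3 := congrArg (eval ![w, 1, u]) D.hB
    have e4 := congrArg (eval ![w, 1, u]) (congrArg (pderiv 2) D.hB)
    have e5 := congrArg (eval ![w, 1, u]) D.hG
    simp [Fin.sum_univ_three, RR, pderiv_X] at e1 e2 e3 e4 e5
    have e6 : w ^ D.p = w * w ^ (D.p - 1) := by
      rw [← pow_succ', Nat.sub_add_cancel D.hp]
    refine mul_left_cancel₀ hw ?_
    simp only [ev_def]
    rw [e6] at e5
    linear_combination (-(eval ![w, 1, u]) D.Φ) * e4 + (eval ![w, 1, u]) ((pderiv 2) D.Φ) * e3 -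
      e5 - (eval ![w, 1, u]) D.Φ * e1 + (eval ![w, 1, u]) D.F1 * e2
  refine congrFun (Continuous.ext_on (s := {0}ᶜ) (dense_compl_singleton 0) ?_ ?_
    fun w hw => key w hw) w
  · fun_prop
  · fun_prop

variable {D}

theorem smul_mem {a : ℝ} {w : ℂ} (hw : w ∈ closedBall (0 : ℂ) a) {τ : ℝ} (hτ : τ ∈ Icc (0 : ℝ) 1) :
    (τ : ℂ) * w ∈ closedBall (0 : ℂ) a := by
  rw [mem_closedBall_zero_iff] at hw ⊢
  rw [norm_mul, Complex.norm_real, Real.norm_of_nonneg hτ.1]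
  nlinarith [norm_nonneg w, hτ.1, hτ.2]

theorem hasDerivAt_β {b : ℂ} {ρ a : ℝ} (hg : D.Good b ρ a) {σ : ℂ → ℂ}
    (hσ : ∀ v ∈ ball b ρ, HasDerivAt σ (D.fld v (σ v)) v ∧ ‖σ v‖ ≤ a) {v : ℂ} (hv : v ∈ ball b ρ) :
    HasDerivAt (fun v => D.β v (σ v))
      (D.fld v (σ v) * D.bb v (σ v) + ev D.F1 v (σ v) / ev D.Φ v (σ v) +
        D.A.eval v / D.R.eval v - σ v ^ D.p * D.J v (σ v)) v := by
  let bu : ℂ → ℂ → ℂ := fun u w =>
    (ev (pderiv 2 D.B) u w * ev D.Φ u w - ev D.B u w * ev (pderiv 2 D.Φ) u w) / ev D.Φ u w ^ 2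
  let bw : ℂ → ℂ → ℂ := fun u w =>
    (ev (pderiv 0 D.B) u w * ev D.Φ u w - ev D.B u w * ev (pderiv 0 D.Φ) u w) / ev D.Φ u w ^ 2
  let G3 : ℂ × ℂ × ℝ → ℂ := fun z => D.fld z.1 z.2.1 * D.bb z.1 (z.2.2 * z.2.1) +
    z.2.1 * (bu z.1 (z.2.2 * z.2.1) + z.2.2 * D.fld z.1 z.2.1 * bw z.1 (z.2.2 * z.2.1))
  let K : Set (ℂ × ℂ × ℝ) := closedBall b ρ ×ˢ closedBall (0 : ℂ) a ×ˢ Icc (0 : ℝ) 1
  have hK : IsCompact K :=
    (isCompact_closedBall _ _).prod ((isCompact_closedBall _ _).prod isCompact_Icc)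
  have hΦ : ∀ z ∈ K, ev D.Φ z.1 (z.2.2 * z.2.1) ≠ 0 := fun z hz =>
    (hg _ hz.1 _ (smul_mem hz.2.1 hz.2.2)).1
  have hΦ2 : ∀ z ∈ K, ev D.Φ z.1 (z.2.2 * z.2.1) ^ 2 ≠ 0 := fun z hz => pow_ne_zero 2 (hΦ z hz)
  have hR : ∀ z ∈ K, ev (RR D.F1 D.F2) z.1 z.2.1 ≠ 0 := fun z hz => (hg _ hz.1 _ hz.2.1).2
  have c1 : ContinuousOn (fun z : ℂ × ℂ × ℝ => D.fld z.1 z.2.1) K :=
    ContinuousOn.div (Continuous.continuousOn (by fun_prop)) (Continuous.continuousOn (by fun_prop)) hR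
  have c2 : ContinuousOn (fun z : ℂ × ℂ × ℝ => D.bb z.1 (z.2.2 * z.2.1)) K :=
    ContinuousOn.div (Continuous.continuousOn (by fun_prop)) (Continuous.continuousOn (by fun_prop)) hΦ
  have c3 : ContinuousOn (fun z : ℂ × ℂ × ℝ => bu z.1 (z.2.2 * z.2.1)) K :=
    ContinuousOn.div (Continuous.continuousOn (by fun_prop)) (Continuous.continuousOn (by fun_prop)) hΦ2
  have c4 : ContinuousOn (fun z : ℂ × ℂ × ℝ => bw z.1 (z.2.2 * z.2.1)) K :=
    ContinuousOn.div (Continuous.continuousOn (by fun_prop)) (Continuous.continuousOn (by fun_prop)) hΦ2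
  have c5 : ContinuousOn (fun z : ℂ × ℂ × ℝ => D.jj z.1 (z.2.2 * z.2.1)) K :=
    ContinuousOn.div (Continuous.continuousOn (by fun_prop)) (Continuous.continuousOn (by fun_prop)) hΦ2
  have cG : ContinuousOn G3 K := (c1.mul c2).add ((Continuous.continuousOn (by fun_prop)).mul
    (c3.add (((Continuous.continuousOn (by fun_prop)).mul c1).mul c4)))
  obtain ⟨M, hM⟩ := hK.exists_bound_of_continuousOn cG
  have hmem : ∀ x ∈ ball b ρ, ∀ τ ∈ Icc (0 : ℝ) 1, (x, σ x, τ) ∈ K := fun x hx τ hτ =>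
    ⟨ball_subset_closedBall hx, mem_closedBall_zero_iff.2 (hσ x hx).2, hτ⟩
  have sl : ∀ {f : ℂ × ℂ × ℝ → ℂ}, ContinuousOn f K → ∀ x ∈ ball b ρ,
      ContinuousOn (fun τ : ℝ => f (x, σ x, τ)) (uIcc 0 1) := fun hf x hx =>
    hf.comp (Continuous.continuousOn (by fun_prop)) fun τ hτ =>
      hmem x hx τ (by rwa [uIcc_of_le zero_le_one] at hτ)
  have hI : ∀ τ ∈ uIoc (0 : ℝ) 1, τ ∈ Icc (0 : ℝ) 1 := fun τ hτ => by
    rw [uIoc_of_le zero_le_one] at hτ; exact Ioc_subset_Icc_self hτ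
  have hF : ∀ x ∈ ball b ρ, ContinuousOn (fun τ : ℝ => σ x * D.bb x (τ * σ x)) (uIcc 0 1) :=
    fun x hx => continuousOn_const.mul (sl c2 x hx)
  have hd := (intervalIntegral.hasDerivAt_integral_of_dominated_loc_of_deriv_le
    (μ := volume) (a := 0) (b := 1) (F := fun x (τ : ℝ) => σ x * D.bb x (τ * σ x))
    (F' := fun x τ => G3 (x, σ x, τ)) (bound := fun _ => M) (isOpen_ball.mem_nhds hv)
    (by
      filter_upwards [isOpen_ball.mem_nhds hv] with x hx
      exact ((hF x hx).mono uIoc_subset_uIcc).aestronglyMeasurable measurableSet_uIoc)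
    (hF v hv).intervalIntegrable
    (((sl cG v hv).mono uIoc_subset_uIcc).aestronglyMeasurable measurableSet_uIoc)
    (Eventually.of_forall fun τ hτ x hx => hM _ (hmem x hx τ (hI τ hτ)))
    intervalIntegrable_const
    (Eventually.of_forall fun τ hτ x hx => by
      have h1 := (hσ x hx).1
      have h2 := h1.const_mul (τ : ℂ)
      have h3 := (hasDerivAt_ev D.B (hasDerivAt_id x) h2).div
        (hasDerivAt_ev D.Φ (hasDerivAt_id x) h2) (hΦ _ (hmem x hx τ (hI τ hτ)))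
      refine (h1.mul h3).congr_deriv ?_
      have := hΦ _ (hmem x hx τ (hI τ hτ))
      simp only [G3, bu, bw, bb, id, Pi.div_apply] at this ⊢
      field_simp
      ring)).2
  refine hd.congr_deriv ?_
  set w := σ v
  set f := D.fld v w
  have hΨ : ∀ τ ∈ uIcc (0 : ℝ) 1, HasDerivAt
      (fun τ : ℝ => f * (τ * D.bb v (τ * w)) + ev D.F1 v (τ * w) / ev D.Φ v (τ * w))
      (G3 (v, w, τ) + w ^ D.p * ((τ : ℂ) ^ (D.p - 1) * D.jj v (τ * w))) τ := by
    intro τ hτ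
    rw [uIcc_of_le zero_le_one] at hτ
    have h0 : ev D.Φ v (τ * w) ≠ 0 := hΦ _ (hmem v hv τ hτ)
    have h2 : HasDerivAt (fun t : ℂ => t * w) w (τ : ℂ) := by
      simpa using (hasDerivAt_id (τ : ℂ)).mul_const w
    have h3 := hasDerivAt_ev D.Φ (hasDerivAt_const (τ : ℂ) v) h2
    have h4 := (((hasDerivAt_id (τ : ℂ)).mul ((hasDerivAt_ev D.B (hasDerivAt_const (τ : ℂ) v) h2).div
      h3 h0)).const_mul f).add ((hasDerivAt_ev D.F1 (hasDerivAt_const (τ : ℂ) v) h2).div h3 h0)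
    refine (HasDerivAt.comp_ofReal h4).congr_deriv ?_
    have h5 := D.defect v (τ * w)
    have e6 : w ^ D.p = w * w ^ (D.p - 1) := by
      rw [← pow_succ', Nat.sub_add_cancel D.hp]
    simp only [G3, bu, bw, bb, jj, id, Pi.div_apply]
    rw [e6]
    rw [mul_pow] at h5
    generalize (τ : ℂ) * w = y at h0 h5 ⊢
    field_simp
    linear_combination (-w) * h5
  have hi1 : IntervalIntegrable (fun τ : ℝ => G3 (v, w, τ)) volume 0 1 :=
    (sl cG v hv).intervalIntegrable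
  have hi2 : IntervalIntegrable
      (fun τ : ℝ => w ^ D.p * ((τ : ℂ) ^ (D.p - 1) * D.jj v (τ * w))) volume 0 1 :=
    (continuousOn_const.mul ((Continuous.continuousOn (by fun_prop)).mul
      (sl c5 v hv))).intervalIntegrable
  have h6 := intervalIntegral.integral_eq_sub_of_hasDerivAt hΨ (hi1.add hi2)
  rw [intervalIntegral.integral_add hi1 hi2, intervalIntegral.integral_const_mul] at h6
  simp only [Complex.ofReal_one, one_mul, Complex.ofReal_zero, zero_mul, mul_zero, zero_add,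
    ev_Φ_zero] at h6
  rw [ev_zero] at h6
  simp only [A, J, Polynomial.eval_neg]
  linear_combination h6

theorem hasDerivAt_sf {b : ℂ} {ρ a : ℝ} (hg : D.Good b ρ a) {σ : ℂ → ℂ}
    (hσ : ∀ v ∈ ball b ρ, HasDerivAt σ (D.fld v (σ v)) v ∧ ‖σ v‖ ≤ a) {v : ℂ} (hv : v ∈ ball b ρ)
    (h0 : σ v ≠ 0) :
    HasDerivAt (fun v => D.sf v (σ v))
      (-(D.p * (D.A.eval v / D.R.eval v)) * D.sf v (σ v) +
        D.p * Complex.exp (-(D.p * D.β v (σ v))) * D.J v (σ v)) v := by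
  have h1 := (((hσ v hv).1.pow D.p).inv (pow_ne_zero _ h0)).mul
    ((hasDerivAt_β hg hσ hv).const_mul (D.p : ℂ)).neg.cexp
  refine h1.congr_deriv ?_
  obtain ⟨hΦ, hR⟩ := hg v (ball_subset_closedBall hv) _ (mem_closedBall_zero_iff.2 (hσ v hv).2)
  have e1 := D.ev_B v (σ v)
  have e6 : σ v ^ D.p = σ v * σ v ^ (D.p - 1) := by
    rw [← pow_succ', Nat.sub_add_cancel D.hp]
  have e7 : σ v ^ (D.p - 1) ≠ 0 := pow_ne_zero _ h0
  have e8 : ev D.B v (σ v) = (ev (RR D.F1 D.F2) v (σ v) - ev D.Φ v (σ v)) / σ v := by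
    rw [e1]; field_simp
  simp only [sf, fld, bb, Pi.pow_apply, Pi.inv_apply, Pi.neg_apply, e6, e8]
  generalize D.A.eval v / D.R.eval v = a0
  field_simp
  ring

theorem exists_bound_β {b : ℂ} {ρ a : ℝ} (hg : D.Good b ρ a) :
    ∃ M : ℝ, 0 ≤ M ∧ ∀ u ∈ closedBall b ρ, ∀ w ∈ closedBall (0 : ℂ) a, ‖D.β u w‖ ≤ M * ‖w‖ := by
  have c2 : ContinuousOn (fun z : ℂ × ℂ => D.bb z.1 z.2) (closedBall b ρ ×ˢ closedBall (0 : ℂ) a) :=
    ContinuousOn.div (Continuous.continuousOn (by fun_prop)) (Continuous.continuousOn (by fun_prop))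
      fun z hz => (hg _ hz.1 _ hz.2).1
  obtain ⟨M, hM⟩ :=
    ((isCompact_closedBall _ _).prod (isCompact_closedBall _ _)).exists_bound_of_continuousOn c2
  refine ⟨max M 0, le_max_right _ _, fun u hu w hw => ?_⟩
  have := intervalIntegral.norm_integral_le_of_norm_le_const (a := 0) (b := 1)
    (C := max M 0 * ‖w‖) (f := fun τ : ℝ => w * D.bb u (τ * w)) fun τ hτ => by
      rw [uIoc_of_le zero_le_one] at hτ
      rw [norm_mul, mul_comm]
      gcongr
      exact (hM (u, τ * w) ⟨hu, smul_mem hw (Ioc_subset_Icc_self hτ)⟩).trans (le_max_left _ _)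
  simpa [β] using this

theorem err_small {b : ℂ} {ρ a : ℝ} (ha : 0 < a) (hg : D.Good b ρ a) {η : ℝ} (hη : 0 < η) :
    ∃ δ : ℝ, 0 < δ ∧ ∀ u ∈ closedBall b ρ, ∀ w : ℂ, ‖w‖ ≤ δ →
      ‖D.p * Complex.exp (-(D.p * D.β u w)) * D.J u w - D.g.eval u / D.R.eval u ^ 2‖ ≤ η := by
  have hK := (isCompact_closedBall b ρ).prod (isCompact_closedBall (0 : ℂ) a)
  have c5 : ContinuousOn (fun z : ℂ × ℂ => D.jj z.1 z.2) (closedBall b ρ ×ˢ closedBall (0 : ℂ) a) :=
    ContinuousOn.div (Continuous.continuousOn (by fun_prop)) (Continuous.continuousOn (by fun_prop))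
      fun z hz => pow_ne_zero 2 (hg _ hz.1 _ hz.2).1
  obtain ⟨N, hN⟩ := hK.exists_bound_of_continuousOn c5
  obtain ⟨M, hM0, hM⟩ := exists_bound_β hg
  have hp : (0 : ℝ) < D.p := Nat.cast_pos.2 D.hp
  obtain ⟨δ₁, hδ₁, h1⟩ := Metric.uniformContinuousOn_iff.1 (hK.uniformContinuousOn_of_continuous c5)
    (η / (6 * D.p)) (by positivity)
  set c := D.p * (M + 1) * (4 * (|N| + 1)) with hc
  have hc0 : 0 < c := by positivity
  refine ⟨min (min a (δ₁ / 2)) (min (1 / (D.p * (M + 1))) (η / c)), by positivity,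
    fun u hu w hw => ?_⟩
  have w1 : ‖w‖ ≤ a := hw.trans ((min_le_left _ _).trans (min_le_left _ _))
  have w2 : ‖w‖ ≤ δ₁ / 2 := hw.trans ((min_le_left _ _).trans (min_le_right _ _))
  have w3 : ‖w‖ * (D.p * (M + 1)) ≤ 1 :=
    (le_div_iff₀ (by positivity)).1 (hw.trans ((min_le_right _ _).trans (min_le_left _ _)))
  have w4 : ‖w‖ * c ≤ η :=
    (le_div_iff₀ hc0).1 (hw.trans ((min_le_right _ _).trans (min_le_right _ _)))
  have hwa := mem_closedBall_zero_iff.2 w1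
  have h0a : (0 : ℂ) ∈ closedBall (0 : ℂ) a := mem_closedBall_self ha.le
  have hx : ‖-(D.p * D.β u w)‖ ≤ ‖w‖ * (D.p * (M + 1)) := by
    rw [norm_neg, norm_mul, Complex.norm_natCast]
    have := hM u hu w hwa
    nlinarith [norm_nonneg w]
  have he := Complex.norm_exp_sub_one_le (hx.trans w3)
  set e := Complex.exp (-(D.p * D.β u w))
  have he3 : ‖e‖ ≤ 3 := by
    have := norm_add_le (e - 1) 1
    rw [sub_add_cancel, norm_one] at this
    linarith [hx.trans w3]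
  have hj0 : D.g.eval u / D.R.eval u ^ 2 = D.jj u 0 := by
    rw [jj, ev_Φ_zero, ev_zero, g]
  have hjN : ‖D.jj u 0‖ ≤ |N| + 1 := by linarith [hN (u, 0) ⟨hu, h0a⟩, le_abs_self N]
  have hint : ∀ f : ℝ → ℂ, ContinuousOn f (uIcc 0 1) →
      IntervalIntegrable (fun τ : ℝ => (τ : ℂ) ^ (D.p - 1) * f τ) volume 0 1 := fun f hf =>
    ((Continuous.continuousOn (by fun_prop)).mul hf).intervalIntegrable
  have hJ : D.p * D.J u w - D.jj u 0 =
      D.p * ∫ τ in (0 : ℝ)..1, (τ : ℂ) ^ (D.p - 1) * (D.jj u (τ * w) - D.jj u 0) := by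
    have h2 : ∫ τ in (0 : ℝ)..1, (τ : ℂ) ^ (D.p - 1) = 1 / D.p := by
      have := congrArg (fun x : ℝ => (x : ℂ)) (integral_pow (a := 0) (b := 1) (D.p - 1))
      simp only [← intervalIntegral.integral_ofReal, Complex.ofReal_pow] at this
      rw [this, Nat.sub_add_cancel D.hp, Nat.cast_sub D.hp]
      simp [Nat.ne_zero_of_lt D.hp]
    have h3 : ContinuousOn (fun τ : ℝ => D.jj u (τ * w)) (uIcc 0 1) :=
      c5.comp (f := fun τ : ℝ => (u, (τ : ℂ) * w)) (Continuous.continuousOn (by fun_prop))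
        fun τ hτ => ⟨hu, smul_mem hwa (by rwa [uIcc_of_le zero_le_one] at hτ)⟩
    simp only [mul_sub]
    rw [intervalIntegral.integral_sub (hint _ h3) (hint _ continuousOn_const),
      intervalIntegral.integral_mul_const, h2, J]
    have : (D.p : ℂ) ≠ 0 := by exact_mod_cast hp.ne'
    rw [mul_sub, ← mul_assoc, mul_one_div_cancel this, one_mul]
  have hJ' : ‖D.p * D.J u w - D.jj u 0‖ ≤ η / 6 := by
    rw [hJ, norm_mul, Complex.norm_natCast]
    have := intervalIntegral.norm_integral_le_of_norm_le_const (a := 0) (b := 1)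
      (C := η / (6 * D.p))
      (f := fun τ : ℝ => (τ : ℂ) ^ (D.p - 1) * (D.jj u (τ * w) - D.jj u 0)) fun τ hτ => by
        rw [uIoc_of_le zero_le_one] at hτ
        have h4 := h1 (u, τ * w) ⟨hu, smul_mem hwa (Ioc_subset_Icc_self hτ)⟩ (u, 0) ⟨hu, h0a⟩ (by
          rw [Prod.dist_eq, dist_self, dist_zero_right, norm_mul, Complex.norm_real,
            Real.norm_of_nonneg hτ.1.le]
          exact max_lt hδ₁ (by nlinarith [norm_nonneg w, hτ.1, hτ.2]))
        rw [dist_eq_norm] at h4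
        rw [norm_mul, norm_pow, Complex.norm_real, Real.norm_of_nonneg hτ.1.le]
        have h5 : τ ^ (D.p - 1) ≤ 1 := pow_le_one₀ hτ.1.le hτ.2
        calc _ ≤ 1 * (η / (6 * D.p)) := by gcongr
          _ = _ := one_mul _
    rw [sub_zero, abs_one, mul_one] at this
    calc _ ≤ D.p * (η / (6 * D.p)) := by gcongr
      _ = _ := by field_simp
  rw [hj0, show D.p * e * D.J u w - D.jj u 0 =
    e * (D.p * D.J u w - D.jj u 0) + (e - 1) * D.jj u 0 by ring]
  refine (norm_add_le _ _).trans ?_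
  rw [norm_mul, norm_mul]
  have t1 : ‖e‖ * ‖D.p * D.J u w - D.jj u 0‖ ≤ 3 * (η / 6) := by gcongr
  have t2 : ‖e - 1‖ * ‖D.jj u 0‖ ≤ 2 * (‖w‖ * (D.p * (M + 1))) * (|N| + 1) := by
    gcongr; linarith
  nlinarith

end Dat

end Pool.Agent.P.MP_a31c1c_an
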