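import Pool.Agent.P.MP_a31c1c_an.AlgAux

set_option autoImplicit false

namespace Pool.Agent.P.MP_a31c1c_an

open MvPolynomial AlgAux

/-- First obstruction to a polynomial integrating factor. -/
theorem alg {d : ℕ} {F1 F2 : MP} (H : Hyp d F1 F2) :
    ∃ (p : ℕ) (Φ G : MP), 1 ≤ p ∧ res Φ = res (RR F1 F2) ∧ Φ.IsHomogeneous (d + 1) ∧
      F1 * pderiv 1 Φ + F2 * pderiv 2 Φ - (pderiv 1 F1 + pderiv 2 F2) * Φ = X 0 ^ p * G ∧
      ¬ ∃ c : Polynomial ℂ, res (RR F1 F2) * c.derivative +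
        (Polynomial.C (p : ℂ) * (-res F1) - (res (RR F1 F2)).derivative) * c = -res G := by
  have two := H.two_le
  let S : ℕ → Prop := fun p => ∃ Φ G : MP, res Φ = res (RR F1 F2) ∧ Φ.IsHomogeneous (d + 1) ∧
    Df F1 F2 Φ = X 0 ^ p * G
  have hGhom : ∀ {p : ℕ} {Φ G : MP}, Φ.IsHomogeneous (d + 1) → Df F1 F2 Φ = X 0 ^ p * G →
      G.IsHomogeneous (2 * d - p) ∧ (2 * d < p → G = 0) := by
    intro p Φ G h1 h2
    have := Df_hom (by omega) H.h1 H.h2 h1
    rw [h2, show d + (d + 1) - 1 = 2 * d by omega] at this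
    exact hom_of_X0_pow_mul p this
  have hS0 : S 0 := ⟨RR F1 F2, Df F1 F2 (RR F1 F2), rfl, RR_hom H, by simp⟩
  have hSbig : ¬ S (2 * d + 1) := by
    rintro ⟨Φ, G, h1, h2, h3⟩
    have hG := (hGhom h2 h3).2 (by omega)
    rw [hG, mul_zero] at h3
    rw [no_factor H h2 h3, res_zero] at h1
    exact R_ne H h1.symm
  obtain ⟨p, hp, hp'⟩ : ∃ p, S p ∧ ¬ S (p + 1) := by
    by_contra hc
    push Not at hc
    have : ∀ n, S n := fun n => Nat.rec hS0 hc n
    exact hSbig (this _)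
  have step : ∀ Φ G : MP, res Φ = res (RR F1 F2) → Φ.IsHomogeneous (d + 1) →
      Df F1 F2 Φ = X 0 ^ p * G → res G ≠ 0 := by
    intro Φ G h1 h2 h3 h4
    obtain ⟨G', e⟩ := X0_dvd (hGhom h2 h3).1 h4
    exact hp' ⟨Φ, G', h1, h2, by rw [h3, e]; ring⟩
  obtain ⟨Φ, G, h1, h2, h3⟩ := hp
  have hG := step Φ G h1 h2 h3
  have hp1 : 1 ≤ p := by
    rcases Nat.eq_zero_or_pos p with rfl | hpos
    · exfalso
      apply hG
      rw [pow_zero, one_mul] at h3
      rw [← h3, res_Df H.h1 h2, h1]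
      push_cast
      rw [show (d : ℂ) + 1 - d - 1 = 0 by ring, map_zero]
      ring
    · exact hpos
  refine ⟨p, Φ, G, hp1, h1, h2, h3, ?_⟩
  rintro ⟨c, hc⟩
  have hc0 : c ≠ 0 := by
    rintro rfl
    apply hG
    simpa using hc.symm
  have hm : c.natDegree + p ≤ d + 1 := by
    by_contra hlt
    obtain ⟨K, hK, hKc⟩ := exists_hom_res (c := c) le_rfl
    have e1 := res_Df (F2 := F2) H.h1 hK
    rw [hKc] at e1
    have e2 : Polynomial.C ((c.natDegree : ℂ) + p - d - 1) * (res F1 * c) =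
        res (Df F1 F2 K) + res G := by
      rw [e1]
      simp only [map_sub, map_add, map_one]
      linear_combination -hc
    have hne : (c.natDegree : ℂ) + p - d - 1 ≠ 0 := by
      intro h
      have : ((c.natDegree + p : ℕ) : ℂ) = ((d + 1 : ℕ) : ℂ) := by
        push_cast
        linear_combination h
      have := Nat.cast_injective this
      omega
    have d1 := natDegree_res_le (Df_hom (by omega) H.h1 H.h2 hK)
    have d2 := natDegree_res_le (hGhom h2 h3).1
    have d3 := Polynomial.natDegree_add_le_of_degree_le (n := d + c.natDegree - 1) d1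
      (d2.trans (by omega))
    rw [← e2, Polynomial.natDegree_C_mul hne, Polynomial.natDegree_mul (f1_ne H) hc0,
      Polynomial.natDegree_eq_of_degree_eq_some (degree_f1 H)] at d3
    omega
  obtain ⟨K, hK, hKc⟩ := exists_hom_res (c := c) (n := d + 1 - p) (by omega)
  refine step (Φ + X 0 ^ p * K) (G + Df F1 F2 K) ?_ ?_ ?_ ?_
  · rw [res_add, res_mul, res_pow, res_X0, zero_pow (by omega), zero_mul, add_zero, h1]
  · have := (isHomogeneous_X_pow (R := ℂ) (0 : Fin 3) p).mul hK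
    rw [show p + (d + 1 - p) = d + 1 by omega] at this
    exact h2.add this
  · rw [Df_add_mul, h3]
    ring
  · rw [res_add, res_Df H.h1 hK, hKc, Nat.cast_sub (by omega)]
    push_cast
    rw [show (d : ℂ) + 1 - p - d - 1 = -p by ring, map_neg]
    linear_combination hc

/-- Degrees on the line at infinity. -/
theorem Hyp.degree_res {d : ℕ} {F1 F2 : MP} (H : Hyp d F1 F2) :
    (res F1).degree = d ∧ (res (RR F1 F2)).degree = (d + 1 : ℕ) :=
  ⟨degree_f1 H, degree_R H⟩

end Pool.Agent.P.MP_a31c1c_an
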