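import Pool.Agent.P.MP_a31c1c_an.Defs

/-!
Elementary algebra for homogeneous polynomials in three variables and their restriction to the
line `z 0 = 0`.
-/

set_option autoImplicit false

namespace Pool.Agent.P.MP_a31c1c_an

open MvPolynomial

namespace AlgAux

theorem res_add (a b : MP) : res (a + b) = res a + res b := map_add _ _ _
theorem res_sub (a b : MP) : res (a - b) = res a - res b := map_sub _ _ _
theorem res_mul (a b : MP) : res (a * b) = res a * res b := map_mul _ _ _
theorem res_pow (a : MP) (n : ℕ) : res (a ^ n) = res a ^ n := map_pow _ _ _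
theorem res_zero : res 0 = 0 := map_zero _
theorem res_X0 : res (X 0) = 0 := by simp [res]
theorem res_X1 : res (X 1) = 1 := by simp [res]
theorem res_X2 : res (X 2) = Polynomial.X := by simp [res]
theorem res_C (c : ℂ) : res (C c) = Polynomial.C c := by simp [res]

theorem res_RR (F1 F2 : MP) : res (RR F1 F2) = res F2 - Polynomial.X * res F1 := by
  rw [RR, res_sub, res_mul, res_mul, res_X1, res_X2, one_mul]

theorem deg3 (m : Fin 3 →₀ ℕ) : m.degree = m 0 + m 1 + m 2 := by
  rw [Finsupp.degree_eq_sum, Fin.sum_univ_three]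

theorem deg_of_mem {H : MP} {n : ℕ} (h : H.IsHomogeneous n) {m : Fin 3 →₀ ℕ}
    (hm : coeff m H ≠ 0) : m 0 + m 1 + m 2 = n := by
  by_contra hne
  exact hm (h.coeff_eq_zero (by rwa [deg3]))

theorem coeff_res (H : MP) (k : ℕ) :
    (res H).coeff k = ∑ m ∈ H.support, if m 0 = 0 ∧ m 2 = k then coeff m H else 0 := by
  unfold res
  rw [aeval_def, eval₂_eq', Polynomial.finsetSum_coeff]
  refine Finset.sum_congr rfl fun m _ => ?_
  rw [Fin.prod_univ_three]
  by_cases h0 : m 0 = 0
  · by_cases h2 : m 2 = k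
    · simp [h0, h2]
    · simp [h0, h2, Polynomial.coeff_X_pow, Ne.symm h2]
  · simp [h0]

theorem natDegree_res_le {H : MP} {n : ℕ} (h : H.IsHomogeneous n) : (res H).natDegree ≤ n := by
  rw [Polynomial.natDegree_le_iff_coeff_eq_zero]
  intro k hk
  rw [coeff_res]
  refine Finset.sum_eq_zero fun m hm => ?_
  have := deg_of_mem h (mem_support_iff.1 hm)
  rw [if_neg]
  omega

theorem coeff_res_top {H : MP} {n : ℕ} (h : H.IsHomogeneous n) :
    (res H).coeff n = eval ![0, 0, 1] H := by
  rw [coeff_res, eval_eq']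
  refine Finset.sum_congr rfl fun m hm => ?_
  have := deg_of_mem h (mem_support_iff.1 hm)
  rw [Fin.prod_univ_three]
  by_cases h0 : m 0 = 0
  · by_cases h1 : m 1 = 0
    · have h2 : m 2 = n := by omega
      simp [h0, h1, h2]
    · have h2 : m 2 ≠ n := by omega
      simp [h0, h1, h2]
  · simp [h0]

theorem coeff_eq_coeff_res {H : MP} {n : ℕ} (h : H.IsHomogeneous n) {m : Fin 3 →₀ ℕ}
    (h0 : m 0 = 0) (hm : coeff m H ≠ 0) : (res H).coeff (m 2) = coeff m H := by
  rw [coeff_res, Finset.sum_eq_single m]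
  · simp [h0]
  · intro m' hm' hne
    rw [if_neg]
    rintro ⟨h0', h2'⟩
    have e1 := deg_of_mem h (mem_support_iff.1 hm')
    have e2 := deg_of_mem h hm
    apply hne
    ext i
    fin_cases i
    · simp [h0, h0']
    · simp; omega
    · simp [h2']
  · intro hn
    exact absurd (mem_support_iff.2 hm) hn

/-- A homogeneous polynomial vanishing on the line at infinity is divisible by `X 0`. -/
theorem X0_dvd {P : MP} {e : ℕ} (h : P.IsHomogeneous e) (hr : res P = 0) :
    ∃ P' : MP, P = X 0 * P' := by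
  have : (X 0 : MP) ∣ P := by
    rw [X_dvd_iff_modMonomial_eq_zero]
    ext m
    by_cases hle : Finsupp.single (0 : Fin 3) 1 ≤ m
    · rw [coeff_modMonomial_of_le _ hle, coeff_zero]
    · rw [coeff_modMonomial_of_not_le _ hle, coeff_zero]
      by_contra hm
      have h0 : m 0 = 0 := by
        rw [Finsupp.single_le_iff] at hle
        omega
      have := coeff_eq_coeff_res h h0 hm
      rw [hr, Polynomial.coeff_zero] at this
      exact hm this.symm
  exact this

theorem hom_of_X0_mul {G : MP} {n : ℕ} (h : (X 0 * G : MP).IsHomogeneous n) :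
    G.IsHomogeneous (n - 1) ∧ (n = 0 → G = 0) := by
  have key : ∀ m, coeff m G ≠ 0 → m.degree + 1 = n := by
    intro m hm
    have h1 : coeff (Finsupp.single 0 1 + m) (X 0 * G : MP) ≠ 0 := by rwa [coeff_X_mul]
    have h2 := deg_of_mem h h1
    rw [deg3]
    simp at h2
    omega
  refine ⟨?_, fun hn => ?_⟩
  · intro m hm
    have := key m hm
    have e : (Finsupp.weight 1) m = m.degree := by rw [Finsupp.degree_eq_weight_one]; rfl
    rw [e]
    omega
  · ext m
    by_contra hm
    have := key m hm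
    omega

theorem hom_of_X0_pow_mul {G : MP} {n : ℕ} (p : ℕ) (h : (X 0 ^ p * G : MP).IsHomogeneous n) :
    G.IsHomogeneous (n - p) ∧ (n < p → G = 0) := by
  induction p generalizing n with
  | zero => simpa using h
  | succ p ih =>
    rw [pow_succ', mul_assoc] at h
    obtain ⟨h1, h2⟩ := hom_of_X0_mul h
    obtain ⟨h3, h4⟩ := ih h1
    refine ⟨by rwa [Nat.sub_sub, add_comm] at h3, fun hn => ?_⟩
    by_cases hn0 : n = 0
    · have := h2 hn0
      exact (mul_eq_zero.1 this).resolve_left (pow_ne_zero _ (X_ne_zero _))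
    · exact h4 (by omega)

/-- Homogenisation of a polynomial in one variable. -/
theorem exists_hom_res {c : Polynomial ℂ} {n : ℕ} (hc : c.natDegree ≤ n) :
    ∃ K : MP, K.IsHomogeneous n ∧ res K = c := by
  refine ⟨∑ i ∈ Finset.range (n + 1), C (c.coeff i) * (X 1 ^ (n - i) * X 2 ^ i), ?_, ?_⟩
  · refine IsHomogeneous.sum _ _ _ fun i hi => ?_
    have hi' : i ≤ n := Nat.lt_succ_iff.1 (Finset.mem_range.1 hi)
    have := ((isHomogeneous_X_pow (R := ℂ) (1 : Fin 3) (n - i)).mul
      (isHomogeneous_X_pow (2 : Fin 3) i)).C_mul (c.coeff i)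
    rwa [Nat.sub_add_cancel hi'] at this
  · conv_rhs => rw [Polynomial.as_sum_range' c (n + 1) (Nat.lt_succ_of_le hc)]
    unfold res
    rw [map_sum]
    refine Finset.sum_congr rfl fun i _ => ?_
    simp [Polynomial.C_mul_X_pow_eq_monomial]

theorem res_pderiv2 (H : MP) : res (pderiv 2 H) = (res H).derivative := by
  induction H using MvPolynomial.induction_on with
  | C a => simp [res]
  | add p q hp hq => rw [map_add, res_add, res_add, hp, hq, Polynomial.derivative_add]
  | mul_X p i hp =>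
    rw [pderiv_mul, res_add, res_mul, res_mul, res_mul, hp, Polynomial.derivative_mul]
    congr 2
    fin_cases i <;> simp [res, pderiv_X]

theorem res_pderiv1 {H : MP} {n : ℕ} (h : H.IsHomogeneous n) :
    res (pderiv 1 H) = Polynomial.C (n : ℂ) * res H - Polynomial.X * (res H).derivative := by
  have e := congrArg res h.sum_X_mul_pderiv
  rw [Fin.sum_univ_three, res_add, res_add, res_mul, res_mul, res_mul, res_X0, res_X1, res_X2,
    res_pderiv2, nsmul_eq_mul, res_mul] at e
  have e2 : res (n : MP) = Polynomial.C (n : ℂ) := by simp [res]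
  rw [e2] at e
  linear_combination e

/-- The defect of `Φ` as an integrating factor. -/
noncomputable def Df (F1 F2 Φ : MP) : MP :=
  F1 * pderiv 1 Φ + F2 * pderiv 2 Φ - (pderiv 1 F1 + pderiv 2 F2) * Φ

theorem res_Df {F1 F2 K : MP} {d k : ℕ} (h1 : F1.IsHomogeneous d) (hK : K.IsHomogeneous k) :
    res (Df F1 F2 K) = res (RR F1 F2) * (res K).derivative +
      (Polynomial.C ((k : ℂ) - d - 1) * res F1 - (res (RR F1 F2)).derivative) * res K := by
  rw [Df, res_sub, res_add, res_mul, res_mul, res_mul, res_add, res_pderiv1 hK, res_pderiv1 h1,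
    res_pderiv2, res_pderiv2, res_RR]
  simp only [Polynomial.derivative_mul, Polynomial.derivative_X,
    map_sub, map_one]
  ring

theorem Df_hom {F1 F2 K : MP} {d k : ℕ} (hd : 1 ≤ d) (h1 : F1.IsHomogeneous d)
    (h2 : F2.IsHomogeneous d) (hK : K.IsHomogeneous k) :
    (Df F1 F2 K).IsHomogeneous (d + k - 1) := by
  have aux : ∀ (F : MP) (i : Fin 3), F.IsHomogeneous d →
      (F * pderiv i K).IsHomogeneous (d + k - 1) := by
    intro F i hF
    rcases Nat.eq_zero_or_pos k with rfl | hk
    · have h0 : K.totalDegree = 0 := (totalDegree_zero_iff_isHomogeneous _).2 hK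
      rw [totalDegree_eq_zero_iff_eq_C] at h0
      rw [h0, pderiv_C, mul_zero]
      exact isHomogeneous_zero _ _ _
    · have := hF.mul (hK.pderiv (i := i))
      rwa [show d + (k - 1) = d + k - 1 by omega] at this
  refine ((aux F1 1 h1).add (aux F2 2 h2)).sub ?_
  have := ((h1.pderiv (i := 1)).add (h2.pderiv (i := 2))).mul hK
  rwa [show d - 1 + k = d + k - 1 by omega] at this

theorem Df_add_mul (F1 F2 Φ K : MP) (p : ℕ) :
    Df F1 F2 (Φ + X 0 ^ p * K) = Df F1 F2 Φ + X 0 ^ p * Df F1 F2 K := by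
  have e1 : pderiv 1 (X 0 ^ p : MP) = 0 := by simp [pderiv_X]
  have e2 : pderiv 2 (X 0 ^ p : MP) = 0 := by simp [pderiv_X]
  simp only [Df, map_add, pderiv_mul, e1, e2]
  ring

/-- Taylor expansion to first order. -/
theorem taylor (H : MP) (z : E) : ∃ G : Fin 3 → MP,
    H = C (eval z H) + ∑ j, G j * (X j - C (z j)) ∧ ∀ j, eval z (G j) = eval z (pderiv j H) := by
  have key : ∃ G : Fin 3 → MP, H = C (eval z H) + ∑ j, G j * (X j - C (z j)) := by
    induction H using MvPolynomial.induction_on with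
    | C a => exact ⟨0, by simp⟩
    | add p q hp hq =>
      obtain ⟨G, hG⟩ := hp
      obtain ⟨G', hG'⟩ := hq
      refine ⟨G + G', ?_⟩
      simp only [Pi.add_apply, add_mul, Finset.sum_add_distrib, map_add]
      linear_combination hG + hG'
    | mul_X p i hp =>
      obtain ⟨G, hG⟩ := hp
      refine ⟨fun j => G j * X i + if j = i then C (eval z p) else 0, ?_⟩
      simp only [add_mul, Finset.sum_add_distrib, map_mul, eval_X, ite_mul, zero_mul,
        Finset.sum_ite_eq', Finset.mem_univ, if_true]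
      have : ∑ j, G j * X i * (X j - C (z j)) = (∑ j, G j * (X j - C (z j))) * X i := by
        rw [Finset.sum_mul]
        exact Finset.sum_congr rfl fun j _ => by ring
      rw [this]
      linear_combination hG * X i
  obtain ⟨G, hG⟩ := key
  refine ⟨G, hG, fun j => ?_⟩
  conv_rhs => rw [hG]
  fin_cases j <;> simp [Fin.sum_univ_three, pderiv_X]

/-- Homogenisation with respect to `X 0`. -/
theorem exists_hom_aff (a : MP) {N : ℕ} (hN : a.totalDegree ≤ N) :
    ∃ a' : MP, a'.IsHomogeneous N ∧ ∀ z : E, z 0 = 1 → eval z a' = eval z a := by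
  refine ⟨∑ i ∈ Finset.range (a.totalDegree + 1), X 0 ^ (N - i) * homogeneousComponent i a,
    ?_, fun z hz => ?_⟩
  · refine IsHomogeneous.sum _ _ _ fun i hi => ?_
    have hi' : i ≤ N := (Nat.lt_succ_iff.1 (Finset.mem_range.1 hi)).trans hN
    have := (isHomogeneous_X_pow (R := ℂ) (0 : Fin 3) (N - i)).mul
      (homogeneousComponent_isHomogeneous i a)
    rwa [Nat.sub_add_cancel hi'] at this
  · conv_rhs => rw [← sum_homogeneousComponent a]
    simp [hz]

theorem eq_zero_of_aff {Q : MP} {n : ℕ} (h : Q.IsHomogeneous n)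
    (hz : ∀ z : E, z 0 = 1 → eval z Q = 0) : Q = 0 := by
  have : X 0 * Q = 0 := by
    refine MvPolynomial.funext fun z => ?_
    rw [map_mul, eval_X, map_zero]
    by_cases h0 : z 0 = 0
    · rw [h0, zero_mul]
    · have e : z = z 0 • ((z 0)⁻¹ • z) := by rw [smul_smul, mul_inv_cancel₀ h0, one_smul]
      have e2 : eval z Q = 0 := by
        rw [e, eval_smul_of_hom h, hz _ (by simp [h0]), mul_zero]
      rw [e2, mul_zero]
  exact (mul_eq_zero.1 this).resolve_left (X_ne_zero _)

/-- Membership in the ideal with homogeneous coefficients of degree `e`. -/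
def Mem (F1 F2 : MP) (e : ℕ) (Q : MP) : Prop :=
  ∃ a b : MP, a.IsHomogeneous e ∧ b.IsHomogeneous e ∧ Q = a * F1 + b * F2

variable {d : ℕ} {F1 F2 : MP}

theorem degree_f1 (H : Hyp d F1 F2) : (res F1).degree = d := by
  refine Polynomial.degree_eq_of_le_of_coeff_ne_zero ?_ ?_
  · exact Polynomial.degree_le_of_natDegree_le (natDegree_res_le H.h1)
  · rw [coeff_res_top H.h1]; exact H.top

theorem RR_hom (H : Hyp d F1 F2) : (RR F1 F2).IsHomogeneous (d + 1) := by
  have a := (isHomogeneous_X ℂ (1 : Fin 3)).mul H.h2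
  have b := (isHomogeneous_X ℂ (2 : Fin 3)).mul H.h1
  rw [add_comm] at a b
  exact a.sub b

theorem degree_R (H : Hyp d F1 F2) : (res (RR F1 F2)).degree = (d + 1 : ℕ) := by
  refine Polynomial.degree_eq_of_le_of_coeff_ne_zero ?_ ?_
  · exact Polynomial.degree_le_of_natDegree_le (natDegree_res_le (RR_hom H))
  · rw [coeff_res_top (RR_hom H)]
    simpa [RR] using H.top

theorem f1_ne (H : Hyp d F1 F2) : res F1 ≠ 0 := by
  intro h
  have := degree_f1 H
  rw [h, Polynomial.degree_zero] at this
  exact WithBot.bot_ne_coe this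

theorem R_ne (H : Hyp d F1 F2) : res (RR F1 F2) ≠ 0 := by
  intro h
  have := degree_R H
  rw [h, Polynomial.degree_zero] at this
  exact WithBot.bot_ne_coe this

theorem coprime (H : Hyp d F1 F2) : IsCoprime (res F1) (res F2) := by
  refine (Polynomial.isCoprime_iff_aeval_ne_zero_of_isAlgClosed ℂ ℂ _ _).2 fun u => ?_
  by_contra hc
  push Not at hc
  obtain ⟨h1, h2⟩ := hc
  simp only [Polynomial.coe_aeval_eq_eval] at h1 h2
  refine H.inf u ?_ ?_
  · rw [res_RR]; simp [h1, h2]
  · rw [h1]; simp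

theorem descend (H : Hyp d F1 F2) {e : ℕ} {Q : MP} (h : Mem F1 F2 e (X 0 * Q)) :
    Mem F1 F2 (e - 1) Q ∧ (e = 0 → Q = 0) := by
  obtain ⟨a, b, ha, hb, hQ⟩ := h
  have h0 : res a * res F1 + res b * res F2 = 0 := by
    rw [← res_mul, ← res_mul, ← res_add, ← hQ, res_mul, res_X0, zero_mul]
  have hdvd : res F1 ∣ res b := by
    refine (coprime H).dvd_of_dvd_mul_right ⟨-res a, ?_⟩
    linear_combination h0
  obtain ⟨c, hc⟩ := hdvd
  have hac : res a = -(c * res F2) := by
    apply mul_left_cancel₀ (f1_ne H)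
    rw [hc] at h0
    linear_combination h0
  obtain ⟨K, hK1, hK2, hK⟩ : ∃ K : MP, (K * F1).IsHomogeneous e ∧ (K * F2).IsHomogeneous e ∧
      res K = c := by
    by_cases hc0 : c = 0
    · exact ⟨0, by rw [zero_mul]; exact isHomogeneous_zero _ _ _,
        by rw [zero_mul]; exact isHomogeneous_zero _ _ _, by rw [hc0, res_zero]⟩
    · have hd := natDegree_res_le hb
      rw [hc, Polynomial.natDegree_mul (f1_ne H) hc0,
        Polynomial.natDegree_eq_of_degree_eq_some (degree_f1 H)] at hd
      obtain ⟨K, hK, hK'⟩ := exists_hom_res (c := c) (n := e - d) (by omega)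
      have e1 := hK.mul H.h1
      have e2 := hK.mul H.h2
      rw [show e - d + d = e by omega] at e1 e2
      exact ⟨K, e1, e2, hK'⟩
  have ha' := ha.add hK2
  have hb' := hb.sub hK1
  obtain ⟨a', ea⟩ := X0_dvd ha' (by rw [res_add, res_mul, hK, hac]; ring)
  obtain ⟨b', eb⟩ := X0_dvd hb' (by rw [res_sub, res_mul, hK, hc]; ring)
  rw [ea] at ha'
  rw [eb] at hb'
  have hQ' : Q = a' * F1 + b' * F2 := by
    apply mul_left_cancel₀ (X_ne_zero (R := ℂ) (0 : Fin 3))
    linear_combination hQ + F1 * ea + F2 * eb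
  refine ⟨⟨a', b', (hom_of_X0_mul ha').1, (hom_of_X0_mul hb').1, hQ'⟩, fun he => ?_⟩
  rw [hQ', (hom_of_X0_mul ha').2 he, (hom_of_X0_mul hb').2 he]
  ring

theorem descend_pow (H : Hyp d F1 F2) (N : ℕ) {e : ℕ} {Q : MP}
    (h : Mem F1 F2 e (X 0 ^ N * Q)) : Mem F1 F2 (e - N) Q ∧ (e < N → Q = 0) := by
  induction N generalizing e with
  | zero => simpa using h
  | succ p ih =>
    rw [pow_succ', mul_assoc] at h
    obtain ⟨h1, h2⟩ := descend H h
    obtain ⟨h3, h4⟩ := ih h1
    refine ⟨by rwa [Nat.sub_sub, add_comm] at h3, fun hn => ?_⟩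
    by_cases hn0 : e = 0
    · have := h2 hn0
      exact (mul_eq_zero.1 this).resolve_left (pow_ne_zero _ (X_ne_zero _))
    · exact h4 (by omega)

theorem W_eq_zero {z : E} : W F1 F2 z = 0 ↔ eval z F1 = 0 ∧ eval z F2 = 0 := by
  constructor
  · intro h
    exact ⟨by simpa [W] using congrFun h 1, by simpa [W] using congrFun h 2⟩
  · rintro ⟨h1, h2⟩
    ext i
    fin_cases i <;> simp [W, h1, h2]

/-- Affine membership in the ideal. -/
theorem mem_aff (H : Hyp d F1 F2) {P : MP}
    (hP : ∀ z : E, z 0 = 1 → W F1 F2 z = 0 → eval z P = 0) :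
    ∃ a b c : MP, P = a * F1 + b * F2 + c * (X 0 - 1) := by
  classical
  set I : Ideal MP := Ideal.span {F1, F2, X 0 - 1} with hI
  have m1 : F1 ∈ I := Ideal.subset_span (by simp)
  have m2 : F2 ∈ I := Ideal.subset_span (by simp)
  have m0 : X 0 - 1 ∈ I := Ideal.subset_span (by simp)
  have hmem : P ∈ I := by
    by_contra hn
    have hJ : I.colon {P} ≠ ⊤ := by
      intro h
      have : (1 : MP) ∈ I.colon {P} := by rw [h]; trivial
      rw [Submodule.mem_colon_singleton, one_smul] at this
      exact hn this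
    obtain ⟨M, hM, hle⟩ := Ideal.exists_le_maximal _ hJ
    obtain ⟨z, rfl⟩ := isMaximal_iff_eq_vanishingIdeal_singleton.1 hM
    have hev : ∀ D : MP, D * P ∈ I → eval z D = 0 := by
      intro D hD
      have := hle (Submodule.mem_colon_singleton.2 hD)
      rw [mem_vanishingIdeal_singleton_iff] at this
      simpa [coe_aeval_eq_eval] using this
    have z1 : eval z F1 = 0 := hev _ (I.mul_mem_right _ m1)
    have z2 : eval z F2 = 0 := hev _ (I.mul_mem_right _ m2)
    have z0 : z 0 = 1 := by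
      have := hev _ (I.mul_mem_right _ m0)
      simpa [sub_eq_zero] using this
    have hW : W F1 F2 z = 0 := W_eq_zero.2 ⟨z1, z2⟩
    obtain ⟨G1, e1, g1⟩ := taylor F1 z
    obtain ⟨G2, e2, g2⟩ := taylor F2 z
    obtain ⟨G, e, -⟩ := taylor P z
    rw [z1] at e1
    rw [z2] at e2
    rw [hP z z0 hW] at e
    rw [Fin.sum_univ_three, z0, map_zero, map_one, zero_add] at e1 e2 e
    have hD : (G1 1 * G2 2 - G1 2 * G2 1) * P ∈ I := by
      have : (G1 1 * G2 2 - G1 2 * G2 1) * P =
          (G 1 * G2 2 - G 2 * G2 1) * F1 + (G 2 * G1 1 - G 1 * G1 2) * F2 +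
          ((G1 1 * G2 2 - G1 2 * G2 1) * G 0 - (G 1 * G2 2 - G 2 * G2 1) * G1 0 -
            (G 2 * G1 1 - G 1 * G1 2) * G2 0) * (X 0 - 1) := by
        linear_combination (G1 1 * G2 2 - G1 2 * G2 1) * e - (G 1 * G2 2 - G 2 * G2 1) * e1 -
          (G 2 * G1 1 - G 1 * G1 2) * e2
      rw [this]
      exact I.add_mem (I.add_mem (I.mul_mem_left _ m1) (I.mul_mem_left _ m2)) (I.mul_mem_left _ m0)
    have := hev _ hD
    rw [map_sub, map_mul, map_mul, g1, g1, g2, g2] at this
    exact (H.fin z z0 hW).1 this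
  rw [hI, Ideal.mem_span_insert] at hmem
  obtain ⟨a, w, hw, rfl⟩ := hmem
  rw [Ideal.mem_span_pair] at hw
  obtain ⟨b, c, rfl⟩ := hw
  exact ⟨a, b, c, by ring⟩

/-- Max Noether's theorem in the case at hand. -/
theorem noether (H : Hyp d F1 F2) {P : MP} {k : ℕ} (hk : P.IsHomogeneous k)
    (hP : ∀ z : E, z 0 = 1 → W F1 F2 z = 0 → eval z P = 0) :
    Mem F1 F2 (k - d) P ∧ (k < d → P = 0) := by
  obtain ⟨a, b, c, e⟩ := mem_aff H hP
  set N := a.totalDegree + b.totalDegree + k with hN
  obtain ⟨a', ha, ha'⟩ := exists_hom_aff a (N := N) (by omega)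
  obtain ⟨b', hb, hb'⟩ := exists_hom_aff b (N := N) (by omega)
  have h1 : (X 0 ^ (N + d - k) * P : MP).IsHomogeneous (N + d) := by
    have := (isHomogeneous_X_pow (R := ℂ) (0 : Fin 3) (N + d - k)).mul hk
    rwa [show N + d - k + k = N + d by omega] at this
  have h2 := h1.sub ((ha.mul H.h1).add (hb.mul H.h2))
  have h3 := eq_zero_of_aff h2 fun z hz => by
    rw [e]
    simp [hz, ha' z hz, hb' z hz]
  obtain ⟨h4, h5⟩ := descend_pow H (N + d - k) (e := N) (Q := P)
    ⟨a', b', ha, hb, sub_eq_zero.1 h3⟩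
  refine ⟨by rwa [show N - (N + d - k) = k - d by omega] at h4, fun h => h5 (by omega)⟩

/-- There is no homogeneous integrating factor of degree `d + 1`. -/
theorem no_factor (H : Hyp d F1 F2) {Φ : MP} (hΦ : Φ.IsHomogeneous (d + 1))
    (h : Df F1 F2 Φ = 0) : Φ = 0 := by
  have hz : ∀ z : E, z 0 = 1 → W F1 F2 z = 0 → eval z Φ = 0 := by
    intro z z0 hW
    obtain ⟨z1, z2⟩ := W_eq_zero.1 hW
    have := congrArg (eval z) h
    simp only [Df, map_sub, map_add, map_mul, z1, z2, zero_mul, map_zero, zero_add, zero_sub,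
      neg_eq_zero] at this
    exact (mul_eq_zero.1 this).resolve_left (H.fin z z0 hW).2
  obtain ⟨⟨l1, l2, hl1, hl2, e⟩, -⟩ := noether H hΦ hz
  rw [show d + 1 - d = 1 by omega] at hl1 hl2
  have hl : ∀ z : E, z 0 = 1 → W F1 F2 z = 0 → eval z l1 = 0 ∧ eval z l2 = 0 := by
    intro z z0 hW
    obtain ⟨z1, z2⟩ := W_eq_zero.1 hW
    have hdet := (H.fin z z0 hW).1
    have d1 := congrArg (fun q => eval z (pderiv 1 q)) h
    have d2 := congrArg (fun q => eval z (pderiv 2 q)) h
    simp only [Df, map_sub, map_add, map_mul, pderiv_mul, z1, z2, hz z z0 hW, zero_mul, map_zero,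
      mul_zero, zero_add, add_zero] at d1 d2
    have g1 := congrArg (fun q => eval z (pderiv 1 q)) e
    have g2 := congrArg (fun q => eval z (pderiv 2 q)) e
    simp only [map_add, map_mul, pderiv_mul, z1, z2, mul_zero, zero_add] at g1 g2
    generalize eval z (pderiv 1 F1) = a11 at *
    generalize eval z (pderiv 2 F1) = a12 at *
    generalize eval z (pderiv 1 F2) = a21 at *
    generalize eval z (pderiv 2 F2) = a22 at *
    generalize eval z (pderiv 1 Φ) = p1 at *
    generalize eval z (pderiv 2 Φ) = p2 at *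
    have q1 : p1 = 0 := by
      apply mul_left_cancel₀ hdet
      linear_combination (-a11) * d1 - a21 * d2
    have q2 : p2 = 0 := by
      apply mul_left_cancel₀ hdet
      linear_combination (-a12) * d1 - a22 * d2
    rw [q1] at g1
    rw [q2] at g2
    constructor
    · apply mul_left_cancel₀ hdet
      linear_combination (-a22) * g1 + a21 * g2
    · apply mul_left_cancel₀ hdet
      linear_combination a12 * g1 - a11 * g2
  have two := H.two_le
  have e1 := (noether H hl1 fun z z0 hW => (hl z z0 hW).1).2 (by omega)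
  have e2 := (noether H hl2 fun z z0 hW => (hl z z0 hW).2).2 (by omega)
  rw [e, e1, e2]
  ring

end AlgAux

end Pool.Agent.P.MP_a31c1c_an
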