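import Pool.Agent.P.MP_a31c1c_an.ODE

/-!
Data of a polynomial foliation of the projective plane with invariant line `z 0 = 0`, normalised so
that the field has vanishing first coordinate, and elementary facts on polynomials.
-/

set_option autoImplicit false

namespace Pool.Agent.P.MP_a31c1c_an

open MvPolynomial

abbrev E := Fin 3 → ℂ
abbrev MP := MvPolynomial (Fin 3) ℂ

/-- The homogeneous vector field `(0, F1, F2)`. -/
noncomputable def W (F1 F2 : MP) (z : E) : E := ![0, eval z F1, eval z F2]

/-- Restriction of a polynomial to the affine part `(0, 1, u)` of the line at infinity. -/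
noncomputable def res (H : MP) : Polynomial ℂ := aeval ![0, 1, Polynomial.X] H

/-- The polynomial `z1 F2 - z2 F1`. -/
noncomputable def RR (F1 F2 : MP) : MP := X 1 * F2 - X 2 * F1

/-- The consequences of the hypotheses of the problem that the proof uses. -/
structure Hyp (d : ℕ) (F1 F2 : MP) : Prop where
  two_le : 2 ≤ d
  h1 : F1.IsHomogeneous d
  h2 : F2.IsHomogeneous d
  top : eval ![0, 0, 1] F1 ≠ 0
  inf : ∀ u : ℂ, (res (RR F1 F2)).eval u = 0 →
    ((res F1).eval u / (res (RR F1 F2)).derivative.eval u).im ≠ 0
  fin : ∀ z : E, z 0 = 1 → W F1 F2 z = 0 →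
    eval z (pderiv 1 F1) * eval z (pderiv 2 F2) - eval z (pderiv 2 F1) * eval z (pderiv 1 F2) ≠ 0 ∧
      eval z (pderiv 1 F1) + eval z (pderiv 2 F2) ≠ 0

theorem eval_res (H : MP) (u : ℂ) : (res H).eval u = eval ![0, 1, u] H := by
  unfold res
  induction H using MvPolynomial.induction_on with
  | C a => simp
  | add p q hp hq => simp only [map_add, Polynomial.eval_add, hp, hq]
  | mul_X p i hp =>
    simp only [map_mul, Polynomial.eval_mul, hp, aeval_X, eval_X]
    congr 1
    fin_cases i <;> simp

theorem eval_smul_of_hom {H : MP} {n : ℕ} (h : H.IsHomogeneous n) (c : ℂ) (z : E) :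
    eval (c • z) H = c ^ n * eval z H := by
  rw [eval_eq', eval_eq', Finset.mul_sum]
  refine Finset.sum_congr rfl fun m hm => ?_
  have h1 : ∑ i, m i = n := by
    have := h.degree_eq_sum_deg_support hm
    rw [this]
    exact (Finset.sum_subset (Finset.subset_univ _) (by simp)).symm
  simp only [Pi.smul_apply, smul_eq_mul, mul_pow, Finset.prod_mul_distrib,
    Finset.prod_pow_eq_pow_sum, h1]
  ring

/-- Chain rule for the evaluation of a polynomial along a curve. -/
theorem hasDerivAt_eval (H : MP) {γ : ℂ → E} {γ' : E} {t : ℂ} (h : HasDerivAt γ γ' t) :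
    HasDerivAt (fun s => eval (γ s) H) (∑ i, eval (γ t) (pderiv i H) * γ' i) t := by
  induction H using MvPolynomial.induction_on with
  | C a => simpa using hasDerivAt_const t a
  | add p q hp hq =>
    simp only [map_add, add_mul, Finset.sum_add_distrib]
    exact hp.add hq
  | mul_X p j hp =>
    have hj : HasDerivAt (fun s => γ s j) (γ' j) t := hasDerivAt_pi.1 h j
    have := hp.mul hj
    simp only [map_mul, eval_X]
    refine this.congr_deriv ?_
    fin_cases j <;> simp [Fin.sum_univ_three, pderiv_X] <;> ring

theorem contDiff_eval (H : MP) {n : WithTop ℕ∞} : ContDiff ℂ n fun z : E => eval z H := by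
  induction H using MvPolynomial.induction_on with
  | C a => simpa using contDiff_const
  | add p q hp hq => simp only [map_add]; exact hp.add hq
  | mul_X p j hp => simp only [map_mul, eval_X]; exact hp.mul (contDiff_apply ℂ ℂ j)

theorem contDiff_W (F1 F2 : MP) {n : WithTop ℕ∞} : ContDiff ℂ n (W F1 F2) := by
  refine contDiff_pi.2 fun i => ?_
  fin_cases i
  · simpa [W] using contDiff_const
  · simpa [W] using contDiff_eval F1
  · simpa [W] using contDiff_eval F2

end Pool.Agent.P.MP_a31c1c_an
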