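import Pool.Agent.P.MP_a31c1c_an.Leaf

/-!
The Dirichlet energy of a function on a leaf, as a measure on the ambient space.
-/

set_option autoImplicit false

namespace Pool.Agent.P.MP_a31c1c_an

open Metric Set Filter Topology MeasureTheory
open scoped ENNReal

/-- Squared length of the gradient of a function on the plane. -/
noncomputable def qd (f : ℂ → ℝ) (t : ℂ) : ℝ :=
  fderiv ℝ f t 1 ^ 2 + fderiv ℝ f t Complex.I ^ 2

theorem qd_nonneg (f : ℂ → ℝ) (t : ℂ) : 0 ≤ qd f t := by unfold qd; positivity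

theorem qd_congr {f g : ℂ → ℝ} {t : ℂ} (h : f =ᶠ[𝓝 t] g) : qd f t = qd g t := by
  unfold qd; rw [h.fderiv_eq]

theorem clm_apply (l : ℂ →L[ℝ] ℝ) (c : ℂ) : l c = c.re * l 1 + c.im * l Complex.I := by
  have : c = c.re • (1 : ℂ) + c.im • Complex.I := by
    apply Complex.ext <;> simp
  conv_lhs => rw [this, map_add, map_smul, map_smul]
  simp

theorem sq_fderiv_le (f : ℂ → ℝ) (t c : ℂ) : (fderiv ℝ f t c) ^ 2 ≤ ‖c‖ ^ 2 * qd f t := by
  rw [clm_apply, ← Complex.normSq_eq_norm_sq, Complex.normSq_apply, qd]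
  nlinarith [sq_nonneg (c.re * fderiv ℝ f t Complex.I - c.im * fderiv ℝ f t 1)]

/-- Multiplication by a complex number as a real linear map. -/
noncomputable def mulC (k : ℂ) : ℂ →L[ℝ] ℂ := ContinuousLinearMap.mul ℝ ℂ k

theorem det_mulC (k : ℂ) : (mulC k).det = Complex.normSq k := by
  rw [← Algebra.norm_complex_apply]
  rfl

theorem hasFDerivAt_mulC {τ : ℂ → ℂ} {k t : ℂ} (h : HasDerivAt τ k t) :
    HasFDerivAt τ (mulC k) t := by
  refine (h.hasFDerivAt.restrictScalars ℝ).congr_fderiv ?_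
  ext x
  simp [mulC, mul_comm]

theorem qd_comp {f : ℂ → ℝ} {τ : ℂ → ℂ} {k t : ℂ} (hf : DifferentiableAt ℝ f (τ t))
    (h : HasDerivAt τ k t) : qd (fun s => f (τ s)) t = Complex.normSq k * qd f (τ t) := by
  have := (hf.hasFDerivAt.comp t (hasFDerivAt_mulC h)).fderiv
  unfold qd
  rw [show (fun s => f (τ s)) = f ∘ τ from rfl, this]
  simp only [ContinuousLinearMap.comp_apply, mulC, ContinuousLinearMap.mul_apply', mul_one]
  rw [clm_apply _ k, clm_apply _ (k * Complex.I), Complex.normSq_apply]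
  simp only [Complex.mul_re, Complex.I_re, Complex.I_im, Complex.mul_im]
  ring

theorem measurable_qd (f : ℂ → ℝ) : Measurable (qd f) :=
  ((measurable_fderiv_apply_const ℝ f 1).pow_const 2).add
    ((measurable_fderiv_apply_const ℝ f Complex.I).pow_const 2)

/-- `φ` is of class `C^k` along every curve tangent to the leaf. -/
def Reg (v : E → E) (Λ : Set E) (k : WithTop ℕ∞) (φ : E → ℝ) : Prop :=
  ∀ Γ t, TG v Γ t → Γ t ∈ Λ → ContDiffAt ℝ k (fun s => φ (Γ s)) t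

variable {v : E → E} {Λ : Set E} {p : E}

theorem IsLeaf.reg_of_local (H : IsLeaf v Λ p) {k : WithTop ℕ∞} {φ : E → ℝ}
    (h : ∀ z ∈ Λ, ∃ ψ r, ∃ s ∈ ball (0 : ℂ) r, Sol v ψ r ∧ ψ s = z ∧
      ContDiffAt ℝ k (fun t => φ (ψ t)) s) : Reg v Λ k φ := by
  intro Γ t hΓ ht
  obtain ⟨ψ, r, s, hs, hψ, e, hc⟩ := h _ ht
  obtain ⟨τ, hτ, hτ0, hτe⟩ := factor H.smooth hΓ (H.ne _ ht) hψ hs e
  have h1 : ContDiffAt ℝ k τ t := (hτ.contDiffAt (n := k)).restrict_scalars ℝ
  have h2 : ContDiffAt ℝ k (fun s => φ (ψ (τ s))) t :=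
    ContDiffAt.comp (g := fun t => φ (ψ t)) t (hτ0 ▸ hc) h1
  refine h2.congr_of_eventuallyEq ?_
  filter_upwards [hτe] with s hs using by rw [hs]

theorem measurableSet_inter_preimage {Γ : ℂ → E} {U B : Set ℂ} (hU : IsOpen U)
    (hΓ : ContinuousOn Γ U) (hB : MeasurableSet B) (hBU : B ⊆ U) {D : Set E}
    (hD : MeasurableSet D) : MeasurableSet (B ∩ Γ ⁻¹' D) := by
  classical
  have h1 : Measurable (U.piecewise Γ 0) :=
    hΓ.measurable_piecewise continuousOn_const hU.measurableSet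
  have : B ∩ Γ ⁻¹' D = B ∩ (U.piecewise Γ 0) ⁻¹' D := by
    ext t
    refine and_congr_right fun ht => ?_
    rw [mem_preimage, mem_preimage, piecewise_eq_of_mem _ _ _ (hBU ht)]
  rw [this]
  exact hB.inter (h1 hD)

/-- The properties of the Dirichlet energy used below. -/
structure IsEnergy (v : E → E) (Λ : Set E) (ν : (E → ℝ) → Measure E) : Prop where
  loc : ∀ φ, Reg v Λ 1 φ → ∀ Γ a ρ, TC v Γ a ρ → InjOn Γ (ball a ρ) → MapsTo Γ (ball a ρ) Λ →
    ∀ B, MeasurableSet B → B ⊆ ball a ρ →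
      ν φ (Γ '' B) = ∫⁻ t in B, ENNReal.ofReal (qd (fun s => φ (Γ s)) t)
  le : ∀ φ φ' (c : ℝ) S, 0 ≤ c → MeasurableSet S →
    (∀ ψ r, Sol v ψ r → ∀ t ∈ ball (0 : ℂ) r, ψ t ∈ Λ → ψ t ∈ S →
      qd (fun s => φ' (ψ s)) t ≤ c * qd (fun s => φ (ψ s)) t) →
    ν φ' S ≤ ENNReal.ofReal c * ν φ S

theorem IsLeaf.exists_energy (H : IsLeaf v Λ p) : ∃ ν, IsEnergy v Λ ν := by
  obtain ⟨ψ, r, hψ, hcov⟩ := H.exists_atlas
  let Im : ℕ → Set E := fun i => ψ i '' ball 0 (r i)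
  have hIm : ∀ i, MeasurableSet (Im i) := fun i =>
    measurableSet_ball.image_of_continuousOn_injOn (hψ i).1.2.1.continuousOn (hψ i).1.2.2
  let D : ℕ → Set E := disjointed Im
  have hD : ∀ i, MeasurableSet (D i) := MeasurableSet.disjointed hIm
  let A : ℕ → Set ℂ := fun i => ball 0 (r i) ∩ ψ i ⁻¹' D i
  have hA : ∀ i, MeasurableSet (A i) := fun i => measurableSet_ball.inter ((hψ i).2.2 (hD i))
  let ν : (E → ℝ) → Measure E := fun φ => Measure.sum fun i =>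
    ((volume.restrict (A i)).withDensity
      fun t => ENNReal.ofReal (qd (fun s => φ (ψ i s)) t)).map (ψ i)
  have hν : ∀ φ S, MeasurableSet S → ν φ S =
      ∑' i, ∫⁻ t in ψ i ⁻¹' S ∩ A i, ENNReal.ofReal (qd (fun s => φ (ψ i s)) t) := by
    intro φ S hS
    rw [Measure.sum_apply _ hS]
    refine tsum_congr fun i => ?_
    rw [Measure.map_apply (hψ i).2.2 hS, withDensity_apply _ ((hψ i).2.2 hS),
      Measure.restrict_restrict ((hψ i).2.2 hS)]
  refine ⟨ν, ?_, ?_⟩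
  · intro φ hφ Γ a ρ hΓ hinj hmap B hB hBs
    have hS : MeasurableSet (Γ '' B) :=
      hB.image_of_continuousOn_injOn (hΓ.continuousOn.mono hBs) (hinj.mono hBs)
    let Bi : ℕ → Set ℂ := fun i => B ∩ Γ ⁻¹' D i
    have hBi : ∀ i, MeasurableSet (Bi i) := fun i =>
      measurableSet_inter_preimage isOpen_ball hΓ.continuousOn hB hBs (hD i)
    have hun : B = ⋃ i, Bi i := by
      ext t
      simp only [mem_iUnion, Bi]
      refine ⟨fun ht => ?_, fun ⟨i, hi⟩ => hi.1⟩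
      obtain ⟨i, s, hs, e⟩ := hcov _ (hmap (hBs ht))
      have : Γ t ∈ ⋃ i, D i := by
        rw [iUnion_disjointed]; exact mem_iUnion.2 ⟨i, s, hs, e⟩
      obtain ⟨j, hj⟩ := mem_iUnion.1 this
      exact ⟨j, ht, hj⟩
    have hdis : Pairwise (Function.onFun Disjoint Bi) := fun i j hij =>
      ((disjoint_disjointed Im hij).preimage Γ).mono inter_subset_right inter_subset_right
    rw [hν φ _ hS]
    conv_rhs => rw [hun, lintegral_iUnion hBi hdis]
    refine tsum_congr fun i => ?_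
    let τ : ℂ → ℂ := fun t => Function.invFunOn (ψ i) (ball 0 (r i)) (Γ t)
    have hτ1 : ∀ t ∈ Bi i, τ t ∈ ball (0 : ℂ) (r i) ∧ ψ i (τ t) = Γ t := by
      intro t ht
      obtain ⟨s, hs, e⟩ := disjointed_subset Im i ht.2
      exact Function.invFunOn_pos ⟨s, hs, e⟩
    have hτ2 : ∀ t ∈ Bi i, HasDerivAt τ (deriv τ t) t ∧ Γ =ᶠ[𝓝 t] fun s => ψ i (τ s) := by
      intro t ht
      obtain ⟨σ, hσ, hσ0, hσe⟩ := factor H.smooth (hΓ.tg (hBs ht.1)) (hΓ t (hBs ht.1)).1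
        (hψ i).1.2.1 (hτ1 t ht).1 (hτ1 t ht).2
      have h1 : ∀ᶠ s in 𝓝 t, σ s ∈ ball (0 : ℂ) (r i) :=
        hσ.continuousAt (isOpen_ball.mem_nhds (hσ0 ▸ (hτ1 t ht).1))
      have h2 : τ =ᶠ[𝓝 t] σ := by
        filter_upwards [h1, hσe] with s hs hs'
        simp only [τ, hs']
        exact (hψ i).1.2.2.leftInvOn_invFunOn hs
      refine ⟨(hσ.differentiableAt.congr_of_eventuallyEq h2).hasDerivAt, ?_⟩
      filter_upwards [h2, hσe] with s hs hs' using by rw [hs, hs']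
    have himg : τ '' Bi i = ψ i ⁻¹' (Γ '' B) ∩ A i := by
      ext s
      constructor
      · rintro ⟨t, ht, rfl⟩
        refine ⟨⟨t, ht.1, (hτ1 t ht).2.symm⟩, (hτ1 t ht).1, ?_⟩
        rw [mem_preimage, (hτ1 t ht).2]; exact ht.2
      · rintro ⟨⟨t, ht, e⟩, hs, hs'⟩
        refine ⟨t, ⟨ht, by rw [mem_preimage, e]; exact hs'⟩, ?_⟩
        simp only [τ, e]
        exact (hψ i).1.2.2.leftInvOn_invFunOn hs
    have hτinj : InjOn τ (Bi i) := fun s hs t ht e =>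
      hinj (hBs hs.1) (hBs ht.1) (by rw [← (hτ1 s hs).2, ← (hτ1 t ht).2, e])
    rw [← himg, lintegral_image_eq_lintegral_abs_det_fderiv_mul volume (hBi i)
      (fun t ht => (hasFDerivAt_mulC (hτ2 t ht).1).hasFDerivWithinAt) hτinj]
    refine setLIntegral_congr_fun (hBi i) fun t ht => ?_
    have h3 : DifferentiableAt ℝ (fun s => φ (ψ i s)) (τ t) :=
      (hφ _ _ ((hψ i).1.2.1.tg (hτ1 t ht).1)
        (by rw [(hτ1 t ht).2]; exact hmap (hBs ht.1))).differentiableAt (by simp)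
    have h4 : qd (fun s => φ (Γ s)) t = qd (fun s => φ (ψ i (τ s))) t :=
      qd_congr (by filter_upwards [(hτ2 t ht).2] with s hs using by rw [hs])
    rw [h4, qd_comp (f := fun s => φ (ψ i s)) h3 (hτ2 t ht).1, det_mulC,
      abs_of_nonneg (Complex.normSq_nonneg _), ENNReal.ofReal_mul (Complex.normSq_nonneg _)]
  · intro φ φ' c S hc hS h
    rw [hν φ _ hS, hν φ' _ hS, ← ENNReal.tsum_mul_left]
    refine ENNReal.tsum_le_tsum fun i => ?_
    rw [← lintegral_const_mul' _ _ ENNReal.ofReal_ne_top]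
    refine setLIntegral_mono' (((hψ i).2.2 hS).inter (hA i)) fun t ht => ?_
    rw [← ENNReal.ofReal_mul hc]
    exact ENNReal.ofReal_le_ofReal (h _ _ (hψ i).1.2.1 t ht.2.1
      (H.sol_mem (hψ i).1.2.1 (mem_ball_self (hψ i).1.1) ht.2.1 (hψ i).2.1) ht.1)

end Pool.Agent.P.MP_a31c1c_an
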