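import Pool.Agent.P.MP_a31c1c_an.Shear

/-!
Foliations whose singular points on the invariant line are hyperbolic, with no condition at the
finite singular points: accumulation of non-algebraic leaves on the line.
-/

set_option autoImplicit false

namespace Pool.Agent.P.MP_a31c1c_an.Inf

open MvPolynomial Metric Filter Topology Set AlgAux

/-- Hyperbolicity on the line at infinity only. -/
structure Hyq (d : ℕ) (F1 F2 : MP) : Prop where
  one_le : 1 ≤ d
  h1 : F1.IsHomogeneous d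
  h2 : F2.IsHomogeneous d
  top : eval ![0, 0, 1] F1 ≠ 0
  inf : ∀ u : ℂ, (res (RR F1 F2)).eval u = 0 →
    ((res F1).eval u / (res (RR F1 F2)).derivative.eval u).im ≠ 0

section
variable {d : ℕ} {F1 F2 : MP}

theorem degree_f1q (H : Hyq d F1 F2) : (res F1).degree = d := by
  refine Polynomial.degree_eq_of_le_of_coeff_ne_zero ?_ ?_
  · exact Polynomial.degree_le_of_natDegree_le (natDegree_res_le H.h1)
  · rw [coeff_res_top H.h1]; exact H.top

theorem RR_homq (H : Hyq d F1 F2) : (RR F1 F2).IsHomogeneous (d + 1) := by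
  have a := (isHomogeneous_X ℂ (1 : Fin 3)).mul H.h2
  have b := (isHomogeneous_X ℂ (2 : Fin 3)).mul H.h1
  rw [add_comm] at a b
  exact a.sub b

theorem degree_Rq (H : Hyq d F1 F2) : (res (RR F1 F2)).degree = (d + 1 : ℕ) := by
  refine Polynomial.degree_eq_of_le_of_coeff_ne_zero ?_ ?_
  · exact Polynomial.degree_le_of_natDegree_le (natDegree_res_le (RR_homq H))
  · rw [coeff_res_top (RR_homq H)]
    simpa [RR] using H.top

theorem f1_neq (H : Hyq d F1 F2) : res F1 ≠ 0 := by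
  intro h
  have := degree_f1q H
  rw [h, Polynomial.degree_zero] at this
  exact WithBot.bot_ne_coe this

theorem R_neq (H : Hyq d F1 F2) : res (RR F1 F2) ≠ 0 := by
  intro h
  have := degree_Rq H
  rw [h, Polynomial.degree_zero] at this
  exact WithBot.bot_ne_coe this

end

/-- Jets of the separatrix transverse to the line at infinity. -/
theorem jetsq {d : ℕ} {F1 F2 : MP} (H : Hyq d F1 F2) {u : ℂ} (hu : (res (RR F1 F2)).eval u = 0)
    (k : ℕ) : ∃ s : Polynomial ℂ, s.eval 0 = u ∧ Polynomial.X ^ (k + 1) ∣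
      cur s (RR F1 F2) + s.derivative * Polynomial.X * cur s F1 := by
  induction k with
  | zero =>
    refine ⟨Polynomial.C u, by simp, ?_⟩
    rw [zero_add, pow_one, Polynomial.X_dvd_iff, Polynomial.coeff_zero_eq_eval_zero]
    simp [eval_cur, ← eval_res, hu]
  | succ k ih =>
    obtain ⟨s, hs0, e, he⟩ := ih
    have hinf := H.inf u hu
    set β := (res (RR F1 F2)).derivative.eval u with hβ
    set f := (res F1).eval u with hf
    have hne : β + (k + 1) * f ≠ 0 := by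
      intro h
      apply hinf
      have hk : ((k : ℂ) + 1) ≠ 0 := by exact_mod_cast Nat.succ_ne_zero k
      by_cases hf0 : f = 0
      · simp [hf0]
      · have : f / β = ((-1 / ((k : ℝ) + 1) : ℝ) : ℂ) := by
          rw [eq_neg_of_add_eq_zero_left h]
          push_cast
          field_simp
        rw [this, Complex.ofReal_im]
    set c := -e.eval 0 / (β + (k + 1) * f) with hc
    obtain ⟨b1, e1⟩ := cur_taylor s (Polynomial.C c * Polynomial.X ^ (k + 1)) (RR F1 F2)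
    obtain ⟨b2, e2⟩ := cur_taylor s (Polynomial.C c * Polynomial.X ^ (k + 1)) F1
    refine ⟨s + Polynomial.C c * Polynomial.X ^ (k + 1), by simp [hs0], ?_⟩
    have hX : Polynomial.X ∣ e + Polynomial.C c * cur s (pderiv 2 (RR F1 F2)) +
        Polynomial.C c * ((k : Polynomial ℂ) + 1) * cur s F1 := by
      rw [Polynomial.X_dvd_iff, Polynomial.coeff_zero_eq_eval_zero]
      simp only [Polynomial.eval_add, Polynomial.eval_mul, Polynomial.eval_C, eval_cur, hs0,
        Polynomial.eval_natCast, Polynomial.eval_one]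
      rw [← eval_derivative_res, ← eval_res, ← hβ, ← hf, hc]
      field_simp
      ring
    obtain ⟨g, hg⟩ := hX
    rw [e1, e2]
    set y2 := cur s (pderiv 2 F1) + Polynomial.C c * Polynomial.X ^ (k + 1) * b2 with hy2
    refine ⟨g + Polynomial.C c ^ 2 * Polynomial.X ^ k * b1 +
      Polynomial.C c * (s.derivative + Polynomial.C c * ((k : Polynomial ℂ) + 1) *
        Polynomial.X ^ k) * y2, ?_⟩
    have hd : (s + Polynomial.C c * Polynomial.X ^ (k + 1)).derivative =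
        s.derivative + Polynomial.C c * ((k : Polynomial ℂ) + 1) * Polynomial.X ^ k := by
      simp [Polynomial.derivative_X_pow_succ, mul_assoc]
    rw [hd]
    linear_combination he + Polynomial.X ^ (k + 1) * hg

/-- Near a singular point at infinity the closed invariant coneq is tangent to high order to the
jet of the separatrix. -/
theorem coneq {d : ℕ} {F1 F2 : MP} (H : Hyq d F1 F2) {Cb : Set E} (hcl : IsClosed Cb)
    (hsmul : ∀ z ∈ Cb, ∀ c : ℂ, c ≠ 0 → c • z ∈ Cb)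
    (hstay : ∀ q ∈ Cb, ∀ i j : Fin 3, q i * W F1 F2 q j - q j * W F1 F2 q i ≠ 0 →
      Stay F1 F2 Cb q)
    (hno : ∀ a : ℂ, (![0, 1, a] : E) ∈ Cb → (res (RR F1 F2)).eval a = 0) {u : ℂ}
    (hu : (res (RR F1 F2)).eval u = 0) {k : ℕ} {s : Polynomial ℂ} (hs0 : s.eval 0 = u)
    (hs : Polynomial.X ^ (k + 1) ∣ cur s (RR F1 F2) + s.derivative * Polynomial.X * cur s F1) :
    ∃ K δ : ℝ, 0 < δ ∧ ∀ w v : ℂ, ‖w‖ ≤ δ → ‖v‖ ≤ δ → (![w, 1, s.eval w + v] : E) ∈ Cb →
      ‖v‖ ≤ K * ‖w‖ ^ (k + 1) := by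
  obtain ⟨e, he⟩ := hs
  have hinf := H.inf u hu
  set β := (res (RR F1 F2)).derivative.eval u with hβ
  set f := (res F1).eval u with hf
  have hβ0 : β ≠ 0 := by
    intro h; apply hinf; simp [h]
  let κ : ℝ := ((f / β).re - 1) / (f / β).im
  let ω : ℂ := (1 + κ * Complex.I) / β
  have hω1 : (ω * β).re = 1 := by
    have : ω * β = 1 + κ * Complex.I := div_mul_cancel₀ _ hβ0
    rw [this]; simp
  have hω2 : (ω * f).re = 1 := by
    have : ω * f = (1 + κ * Complex.I) * (f / β) := by simp only [ω]; ring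
    rw [this, Complex.mul_re]
    simp only [Complex.add_re, Complex.one_re, Complex.mul_re, Complex.ofReal_re, Complex.I_re,
      mul_zero, Complex.ofReal_im, Complex.I_im, mul_one, sub_self, add_zero, one_mul,
      Complex.add_im, Complex.one_im, Complex.mul_im, zero_add, κ]
    field_simp
    ring
  obtain ⟨Q1, c1, e1, d1⟩ := divdiff (RR F1 F2)
  obtain ⟨Q2, c2, e2, -⟩ := divdiff F1
  let Q : ℂ × ℂ → ℂ := fun p => Q1 (p.1, s.eval p.1, p.2) +
    s.derivative.eval p.1 * p.1 * Q2 (p.1, s.eval p.1, p.2)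
  have cQ : Continuous Q := by fun_prop
  have Q0 : Q 0 = β := by simp [Q, d1, hs0, hβ, eval_derivative_res]
  have hN : ∀ w v : ℂ, eval ![w, 1, s.eval w + v] (RR F1 F2) +
      s.derivative.eval w * w * eval ![w, 1, s.eval w + v] F1 =
      w ^ (k + 1) * e.eval w + v * Q (w, v) := by
    intro w v
    have := congrArg (Polynomial.eval w) he
    simp only [Polynomial.eval_add, Polynomial.eval_mul, eval_cur, Polynomial.eval_X,
      Polynomial.eval_pow] at this
    rw [e1, e2, ← this]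
    simp only [Q]
    ring
  have cF : Continuous fun p : ℂ × ℂ => eval ![p.1, 1, s.eval p.1 + p.2] F1 :=
    (contDiff_eval F1 (n := 0)).continuous.comp (continuous_chart s)
  set B : ℝ := ‖ω * e.eval 0‖ + 1 with hB
  have v1 : ∀ᶠ p in 𝓝 (0 : ℂ × ℂ), 1 / 2 < (ω * Q p).re := by
    have : Continuous fun p => (ω * Q p).re := by fun_prop
    exact this.continuousAt.eventually (lt_mem_nhds (by simp only [Q0, hω1]; norm_num))
  have v2 : ∀ᶠ p in 𝓝 (0 : ℂ × ℂ), 0 < (ω * eval ![p.1, 1, s.eval p.1 + p.2] F1).re := by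
    have : Continuous fun p : ℂ × ℂ => (ω * eval ![p.1, 1, s.eval p.1 + p.2] F1).re := by fun_prop
    refine this.continuousAt.eventually (lt_mem_nhds ?_)
    simp only [Prod.fst_zero, Prod.snd_zero, add_zero, hs0, ← eval_res, ← hf, hω2]
    norm_num
  have v3 : ∀ᶠ p in 𝓝 (0 : ℂ × ℂ), ‖ω * e.eval p.1‖ < B := by
    have : Continuous fun p : ℂ × ℂ => ‖ω * e.eval p.1‖ := by fun_prop
    exact this.continuousAt.eventually (gt_mem_nhds (by simp [hB]))
  obtain ⟨ρ, hρ, hb⟩ := Metric.nhds_basis_closedBall.eventually_iff.1 (v1.and (v2.and v3))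
  have hb' : ∀ w v : ℂ, ‖w‖ ≤ ρ → ‖v‖ ≤ ρ → 1 / 2 < (ω * Q (w, v)).re ∧
      0 < (ω * eval ![w, 1, s.eval w + v] F1).re ∧ ‖ω * e.eval w‖ < B := fun w v hw hv =>
    hb (x := (w, v)) (by simp [Prod.norm_def, hw, hv])
  have hZ : IsClosed {p : ℂ × ℂ | (![p.1, 1, s.eval p.1 + p.2] : E) ∈ Cb} :=
    hcl.preimage (continuous_chart s)
  have hT : IsCompact (closedBall (0 : ℂ) ρ ×ˢ sphere (0 : ℂ) ρ ∩
      {p : ℂ × ℂ | (![p.1, 1, s.eval p.1 + p.2] : E) ∈ Cb}) :=
    ((isCompact_closedBall _ _).prod (isCompact_sphere _ _)).inter_right hZ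
  obtain ⟨μ, hμ, hμ'⟩ := hT.exists_forall_le' (f := fun p => ‖p.1‖) (a := 0)
    continuous_fst.norm.continuousOn (by
      rintro ⟨w, v⟩ ⟨⟨-, hv⟩, hp⟩
      have hv' : ‖v‖ = ρ := by simpa using hv
      refine norm_pos_iff.2 fun hw => ?_
      simp only at hw
      subst hw
      have h1 := hno _ hp
      have h2 := hN 0 v
      rw [eval_res] at h1
      simp only at h1
      rw [h1] at h2
      simp only [mul_zero, zero_mul, add_zero, ne_eq, Nat.add_eq_zero_iff, one_ne_zero, and_false,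
        not_false_eq_true, zero_pow, zero_add, zero_eq_mul] at h2
      have h3 := (hb' 0 v (by simpa using hρ.le) hv'.le).1
      rcases h2 with h2 | h2
      · rw [h2, norm_zero] at hv'; linarith
      · rw [h2] at h3; norm_num at h3)
  refine ⟨2 * B, min ρ (μ / 2), by positivity, fun w₀ v₀ hw₀ hv₀ hq₀ => ?_⟩
  by_contra hcon
  push Not at hcon
  have hw1 : ‖w₀‖ ≤ ρ := hw₀.trans (min_le_left _ _)
  have hw2 : ‖w₀‖ ≤ μ / 2 := hw₀.trans (min_le_right _ _)
  have hZc : IsCompact (closedBall (0 : ℂ) ‖w₀‖ ×ˢ closedBall (0 : ℂ) ρ ∩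
      {p : ℂ × ℂ | (![p.1, 1, s.eval p.1 + p.2] : E) ∈ Cb}) :=
    ((isCompact_closedBall _ _).prod (isCompact_closedBall _ _)).inter_right hZ
  have hm₀ : (w₀, v₀) ∈ closedBall (0 : ℂ) ‖w₀‖ ×ˢ closedBall (0 : ℂ) ρ ∩
      {p : ℂ × ℂ | (![p.1, 1, s.eval p.1 + p.2] : E) ∈ Cb} :=
    ⟨⟨by simp, by simpa using hv₀.trans (min_le_left _ _)⟩, hq₀⟩
  obtain ⟨⟨w, v⟩, ⟨⟨hw, hv⟩, hq⟩, hmax⟩ := hZc.exists_isMaxOn ⟨_, hm₀⟩
    (f := fun p => ‖p.2‖) continuous_snd.norm.continuousOn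
  have hw' : ‖w‖ ≤ ‖w₀‖ := by simpa using hw
  have hv' : ‖v‖ ≤ ρ := by simpa using hv
  have hv0 : ‖v₀‖ ≤ ‖v‖ := hmax hm₀
  have hvρ : ‖v‖ < ρ := by
    refine lt_of_le_of_ne hv' fun h => ?_
    have := hμ' (w, v) ⟨⟨by simpa using hw'.trans hw1, by simpa using h⟩, hq⟩
    simp only at this
    linarith
  obtain ⟨b1, b2, b3⟩ := hb' w v (hw'.trans hw1) hv'
  have hB0 : 0 < B := by positivity
  have hlt : 2 * B * ‖w‖ ^ (k + 1) < ‖v‖ := by
    refine lt_of_le_of_lt ?_ (hcon.trans_le hv0)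
    gcongr
  have hvpos : 0 < ‖v‖ := lt_of_le_of_lt (by positivity) hlt
  obtain ⟨w', v', a1, a2, a3, a4⟩ := cone_step hsmul hstay s (ω := ω) hq hvρ b2 (by
    rw [hN]
    have h1 : starRingEnd ℂ v * (ω * (w ^ (k + 1) * e.eval w + v * Q (w, v))) =
        starRingEnd ℂ v * w ^ (k + 1) * (ω * e.eval w) + ((‖v‖ ^ 2 : ℝ) : ℂ) * (ω * Q (w, v)) := by
      rw [← Complex.normSq_eq_norm_sq, Complex.normSq_eq_conj_mul_self]
      ring
    rw [h1, Complex.add_re, Complex.re_ofReal_mul]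
    have h2 : |(starRingEnd ℂ v * w ^ (k + 1) * (ω * e.eval w)).re| ≤
        ‖v‖ * (‖w‖ ^ (k + 1) * B) := by
      refine (Complex.abs_re_le_norm _).trans ?_
      rw [norm_mul, norm_mul, Complex.norm_conj, norm_pow, mul_assoc]
      gcongr
    have h3 := (abs_le.1 h2).1
    nlinarith [mul_lt_mul_of_pos_left hlt hvpos, mul_lt_mul_of_pos_left b1 (pow_pos hvpos 2)])
  have := hmax (a := (w', v')) ⟨⟨by simpa using a1.trans hw', by simpa using a3.le⟩, a4⟩
  simp only [mem_ofPred_eq] at this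
  linarith

/-- The point `(0, 0, c)` is not in the closed invariant coneq. -/
theorem not_poleq {d : ℕ} {F1 F2 : MP} (H : Hyq d F1 F2) {Cb : Set E}
    (hsmul : ∀ z ∈ Cb, ∀ c : ℂ, c ≠ 0 → c • z ∈ Cb)
    (hstay : ∀ q ∈ Cb, ∀ i j : Fin 3, q i * W F1 F2 q j - q j * W F1 F2 q i ≠ 0 →
      Stay F1 F2 Cb q)
    (hno : ∀ a : ℂ, (![0, 1, a] : E) ∈ Cb → (res (RR F1 F2)).eval a = 0) :
    (![0, 0, 1] : E) ∉ Cb := by
  intro hq
  obtain ⟨γ, h0, hγ⟩ := hstay _ hq 2 1 (by simpa [W] using H.top)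
  have d1 : HasDerivAt (fun t => γ t 1) (eval ![0, 0, 1] F1) 0 := by
    simpa [W, h0] using hasDerivAt_pi.1 hγ.self_of_nhds.1 1
  have e1 := d1.eventually_ne (c := 0) H.top
  have hc : ContinuousAt (fun t => eval (γ t) (RR F1 F2)) 0 :=
    (hasDerivAt_eval _ hγ.self_of_nhds.1).continuousAt
  have e2 : ∀ᶠ t in 𝓝 (0 : ℂ), eval (γ t) (RR F1 F2) ≠ 0 :=
    hc.eventually_ne (by simpa [h0, RR] using H.top)
  obtain ⟨t, a1, a2, a3⟩ := (e1.and ((e2.and hγ).filter_mono nhdsWithin_le_nhds)).exists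
  have h1 := hsmul _ a3.2.1 (γ t 1)⁻¹ (inv_ne_zero a1)
  have h2 : (γ t 1)⁻¹ • γ t = ![0, 1, (γ t 1)⁻¹ * γ t 2] := by
    ext i
    fin_cases i
    · simp [a3.2.2]
    · simp [a1]
    · simp
  have hR : (RR F1 F2).IsHomogeneous (1 + d) :=
    ((isHomogeneous_X ℂ 1).mul H.h2).sub ((isHomogeneous_X ℂ 2).mul H.h1)
  have h3 := hno _ (h2 ▸ h1)
  rw [eval_res, ← h2, eval_smul_of_hom hR] at h3
  exact mul_ne_zero (pow_ne_zero _ (inv_ne_zero a1)) a2 h3

/-- A non-algebraic invariant coneq accumulates at a regular point of the line at infinity. -/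
theorem accq {d : ℕ} {F1 F2 : MP} (H : Hyq d F1 F2) (C : Set E)
    (hsmul : ∀ z ∈ C, ∀ c : ℂ, c ≠ 0 → c • z ∈ C)
    (h0 : ∀ z ∈ C, z 0 ≠ 0)
    (hflow : ∀ (γ : ℂ → E) (r : ℝ), 0 < r →
      (∀ t ∈ ball (0 : ℂ) r, HasDerivAt γ (W F1 F2 (γ t)) t ∧ ∀ c : ℂ, W F1 F2 (γ t) ≠ c • γ t) →
      γ 0 ∈ C → ∀ t ∈ ball (0 : ℂ) r, γ t ∈ C)
    (S : Finset E) (hS : ∀ z : E, z 0 = 1 → W F1 F2 z = 0 → ∃ s ∈ S, ∃ t : ℂ, z = t • s)
    (hna : ∀ (k : ℕ) (P : MP), 0 < k → P.IsHomogeneous k → P ≠ 0 → ∃ z ∈ C, eval z P ≠ 0) :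
    ∃ a : ℂ, (res (RR F1 F2)).eval a ≠ 0 ∧ (![0, 1, a] : E) ∈ closure C := by
  classical
  by_contra hcon
  have hno : ∀ a : ℂ, (![0, 1, a] : E) ∈ closure C → (res (RR F1 F2)).eval a = 0 := by
    intro a ha
    by_contra h
    exact hcon ⟨a, h, ha⟩
  have hsm : ∀ z ∈ closure C, ∀ c : ℂ, c ≠ 0 → c • z ∈ closure C := fun z hz c hc =>
    map_mem_closure (f := fun z : E => c • z) (continuous_const_smul c) hz
      fun y hy => hsmul y hy c hc
  have hstay : ∀ q ∈ closure C, ∀ i j : Fin 3, q i * W F1 F2 q j - q j * W F1 F2 q i ≠ 0 →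
      Stay F1 F2 (closure C) q := fun q hq i j hij => stay_closure hflow hq hij
  have hR0 : res (RR F1 F2) ≠ 0 := by
    intro h
    apply H.inf 0 (by simp [h])
    simp [h]
  have hj : ∀ (k : ℕ) (u : ℂ), ∃ s : Polynomial ℂ, (res (RR F1 F2)).eval u = 0 →
      s.eval 0 = u ∧ Polynomial.X ^ (k + 1) ∣
        cur s (RR F1 F2) + s.derivative * Polynomial.X * cur s F1 := by
    intro k u
    by_cases hu : (res (RR F1 F2)).eval u = 0
    · obtain ⟨s, hs⟩ := jetsq H hu k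
      exact ⟨s, fun _ => hs⟩
    · exact ⟨0, fun h => absurd h hu⟩
  choose σ hσ using hj
  obtain ⟨n, P, hn, hP, hP0, hPS, hPT⟩ := exists_poly (res (RR F1 F2)).roots.toFinset σ S
  obtain ⟨z, hzC, hz⟩ := hna n P hn hP hP0
  have hz0 := h0 z hzC
  have hx : (z 0)⁻¹ • z ∈ closure C := subset_closure (hsmul z hzC _ (inv_ne_zero hz0))
  have hx0 : ((z 0)⁻¹ • z) 0 = 1 := by simp [hz0]
  have hxP : 0 < ‖eval ((z 0)⁻¹ • z) P‖ := by
    rw [eval_smul_of_hom hP]
    exact norm_pos_iff.2 (mul_ne_zero (pow_ne_zero _ (inv_ne_zero hz0)) hz)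
  set x := (z 0)⁻¹ • z with hxdef
  obtain ⟨R, hR⟩ := small_far hsm hP (η := ‖eval x P‖ / 2) (by
    intro q hq hq0
    by_cases hqC : q ∈ closure C
    swap
    · filter_upwards [isClosed_closure.isOpen_compl.mem_nhds hqC] with y hy hy' using
        absurd hy' hy
    have hq1 : q 1 ≠ 0 := by
      intro hq1
      have hq2 : q 2 ≠ 0 := by
        intro hq2
        apply hq
        ext i
        fin_cases i <;> simp [hq0, hq1, hq2]
      apply not_poleq H hsm hstay hno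
      have e : (![0, 0, 1] : E) = (q 2)⁻¹ • q := by
        ext i
        fin_cases i <;> simp [hq0, hq1, hq2]
      rw [e]
      exact hsm q hqC _ (inv_ne_zero hq2)
    have hu : (res (RR F1 F2)).eval (q 2 / q 1) = 0 := by
      apply hno
      have e : (![0, 1, q 2 / q 1] : E) = (q 1)⁻¹ • q := by
        ext i
        fin_cases i <;> simp [hq0, hq1, div_eq_inv_mul]
      rw [e]
      exact hsm q hqC _ (inv_ne_zero hq1)
    obtain ⟨hs0, hs⟩ := hσ n _ hu
    obtain ⟨K, δ, hδ, hK⟩ := coneq H isClosed_closure hsm hstay hno hu hs0 hs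
    exact small_near hsm hP (hPT _ (by simpa [hR0] using hu)) hδ hK hq0 hq1 hs0.symm
      (by positivity))
  let L : Set E := {y | y ∈ closure C ∧ y 0 = 1}
  have hLc : IsClosed L :=
    isClosed_closure.inter (isClosed_eq (continuous_apply 0) continuous_const)
  have hK : IsCompact (closedBall (0 : E) R ∩ L) := (isCompact_closedBall _ _).inter_right hLc
  have hxK : ∀ y ∈ L, ‖eval x P‖ ≤ ‖eval y P‖ → y ∈ closedBall (0 : E) R ∩ L := by
    intro y hy hle
    refine ⟨mem_closedBall_zero_iff.2 (not_lt.1 fun h => ?_), hy⟩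
    have := hR y hy.1 hy.2 h
    linarith
  let M : Set E := {y | y ∈ L ∧ ∀ x ∈ L, ‖eval x P‖ ≤ ‖eval y P‖}
  have hxL : x ∈ L := ⟨hx, hx0⟩
  have hMeq : M = {y | y ∈ closedBall (0 : E) R ∩ L ∧
      ∀ x ∈ closedBall (0 : E) R ∩ L, ‖eval x P‖ ≤ ‖eval y P‖} := by
    ext y
    refine ⟨fun hy => ⟨hxK y hy.1 (hy.2 x hxL), fun t ht => hy.2 t ht.2⟩,
      fun hy => ⟨hy.1.2, fun t ht => ?_⟩⟩
    rcases le_total ‖eval x P‖ ‖eval t P‖ with h | h
    · exact hy.2 t (hxK t ht h)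
    · exact h.trans (hy.2 x (hxK x hxL le_rfl))
  have hW : ∀ q ∈ M, W F1 F2 q ≠ 0 := by
    intro q hq hW
    obtain ⟨s, hs, t, rfl⟩ := hS q hq.1.2 hW
    have := hq.2 x hxL
    rw [eval_smul_of_hom hP t s, hPS s hs, mul_zero, norm_zero] at this
    linarith
  obtain ⟨q, hq, hq0⟩ := exists_zero_of_compact (F1 := F1) (F2 := F2) (M := M)
    (hMeq ▸ isCompact_argmax hK P) (hMeq ▸ argmax_nonempty hK ⟨x, hxK x hxL le_rfl⟩ P) (by
      intro q hq
      refine (stay_max ?_ P hq.2).1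
      obtain ⟨i, hi⟩ := Function.ne_iff.1 (hW q hq)
      obtain ⟨γ, g0, hγ⟩ := hstay q hq.1.1 0 i (by simpa [hq.1.2, W] using hi)
      refine ⟨γ, g0, ?_⟩
      filter_upwards [hγ] with t ht using ⟨ht.1, ⟨ht.2.1, ht.2.2.trans hq.1.2⟩, ht.2.2⟩)
  exact hW q hq hq0

end Pool.Agent.P.MP_a31c1c_an.Inf
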