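import Pool.Agent.P.MP_a31c1c_an.InfAcc

/-!
Either there is a polynomial inverse integrating factor, or the binary tree of plaques exists.
Passage from homogeneous coordinates to the affine chart.
-/

set_option autoImplicit false

namespace Pool.Agent.P.MP_a31c1c_an.Inf

open MvPolynomial Metric Filter Topology Set AlgAux

/-- A polynomial inverse integrating factor of degree `d + 1`. -/
def Fac (d : ℕ) (F1 F2 Φ : MP) : Prop :=
  Φ.IsHomogeneous (d + 1) ∧ res Φ = res (RR F1 F2) ∧ Df F1 F2 Φ = 0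

/-- First obstruction to a polynomial integrating factor. -/
theorem algq {d : ℕ} {F1 F2 : MP} (H : Hyq d F1 F2) (hno : ¬ ∃ Φ, Fac d F1 F2 Φ) :
    ∃ (p : ℕ) (Φ G : MP), 1 ≤ p ∧ res Φ = res (RR F1 F2) ∧ Φ.IsHomogeneous (d + 1) ∧
      F1 * pderiv 1 Φ + F2 * pderiv 2 Φ - (pderiv 1 F1 + pderiv 2 F2) * Φ = X 0 ^ p * G ∧
      ¬ ∃ c : Polynomial ℂ, res (RR F1 F2) * c.derivative +
        (Polynomial.C (p : ℂ) * (-res F1) - (res (RR F1 F2)).derivative) * c = -res G := by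
  have one := H.one_le
  let S : ℕ → Prop := fun p => ∃ Φ G : MP, res Φ = res (RR F1 F2) ∧ Φ.IsHomogeneous (d + 1) ∧
    Df F1 F2 Φ = X 0 ^ p * G
  have hGhom : ∀ {p : ℕ} {Φ G : MP}, Φ.IsHomogeneous (d + 1) → Df F1 F2 Φ = X 0 ^ p * G →
      G.IsHomogeneous (2 * d - p) ∧ (2 * d < p → G = 0) := by
    intro p Φ G h1 h2
    have := Df_hom (by omega) H.h1 H.h2 h1
    rw [h2, show d + (d + 1) - 1 = 2 * d by omega] at this
    exact hom_of_X0_pow_mul p this
  have hS0 : S 0 := ⟨RR F1 F2, Df F1 F2 (RR F1 F2), rfl, RR_homq H, by simp⟩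
  have hSbig : ¬ S (2 * d + 1) := by
    rintro ⟨Φ, G, h1, h2, h3⟩
    have hG := (hGhom h2 h3).2 (by omega)
    rw [hG, mul_zero] at h3
    exact hno ⟨Φ, h2, h1, h3⟩
  obtain ⟨p, hp, hp'⟩ : ∃ p, S p ∧ ¬ S (p + 1) := by
    by_contra hc
    push Not at hc
    have : ∀ n, S n := fun n => Nat.rec hS0 hc n
    exact hSbig (this _)
  have step : ∀ Φ G : MP, res Φ = res (RR F1 F2) → Φ.IsHomogeneous (d + 1) →
      Df F1 F2 Φ = X 0 ^ p * G → res G ≠ 0 := by
    intro Φ G h1 h2 h3 h4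
    obtain ⟨G', e⟩ := X0_dvd (hGhom h2 h3).1 h4
    exact hp' ⟨Φ, G', h1, h2, by rw [h3, e]; ring⟩
  obtain ⟨Φ, G, h1, h2, h3⟩ := hp
  have hG := step Φ G h1 h2 h3
  have hp1 : 1 ≤ p := by
    rcases Nat.eq_zero_or_pos p with rfl | hpos
    · exfalso
      apply hG
      rw [pow_zero, one_mul] at h3
      rw [← h3, res_Df H.h1 h2, h1]
      push_cast
      rw [show (d : ℂ) + 1 - d - 1 = 0 by ring, map_zero]
      ring
    · exact hpos
  refine ⟨p, Φ, G, hp1, h1, h2, h3, ?_⟩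
  rintro ⟨c, hc⟩
  have hc0 : c ≠ 0 := by
    rintro rfl
    apply hG
    simpa using hc.symm
  have hm : c.natDegree + p ≤ d + 1 := by
    by_contra hlt
    obtain ⟨K, hK, hKc⟩ := exists_hom_res (c := c) le_rfl
    have e1 := res_Df (F2 := F2) H.h1 hK
    rw [hKc] at e1
    have e2 : Polynomial.C ((c.natDegree : ℂ) + p - d - 1) * (res F1 * c) =
        res (Df F1 F2 K) + res G := by
      rw [e1]
      simp only [map_sub, map_add, map_one]
      linear_combination -hc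
    have hne : (c.natDegree : ℂ) + p - d - 1 ≠ 0 := by
      intro h
      have : ((c.natDegree + p : ℕ) : ℂ) = ((d + 1 : ℕ) : ℂ) := by
        push_cast
        linear_combination h
      have := Nat.cast_injective this
      omega
    have d1 := natDegree_res_le (Df_hom (by omega) H.h1 H.h2 hK)
    have d2 := natDegree_res_le (hGhom h2 h3).1
    have d3 := Polynomial.natDegree_add_le_of_degree_le (n := d + c.natDegree - 1) d1
      (d2.trans (by omega))
    rw [← e2, Polynomial.natDegree_C_mul hne, Polynomial.natDegree_mul (f1_neq H) hc0,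
      Polynomial.natDegree_eq_of_degree_eq_some (degree_f1q H)] at d3
    omega
  obtain ⟨K, hK, hKc⟩ := exists_hom_res (c := c) (n := d + 1 - p) (by omega)
  refine step (Φ + X 0 ^ p * K) (G + Df F1 F2 K) ?_ ?_ ?_ ?_
  · rw [res_add, res_mul, res_pow, res_X0, zero_pow (by omega), zero_mul, add_zero, h1]
  · have := (isHomogeneous_X_pow (R := ℂ) (0 : Fin 3) p).mul hK
    rw [show p + (d + 1 - p) = d + 1 by omega] at this
    exact h2.add this
  · rw [Df_add_mul, h3]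
    ring
  · rw [res_add, res_Df H.h1 hK, hKc, Nat.cast_sub (by omega)]
    push_cast
    rw [show (d : ℂ) + 1 - p - d - 1 = -p by ring, map_neg]
    linear_combination hc

/-- A bounded non-constant function on the affine leaf with non-negative Laplacian. -/
def Gr (v : E → E) (Λ : Set E) : Prop :=
  ∃ g : E → ℝ, (∃ M, ∀ z ∈ Λ, |g z| ≤ M) ∧
    (∀ Γ t, TG v Γ t → Γ t ∈ Λ →
      ContDiffAt ℝ 2 (fun s => g (Γ s)) t ∧ 0 ≤ lap (fun s => g (Γ s)) t) ∧
    ∃ q₁ ∈ Λ, ∃ q₂ ∈ Λ, g q₁ ≠ g q₂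

theorem coreq {d : ℕ} {F1 F2 : MP} (Hy : Hyq d F1 F2) (hf : ¬ ∃ Φ, Fac d F1 F2 Φ) {Λ : Set E}
    {p : E} (H : IsLeaf (W F1 F2) Λ p) {a : ℂ} (ha : (res (RR F1 F2)).eval a ≠ 0)
    (h : ∀ ε : ℝ, 0 < ε → ∃ u w : ℂ, dist u a < ε ∧ Dat.In Λ u ε w) : Gr (W F1 F2) Λ := by
  obtain ⟨k, Φ, G, hk, hres, hΦ, hG, hno⟩ := algq Hy hf
  have h1 : res (RR F1 F2 - Φ) = 0 := by rw [AlgAux.res_sub, hres, sub_self]
  obtain ⟨B, hB⟩ := AlgAux.X0_dvd ((RR_homq Hy).sub hΦ) h1
  refine Dat.core (D := ⟨d, k, F1, F2, Φ, B, G, hk, Hy.h1, Hy.h2, hΦ, hB, hG⟩) H ?_ ?_ ?_ hno ha h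
  · simp only [Dat.A, Dat.R, Polynomial.degree_neg, degree_f1q Hy, degree_Rq Hy]
    exact_mod_cast Nat.lt_succ_self d
  · simp only [Dat.R, degree_Rq Hy]
    exact_mod_cast Nat.succ_pos d
  · intro u hu
    have := Hy.inf u hu
    simpa [Dat.A, Dat.R, neg_div] using this

/-- Decomposition of the field into a radial part and a field with zero first coordinate. -/
structure Dec (d : ℕ) (F : Fin 3 → MP) (G F1 F2 : MP) : Prop where
  hd : 1 ≤ d
  hF : ∀ i, (F i).IsHomogeneous d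
  hG : F 0 = X 0 * G
  hF1 : F 1 = F1 + X 1 * G
  hF2 : F 2 = F2 + X 2 * G
  h1 : F1.IsHomogeneous d
  h2 : F2.IsHomogeneous d
  hGh : G.IsHomogeneous (d - 1)

/-- Hyperbolicity of the singular points on the line `z 0 = 0`. -/
def EigI (d : ℕ) (F : Fin 3 → MP) : Prop :=
  ∀ (a : E) (c : ℂ), a ≠ 0 → a 0 = 0 → VP F a = c • a → ∃ ν₁ ν₂ : ℂ,
    (∀ x : ℂ, (Matrix.scalar (Fin 3) x - Matrix.of fun i j => eval a (pderiv j (F i))).det =
      (x - d * c) * (x - (ν₁ + c)) * (x - (ν₂ + c))) ∧ (ν₁ / ν₂).im ≠ 0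

/-- The leaf is not contained in an algebraic curve. -/
def NA (F : Fin 3 → MP) (p : E) : Prop :=
  ¬ ∃ (k : ℕ) (P : MP), 0 < k ∧ P.IsHomogeneous k ∧ P ≠ 0 ∧ ∀ q, LP (VP F) p q → eval q P = 0

/-- The leaf in the affine chart. -/
def Lam (F : Fin 3 → MP) (p : E) : Set E := {z | LP (VP F) p z ∧ z 0 = 1}

theorem ne0 (z : E) (hz : z 0 = 1) : z ≠ 0 := fun e => by simp [e] at hz

theorem euler {H : MP} {n : ℕ} (h : H.IsHomogeneous n) (z : E) : z 0 * eval z (pderiv 0 H) +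
    z 1 * eval z (pderiv 1 H) + z 2 * eval z (pderiv 2 H) = n * eval z H := by
  simpa [Fin.sum_univ_three] using congrArg (eval z) h.sum_X_mul_pderiv

variable {d : ℕ} {F : Fin 3 → MP} {G F1 F2 : MP} {p : E}

theorem exists_dec (hd : 1 ≤ d) (hF : ∀ i, (F i).IsHomogeneous d)
    (hinv : ∀ z : E, z 0 = 0 → VP F z 0 = 0) : ∃ G F1 F2, Dec d F G F1 F2 := by
  obtain ⟨G, hG⟩ := AlgAux.X0_dvd (hF 0) (Polynomial.funext fun u => by
    rw [eval_res, Polynomial.eval_zero]; exact hinv _ rfl)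
  have hGh : G.IsHomogeneous (d - 1) := (AlgAux.hom_of_X0_mul (hG ▸ hF 0)).1
  have hXG : ∀ i, (X i * G : MP).IsHomogeneous d := fun i => by
    have := (isHomogeneous_X ℂ i).mul hGh
    rwa [show 1 + (d - 1) = d by omega] at this
  exact ⟨G, F 1 - X 1 * G, F 2 - X 2 * G, hd, hF, hG, by ring, by ring, (hF 1).sub (hXG 1),
    (hF 2).sub (hXG 2), hGh⟩

namespace Dec

theorem hV (D : Dec d F G F1 F2) (z : E) : VP F z = W F1 F2 z + eval z G • z := by
  ext i
  fin_cases i <;> simp [VP, W, D.hG, D.hF1, D.hF2, mul_comm]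

theorem hsing (D : Dec d F G F1 F2) (z : E) (c : ℂ) (hz : z ≠ 0) (e : W F1 F2 z = c • z) :
    SingP (VP F) z := ⟨hz, c + eval z G, by rw [D.hV, e, add_smul]⟩

theorem hsing' (D : Dec d F G F1 F2) (z : E) (h : SingP (VP F) z) : ∃ c : ℂ, W F1 F2 z = c • z := by
  obtain ⟨_, c, e⟩ := h
  exact ⟨c - eval z G, by rw [sub_smul, ← e, D.hV, add_sub_cancel_right]⟩

theorem hyq (D : Dec d F G F1 F2) (heig : EigI d F) (htop : ¬ SingP (VP F) ![0, 0, 1]) :
    Hyq d F1 F2 := by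
  have hV := D.hV
  have hsing := D.hsing
  obtain ⟨hd, hF, hG, hF1, hF2, h1, h2, hGh⟩ := D
  have hd1 : ((d - 1 : ℕ) : ℂ) = d - 1 := by rw [Nat.cast_sub (by omega)]; simp
  refine ⟨hd, h1, h2, fun e => htop (hsing _ (eval ![0, 0, 1] F2) (by simp) ?_),
    fun u hu => ?_⟩
  · ext i
    fin_cases i <;> simp [W, e]
  · rw [eval_derivative_res]
    rw [eval_res] at hu ⊢
    set a : E := ![0, 1, u] with ha
    have a0 : a 0 = 0 := rfl
    have a1 : a 1 = 1 := rfl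
    have a2 : a 2 = u := rfl
    have e0 : eval a F2 = u * eval a F1 := by
      simpa [RR, a1, a2, sub_eq_zero] using hu
    obtain ⟨ν₁, ν₂, hν, him⟩ := heig a (eval a F1 + eval a G) (by simp [ha]) a0 (by
      rw [hV, add_smul]
      congr 1
      ext i
      fin_cases i <;> simp [W, e0, a0, a1, a2, mul_comm])
    have e1 := euler h1 a
    have e2 := euler h2 a
    have e3 := euler hGh a
    rw [a0, a1, a2, zero_mul, zero_add, one_mul, ← eq_sub_iff_add_eq] at e1 e2 e3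
    have e4 : eval a (pderiv 2 (RR F1 F2)) =
        eval a (pderiv 2 F2) - eval a F1 - u * eval a (pderiv 2 F1) := by
      simp [RR, pderiv_X, a1, a2]; ring
    obtain ⟨e5, e6⟩ := two_eq (e := (d - 1) * (eval a F1 + eval a G))
      (t := -eval a F1 + eval a (pderiv 2 (RR F1 F2)))
      (D := -eval a F1 * eval a (pderiv 2 (RR F1 F2))) (ν₁ := ν₁) (ν₂ := ν₂) fun x => by
      have := hν (x + (eval a F1 + eval a G))
      rw [Matrix.det_fin_three] at this
      simp [hG, hF1, hF2, pderiv_X, a0, a1, a2] at this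
      rw [e1, e2, e3, e0, hd1] at this
      rw [e4]
      linear_combination this
    set f := eval a F1
    set r := eval a (pderiv 2 (RR F1 F2))
    have e7 : (ν₁ + f) * (ν₁ - r) = 0 := by linear_combination -ν₁ * e5 + e6
    rcases mul_eq_zero.1 e7 with e8 | e8
    · have e9 : ν₁ = -f := by linear_combination e8
      have e10 : ν₂ = r := by linear_combination -e5 - e8
      rw [e9, e10, neg_div, Complex.neg_im] at him
      exact fun h => him (by rw [h, neg_zero])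
    · have e9 : ν₁ = r := by linear_combination e8
      have e10 : ν₂ = -f := by linear_combination -e5 - e8
      rw [e9, e10, div_neg, Complex.neg_im, ← inv_div, Complex.inv_im] at him
      exact fun h => him (by rw [h]; simp)

theorem hL0 (D : Dec d F G F1 F2) (hna : NA F p) : ∀ q, LP (VP F) p q → q 0 ≠ 0 := by
  have hG := D.hG
  have key : ∀ q, LP (VP F) p q → (p 0 = 0 ↔ q 0 = 0) := by
    intro q hq
    induction hq with
    | refl => rfl
    | tail _ h ih =>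
      obtain ⟨φ, hφ, s, hs, t, ht, a, b, e, e'⟩ := h
      have ha : a ≠ 0 := left_ne_zero_of_smul (e ▸ (hφ.2 s hs).1)
      have hb : b ≠ 0 := left_ne_zero_of_smul (e' ▸ (hφ.2 t ht).1)
      have k1 := hφ.zero hG hs ht
      have k2 := hφ.zero hG ht hs
      simp only [e, e', Pi.smul_apply, smul_eq_mul, mul_eq_zero, ha, hb, false_or] at k1 k2
      exact ih.trans ⟨k1, k2⟩
  intro q hq h
  exact hna ⟨1, X 0, one_pos, isHomogeneous_X ℂ 0, X_ne_zero 0, fun q' hq' => by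
    rw [eval_X]; exact (key q' hq').1 ((key q hq).2 h)⟩

theorem hnorm (D : Dec d F G F1 F2) (h0 : p ≠ 0) (hp : ¬ SingP (VP F) p) (hna : NA F p) :
    ∀ q, LP (VP F) p q → (q 0)⁻¹ • q ∈ Lam F p := fun q hq =>
  ⟨hq.smul D.hF h0 hp (inv_ne_zero (D.hL0 hna q hq)), by simp [D.hL0 hna q hq]⟩

theorem hne (D : Dec d F G F1 F2) (h0 : p ≠ 0) (hp : ¬ SingP (VP F) p) :
    ∀ z ∈ Lam F p, W F1 F2 z ≠ 0 := fun z hz e =>
  (hz.1.reg D.hF h0 hp).2 (D.hsing z 0 (ne0 z hz.2) (by simpa using e))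

theorem htc (D : Dec d F G F1 F2) (h0 : p ≠ 0) (hp : ¬ SingP (VP F) p) (hna : NA F p) :
    ∀ φ, TanP (VP F) φ → (∀ t ∈ ball (0 : ℂ) 1, LP (VP F) p (φ t)) →
      TC (W F1 F2) (fun t => (φ t 0)⁻¹ • φ t) 0 1 := by
  have hV := D.hV
  have hL0 := D.hL0 hna
  have hnorm := D.hnorm h0 hp hna
  have hne := D.hne h0 hp
  have h1 := D.h1
  have h2 := D.h2
  intro φ hφ hL t ht
  obtain ⟨-, -, α, β, e⟩ := hφ.2 t ht
  have k0 := hL0 _ (hL t ht)
  have k1 := hφ.hasDerivAt ht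
  have k2 := ((hasDerivAt_pi.1 k1 0).inv k0).smul k1
  refine ⟨hne _ (hnorm _ (hL t ht)), β * φ t 0 ^ d / φ t 0, k2.congr_deriv ?_⟩
  have w0 : ∀ z, W F1 F2 z 0 = 0 := fun _ => rfl
  have w1 : ∀ z, W F1 F2 z 1 = eval z F1 := fun _ => rfl
  have w2 : ∀ z, W F1 F2 z 2 = eval z F2 := fun _ => rfl
  rw [e, hV]
  ext i
  fin_cases i <;>
    simp [w0, w1, w2, eval_smul_of_hom h1, eval_smul_of_hom h2] <;> field_simp <;> ring

theorem leaf (D : Dec d F G F1 F2) (h0 : p ≠ 0) (hp : ¬ SingP (VP F) p) (hna : NA F p) :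
    IsLeaf (W F1 F2) (Lam F p) ((p 0)⁻¹ • p) := by
  have hV := D.hV
  have hsing' := D.hsing'
  have hnorm := D.hnorm h0 hp hna
  have hne := D.hne h0 hp
  have htc := D.htc h0 hp hna
  refine ⟨contDiff_W F1 F2, hnorm p Relation.ReflTransGen.refl, hne,
    fun Γ a ρ hΓ s hs t ht hΛ => ?_, fun Ω hΩ hst z hz => ?_⟩
  · have k0 : ∀ t ∈ ball a ρ, Γ t 0 = 1 := fun t ht => by
      have := gronwall (y := fun t => Γ t 0 - 1) (y' := fun _ => 0) (K := 0) (convex_ball a ρ)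
        (fun t ht => by
          obtain ⟨-, κ, hκ⟩ := hΓ t ht
          simpa [W] using (hasDerivAt_pi.1 hκ 0).sub_const 1)
        (fun _ _ => by simp) hs ht
      simpa [hΛ.2, sub_eq_zero] using this
    refine ⟨LP.along (fun t ht => ⟨ne0 _ (k0 t ht), fun h => ?_, ?_⟩) hs ht hΛ.1, k0 t ht⟩
    · obtain ⟨c, hc⟩ := hsing' _ h
      have : c = 0 := by simpa [W, k0 t ht] using (congrFun hc 0).symm
      exact (hΓ t ht).1 (by rw [hc, this, zero_smul])
    · obtain ⟨-, κ, hκ⟩ := hΓ t ht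
      refine ⟨-(κ * eval (Γ t) G), κ, hκ.congr_deriv ?_⟩
      rw [hV, smul_add, smul_smul, neg_smul]; abel
  · have key : ∀ q, LP (VP F) p q → (q 0)⁻¹ • q ∈ Ω := by
      intro q hq
      induction hq with
      | refl => exact hΩ
      | @tail x y hx h ih =>
        obtain ⟨φ, hφ, s, hs, t, ht, a, b, e, e'⟩ := h
        have ha : a ≠ 0 := left_ne_zero_of_smul (e ▸ (hφ.2 s hs).1)
        have hb : b ≠ 0 := left_ne_zero_of_smul (e' ▸ (hφ.2 t ht).1)
        have hL : ∀ t ∈ ball (0 : ℂ) 1, LP (VP F) p (φ t) := fun t ht =>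
          Relation.ReflTransGen.tail hx ⟨φ, hφ, s, hs, t, ht, a, 1, e, by simp⟩
        have k : ∀ (c : ℂ) (x : E), c ≠ 0 → ((c • x) 0)⁻¹ • c • x = (x 0)⁻¹ • x :=
          fun c x hc => by
            rw [smul_smul, Pi.smul_apply, smul_eq_mul, mul_inv, mul_right_comm,
              inv_mul_cancel₀ hc, one_mul]
        have := hst _ 0 1 (htc φ hφ hL) s hs t ht (hnorm _ (hL s hs))
          (by simp only [e, k a x ha]; exact ih)
        simpa only [e', k b y hb] using this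
    simpa [hz.2] using key z hz.1

theorem accum (D : Dec d F G F1 F2) (Hy : Hyq d F1 F2)
    (hS : ∃ S : Finset E, ∀ z, SingP (VP F) z → ∃ s ∈ S, ∃ t : ℂ, z = t • s)
    (h0 : p ≠ 0) (hp : ¬ SingP (VP F) p) (hna : NA F p) :
    ∃ a, (res (RR F1 F2)).eval a ≠ 0 ∧
      ∀ ε : ℝ, 0 < ε → ∃ u w : ℂ, dist u a < ε ∧ Dat.In (Lam F p) u ε w := by
  have hV := D.hV
  have hsing := D.hsing
  have hsing' := D.hsing'
  have hL0 := D.hL0 hna
  have hnorm := D.hnorm h0 hp hna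
  obtain ⟨hd, hF, hG, hF1, hF2, h1, h2, hGh⟩ := D
  obtain ⟨S, hS⟩ := hS
  obtain ⟨a, ha, hcl⟩ := accq Hy {q | LP (VP F) p q} (fun z hz c hc => hz.smul hF h0 hp hc) hL0
    (fun γ r hr hγ hγ0 t ht => LP.along (fun t ht => ⟨fun e => (hγ t ht).2 0 (by
        have k1 := eval_smul_of_hom h1 0 0
        have k2 := eval_smul_of_hom h2 0 0
        rw [zero_pow (by omega), zero_mul, zero_smul] at k1 k2
        rw [e, zero_smul]
        exact AlgAux.W_eq_zero.2 ⟨k1, k2⟩), fun h => by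
          obtain ⟨c, hc⟩ := hsing' _ h
          exact (hγ t ht).2 c hc,
        -eval (γ t) G, 1, (hγ t ht).1.congr_deriv (by rw [hV, one_smul, neg_smul]; abel)⟩)
      (mem_ball_self hr) ht hγ0)
    S (fun z hz hW => hS z (hsing z 0 (ne0 z hz) (by simpa using hW)))
    (fun k P hk hP hP0 => by
      by_contra hc
      push Not at hc
      exact hna ⟨k, P, hk, hP, hP0, hc⟩)
  refine ⟨a, ha, fun ε hε => ?_⟩
  have c1 : ∀ i, ContinuousAt (fun z : E => z i / z 1) ![0, 1, a] := fun i =>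
    (continuous_apply i).continuousAt.div (continuous_apply 1).continuousAt (by simp)
  have n1 : ∀ᶠ z : E in 𝓝 ![0, 1, a], z 1 ≠ 0 :=
    (continuous_apply 1).continuousAt.eventually_ne (by simp)
  have n2 : ∀ᶠ z : E in 𝓝 ![0, 1, a], z 2 / z 1 ∈ ball a ε :=
    c1 2 (by simpa using ball_mem_nhds a hε)
  have n3 : ∀ᶠ z : E in 𝓝 ![0, 1, a], z 0 / z 1 ∈ ball (0 : ℂ) ε :=
    c1 0 (by simpa using ball_mem_nhds (0 : ℂ) hε)
  obtain ⟨z, ⟨k1, k2, k3⟩, hz⟩ := mem_closure_iff_nhds.1 hcl _ (n1.and (n2.and n3))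
  have k0 := hL0 z hz
  refine ⟨z 2 / z 1, z 0 / z 1, k2, div_ne_zero k0 k1, mem_ball_zero_iff.1 k3, ?_⟩
  have : emb (z 2 / z 1) (z 0 / z 1) = (z 0)⁻¹ • z := by
    ext i
    fin_cases i <;> simp [emb, k0] <;> field_simp
  rw [this]
  exact hnorm z hz

theorem concl (D : Dec d F G F1 F2) (h0 : p ≠ 0) (hp : ¬ SingP (VP F) p) (hna : NA F p)
    (h : Gr (W F1 F2) (Lam F p)) : Concl (VP F) p := by
  have hnorm := D.hnorm h0 hp hna
  have htc := D.htc h0 hp hna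
  obtain ⟨g, ⟨M, hM⟩, hg, q₁, hq₁, q₂, hq₂, hq⟩ := h
  refine ⟨fun q => g ((q 0)⁻¹ • q), ⟨M, fun q hq => hM _ (hnorm q hq)⟩, fun q _ c hc => ?_,
    fun φ hφ hL => ?_, q₁, q₂, hq₁.1, hq₂.1, by simpa [hq₁.2, hq₂.2] using hq⟩
  · simp only
    rw [smul_smul, Pi.smul_apply, smul_eq_mul, mul_inv, mul_right_comm, inv_mul_cancel₀ hc, one_mul]
  · have k := fun t ht => hg _ t ((htc φ hφ hL).tg ht) (hnorm _ (hL t ht))
    exact ⟨ContinuousOn.upperSemicontinuousOn fun t ht => (k t ht).1.continuousAt.continuousWithinAt,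
      fun z r hr hz => submean (f := fun t => g ((φ t 0)⁻¹ • φ t)) hr fun t ht => k t (hz ht)⟩

end Dec

end Pool.Agent.P.MP_a31c1c_an.Inf
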