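import Pool.Agent.P.MP_a31c1c_an.InfChain
import Pool.Agent.P.MP_a31c1c_an.InfRed

/-!
Two families of sectors joined by strips give positive capacity.
-/

set_option autoImplicit false

namespace Pool.Agent.P.MP_a31c1c_an.Inf

open Metric Filter Topology Set MeasureTheory
open scoped ENNReal

variable {v : E → E} {Λ : Set E}

/-- A sector. -/
def Sec (lam x₀ : ℂ) (η : ℝ) : Set ℂ :=
  {t | t.re < x₀.re + η ∧ (lam * t).re < (lam * x₀).re + ‖lam‖ * η}

theorem mem_sec {lam x₀ y t : ℂ} {η : ℝ} (hl : lam ≠ 0) (h1 : y.re ≤ 0) (h2 : (lam * y).re ≤ 0)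
    (ht : ‖t - (x₀ + y)‖ < η) : t ∈ Sec lam x₀ η := by
  have k1 := Complex.re_le_norm (t - (x₀ + y))
  have k2 := Complex.re_le_norm (lam * (t - (x₀ + y)))
  have k3 := mul_lt_mul_of_pos_left ht (norm_pos_iff.2 hl)
  rw [norm_mul, mul_sub, mul_add] at k2
  simp only [Complex.sub_re, Complex.add_re] at k1 k2
  exact ⟨by linarith, by linarith⟩

/-- A family of disjoint embedded sectors in the leaf. -/
structure Cusp (v : E → E) (Λ : Set E) (lam x₀ : ℂ) (η c : ℝ) (G : ℕ → ℂ → E) : Prop where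
  pos : 0 < η
  neg : (lam * (c * Complex.I)).re < 0
  tn : ∀ n, ∀ t ∈ Sec lam x₀ η, Tn v Λ (G n) t
  inj : ∀ n n', ∀ t ∈ Sec lam x₀ η, ∀ t' ∈ Sec lam x₀ η, G n t = G n' t' → n = n' ∧ t = t'

variable {lam x₀ : ℂ} {η c : ℝ} {G : ℕ → ℂ → E}

theorem Cusp.ne (h : Cusp v Λ lam x₀ η c G) : lam ≠ 0 := fun e => by simpa [e] using h.neg

theorem Cusp.mul_le (h : Cusp v Λ lam x₀ η c G) (m : ℕ) :
    (lam * (m * (c * Complex.I))).re ≤ 0 := by
  rw [mul_left_comm, ← Complex.ofReal_natCast, Complex.re_ofReal_mul]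
  exact mul_nonpos_of_nonneg_of_nonpos (Nat.cast_nonneg m) h.neg.le

theorem Cusp.ray (h : Cusp v Λ lam x₀ η c G) {D : ℂ} (hD : D.re < 0) (hlD : (lam * D).re ≤ 0) :
    ∃ r₀ : ℝ, 0 < r₀ ∧ ∀ r ≤ r₀, ∃ C : ℝ, 0 ≤ C ∧ ∀ (φ : E → ℝ) (e : ℝ), 0 ≤ e → Adm v Λ φ →
      Bnd v Λ φ e → ∀ l : ℝ, 0 < l → ∀ (S : Finset (ℕ × ℕ)) (m α : ℕ → ℕ) (K : ℕ),
        (∀ j ∈ S, α j.1 ≤ K) → Function.Injective m →
        ∑ j ∈ S, |av φ (G j.2) (x₀ + m j.1 * (c * Complex.I)) r -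
          av φ (G j.2) (x₀ + m j.1 * (c * Complex.I) + α j.1 * D) r| ≤
          C * (l * (S.card * K) + e / l) := by
  have hD0 : D ≠ 0 := fun e => by simp [e] at hD
  have hc : c ≠ 0 := fun e => by simpa [e] using h.neg
  have hDn := norm_pos_iff.2 hD0
  have hp : 0 < |c| * |D.re| := mul_pos (abs_pos.2 hc) (abs_pos.2 hD.ne)
  have := h.pos
  set δ := min η (|c| * |D.re| / (2 * ‖D‖)) with hδ
  obtain ⟨r₀, hr₀, H⟩ := chain (v := v) (Λ := Λ) hD0 (δ := δ) (by positivity)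
  refine ⟨r₀, hr₀, fun r hr => ?_⟩
  obtain ⟨C, hC, H⟩ := H r hr
  refine ⟨C, hC, fun φ e he hφ hb l hl S m α K hK hm => ?_⟩
  have hsub : ∀ (k : ℕ) (a : ℝ), tube (x₀ + k * (c * Complex.I)) D a δ ⊆ Sec lam x₀ η := by
    rintro k a t ⟨τ, h0, -, ht⟩
    refine mem_sec (y := k * (c * Complex.I) + τ * D) h.ne ?_ ?_
      (by rw [← add_assoc]; exact ht.trans_le (min_le_left _ _))
    · simpa using mul_nonpos_of_nonneg_of_nonpos h0 hD.le
    · rw [mul_add, Complex.add_re, mul_left_comm lam (τ : ℂ), Complex.re_ofReal_mul]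
      linarith [h.mul_le k, mul_nonpos_of_nonneg_of_nonpos h0 hlD]
  refine H φ e he hφ hb l hl S (fun j => G j.2) (fun j => x₀ + m j.1 * (c * Complex.I))
    (fun j => α j.1) K hK (fun j _ t ht => h.tn _ t (hsub _ _ ht))
    fun j _ j' _ t ht t' ht' eq => ?_
  obtain ⟨k1, rfl⟩ := h.inj _ _ t (hsub _ _ ht) t' (hsub _ _ ht') eq
  refine ⟨Prod.ext (hm ?_) k1, rfl⟩
  obtain ⟨τ, -, -, h1⟩ := ht
  obtain ⟨τ', -, -, h2⟩ := ht'
  set a := t - (x₀ + m j.1 * (c * Complex.I) + τ * D)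
  set a' := t - (x₀ + m j'.1 * (c * Complex.I) + τ' * D)
  have k2 : ((a' - a) * (starRingEnd ℂ) D).im = ((m j.1 : ℝ) - m j'.1) * (c * D.re) := by
    simp [a, a']
    ring
  have k3 := Complex.abs_im_le_norm ((a' - a) * (starRingEnd ℂ) D)
  rw [k2, norm_mul, Complex.norm_conj, abs_mul, abs_mul] at k3
  have k4 : δ * (2 * ‖D‖) ≤ |c| * |D.re| := (le_div_iff₀ (by positivity)).1 (min_le_right _ _)
  have k5 : ‖a' - a‖ * ‖D‖ < 2 * δ * ‖D‖ := by
    gcongr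
    linarith [norm_sub_le a' a]
  have k6 : |(m j.1 : ℝ) - m j'.1| < 1 := by
    by_contra k7
    nlinarith [not_lt.1 k7]
  obtain ⟨k7, k8⟩ := abs_lt.1 k6
  have k9 : m j'.1 < m j.1 + 1 := by exact_mod_cast (by linarith : (m j'.1 : ℝ) < m j.1 + 1)
  have k10 : m j.1 < m j'.1 + 1 := by exact_mod_cast (by linarith : (m j.1 : ℝ) < m j'.1 + 1)
  omega

theorem Cusp.spread (h : Cusp v Λ lam x₀ η c G) :
    ∃ r₀ : ℝ, 0 < r₀ ∧ ∀ r ≤ r₀, ∃ C : ℝ, 0 ≤ C ∧ ∀ (φ : E → ℝ) (e : ℝ), 0 ≤ e → Adm v Λ φ →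
      Bnd v Λ φ e → ∀ l : ℝ, 0 < l → ∀ i ≤ 1, ∀ (N : ℕ) (I : Finset ℕ),
        ∑ p ∈ Finset.Ico N (2 * N) ×ˢ I, |av φ (G p.2) (x₀ + p.1 * (c * Complex.I)) r -
          av φ (G p.2) (x₀ + (2 * p.1 + i : ℕ) * (c * Complex.I)) r| ≤
          C * (l * (N * I.card * (2 * N)) + e / l) := by
  have hl := h.ne
  have hn := h.neg
  set D := -(c * Complex.I) / lam with hD
  have e1 : lam * D = -(c * Complex.I) := by rw [hD]; field_simp
  have hD1 : D.re < 0 := by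
    have k := Complex.normSq_pos.2 hl
    simp only [hD, Complex.div_re, Complex.neg_re, Complex.neg_im] at hn ⊢
    simp at hn ⊢
    rw [neg_div, neg_lt_zero]
    exact div_pos (by linarith) k
  obtain ⟨r₀, hr₀, H₀⟩ := h.ray hD1 (by simp [e1])
  obtain ⟨r₁, hr₁, H₁⟩ := h.ray (D := D + c * Complex.I) (by simpa using hD1)
    (by rw [mul_add, e1, Complex.add_re]; simpa using hn.le)
  refine ⟨min r₀ r₁, lt_min hr₀ hr₁, fun r hr => ?_⟩
  obtain ⟨C₀, hC₀, H₀⟩ := H₀ r (hr.trans (min_le_left _ _))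
  obtain ⟨C₁, hC₁, H₁⟩ := H₁ r (hr.trans (min_le_right _ _))
  refine ⟨C₀ + C₁, by positivity, fun φ e he hφ hb l hl i hi N I => ?_⟩
  have hK : ∀ j ∈ Finset.Ico N (2 * N) ×ˢ I, j.1 + i ≤ 2 * N := fun j hj => by
    have := (Finset.mem_Ico.1 (Finset.mem_product.1 hj).1).2
    omega
  have t₀ := H₀ φ e he hφ hb l hl _ (fun m => 2 * m + i) (fun m => m + i) _ hK
    fun a b hab => by simpa using hab
  have t₁ := H₁ φ e he hφ hb l hl _ id (fun m => m + i) _ hK Function.injective_id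
  have hc : (((Finset.Ico N (2 * N) ×ˢ I).card : ℕ) : ℝ) = N * I.card := by simp [two_mul]
  rw [hc] at t₀ t₁
  have := add_le_add t₀ t₁
  rw [← add_mul, ← Finset.sum_add_distrib] at this
  refine le_trans (Finset.sum_le_sum fun p _ => ?_) (this.trans (le_of_eq (by push_cast; ring)))
  have e2 : x₀ + (id p.1 : ℕ) * (c * Complex.I) + (p.1 + i : ℕ) * (D + c * Complex.I) =
      x₀ + (2 * p.1 + i : ℕ) * (c * Complex.I) + (p.1 + i : ℕ) * D := by
    simp only [id]; push_cast; ring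
  rw [e2, abs_sub_comm (av φ (G p.2) (x₀ + (2 * p.1 + i : ℕ) * (c * Complex.I)) r)]
  exact (abs_sub_le _ _ _).trans (le_of_eq (add_comm _ _))

theorem transient {p : E} (H : IsLeaf v Λ p) (h : Cusp v Λ lam x₀ η c G) {lam' x₀' : ℂ} {η' c' : ℝ}
    {G' : ℕ → ℂ → E} (h' : Cusp v Λ lam' x₀' η' c' G') {J : ℕ × ℕ → ℂ → E} {x D : ℂ} {δ : ℝ}
    (hD : D ≠ 0) (hδ : 0 < δ) (j1 : ∀ j, ∀ t ∈ tube x D 1 δ, Tn v Λ (J j) t)
    (j2 : ∀ j j', ∀ t ∈ tube x D 1 δ, ∀ t' ∈ tube x D 1 δ, J j t = J j' t' → j = j' ∧ t = t')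
    (c1 : ∀ (m n : ℕ) (t : ℂ), ‖t‖ < δ → G n (x₀ + m * (c * Complex.I) + t) = J (m, n) (x + t))
    (c2 : ∀ (m n : ℕ) (t : ℂ), ‖t‖ < δ →
      G' m (x₀' + n * (c' * Complex.I) + t) = J (m, n) (x + D - t))
    (far : ∀ R : ℝ, ∃ N₀ : ℕ, ∀ m n : ℕ, N₀ ≤ m → ∀ t : ℂ, ‖t‖ < δ → R < ‖J (m, n) (x + t)‖) :
    Gr v Λ := by
  have hx : ∀ t : ℂ, ‖t‖ < δ → x + t ∈ tube x D 1 δ := fun t ht =>
    ⟨0, le_rfl, zero_le_one, by simpa using ht⟩
  have hb0 : ∀ t ∈ ball x δ, t ∈ tube x D 1 δ := fun t ht => by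
    simpa using hx (t - x) (by rwa [← dist_eq_norm])
  have htc : TC v (J (1, 1)) x δ := fun t ht => (j1 _ t (hb0 t ht)).1
  have hxδ := mem_ball_self (x := x) hδ
  refine H.pot (z₀ := J (1, 1) x) (j1 _ x (hb0 x hxδ)).2 fun ψ R hψ0 hψ rK hrK hrR => ?_
  obtain ⟨τ, hτa, hτ0, hτe⟩ := factor H.smooth (htc.tg hxδ) (htc x hxδ).1 hψ.2.1
    (mem_ball_self hψ.1) hψ0
  have h1 : ∀ᶠ t in 𝓝 x, τ t ∈ closedBall (0 : ℂ) rK :=
    hτa.continuousAt (by rw [hτ0]; exact closedBall_mem_nhds 0 hrK)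
  obtain ⟨r', hr', hr''⟩ := Metric.eventually_nhds_iff_ball.1 (h1.and hτe)
  obtain ⟨r₀, hr₀, H₀⟩ := h.spread
  obtain ⟨r₁, hr₁, H₁⟩ := h'.spread
  obtain ⟨r₂, hr₂, H₂⟩ := chain (v := v) (Λ := Λ) hD hδ
  obtain ⟨r, hr, r0, r1, r2, r3, r4⟩ : ∃ r : ℝ, 0 < r ∧ r ≤ r₀ ∧ r ≤ r₁ ∧ r ≤ r₂ ∧ r < δ ∧ r ≤ r' :=
    ⟨min (min r₀ r₁) (min r₂ (min (δ / 2) r')), by positivity, by simp, by simp, by simp,
      lt_of_le_of_lt (by simp) (half_lt_self hδ), by simp⟩
  obtain ⟨C₀, hC₀, H₀⟩ := H₀ r r0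
  obtain ⟨C₁, hC₁, H₁⟩ := H₁ r r1
  obtain ⟨C₂, hC₂, H₂⟩ := H₂ r r2
  set V := (volume : Measure ℂ).real (ball 0 r) with hV
  have hV0 : 0 < V := ENNReal.toReal_pos (measure_ball_pos _ _ hr).ne' measure_ball_lt_top.ne
  set C := C₀ + C₁ + C₂ + 1 with hC
  have hC0 : 0 < C := by positivity
  set μ := V / (36 * C) with hμ
  have hμ0 : 0 < μ := by positivity
  refine ⟨μ * V / (18 * C), by positivity, fun φ e he hφ hb hone => ?_⟩
  have hn : ∀ t ∈ ball (0 : ℂ) r, ‖t‖ < δ := fun t ht => (mem_ball_zero_iff.1 ht).trans r3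
  have a1 : ∀ m n : ℕ, av φ (G n) (x₀ + m * (c * Complex.I)) r = av φ (J (m, n)) x r := fun m n =>
    setIntegral_congr_fun measurableSet_ball fun t ht => by simp only [c1 m n t (hn t ht)]
  have a2 : ∀ m n : ℕ, av φ (G' m) (x₀' + n * (c' * Complex.I)) r = av φ (J (m, n)) (x + D) r :=
    fun m n => by
      have k := (Measure.measurePreserving_neg (volume : Measure ℂ)).setIntegral_preimage_emb
        (MeasurableEquiv.neg ℂ).measurableEmbedding (fun t => φ (J (m, n) (x + D + t))) (ball 0 r)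
      rw [av, av, ← k, show (Neg.neg ⁻¹' ball (0 : ℂ) r) = ball 0 r by ext; simp]
      exact setIntegral_congr_fun measurableSet_ball fun t ht => by
        simp only [c2 m n t (hn t ht), sub_eq_add_neg]
  have key := grid (A := fun m n => av φ (J (m, n)) x r) (B := fun m n => av φ (J (m, n)) (x + D) r)
    hC0.le he hμ0 ?_ (fun l hl i hi N I => ?_) (fun l hl i hi N I => ?_) fun l hl S => ?_
  · have hlow : V ≤ av φ (J (1, 1)) x r := by
      have hball : ∀ t ∈ closedBall (0 : ℂ) r, x + t ∈ ball x δ := fun t ht => by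
        simpa using (mem_closedBall_zero_iff.1 ht).trans_lt r3
      have k2 : IntegrableOn (fun t => φ (J (1, 1) (x + t))) (ball (0 : ℂ) r) :=
        (ContinuousOn.integrableOn_compact (isCompact_closedBall 0 r) fun t ht =>
          (ContinuousAt.comp (f := fun t => x + t) (hφ.1 _ _ (htc.tg (hball t ht))
            (j1 _ _ (hb0 _ (hball t ht))).2).continuousAt
            (by fun_prop)).continuousWithinAt).mono_set ball_subset_closedBall
      have k3 := setIntegral_mono_on (integrableOn_const measure_ball_lt_top.ne) k2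
        measurableSet_ball (f := fun _ => (1 : ℝ)) fun t ht => by
          obtain ⟨k4, k5⟩ := hr'' (x + t) (by
            rw [mem_ball, dist_self_add_left]; exact (mem_ball_zero_iff.1 ht).trans_le r4)
          rw [k5]
          exact hone _ k4
      simpa [av] using k3
    have k8 : C * (18 * μ) = V / 2 := by rw [hμ]; field_simp; ring
    have k9 : V / 2 ≤ C * (9 * (e / μ)) := by linarith [mul_add C (18 * μ) (9 * (e / μ))]
    rw [div_le_iff₀ (by positivity)]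
    have k10 : C * (9 * (e / μ)) * μ = 9 * C * e := by field_simp
    nlinarith
  · obtain ⟨R, hR⟩ := hφ.2
    obtain ⟨N₀, hN₀⟩ := far R
    exact ⟨N₀, fun m n hm => setIntegral_eq_zero_of_forall_eq_zero fun t ht =>
      hR _ (j1 _ _ (hx t (hn t ht))).2 (hN₀ m n hm t (hn t ht))⟩
  · have := H₀ φ e he hφ hb l hl i hi N I
    simp only [a1] at this
    exact this.trans (mul_le_mul_of_nonneg_right (by linarith) (by positivity))
  · have := H₁ φ e he hφ hb l hl i hi N I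
    simp only [a2] at this
    exact this.trans (mul_le_mul_of_nonneg_right (by linarith) (by positivity))
  · have := H₂ φ e he hφ hb l hl S J (fun _ => x) (fun _ => 1) 1 (fun _ _ => le_rfl)
      (fun j _ t ht => j1 j t (by rwa [Nat.cast_one] at ht))
      fun j _ j' _ t ht t' ht' => j2 j j' t (by rwa [Nat.cast_one] at ht) t'
        (by rwa [Nat.cast_one] at ht')
    simp only [Nat.cast_one, one_mul, mul_one] at this
    exact this.trans (mul_le_mul_of_nonneg_right (by linarith) (by positivity))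

end Pool.Agent.P.MP_a31c1c_an.Inf
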