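import Pool.Agent.P.MP_a31c1c_an.InfChart
import Pool.Agent.P.MP_a31c1c_an.InfCusp

/-!
The first integral along the line at infinity, and propagation of membership in the leaf.
-/

set_option autoImplicit false

namespace Pool.Agent.P.MP_a31c1c_an.Inf

open MvPolynomial Metric Filter Topology Set Complex

theorem mem_of_conn {v : E → E} {Λ : Set E} {p : E} (H : IsLeaf v Λ p) {U : Set ℂ} (hU : IsOpen U)
    (hc : Convex ℝ U) {Γ : ℂ → E}
    (h : ∀ t ∈ U, v (Γ t) ≠ 0 ∧ ∃ κ : ℂ, HasDerivAt Γ (κ • v (Γ t)) t) {t₁ : ℂ} (h₁ : t₁ ∈ U)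
    (h₂ : Γ t₁ ∈ Λ) : ∀ t ∈ U, Tn v Λ Γ t := fun t ht => by
  refine ⟨h t ht, hc.isPreconnected.induction₂' (fun s t => Γ s ∈ Λ → Γ t ∈ Λ) (fun x hx => ?_)
    (fun _ _ _ _ _ _ a b c => b (a c)) h₁ ht h₂⟩
  obtain ⟨ρ, hρ, hb⟩ := Metric.isOpen_iff.1 hU x hx
  filter_upwards [mem_nhdsWithin_of_mem_nhds (ball_mem_nhds x hρ)] with y hy
  exact ⟨H.inv Γ x ρ (fun t ht => h t (hb ht)) x (mem_ball_self hρ) y hy,
    H.inv Γ x ρ (fun t ht => h t (hb ht)) y hy x (mem_ball_self hρ)⟩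

theorem tube_eq (x D : ℂ) (δ : ℝ) : tube x D 1 δ = thickening δ (segment ℝ x (x + D)) := by
  ext t
  rw [mem_thickening_iff, segment_eq_image', exists_mem_image]
  simp only [tube, add_sub_cancel_left, mem_Icc, dist_eq_norm, real_smul, mem_ofPred_eq, and_assoc]

theorem isOpen_sec (lam x₀ : ℂ) (η : ℝ) : IsOpen (Sec lam x₀ η) :=
  (isOpen_lt continuous_re continuous_const).inter
    (isOpen_lt (continuous_re.comp (continuous_const_mul lam)) continuous_const)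

theorem convex_sec (lam x₀ : ℂ) (η : ℝ) : Convex ℝ (Sec lam x₀ η) :=
  (convex_halfSpace_re_lt _).inter (convex_halfSpace_lt (f := fun t : ℂ => (lam * t).re)
    ⟨fun a b => by rw [mul_add, add_re], fun c a => by rw [mul_smul_comm, smul_re]⟩ _)

variable {D : Dat} {Λ : Set E} {p : E}

theorem acc_all (Hy : Hyq D.d D.F1 D.F2) (H : IsLeaf (W D.F1 D.F2) Λ p) {a : ℂ}
    (ha : D.R.eval a ≠ 0) (h : ∀ ε : ℝ, 0 < ε → ∃ u w : ℂ, dist u a < ε ∧ Dat.In Λ u ε w) {u : ℂ}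
    (hu : D.R.eval u ≠ 0) : ∀ δ : ℝ, 0 < δ → ∃ w, Dat.In Λ u δ w := by
  have hR0 : D.R ≠ 0 := R_neq Hy
  refine ((Polynomial.finite_setOfPred_isRoot hR0).countable.isConnected_compl_of_one_lt_rank
    (by simp)).isPreconnected.induction₂'
    (fun x y => (∀ δ : ℝ, 0 < δ → ∃ w, Dat.In Λ x δ w) → ∀ δ : ℝ, 0 < δ → ∃ w, Dat.In Λ y δ w)
    (fun b hb => ?_) (fun _ _ _ _ _ _ a b c => b (a c)) ha hu (Dat.exists_in H ha h)
  obtain ⟨ρ, c, C, L⟩ := D.exists_loc hb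
  have key : ∀ x ∈ ball b ρ, ∀ y ∈ ball b ρ, (∀ δ : ℝ, 0 < δ → ∃ w, Dat.In Λ x δ w) →
      ∀ δ : ℝ, 0 < δ → ∃ w, Dat.In Λ y δ w := fun x hx y hy k δ hδ => by
    have := L.apos
    have hC := L.Cpos
    obtain ⟨w, hw⟩ := k (min (c / 2) (δ / C)) (by positivity)
    obtain ⟨σ, hσ, hσ'⟩ := L.ex x hx w (hw.2.1.trans_le (min_le_left _ _)).le
    have h0 : σ x ≠ 0 := hσ.symm ▸ hw.1
    refine ⟨σ y, L.ne_zero hσ' (L.sub hx) (L.sub hy) h0, ?_,
      H.inv _ _ _ (L.tc hσ' (L.sub hx) h0) x (L.sub hx) y (L.sub hy)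
        (by simpa [hσ] using hw.2.2)⟩
    have h1 := L.norm_le hσ' (L.sub hy) (L.sub hx)
    have h2 := (lt_div_iff₀ hC).1 (hw.2.1.trans_le (min_le_right _ _))
    rw [hσ] at h1
    linarith
  filter_upwards [mem_nhdsWithin_of_mem_nhds (ball_mem_nhds b L.ρpos)] with y hy
  exact ⟨key b (mem_ball_self L.ρpos) y hy, key y hy b (mem_ball_self L.ρpos)⟩

/-- The bounded factor of the first integral near the first singular point. -/
noncomputable def hF (D : Dat) (T : Finset ℂ) (a₁ a₂ ξ : ℂ) : ℂ :=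
  ∑ a ∈ T.erase a₁, lam D a * log (1 - ξ * ((a₂ - a) / (a₁ - a))) - (∑ a ∈ T, lam D a) * log (1 - ξ)

/-- The first integral on the line at infinity in the logarithmic coordinate. -/
noncomputable def eF (D : Dat) (T : Finset ℂ) (a₁ a₂ t : ℂ) : ℂ :=
  exp (lam D a₁ * t + hF D T a₁ a₂ (exp t))

/-- The arguments of the logarithms avoid the cut. -/
def Sl (T : Finset ℂ) (a₁ a₂ ξ : ℂ) : Prop :=
  1 - ξ ∈ slitPlane ∧ ∀ a ∈ T.erase a₁, 1 - ξ * ((a₂ - a) / (a₁ - a)) ∈ slitPlane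

variable {T : Finset ℂ} {a₁ a₂ : ℂ}

theorem Sl.den_ne {ξ : ℂ} (h : Sl T a₁ a₂ ξ) (h0 : ξ ≠ 0) (hne : a₁ ≠ a₂) {a : ℂ} (ha : a ∈ T) :
    den a₁ a₂ a ξ ≠ 0 := by
  by_cases e : a = a₁
  · simp [den, e, h0, sub_eq_zero, hne.symm]
  · have k := slitPlane_ne_zero (h.2 a (Finset.mem_erase.2 ⟨e, ha⟩))
    have k2 : a₁ - a ≠ 0 := sub_ne_zero.2 (Ne.symm e)
    rw [show den a₁ a₂ a ξ = (a₁ - a) * (1 - ξ * ((a₂ - a) / (a₁ - a))) by
      unfold den; field_simp]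
    exact mul_ne_zero k2 k

theorem hasDerivAt_eF (h₁ : a₁ ∈ T) (hne : a₁ ≠ a₂) {t : ℂ} (h : Sl T a₁ a₂ (exp t)) :
    HasDerivAt (eF D T a₁ a₂) (eF D T a₁ a₂ t * (al D T a₁ a₂ (exp t) * exp t)) t := by
  have h1 := (hasDerivAt_exp t).const_sub 1
  have k := (((hasDerivAt_id t).const_mul (lam D a₁)).fun_add ((HasDerivAt.fun_sum
    fun a (ha : a ∈ T.erase a₁) => ((((hasDerivAt_exp t).mul_const ((a₂ - a) / (a₁ - a))).const_sub
      1).clog (h.2 a ha)).const_mul (lam D a)).fun_sub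
    ((h1.clog h.1).const_mul (∑ a ∈ T, lam D a)))).cexp
  refine k.congr_deriv ?_
  congr 1
  have h0 := exp_ne_zero t
  have h2 := slitPlane_ne_zero h.1
  have e : al D T a₁ a₂ (exp t) * exp t = ∑ a ∈ T, lam D a * (-(a₂ - a) / den a₁ a₂ a (exp t) *
      exp t) + (∑ a ∈ T, lam D a) * (exp t / (1 - exp t)) := by
    rw [al, Finset.sum_mul, Finset.sum_mul, ← Finset.sum_add_distrib]
    exact Finset.sum_congr rfl fun a _ => by ring
  rw [e, ← Finset.add_sum_erase T (fun a => lam D a * (-(a₂ - a) / den a₁ a₂ a (exp t) * exp t)) h₁,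
    Finset.sum_congr rfl (g := fun a => lam D a * (-(a₂ - a) / den a₁ a₂ a (exp t) * exp t))
      fun a ha => ?_]
  · have : a₂ - a₁ ≠ 0 := sub_ne_zero.2 hne.symm
    generalize ∑ a ∈ T.erase a₁, lam D a * (-(a₂ - a) / den a₁ a₂ a (exp t) * exp t) = S
    simp only [den, sub_self, zero_sub]
    field_simp
    ring
  · have k1 := slitPlane_ne_zero (h.2 a ha)
    have k2 : a₁ - a ≠ 0 := sub_ne_zero.2 (Finset.mem_erase.1 ha).1.symm
    rw [show den a₁ a₂ a (exp t) = (a₁ - a) * (1 - exp t * ((a₂ - a) / (a₁ - a))) by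
      unfold den; field_simp]
    generalize 1 - exp t * ((a₂ - a) / (a₁ - a)) = y at k1 ⊢
    field_simp

theorem eF_add (t : ℂ) (k : ℤ) : eF D T a₁ a₂ (t + k * (2 * Real.pi * I)) =
    exp (lam D a₁ * (k * (2 * Real.pi * I))) * eF D T a₁ a₂ t := by
  rw [eF, eF, exp_add t, exp_int_mul_two_pi_mul_I, mul_one, ← exp_add]
  congr 1
  ring

theorem al_inv {ξ : ℂ} (h0 : ξ ≠ 0) (h1 : 1 - ξ ≠ 0) (h : ∀ a ∈ T, den a₁ a₂ a ξ ≠ 0) :
    al D T a₂ a₁ ξ⁻¹ * ξ⁻¹ = al D T a₁ a₂ ξ * -ξ := by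
  rw [al, al, Finset.sum_mul, Finset.sum_mul]
  refine Finset.sum_congr rfl fun a ha => ?_
  have k := h a ha
  have k2 : a₁ - a = den a₁ a₂ a ξ + ξ * (a₂ - a) := by unfold den; ring
  rw [show den a₂ a₁ a ξ⁻¹ = -den a₁ a₂ a ξ / ξ by unfold den; field_simp; ring,
    show 1 - ξ⁻¹ = -(1 - ξ) / ξ by field_simp; ring, k2]
  generalize den a₁ a₂ a ξ = y at k ⊢
  field_simp
  ring

theorem Om_inv {K : ℝ} {ξ : ℂ} (h0 : ξ ≠ 0) (h : ξ ∈ Om T a₂ a₁ K) : ξ⁻¹ ∈ Om T a₁ a₂ K := by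
  refine ⟨fun e => h.1 (inv_eq_one.1 e), fun a ha => ?_⟩
  have k := h.2 a ha
  have k0 := norm_pos_iff.2 h0
  rw [show den a₁ a₂ a ξ⁻¹ = -den a₂ a₁ a ξ / ξ by unfold den; field_simp; ring, norm_div,
    norm_neg, norm_inv, ← mul_div_assoc, lt_div_iff₀ k0, add_mul, mul_right_comm,
    inv_mul_cancel₀ k0.ne']
  linarith

theorem Om_mono {K K' : ℝ} (h : K ≤ K') : Om T a₁ a₂ K ⊆ Om T a₁ a₂ K' := fun _ hξ =>
  ⟨hξ.1, fun a ha => (hξ.2 a ha).trans_le (by gcongr)⟩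

theorem near_root (D : Dat) (T : Finset ℂ) (hne : a₁ ≠ a₂) : ∃ X C : ℝ, 0 < C ∧ ∀ t : ℂ,
    t.re < -X → Sl T a₁ a₂ (exp t) ∧ exp t ∈ Om T a₁ a₂ 4 ∧
      ‖eF D T a₁ a₂ t‖ ≤ C * Real.exp (lam D a₁ * t).re := by
  have c : ∀ q : ℂ, ContinuousAt (fun ξ : ℂ => 1 - ξ * q) 0 := fun q => by fun_prop
  have s : ∀ q : ℂ, (1 : ℂ) - 0 * q ∈ slitPlane := fun q => by simp
  have c1 : ContinuousAt (fun ξ => exp (hF D T a₁ a₂ ξ)) 0 := by
    refine ContinuousAt.cexp (ContinuousAt.sub (tendsto_finsetSum _ fun a _ => ?_) ?_)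
    · exact continuousAt_const.mul ((c _).clog (s _))
    · exact continuousAt_const.mul (ContinuousAt.clog (by fun_prop) (by simp))
  have e1 : ∀ᶠ ξ in 𝓝 (0 : ℂ), Sl T a₁ a₂ ξ :=
    (ContinuousAt.eventually_mem (f := fun ξ : ℂ => 1 - ξ) (by fun_prop)
      (isOpen_slitPlane.mem_nhds (by simp))).and ((eventually_all_finset _).2 fun a _ =>
        (c _).eventually_mem (isOpen_slitPlane.mem_nhds (s _)))
  have e2 : ∀ᶠ ξ in 𝓝 (0 : ℂ), ξ ≠ 0 → ξ ∈ Om T a₁ a₂ 4 := by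
    have : ∀ᶠ ξ in 𝓝 (0 : ℂ), ∀ a ∈ T, ξ ≠ 0 →
        ‖a₁ - a‖ + ‖ξ‖ * ‖a₂ - a‖ < 4 * ‖den a₁ a₂ a ξ‖ := (eventually_all_finset _).2 fun a _ => by
      by_cases e : a = a₁
      · refine Eventually.of_forall fun ξ h0 => ?_
        have := mul_pos (norm_pos_iff.2 h0) (norm_pos_iff.2 (sub_ne_zero.2 hne.symm))
        simp only [den, e, sub_self, zero_sub, norm_zero, norm_neg, norm_mul]
        linarith
      · have := norm_pos_iff.2 (sub_ne_zero.2 (Ne.symm e))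
        refine (ContinuousAt.eventually_lt (f := fun ξ : ℂ => ‖a₁ - a‖ + ‖ξ‖ * ‖a₂ - a‖)
          (g := fun ξ => 4 * ‖den a₁ a₂ a ξ‖) (by fun_prop) (by unfold den; fun_prop)
          (by simp [den]; linarith)).mono fun _ h _ => h
    filter_upwards [this, eventually_ne_nhds zero_ne_one] with ξ h h1 h0 using
      ⟨h1, fun a ha => h a ha h0⟩
  obtain ⟨ρ, hρ, H⟩ := Metric.eventually_nhds_iff_ball.1
    (e1.and (e2.and (c1.norm.eventually (gt_mem_nhds (lt_add_one _)))))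
  refine ⟨-Real.log ρ, ‖exp (hF D T a₁ a₂ 0)‖ + 1, by positivity, fun t ht => ?_⟩
  obtain ⟨k1, k2, k3⟩ := H (exp t) (by
    rw [mem_ball_zero_iff, norm_exp, ← Real.lt_log_iff_exp_lt hρ]; linarith)
  refine ⟨k1, k2 (exp_ne_zero t), ?_⟩
  rw [eF, exp_add, norm_mul, norm_exp, mul_comm]
  gcongr

theorem slit_of_im {z : ℂ} (h : z.im ≠ 0) : 1 - z ∈ slitPlane := Or.inr (by simpa using h)

theorem exists_strip (T : Finset ℂ) (a₁ a₂ : ℂ) : ∃ θ η : ℝ, 0 < η ∧ η ≤ 1 ∧ ∀ t : ℂ,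
    |t.im - θ| < η → Sl T a₁ a₂ (exp t) ∧ Sl T a₂ a₁ (exp (-t)) := by
  let Q : Finset ℂ := insert 1 (((T.erase a₁).erase a₂).image fun a => (a₂ - a) / (a₁ - a))
  have hQ : ∀ q ∈ Q, q ≠ 0 := fun q hq => by
    rcases Finset.mem_insert.1 hq with rfl | hq
    · exact one_ne_zero
    · obtain ⟨a, ha, rfl⟩ := Finset.mem_image.1 hq
      simp only [Finset.mem_erase] at ha
      exact div_ne_zero (sub_ne_zero.2 ha.1.symm) (sub_ne_zero.2 ha.2.1.symm)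
  obtain ⟨x, hx⟩ := Infinite.exists_notMem_finset (Q.image fun q => -q.im / q.re)
  have hz : (1 + x * I : ℂ) ≠ 0 := fun e => by simpa using congrArg re e
  have h1 : ∀ᶠ t in 𝓝 (log (1 + x * I)), ∀ q ∈ Q, (exp t * q).im ≠ 0 :=
    (eventually_all_finset _).2 fun q hq => by
      refine ContinuousAt.eventually_ne (by fun_prop) fun e => hx (Finset.mem_image.2 ⟨q, hq, ?_⟩)
      rw [exp_log hz] at e
      simp at e
      have : q.re ≠ 0 := fun k => hQ q hq (Complex.ext k (by simpa [k] using e))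
      field_simp
      linarith
  obtain ⟨η, hη, H⟩ := Metric.eventually_nhds_iff_ball.1 h1
  refine ⟨(log (1 + x * I)).im, min η 1, by positivity, min_le_right _ _, fun t ht => ?_⟩
  set t₀ := log (1 + x * I)
  have h2 : ∀ q ∈ Q, (exp t * q).im ≠ 0 := fun q hq => by
    have k := H (t - (t.re - t₀.re : ℝ)) (by
      rw [mem_ball, dist_eq_norm, show t - (t.re - t₀.re : ℝ) - t₀ = (t.im - t₀.im : ℝ) * I by
        apply Complex.ext <;> simp, norm_mul, norm_I, mul_one, norm_real]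
      exact ht.trans_le (min_le_left _ _)) q hq
    rw [show t = (t.re - t₀.re : ℝ) + (t - (t.re - t₀.re : ℝ)) by ring, exp_add, ← ofReal_exp,
      mul_assoc, im_ofReal_mul]
    exact mul_ne_zero (Real.exp_ne_zero _) k
  have h3 : ∀ q ∈ Q, (exp (-t) * q⁻¹).im ≠ 0 := fun q hq => by
    rw [exp_neg, ← mul_inv, inv_im]
    exact div_ne_zero (neg_ne_zero.2 (h2 q hq))
      (normSq_pos.2 (mul_ne_zero (exp_ne_zero t) (hQ q hq))).ne'
  have m1 : (1 : ℂ) ∈ Q := Finset.mem_insert_self _ _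
  refine ⟨⟨slit_of_im (by simpa using h2 1 m1), fun a ha => ?_⟩,
    slit_of_im (by simpa only [inv_one, mul_one] using h3 1 m1), fun a ha => ?_⟩
  · by_cases e : a = a₂
    · simp [e]
    · exact slit_of_im (h2 _ (Finset.mem_insert_of_mem (Finset.mem_image_of_mem _
        (Finset.mem_erase.2 ⟨e, ha⟩))))
  · by_cases e : a = a₁
    · simp [e]
    · rw [← inv_div]
      rw [Finset.mem_erase] at ha
      exact slit_of_im (h3 _ (Finset.mem_insert_of_mem (Finset.mem_image_of_mem _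
        (Finset.mem_erase.2 ⟨ha.1, Finset.mem_erase.2 ⟨e, ha.2⟩⟩))))

theorem exists_sign {l : ℂ} (h : l.im ≠ 0) :
    ∃ e : ℤ, e ≠ 0 ∧ (l * ((e * (2 * Real.pi) : ℝ) * I)).re < 0 := by
  have := Real.pi_pos
  rcases lt_or_gt_of_ne h with h | h
  · exact ⟨-1, by norm_num, by simp; nlinarith⟩
  · exact ⟨1, by norm_num, by simp; nlinarith⟩

end Pool.Agent.P.MP_a31c1c_an.Inf
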