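import Pool.Agent.P.MP_a31c1c_an.InfRed

/-!
With an integrating factor: the branches of its zero set at infinity and the partial fraction
expansion of the closed form, with constant residues.
-/

set_option autoImplicit false

namespace Pool.Agent.P.MP_a31c1c_an.Inf

open MvPolynomial Metric Filter Topology Set AlgAux

theorem pfrac {T : Finset ℂ} {x : ℂ → ℂ} (hx : InjOn x T) {p q : Polynomial ℂ}
    (hp : p.degree = T.card) (hq : q.degree < T.card) (hr : ∀ a ∈ T, p.eval (x a) = 0) {u : ℂ}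
    (hu : ∀ a ∈ T, u ≠ x a) : p.eval u ≠ 0 ∧
      q.eval u = p.eval u * ∑ a ∈ T, q.eval (x a) / p.derivative.eval (x a) / (u - x a) := by
  have hp0 : p ≠ 0 := by
    rintro rfl
    simp at hp
  have hc : p.leadingCoeff ≠ 0 := Polynomial.leadingCoeff_ne_zero.2 hp0
  have e : p = Polynomial.C p.leadingCoeff * Lagrange.nodal T x := by
    refine Polynomial.eq_of_degree_sub_lt_of_eval_index_eq T hx ?_ fun a ha => ?_
    · rw [← hp]
      refine Polynomial.degree_sub_lt_left ?_ hp0 ?_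
      · rw [Polynomial.degree_C_mul hc, Lagrange.degree_nodal, hp]
      · rw [Polynomial.leadingCoeff_mul, Polynomial.leadingCoeff_C,
          Lagrange.nodal_monic.leadingCoeff, mul_one]
    · rw [hr a ha, Polynomial.eval_mul, Lagrange.eval_nodal_at_node ha, mul_zero]
  generalize p.leadingCoeff = c at hc e
  subst e
  refine ⟨by simpa [hc] using Lagrange.eval_nodal_not_at_node hu, ?_⟩
  have e2 := Lagrange.eq_interpolate_of_eval_eq (r := fun a => q.eval (x a)) hx hq fun _ _ => rfl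
  conv_lhs => rw [e2, Lagrange.eval_interpolate_not_at_node _ hu]
  rw [Polynomial.eval_mul, Polynomial.eval_C, Finset.mul_sum, Finset.mul_sum]
  refine Finset.sum_congr rfl fun a ha => ?_
  rw [Lagrange.nodalWeight_eq_eval_derivative_nodal ha, Polynomial.derivative_C_mul,
    Polynomial.eval_mul, Polynomial.eval_C]
  field_simp

/-- The polynomial `u ↦ H (w, 1, u)`. -/
noncomputable def cw (H : MP) (w : ℂ) : Polynomial ℂ := res (aeval ![C w * X 1, X 1, X 2] H)

theorem eval_sub0 (H : MP) (w : ℂ) (z : E) :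
    eval z (aeval (![C w * X 1, X 1, X 2] : Fin 3 → MP) H) = eval ![w * z 1, z 1, z 2] H := by
  induction H using MvPolynomial.induction_on with
  | C a => simp
  | add p q hp hq => simp only [map_add, hp, hq]
  | mul_X p j hp =>
    simp only [map_mul, hp, aeval_X, eval_X]
    congr 1
    fin_cases j <;> simp

theorem eval_cw (H : MP) (w u : ℂ) : (cw H w).eval u = ev H u w := by
  rw [cw, eval_res, eval_sub0, ev_def]
  simp

theorem hom_sub0 {H : MP} {n : ℕ} (h : H.IsHomogeneous n) (w : ℂ) :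
    (aeval (![C w * X 1, X 1, X 2] : Fin 3 → MP) H).IsHomogeneous n := by
  have := h.aeval (n := 1) (![C w * X 1, X 1, X 2] : Fin 3 → MP) fun i => by
    fin_cases i
    · exact isHomogeneous_C_mul_X w 1
    · exact isHomogeneous_X ℂ 1
    · exact isHomogeneous_X ℂ 2
  rwa [one_mul] at this

theorem degree_cw_lt {H : MP} {n : ℕ} (h : H.IsHomogeneous n) (w : ℂ) :
    (cw H w).degree < (n + 1 : ℕ) :=
  (Polynomial.degree_le_of_natDegree_le (natDegree_res_le (hom_sub0 h w))).trans_lt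
    (by exact_mod_cast Nat.lt_succ_self n)

theorem degree_cw {H : MP} {n : ℕ} (h : H.IsHomogeneous n) (h0 : eval ![0, 0, 1] H ≠ 0) (w : ℂ) :
    (cw H w).degree = n := by
  refine Polynomial.degree_eq_of_le_of_coeff_ne_zero
    (Polynomial.degree_le_of_natDegree_le (natDegree_res_le (hom_sub0 h w))) ?_
  rw [cw, coeff_res_top (hom_sub0 h w), eval_sub0]
  simpa using h0

theorem hasDerivAt_evu (H : MP) (u w : ℂ) :
    HasDerivAt (fun u => ev H u w) (ev (pderiv 2 H) u w) u := by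
  simpa using hasDerivAt_ev H (hasDerivAt_id u) (hasDerivAt_const u w)

theorem derivative_cw (H : MP) (w u : ℂ) : (cw H w).derivative.eval u = ev (pderiv 2 H) u w := by
  have h := (cw H w).hasDerivAt u
  simp only [eval_cw] at h
  exact h.unique (hasDerivAt_evu H u w)

variable {D : Dat}

/-- The residue at a point at infinity. -/
noncomputable def lam (D : Dat) (a : ℂ) : ℂ := D.A.eval a / D.R.derivative.eval a

theorem res_Φ (D : Dat) : res D.Φ = D.R :=
  Polynomial.funext fun u => by rw [← ev_zero, D.ev_Φ_zero]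

theorem evu_zero (D : Dat) (a : ℂ) : ev (pderiv 2 D.Φ) a 0 = D.R.derivative.eval a := by
  rw [ev_zero, res_pderiv2, res_Φ]

theorem lam_im (Hy : Hyq D.d D.F1 D.F2) {a : ℂ} (ha : D.R.eval a = 0) : (lam D a).im ≠ 0 := by
  have := Hy.inf a ha
  simpa [lam, Dat.A, Dat.R, neg_div] using this

theorem der_ne (Hy : Hyq D.d D.F1 D.F2) {a : ℂ} (ha : D.R.eval a = 0) :
    D.R.derivative.eval a ≠ 0 := fun h => lam_im Hy ha (by simp [lam, h])

theorem top_Φ (D : Dat) : eval ![0, 0, 1] D.Φ = -eval ![0, 0, 1] D.F1 := by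
  have := congrArg (eval ![0, 0, 1]) D.hB
  simp [RR] at this
  linear_combination -this

theorem hom_B (Hy : Hyq D.d D.F1 D.F2) : D.B.IsHomogeneous D.d := by
  have := (RR_homq Hy).sub D.hΦ
  rw [D.hB] at this
  simpa using (hom_of_X0_mul this).1

theorem exists_branch (Hy : Hyq D.d D.F1 D.F2) {a : ℂ} (ha : D.R.eval a = 0) :
    ∃ s : ℂ → ℂ, s 0 = a ∧ ContDiffAt ℂ 1 s 0 ∧ ∀ᶠ w in 𝓝 (0 : ℂ), ev D.Φ (s w) w = 0 := by
  let f : ℂ × ℂ → ℂ := fun z => ev D.Φ z.2 z.1
  have hf : ContDiffAt ℂ 1 f (0, a) :=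
    ((contDiff_ev D.Φ).comp (contDiff_snd.prodMk contDiff_fst)).contDiffAt
  have h1 : fderiv ℂ f (0, a) (0, 1) = D.R.derivative.eval a := by
    have k := (hf.differentiableAt one_ne_zero).hasFDerivAt.comp_hasDerivAt a
      ((hasDerivAt_const a (0 : ℂ)).prodMk (hasDerivAt_id a))
    rw [← evu_zero]
    exact k.unique (hasDerivAt_evu D.Φ a 0)
  have hi : (fderiv ℂ f (0, a) ∘L .inr ℂ ℂ ℂ).IsInvertible := by
    refine ⟨ContinuousLinearEquiv.unitsEquivAut ℂ (Units.mk0 _ (der_ne Hy ha)), ?_⟩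
    ext
    simp [h1]
  refine ⟨hf.implicitFunction one_ne_zero hi, hf.implicitFunction_apply_self _ _,
    hf.contDiffAt_implicitFunction _ _, ?_⟩
  filter_upwards [hf.eventually_apply_implicitFunction one_ne_zero hi] with w hw
  simpa [f, D.ev_Φ_zero, ha] using hw

/-- The branches at infinity. -/
structure Br (D : Dat) (T : Finset ℂ) (ε M : ℝ) (s s' : ℂ → ℂ → ℂ) : Prop where
  pos : 0 < ε
  Mpos : 0 < M
  mem : ∀ a, a ∈ T ↔ D.R.eval a = 0
  zero : ∀ a ∈ T, s a 0 = a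
  der : ∀ a ∈ T, ∀ w ∈ ball (0 : ℂ) ε, HasDerivAt (s a) (s' a w) w ∧ ‖s' a w‖ ≤ M
  root : ∀ a ∈ T, ∀ w ∈ ball (0 : ℂ) ε, ev D.Φ (s a w) w = 0 ∧
    ev D.F1 (s a w) w = -lam D a * ev (pderiv 2 D.Φ) (s a w) w
  pf : ∀ w ∈ ball (0 : ℂ) ε, ∀ u, (∀ a ∈ T, u ≠ s a w) → ev D.Φ u w ≠ 0 ∧
    ev D.F1 u w = -(ev D.Φ u w * ∑ a ∈ T, lam D a / (u - s a w)) ∧
    ev D.B u w = ev D.Φ u w * ∑ a ∈ T, lam D a * s' a w / (u - s a w)

theorem residue (hG : D.G = 0) {s : ℂ → ℂ} {ε : ℝ} (hε : 0 < ε)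
    (hs : ∀ w ∈ ball (0 : ℂ) ε, DifferentiableAt ℂ s w ∧ ev D.Φ (s w) w = 0 ∧
      ev (pderiv 2 D.Φ) (s w) w ≠ 0) {w : ℂ} (hw : w ∈ ball (0 : ℂ) ε) :
    ev D.F1 (s w) w = -lam D (s 0) * ev (pderiv 2 D.Φ) (s w) w ∧
      ev D.B (s w) w = lam D (s 0) * deriv s w * ev (pderiv 2 D.Φ) (s w) w := by
  have h1 : ∀ w ∈ ball (0 : ℂ) ε,
      ev (pderiv 0 D.Φ) (s w) w + ev (pderiv 2 D.Φ) (s w) w * deriv s w = 0 := fun w hw => by
    have k := hasDerivAt_ev D.Φ (hs w hw).1.hasDerivAt (hasDerivAt_id w)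
    have k2 : HasDerivAt (fun t => ev D.Φ (s t) (id t)) 0 w :=
      (hasDerivAt_const w (0 : ℂ)).congr_of_eventuallyEq (by
        filter_upwards [isOpen_ball.mem_nhds hw] with t ht using (hs t ht).2.1)
    simpa using k.unique k2
  have h2 : ∀ u w : ℂ, ev (pderiv 2 D.B) u w * ev D.Φ u w - ev D.B u w * ev (pderiv 2 D.Φ) u w -
      (ev (pderiv 0 D.F1) u w * ev D.Φ u w - ev D.F1 u w * ev (pderiv 0 D.Φ) u w) = 0 :=
    fun u w => by simpa [hG, ev_def] using D.defect u w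
  have h3 : ∀ w ∈ ball (0 : ℂ) ε,
      HasDerivAt (fun w => ev D.F1 (s w) w / ev (pderiv 2 D.Φ) (s w) w) 0 w := fun w hw => by
    obtain ⟨k1, k2, k3⟩ := hs w hw
    have k4 := (hasDerivAt_ev D.F1 k1.hasDerivAt (hasDerivAt_id w)).div
      (hasDerivAt_ev (pderiv 2 D.Φ) k1.hasDerivAt (hasDerivAt_id w)) k3
    refine k4.congr_deriv ?_
    have k5 := ((((hasDerivAt_evu (pderiv 2 D.B) (s w) w).mul (hasDerivAt_evu D.Φ (s w) w)).sub
      ((hasDerivAt_evu D.B (s w) w).mul (hasDerivAt_evu (pderiv 2 D.Φ) (s w) w))).sub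
      (((hasDerivAt_evu (pderiv 0 D.F1) (s w) w).mul (hasDerivAt_evu D.Φ (s w) w)).sub
      ((hasDerivAt_evu D.F1 (s w) w).mul (hasDerivAt_evu (pderiv 0 D.Φ) (s w) w)))).unique
      ((hasDerivAt_const (s w) (0 : ℂ)).congr_of_eventuallyEq
        (Eventually.of_forall fun u => h2 u w))
    have k6 := h2 (s w) w
    have k7 := h1 w hw
    have k8 : pderiv 2 (pderiv 0 D.Φ) = pderiv 0 (pderiv 2 D.Φ) := by
      induction D.Φ using MvPolynomial.induction_on with
      | C a => simp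
      | add p q hp hq => simp only [map_add, hp, hq]
      | mul_X p i hp => fin_cases i <;> simp [pderiv_X, hp] <;> ring
    rw [k8] at k5
    simp only [id, k2] at k5 k6 ⊢
    rw [div_eq_zero_iff]
    left
    refine mul_left_cancel₀ k3 ?_
    linear_combination (-ev (pderiv 2 D.Φ) (s w) w) * k5 +
      ev (pderiv 2 (pderiv 2 D.Φ)) (s w) w * k6 +
      (ev (pderiv 2 D.F1) (s w) w * ev (pderiv 2 D.Φ) (s w) w -
        ev D.F1 (s w) w * ev (pderiv 2 (pderiv 2 D.Φ)) (s w) w) * k7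
  have h4 := isOpen_ball.is_const_of_deriv_eq_zero (convex_ball (0 : ℂ) ε).isPreconnected
    (fun w hw => (h3 w hw).differentiableAt.differentiableWithinAt)
    (fun w hw => (h3 w hw).deriv) hw (mem_ball_self hε)
  obtain ⟨k1, k2, k3⟩ := hs w hw
  have h5 : ev D.F1 (s w) w = -lam D (s 0) * ev (pderiv 2 D.Φ) (s w) w := by
    rw [div_eq_iff k3, evu_zero, ev_zero] at h4
    rw [h4, lam, Dat.A]
    simp [neg_div]
  refine ⟨h5, mul_left_cancel₀ k3 ?_⟩
  have k6 := h2 (s w) w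
  rw [k2, h5] at k6
  linear_combination -k6 - lam D (s 0) * ev (pderiv 2 D.Φ) (s w) w * h1 w hw

theorem card_roots (Hy : Hyq D.d D.F1 D.F2) : D.R.roots.toFinset.card = D.d + 1 := by
  have h0 : D.R ≠ 0 := R_neq Hy
  rw [Multiset.toFinset_card_of_nodup, IsAlgClosed.card_roots_eq_natDegree]
  · exact Polynomial.natDegree_eq_of_degree_eq_some (degree_Rq Hy)
  · refine Multiset.nodup_iff_count_le_one.2 fun a => ?_
    rw [Polynomial.count_roots]
    by_contra h
    obtain ⟨h1, h2⟩ := (Polynomial.one_lt_rootMultiplicity_iff_isRoot h0).1 (not_le.1 h)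
    exact der_ne Hy h1 h2

theorem exists_br (Hy : Hyq D.d D.F1 D.F2) (hG : D.G = 0) : ∃ T ε M s s', Br D T ε M s s' := by
  set T := D.R.roots.toFinset with hT
  have hmem : ∀ a, a ∈ T ↔ D.R.eval a = 0 := fun a => by
    have h0 : D.R ≠ 0 := R_neq Hy
    simp [hT, h0]
  have : ∀ a : ℂ, ∃ s : ℂ → ℂ, a ∈ T →
      s 0 = a ∧ ContDiffAt ℂ 1 s 0 ∧ ∀ᶠ w in 𝓝 (0 : ℂ), ev D.Φ (s w) w = 0 := fun a => by
    by_cases ha : a ∈ T
    · obtain ⟨s, hs⟩ := exists_branch Hy ((hmem a).1 ha)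
      exact ⟨s, fun _ => hs⟩
    · exact ⟨0, fun h => absurd h ha⟩
  choose s hs using this
  set M := ∑ a ∈ T, ‖deriv (s a) 0‖ + 1 with hM
  have e1 : ∀ᶠ w in 𝓝 (0 : ℂ), ∀ a ∈ T, (DifferentiableAt ℂ (s a) w ∧ ev D.Φ (s a w) w = 0 ∧
      ev (pderiv 2 D.Φ) (s a w) w ≠ 0) ∧ ‖deriv (s a) w‖ ≤ M ∧ ∀ b ∈ T, a ≠ b → s a w ≠ s b w := by
    refine (eventually_all_finset T).2 fun a ha => ?_
    obtain ⟨k1, k2, k3⟩ := hs a ha
    have c1 : ContinuousAt (fun w => ev (pderiv 2 D.Φ) (s a w) w) 0 :=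
      (continuous_ev _).continuousAt.comp_of_eq (f := fun w => (s a w, w))
        (k2.continuousAt.prodMk continuousAt_id) rfl
    have c2 : ContinuousAt (deriv (s a)) 0 :=
      (k2.derivWithin (m := 0) le_rfl).continuousAt
    refine (((k2.eventually (by simp)).mono fun w hw => hw.differentiableAt one_ne_zero).and
      (k3.and (c1.eventually_ne ?_))).and (Eventually.and ?_ ?_)
    · rw [k1, evu_zero]
      exact der_ne Hy ((hmem a).1 ha)
    · refine c2.norm.eventually (ge_mem_nhds ?_)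
      have := Finset.single_le_sum (f := fun a => ‖deriv (s a) 0‖) (fun _ _ => norm_nonneg _) ha
      linarith
    · refine (eventually_all_finset T).2 fun b hb => ?_
      by_cases hab : a = b
      · exact Eventually.of_forall fun _ h => absurd hab h
      · have := (k2.continuousAt.sub (hs b hb).2.1.continuousAt).eventually_ne (y := 0)
          (by simpa [k1, (hs b hb).1, sub_eq_zero] using hab)
        filter_upwards [this] with w hw _ using sub_ne_zero.1 hw
  obtain ⟨ε, hε, H⟩ := Metric.eventually_nhds_iff_ball.1 e1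
  have hres := fun a ha w hw => residue hG hε (s := s a) (fun w hw => (H w hw a ha).1) (w := w) hw
  refine ⟨T, ε, M, s, fun a => deriv (s a), hε, by positivity, hmem, fun a ha => (hs a ha).1,
    fun a ha w hw => ⟨(H w hw a ha).1.1.hasDerivAt, (H w hw a ha).2.1⟩,
    fun a ha w hw => ⟨(H w hw a ha).1.2.1, by simpa [(hs a ha).1] using (hres a ha w hw).1⟩,
    fun w hw u hu => ?_⟩
  have hinj : InjOn (fun a => s a w) T := fun a ha b hb e => by
    by_contra h
    exact (H w hw a ha).2.2 b hb h e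
  have hp : (cw D.Φ w).degree = T.card := by
    rw [degree_cw D.hΦ (by rw [top_Φ D]; exact neg_ne_zero.2 Hy.top), card_roots Hy]
  have hr : ∀ a ∈ T, (cw D.Φ w).eval (s a w) = 0 := fun a ha => by
    rw [eval_cw, (H w hw a ha).1.2.1]
  obtain ⟨k1, k2⟩ := pfrac hinj hp (q := cw D.F1 w)
    (by rw [card_roots Hy]; exact degree_cw_lt D.h1 w) hr hu
  obtain ⟨-, k3⟩ := pfrac hinj hp (q := cw D.B w)
    (by rw [card_roots Hy]; exact degree_cw_lt (hom_B Hy) w) hr hu
  simp only [eval_cw, derivative_cw] at k1 k2 k3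
  refine ⟨k1, ?_, ?_⟩
  · rw [k2, ← mul_neg, ← Finset.sum_neg_distrib]
    congr 1
    refine Finset.sum_congr rfl fun a ha => ?_
    rw [(hres a ha w hw).1, (hs a ha).1, mul_div_cancel_right₀ _ (H w hw a ha).1.2.2, neg_div]
  · rw [k3]
    congr 1
    refine Finset.sum_congr rfl fun a ha => ?_
    rw [(hres a ha w hw).2, (hs a ha).1, mul_div_cancel_right₀ _ (H w hw a ha).1.2.2]

end Pool.Agent.P.MP_a31c1c_an.Inf
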