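import Pool.Agent.P.MP_a31c1c_an.Step

/-!
Energy estimates along families of disjoint tubes in a leaf, and the flow on the quadrant of a
lattice of rank two with long jumps.
-/

set_option autoImplicit false

namespace Pool.Agent.P.MP_a31c1c_an.Inf

open Metric Filter Topology Set MeasureTheory
open scoped ENNReal

variable {v : E → E} {Λ : Set E}

/-- Tangency at one point, inside the leaf. -/
def Tn (v : E → E) (Λ : Set E) (Γ : ℂ → E) (t : ℂ) : Prop :=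
  (v (Γ t) ≠ 0 ∧ ∃ κ : ℂ, HasDerivAt Γ (κ • v (Γ t)) t) ∧ Γ t ∈ Λ

/-- Integral over a disc of the parameter. -/
noncomputable def av (φ : E → ℝ) (Γ : ℂ → E) (x : ℂ) (r : ℝ) : ℝ :=
  ∫ t in ball (0 : ℂ) r, φ (Γ (x + t))

theorem bnd_family {ι : Type} [Countable ι] {φ : E → ℝ} {e : ℝ} (hb : Bnd v Λ φ e) (S : Finset ι)
    (Γ : ι → ℂ → E) (ρ : ℝ) (h1 : ∀ j ∈ S, ∀ t ∈ ball (0 : ℂ) ρ, Tn v Λ (Γ j) t)
    (h2 : ∀ j ∈ S, ∀ j' ∈ S, ∀ t ∈ ball (0 : ℂ) ρ, ∀ t' ∈ ball (0 : ℂ) ρ, Γ j t = Γ j' t' →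
      j = j' ∧ t = t') :
    ∑ j ∈ S, ∫⁻ t in ball (0 : ℂ) ρ, ENNReal.ofReal (qd (fun s => φ (Γ j s)) t) ≤
      ENNReal.ofReal e := by
  classical
  rcases S.eq_empty_or_nonempty with rfl | ⟨j₀, -⟩
  · simp
  have : Nonempty ι := ⟨j₀⟩
  obtain ⟨f, hf⟩ := Countable.exists_injective_nat ι
  have hg : Function.Injective fun j => (f j : ℂ) := fun a b h => hf (Nat.cast_injective h)
  set g := fun j => (f j : ℂ)
  have hi := Function.leftInverse_invFun hg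
  have := hb (S.image g) (fun w => Γ (Function.invFun g w)) 0 ρ (fun w hw => ?_)
    fun w hw w' hw' hne => ?_
  · rw [Finset.sum_image hg.injOn] at this
    simpa only [hi _] using this
  · obtain ⟨j, hj, rfl⟩ := Finset.mem_image.1 hw
    rw [hi]
    exact ⟨fun t ht => (h1 j hj t ht).1, fun t ht t' ht' e => (h2 j hj j hj t ht t' ht' e).2,
      fun t ht => (h1 j hj t ht).2⟩
  · obtain ⟨j, hj, rfl⟩ := Finset.mem_image.1 hw
    obtain ⟨j', hj', rfl⟩ := Finset.mem_image.1 hw'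
    rw [hi, hi, Set.disjoint_left]
    rintro _ ⟨t, ht, rfl⟩ ⟨t', ht', e⟩
    exact hne (by rw [(h2 j' hj' j hj t' ht' t ht e).1])

theorem Tn.shift {Γ : ℂ → E} {x t : ℂ} (h : Tn v Λ Γ (x + t)) : Tn v Λ (fun s => Γ (x + s)) t := by
  obtain ⟨⟨h1, κ, h2⟩, h3⟩ := h
  exact ⟨⟨h1, κ, HasDerivAt.comp_const_add x t h2⟩, h3⟩

theorem one_step {ι : Type} [Countable ι] {φ : E → ℝ} {e : ℝ} (he : 0 ≤ e) (hφ : Adm v Λ φ)
    (hb : Bnd v Λ φ e) (S : Finset ι) (Γ : ι → ℂ → E) (x : ι → ℂ) {h : ℂ} {ρ r l : ℝ}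
    (hh : ‖h‖ < ρ) (hr : r ≤ ρ) (hl : 0 < l)
    (h1 : ∀ j ∈ S, ∀ t ∈ ball (x j) (2 * ρ), Tn v Λ (Γ j) t)
    (h2 : ∀ j ∈ S, ∀ j' ∈ S, ∀ t ∈ ball (x j) (2 * ρ), ∀ t' ∈ ball (x j') (2 * ρ),
      Γ j t = Γ j' t' → j = j' ∧ t = t') :
    ∑ j ∈ S, |av φ (Γ j) (x j) r - av φ (Γ j) (x j + h) r| ≤
      ((volume (ball (0 : ℂ) r)).toReal / 2 + 2 * ρ ^ 2) * (l * S.card + e / l) := by
  have hρ : 0 < ρ := (norm_nonneg _).trans_lt hh
  have hv : volume (ball (0 : ℂ) r) ≠ ⊤ := measure_ball_lt_top.ne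
  set V := (volume (ball (0 : ℂ) r)).toReal
  have hV : 0 ≤ V := ENNReal.toReal_nonneg
  have hm : ∀ j, ∀ t ∈ ball (0 : ℂ) (2 * ρ), x j + t ∈ ball (x j) (2 * ρ) := fun j t ht => by
    simpa using ht
  have h0 : ∀ j ∈ S, ∀ t ∈ ball (0 : ℂ) (2 * ρ), Tn v Λ (fun s => Γ j (x j + s)) t :=
    fun j hj t ht => (h1 j hj _ (hm j t ht)).shift
  have h3 := bnd_family hb S (fun j s => Γ j (x j + s)) (2 * ρ) h0 fun j hj j' hj' t ht t' ht' e => by
    obtain ⟨rfl, k⟩ := h2 j hj j' hj' _ (hm j t ht) _ (hm j' t' ht') e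
    exact ⟨rfl, add_left_cancel k⟩
  have h4 : ∀ j ∈ S, ENNReal.ofReal |av φ (Γ j) (x j) r - av φ (Γ j) (x j + h) r| ≤
      ENNReal.ofReal (l / 2) * volume (ball (0 : ℂ) r) + ENNReal.ofReal (2 * ρ ^ 2 / l) *
        ∫⁻ t in ball (0 : ℂ) (2 * ρ), ENNReal.ofReal (qd (fun s => φ (Γ j (x j + s))) t) := by
    intro j hj
    have := avg_sub_le (f := fun s => φ (Γ j (x j + s))) (b := 0) (u := 0) (u' := h)
      (fun t ht => hφ.1 _ t (TC.tg (fun t ht => (h0 j hj t ht).1) ht) (h0 j hj t ht).2)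
      (mem_ball_self hρ) (mem_ball_zero_iff.2 hh) hr hl
    rw [← Real.norm_eq_abs, ofReal_norm]
    simpa only [av, zero_add, add_assoc] using this
  have h5 := Finset.sum_le_sum h4
  rw [← ENNReal.ofReal_sum_of_nonneg fun _ _ => abs_nonneg _, Finset.sum_add_distrib,
    Finset.sum_const, ← Finset.mul_sum] at h5
  have h6 := h5.trans (add_le_add le_rfl (mul_le_mul' le_rfl h3))
  rw [← ENNReal.ofReal_toReal hv, ← ENNReal.ofReal_mul (by positivity),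
    ← ENNReal.ofReal_mul (by positivity), ← ENNReal.ofReal_nsmul,
    ← ENNReal.ofReal_add (by positivity) (by positivity),
    ENNReal.ofReal_le_ofReal_iff (by positivity)] at h6
  refine h6.trans ?_
  have k1 : 0 ≤ e / l := by positivity
  have k2 : 0 ≤ l * S.card := by positivity
  rw [nsmul_eq_mul, show 2 * ρ ^ 2 / l * e = 2 * ρ ^ 2 * (e / l) by ring]
  nlinarith [mul_nonneg hV k1, mul_nonneg (sq_nonneg ρ) k2]

/-- A tube around a segment. -/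
def tube (x D : ℂ) (α δ : ℝ) : Set ℂ := {t | ∃ τ : ℝ, 0 ≤ τ ∧ τ ≤ α ∧ ‖t - (x + τ * D)‖ < δ}

theorem chain {D : ℂ} (hD : D ≠ 0) {δ : ℝ} (hδ : 0 < δ) : ∃ r₀ : ℝ, 0 < r₀ ∧ ∀ r ≤ r₀,
    ∃ C : ℝ, 0 ≤ C ∧ ∀ {ι : Type} [Countable ι] (φ : E → ℝ) (e : ℝ), 0 ≤ e → Adm v Λ φ →
      Bnd v Λ φ e → ∀ l : ℝ, 0 < l → ∀ (S : Finset ι) (Γ : ι → ℂ → E) (x : ι → ℂ) (α : ι → ℕ)
        (K : ℕ), (∀ j ∈ S, α j ≤ K) → (∀ j ∈ S, ∀ t ∈ tube (x j) D (α j) δ, Tn v Λ (Γ j) t) →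
        (∀ j ∈ S, ∀ j' ∈ S, ∀ t ∈ tube (x j) D (α j) δ, ∀ t' ∈ tube (x j') D (α j') δ,
          Γ j t = Γ j' t' → j = j' ∧ t = t') →
        ∑ j ∈ S, |av φ (Γ j) (x j) r - av φ (Γ j) (x j + α j * D) r| ≤
          C * (l * (S.card * K) + e / l) := by
  classical
  have hD0 : 0 < ‖D‖ := norm_pos_iff.2 hD
  obtain ⟨Q, hQ⟩ := exists_nat_gt (5 * ‖D‖ / (2 * δ))
  have hQ0 : (0 : ℝ) < Q := lt_trans (by positivity) hQ
  have hQ1 : (1 : ℝ) ≤ Q := by exact_mod_cast Nat.cast_pos.1 hQ0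
  have hQc : (Q : ℂ) ≠ 0 := by exact_mod_cast hQ0.ne'
  set h : ℂ := D / Q with hh
  have hn : ‖h‖ = ‖D‖ / Q := by simp [hh]
  have hh0 : 0 < ‖h‖ := by rw [hn]; positivity
  set ρ := 5 * ‖h‖ / 4 with hρ
  have hρδ : 2 * ρ ≤ δ := by
    rw [div_lt_iff₀ (by positivity)] at hQ
    rw [hρ, hn, show 2 * (5 * (‖D‖ / Q) / 4) = 5 * ‖D‖ / (2 * Q) by ring, div_le_iff₀ (by positivity)]
    linarith
  refine ⟨ρ, by positivity, fun r hr => ?_⟩
  set C₀ := (volume (ball (0 : ℂ) r)).toReal / 2 + 2 * ρ ^ 2 with hC₀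
  have hC₀0 : 0 ≤ C₀ := by positivity
  refine ⟨C₀ * (Q + 5), by positivity, fun φ e he hφ hb l hl S Γ x α K hK h1 h2 => ?_⟩
  let S' := S.sigma fun j => Finset.range (Q * α j)
  let a : (Σ _, ℕ) → ℝ := fun p =>
    |av φ (Γ p.1) (x p.1 + p.2 * h) r - av φ (Γ p.1) (x p.1 + p.2 * h + h) r|
  have t1 : ∑ j ∈ S, |av φ (Γ j) (x j) r - av φ (Γ j) (x j + α j * D) r| ≤ ∑ p ∈ S', a p := by
    rw [Finset.sum_sigma]
    refine Finset.sum_le_sum fun j _ => ?_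
    have := Finset.sum_range_sub' (fun k : ℕ => av φ (Γ j) (x j + k * h) r) (Q * α j)
    have e1 : ((Q * α j : ℕ) : ℂ) * h = α j * D := by rw [hh]; push_cast; field_simp
    simp only [Nat.cast_zero, zero_mul, add_zero, e1] at this
    rw [← this]
    refine (Finset.abs_sum_le_sum_abs _ _).trans (le_of_eq (Finset.sum_congr rfl fun k _ => ?_))
    simp only [a, Nat.cast_add, Nat.cast_one, add_mul, one_mul, add_assoc]
  have hmem : ∀ p ∈ S', ∀ t ∈ ball (x p.1 + p.2 * h) (2 * ρ), t ∈ tube (x p.1) D (α p.1) δ := by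
    intro p hp t ht
    have k : p.2 < Q * α p.1 := Finset.mem_range.1 (Finset.mem_sigma.1 hp).2
    refine ⟨p.2 / Q, by positivity, ?_, ?_⟩
    · rw [div_le_iff₀ hQ0, mul_comm]
      exact_mod_cast k.le
    · rw [mem_ball, dist_eq_norm] at ht
      have : ((p.2 / Q : ℝ) : ℂ) * D = p.2 * h := by rw [hh]; push_cast; ring
      rw [this]
      linarith
  have t2 : ∀ c : ℕ, ∑ p ∈ S'.filter (fun p => p.2 % 5 = c), a p ≤
      C₀ * (l * (S'.filter fun p => p.2 % 5 = c).card + e / l) := fun c => by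
    refine one_step he hφ hb (S'.filter fun p => p.2 % 5 = c) (fun p => Γ p.1)
      (fun p => x p.1 + p.2 * h) (by linarith) hr hl
      (fun p hp t ht => ?_) fun p hp p' hp' t ht t' ht' eq => ?_
    · have hp1 := (Finset.mem_filter.1 hp).1
      exact h1 _ (Finset.mem_sigma.1 hp1).1 t (hmem p hp1 t ht)
    · obtain ⟨hp1, hc⟩ := Finset.mem_filter.1 hp
      obtain ⟨hp1', hc'⟩ := Finset.mem_filter.1 hp'
      obtain ⟨k1, rfl⟩ := h2 _ (Finset.mem_sigma.1 hp1).1 _ (Finset.mem_sigma.1 hp1').1 t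
        (hmem p hp1 t ht) t' (hmem p' hp1' t' ht') eq
      obtain ⟨j, k⟩ := p
      obtain ⟨j', k'⟩ := p'
      simp only at k1 hc hc' ht ht'
      subst k1
      have k2 := dist_triangle_left (x j + k * h) (x j + k' * h) t
      rw [mem_ball] at ht ht'
      rw [dist_add_left, dist_eq_norm, ← sub_mul, norm_mul] at k2
      have k3 : ‖(k : ℂ) - k'‖ < 5 := by
        by_contra k4
        nlinarith [not_lt.1 k4]
      have k4 : |(k : ℝ) - k'| < 5 := by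
        rwa [← Complex.ofReal_natCast, ← Complex.ofReal_natCast, ← Complex.ofReal_sub,
          Complex.norm_real] at k3
      obtain ⟨k5, k6⟩ := abs_lt.1 k4
      have k7 : k' < k + 5 := by exact_mod_cast (by linarith : (k' : ℝ) < k + 5)
      have k8 : k < k' + 5 := by exact_mod_cast (by linarith : (k : ℝ) < k' + 5)
      exact ⟨by rw [show k = k' by omega], rfl⟩
  have hmaps : ∀ p ∈ S', p.2 % 5 ∈ Finset.range 5 := fun p _ =>
    Finset.mem_range.2 (Nat.mod_lt _ (by norm_num))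
  have t3 := Finset.sum_le_sum fun c (_ : c ∈ Finset.range 5) => t2 c
  rw [Finset.sum_fiberwise_of_maps_to hmaps, ← Finset.mul_sum, Finset.sum_add_distrib,
    ← Finset.mul_sum, ← Nat.cast_sum, ← Finset.card_eq_sum_card_fiberwise hmaps, Finset.sum_const,
    Finset.card_range, nsmul_eq_mul] at t3
  have t4 : (S'.card : ℝ) ≤ Q * (S.card * K) := by
    have : S'.card ≤ S.card * (Q * K) := by
      rw [Finset.card_sigma, ← smul_eq_mul]
      exact Finset.sum_le_card_nsmul _ _ _ fun j hj => by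
        rw [Finset.card_range]; exact Nat.mul_le_mul_left _ (hK j hj)
    have k : (S'.card : ℝ) ≤ S.card * (Q * K) := by exact_mod_cast this
    linarith
  refine t1.trans (t3.trans ?_)
  rw [mul_assoc]
  refine mul_le_mul_of_nonneg_left ?_ hC₀0
  have k1 : 0 ≤ e / l := by positivity
  have k2 : 0 ≤ l * (S.card * K) := by positivity
  have k3 := mul_le_mul_of_nonneg_left t4 hl.le
  push_cast
  nlinarith

theorem sum_Ico_double (f : ℕ → ℝ) (N : ℕ) : ∑ m ∈ Finset.Ico (2 * N) (2 * (2 * N)), f m =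
    ∑ m ∈ Finset.Ico N (2 * N), f (2 * m) + ∑ m ∈ Finset.Ico N (2 * N), f (2 * m + 1) := by
  have : ∀ k, ∑ m ∈ Finset.Ico (2 * N) (2 * (N + k)), f m =
      ∑ m ∈ Finset.Ico N (N + k), f (2 * m) + ∑ m ∈ Finset.Ico N (N + k), f (2 * m + 1) := by
    intro k
    induction k with
    | zero => simp
    | succ k ih =>
      rw [show 2 * (N + (k + 1)) = 2 * (N + k) + 1 + 1 by ring, Finset.sum_Ico_succ_top (by omega),
        Finset.sum_Ico_succ_top (by omega), ih, ← add_assoc N, Finset.sum_Ico_succ_top (by omega),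
        Finset.sum_Ico_succ_top (by omega)]
      ring
  simpa only [two_mul] using this N

/-- The flow on the quadrant. -/
theorem grid {A B : ℕ → ℕ → ℝ} {C e μ : ℝ} (hC : 0 ≤ C) (he : 0 ≤ e) (hμ : 0 < μ)
    (h0 : ∃ N₀, ∀ m n, N₀ ≤ m → A m n = 0)
    (hA : ∀ l : ℝ, 0 < l → ∀ i ≤ 1, ∀ (N : ℕ) (I : Finset ℕ),
      ∑ p ∈ Finset.Ico N (2 * N) ×ˢ I, |A p.1 p.2 - A (2 * p.1 + i) p.2| ≤
        C * (l * (N * I.card * (2 * N)) + e / l))
    (hB : ∀ l : ℝ, 0 < l → ∀ i ≤ 1, ∀ (N : ℕ) (I : Finset ℕ),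
      ∑ p ∈ Finset.Ico N (2 * N) ×ˢ I, |B p.2 p.1 - B p.2 (2 * p.1 + i)| ≤
        C * (l * (N * I.card * (2 * N)) + e / l))
    (hS : ∀ l : ℝ, 0 < l → ∀ S : Finset (ℕ × ℕ),
      ∑ p ∈ S, |A p.1 p.2 - B p.1 p.2| ≤ C * (l * S.card + e / l)) :
    A 1 1 ≤ C * (18 * μ + 9 * (e / μ)) := by
  let J : ℕ → Finset ℕ := fun N => Finset.Ico N (2 * N)
  have hJ : ∀ N, ((J N).card : ℝ) = N := fun N => by simp [J, two_mul]
  have step : ∀ l : ℝ, 0 < l → ∀ N : ℕ, 1 ≤ N → 4 * ∑ m ∈ J N, ∑ n ∈ J N, A m n -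
      ∑ m ∈ J (2 * N), ∑ n ∈ J (2 * N), A m n ≤ C * (24 * (l * N ^ 3) + 9 * (e / l)) := by
    intro l hl N hN
    have a0 := (Finset.sum_le_sum fun _ _ => le_abs_self _).trans (hA l hl 0 zero_le_one N (J N))
    have a1 := (Finset.sum_le_sum fun _ _ => le_abs_self _).trans (hA l hl 1 le_rfl N (J N))
    have b0 := (Finset.sum_le_sum fun _ _ => le_abs_self _).trans
      (hB l hl 0 zero_le_one N (J (2 * N)))
    have b1 := (Finset.sum_le_sum fun _ _ => le_abs_self _).trans (hB l hl 1 le_rfl N (J (2 * N)))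
    have s0 := (Finset.sum_le_sum fun _ _ => le_abs_self _).trans (hS l hl (J (2 * N) ×ˢ J N))
    have s1 := (Finset.sum_le_sum fun _ _ => neg_le_abs _).trans
      (hS l hl (J (2 * N) ×ˢ J (2 * N)))
    simp only [Finset.sum_sub_distrib, Finset.sum_product, add_zero, neg_sub, Finset.card_product,
      Nat.cast_mul, hJ, Nat.cast_ofNat] at a0 a1 b0 b1 s0 s1
    have e1 := sum_Ico_double (fun m => ∑ n ∈ J N, A m n) N
    have e2 := sum_Ico_double (fun n => ∑ m ∈ J (2 * N), B m n) N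
    have e3 : ∑ m ∈ J (2 * N), ∑ n ∈ J N, B m n = ∑ n ∈ J N, ∑ m ∈ J (2 * N), B m n :=
      Finset.sum_comm
    have e4 : ∑ m ∈ J (2 * N), ∑ n ∈ J (2 * N), B m n =
        ∑ n ∈ J (2 * N), ∑ m ∈ J (2 * N), B m n := Finset.sum_comm
    simp only [J] at a0 a1 b0 b1 s0 s1 e1 e2 e3 e4 ⊢
    have k : (1 : ℝ) ≤ N := by exact_mod_cast hN
    have k2 : C * (l * N ^ 2) ≤ C * (l * N ^ 3) := by gcongr; norm_num
    nlinarith
  have main : ∀ k : ℕ, A 1 1 - C * (18 * μ * (1 - (2 / 3) ^ k) + 9 * (e / μ) * (1 - (3 / 4) ^ k)) ≤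
      (1 / 4) ^ k * ∑ m ∈ J (2 ^ k), ∑ n ∈ J (2 ^ k), A m n := by
    intro k
    induction k with
    | zero => simp [J]
    | succ k ih =>
      have t := step (μ * (1 / 3) ^ k) (by positivity) (2 ^ k) Nat.one_le_two_pow
      rw [← pow_succ'] at t
      have a5 : (0 : ℝ) < (1 / 4) ^ k := by positivity
      have u := mul_le_mul_of_nonneg_left t a5.le
      have e1 : (1 / 4 : ℝ) ^ k * (C * (24 * (μ * (1 / 3) ^ k * ((2 ^ k : ℕ) : ℝ) ^ 3) +
          9 * (e / (μ * (1 / 3) ^ k)))) = C * (24 * μ * (2 / 3) ^ k + 9 * (e / μ) * (3 / 4) ^ k) := by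
        have a1 : (1 / 4 : ℝ) ^ k * (1 / 3) ^ k * (2 ^ k) ^ 3 = (2 / 3) ^ k := by
          rw [← pow_mul, mul_comm k, pow_mul, ← mul_pow, ← mul_pow]; norm_num
        have a2 : (3 / 4 : ℝ) ^ k * (1 / 3) ^ k = (1 / 4) ^ k := by rw [← mul_pow]; norm_num
        have a4 : (1 / 4 : ℝ) ^ k * (e / (μ * (1 / 3) ^ k)) = e / μ * (3 / 4) ^ k := by
          rw [← a2]; field_simp
        push_cast
        linear_combination 24 * C * μ * a1 + 9 * C * a4
      rw [e1] at u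
      rw [pow_succ (1 / 4 : ℝ), pow_succ (2 / 3 : ℝ), pow_succ (3 / 4 : ℝ)]
      nlinarith
  obtain ⟨N₀, hN₀⟩ := h0
  have := main N₀
  rw [Finset.sum_eq_zero fun m hm => Finset.sum_eq_zero fun n _ => hN₀ m n
    (Nat.lt_two_pow_self.le.trans (Finset.mem_Ico.1 hm).1), mul_zero, sub_nonpos] at this
  refine this.trans (mul_le_mul_of_nonneg_left ?_ hC)
  have b1 : (0 : ℝ) ≤ (2 / 3) ^ N₀ := by positivity
  have b2 : (0 : ℝ) ≤ (3 / 4) ^ N₀ := by positivity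
  have b3 : 0 ≤ e / μ := by positivity
  nlinarith

end Pool.Agent.P.MP_a31c1c_an.Inf
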