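import Pool.Agent.P.MP_a31c1c_an.InfBr

/-!
Linearising coordinates along the line at infinity, adapted to two singular points.
-/

set_option autoImplicit false

namespace Pool.Agent.P.MP_a31c1c_an.Inf

open MvPolynomial Metric Filter Topology Set AlgAux

theorem norm_exp_le_two {z : ℂ} (h : ‖z‖ ≤ 1 / 4) : ‖Complex.exp z‖ ≤ 2 := by
  have := Complex.norm_exp_sub_one_le (h.trans (by norm_num))
  have k := norm_add_le (Complex.exp z - 1) 1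
  rw [sub_add_cancel, norm_one] at k
  linarith

theorem fixed_point {k kw : ℂ → ℂ → ℂ} {Ω : Set ℂ} {b : ℝ} (hb : 0 < b)
    (h0 : ∀ ξ ∈ Ω, k ξ 0 = 0)
    (h1 : ∀ ξ ∈ Ω, ∀ w ∈ closedBall (0 : ℂ) b, ContDiffAt ℂ 1 (fun z : ℂ × ℂ => k z.1 z.2) (ξ, w) ∧
      HasDerivAt (k ξ) (kw ξ w) w ∧ ‖kw ξ w‖ * b ≤ 1 / 4) (hΩ : IsOpen Ω) :
    (∀ ξ ∈ Ω, ∀ w ∈ closedBall (0 : ℂ) b, ‖k ξ w‖ ≤ 1 / 4) ∧
    ∃ σ : ℂ → ℂ → ℂ, ∀ ξ ∈ Ω, ∀ ζ ∈ ball (0 : ℂ) (b / 2),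
      σ ξ ζ = ζ * Complex.exp (k ξ (σ ξ ζ)) ∧ ‖σ ξ ζ‖ ≤ 2 * ‖ζ‖ ∧
      (∀ w ∈ closedBall (0 : ℂ) b, w = ζ * Complex.exp (k ξ w) → w = σ ξ ζ) ∧
      DifferentiableAt ℂ (fun z : ℂ × ℂ => σ z.1 z.2) (ξ, ζ) := by
  have hk : ∀ ξ ∈ Ω, ∀ w ∈ closedBall (0 : ℂ) b, ‖k ξ w‖ ≤ 1 / 4 := fun ξ hξ w hw => by
    have := (convex_closedBall (0 : ℂ) b).norm_image_sub_le_of_norm_hasDerivWithin_le
      (f := k ξ) (f' := kw ξ) (C := 1 / 4 / b) (fun w hw => (h1 ξ hξ w hw).2.1.hasDerivWithinAt)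
      (fun w hw => (le_div_iff₀ hb).2 (h1 ξ hξ w hw).2.2) (mem_closedBall_self hb.le) hw
    rw [h0 ξ hξ, sub_zero, sub_zero] at this
    refine this.trans ?_
    rw [div_mul_eq_mul_div, div_le_iff₀ hb]
    gcongr
    exact mem_closedBall_zero_iff.1 hw
  have hn : ∀ ξ ∈ Ω, ∀ ζ : ℂ, ∀ w ∈ closedBall (0 : ℂ) b,
      ‖ζ * Complex.exp (k ξ w)‖ ≤ 2 * ‖ζ‖ := fun ξ hξ ζ w hw => by
    rw [norm_mul, mul_comm]
    gcongr
    exact norm_exp_le_two (hk ξ hξ w hw)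
  have hlip : ∀ ξ ∈ Ω, ∀ ζ ∈ ball (0 : ℂ) (b / 2), ∀ w ∈ closedBall (0 : ℂ) b,
      ∀ w' ∈ closedBall (0 : ℂ) b,
      ‖ζ * Complex.exp (k ξ w') - ζ * Complex.exp (k ξ w)‖ ≤ 1 / 4 * ‖w' - w‖ :=
    fun ξ hξ ζ hζ w hw w' hw' =>
    (convex_closedBall (0 : ℂ) b).norm_image_sub_le_of_norm_hasDerivWithin_le
      (f := fun w => ζ * Complex.exp (k ξ w)) (f' := fun w => ζ * (Complex.exp (k ξ w) * kw ξ w))
      (fun w hw => ((h1 ξ hξ w hw).2.1.cexp.const_mul ζ).hasDerivWithinAt)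
      (fun w hw => by
        rw [← mul_assoc, norm_mul]
        have := hn ξ hξ ζ w hw
        have k2 := mem_ball_zero_iff.1 hζ
        nlinarith [(h1 ξ hξ w hw).2.2, norm_nonneg (kw ξ w)]) hw hw'
  have hex : ∀ ξ ζ : ℂ, ∃ w : ℂ, ξ ∈ Ω → ζ ∈ ball (0 : ℂ) (b / 2) →
      w ∈ closedBall (0 : ℂ) b ∧ w = ζ * Complex.exp (k ξ w) := fun ξ ζ => by
    by_cases h : ξ ∈ Ω ∧ ζ ∈ ball (0 : ℂ) (b / 2)
    swap
    · exact ⟨0, fun a c => absurd ⟨a, c⟩ h⟩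
    have hm : MapsTo (fun w => ζ * Complex.exp (k ξ w)) (closedBall (0 : ℂ) b) (closedBall 0 b) :=
      fun w hw => mem_closedBall_zero_iff.2 (by
        linarith [hn ξ h.1 ζ w hw, mem_ball_zero_iff.1 h.2])
    have hc : ContractingWith (1 / 4) (hm.restrict _ _ _) :=
      ⟨by norm_num, LipschitzWith.of_dist_le_mul fun x y => by
        simpa [Subtype.dist_eq, dist_eq_norm] using hlip ξ h.1 ζ h.2 y y.2 x x.2⟩
    obtain ⟨w, hw, e, -⟩ := hc.exists_fixedPoint' isClosed_closedBall.isComplete hm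
      (mem_closedBall_self hb.le) (edist_ne_top _ _)
    exact ⟨w, fun _ _ => ⟨hw, e.symm⟩⟩
  choose σ hσ using hex
  have huniq : ∀ ξ ∈ Ω, ∀ ζ ∈ ball (0 : ℂ) (b / 2), ∀ w ∈ closedBall (0 : ℂ) b,
      w = ζ * Complex.exp (k ξ w) → w = σ ξ ζ := fun ξ hξ ζ hζ w hw e => by
    have := hlip ξ hξ ζ hζ _ (hσ ξ ζ hξ hζ).1 w hw
    rw [← e, ← (hσ ξ ζ hξ hζ).2] at this
    exact sub_eq_zero.1 (norm_le_zero_iff.1 (by linarith [norm_nonneg (w - σ ξ ζ)]))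
  refine ⟨hk, σ, fun ξ hξ ζ hζ => ?_⟩
  obtain ⟨s1, s2⟩ := hσ ξ ζ hξ hζ
  have s3 : ‖σ ξ ζ‖ ≤ 2 * ‖ζ‖ := by rw [s2]; exact hn ξ hξ ζ _ s1
  refine ⟨s2, s3, huniq ξ hξ ζ hζ, ?_⟩
  set w := σ ξ ζ
  obtain ⟨k1, k2, k3⟩ := h1 ξ hξ w s1
  let f : (ℂ × ℂ) × ℂ → ℂ := fun z => z.2 - z.1.2 * Complex.exp (k z.1.1 z.2)
  have hf : ContDiffAt ℂ 1 f ((ξ, ζ), w) :=
    contDiffAt_snd.sub (contDiffAt_fst.snd.mul (k1.comp ((ξ, ζ), w)
      (f := fun z : (ℂ × ℂ) × ℂ => (z.1.1, z.2)) (contDiffAt_fst.fst.prodMk contDiffAt_snd)).cexp)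
  have hd : fderiv ℂ f ((ξ, ζ), w) (0, 1) = 1 - w * kw ξ w := by
    have k := (hf.differentiableAt one_ne_zero).hasFDerivAt.comp_hasDerivAt w
      ((hasDerivAt_const w (ξ, ζ)).prodMk (hasDerivAt_id w))
    refine (k.unique ((hasDerivAt_id w).sub (k2.cexp.const_mul ζ))).trans ?_
    rw [← mul_assoc, ← s2]
  have hne : 1 - w * kw ξ w ≠ 0 := fun e => by
    have := congrArg norm (sub_eq_zero.1 e)
    rw [norm_one, norm_mul] at this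
    nlinarith [mem_closedBall_zero_iff.1 s1, norm_nonneg (kw ξ w)]
  have hi : (fderiv ℂ f ((ξ, ζ), w) ∘L .inr ℂ (ℂ × ℂ) ℂ).IsInvertible := by
    refine ⟨ContinuousLinearEquiv.unitsEquivAut ℂ (Units.mk0 _ hne), ?_⟩
    ext
    simp [hd]
  have c1 := hf.contDiffAt_implicitFunction one_ne_zero hi
  have c2 := hf.implicitFunction_apply_self one_ne_zero hi
  have c3 := hf.eventually_apply_implicitFunction one_ne_zero hi
  set ψ := hf.implicitFunction one_ne_zero hi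
  have c4 : ∀ᶠ z in 𝓝 (ξ, ζ), ψ z ∈ closedBall (0 : ℂ) b :=
    c1.continuousAt (by
      rw [c2]
      exact closedBall_mem_nhds_of_mem (mem_ball_zero_iff.2 (by linarith [mem_ball_zero_iff.1 hζ])))
  refine (c1.differentiableAt one_ne_zero).congr_of_eventuallyEq ?_
  filter_upwards [c3, c4, (hΩ.prod isOpen_ball).mem_nhds (show (ξ, ζ) ∈ _ from ⟨hξ, hζ⟩)]
    with z e1 e2 e3
  refine (huniq _ e3.1 _ e3.2 _ e2 ?_).symm
  simp only [f] at e1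
  rw [← s2, sub_self, sub_eq_zero] at e1
  exact e1

variable {D : Dat}

theorem tangent {u w : ℂ → ℂ} {u' w' t : ℂ} (hu : HasDerivAt u u' t) (hw : HasDerivAt w w' t)
    (h0 : w t ≠ 0) (hne : ev D.F1 (u t) (w t) = 0 → ev (RR D.F1 D.F2) (u t) (w t) ≠ 0)
    (h : ev (RR D.F1 D.F2) (u t) (w t) * w' + ev D.F1 (u t) (w t) * w t * u' = 0) :
    W D.F1 D.F2 (emb (u t) (w t)) ≠ 0 ∧ ∃ κ : ℂ, HasDerivAt (fun t => emb (u t) (w t))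
      (κ • W D.F1 D.F2 (emb (u t) (w t))) t := by
  have hW : W D.F1 D.F2 (emb (u t) (w t)) =
      ![0, (w t)⁻¹ ^ D.d * ev D.F1 (u t) (w t), (w t)⁻¹ ^ D.d * ev D.F2 (u t) (w t)] := by
    rw [W, emb_eq h0, eval_smul_of_hom D.h1, eval_smul_of_hom D.h2, ev_def, ev_def]
  have hRR := D.ev_RR (u t) (w t)
  have e2 : ev D.F2 (u t) (w t) = ev (RR D.F1 D.F2) (u t) (w t) + u t * ev D.F1 (u t) (w t) := by
    rw [hRR]; ring
  obtain ⟨κ, k1, k2⟩ : ∃ κ : ℂ, -w' = κ * ev D.F1 (u t) (w t) ∧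
      w t * u' = κ * ev (RR D.F1 D.F2) (u t) (w t) := by
    by_cases hf : ev D.F1 (u t) (w t) = 0
    · have := hne hf
      rw [hf, zero_mul, zero_mul, add_zero] at h
      exact ⟨w t * u' / ev (RR D.F1 D.F2) (u t) (w t), by
        simp [hf, (mul_eq_zero.1 h).resolve_left this], by field_simp⟩
    · exact ⟨-w' / ev D.F1 (u t) (w t), by field_simp, by field_simp; linear_combination h⟩
  refine ⟨fun e => ?_, κ * w t ^ D.d / w t ^ 2, ?_⟩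
  · simp only [hW] at e
    have e1 : ev D.F1 (u t) (w t) = 0 := by simpa [h0] using congrFun e 1
    have e3 : ev D.F2 (u t) (w t) = 0 := by simpa [h0] using congrFun e 2
    exact hne e1 (by rw [hRR, e1, e3]; simp)
  · have h1 := hw.inv h0
    simp only [hW]
    refine hasDerivAt_pi.2 fun i => ?_
    fin_cases i
    · simpa [emb] using hasDerivAt_const t (1 : ℂ)
    · refine h1.congr_deriv ?_
      simp [k1]
      field_simp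
    · refine (hu.mul h1).congr_deriv ?_
      simp [e2, k1]
      field_simp
      linear_combination k2

/-- Denominators of the Moebius coordinate. -/
noncomputable def den (a₁ a₂ a ξ : ℂ) : ℂ := a₁ - a - ξ * (a₂ - a)

/-- The region of the Moebius coordinate that stays away from the other singular points. -/
def Om (T : Finset ℂ) (a₁ a₂ : ℂ) (K : ℝ) : Set ℂ :=
  {ξ | ξ ≠ 1 ∧ ∀ a ∈ T, ‖a₁ - a‖ + ‖ξ‖ * ‖a₂ - a‖ < K * ‖den a₁ a₂ a ξ‖}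

/-- The logarithmic derivative of the first integral on the line at infinity. -/
noncomputable def al (D : Dat) (T : Finset ℂ) (a₁ a₂ ξ : ℂ) : ℂ :=
  ∑ a ∈ T, lam D a * (-(a₂ - a) / den a₁ a₂ a ξ + 1 / (1 - ξ))

theorem isOpen_Om (T : Finset ℂ) (a₁ a₂ : ℂ) (K : ℝ) : IsOpen (Om T a₁ a₂ K) := by
  have : Om T a₁ a₂ K = {1}ᶜ ∩
      ⋂ a ∈ T, {ξ | ‖a₁ - a‖ + ‖ξ‖ * ‖a₂ - a‖ < K * ‖den a₁ a₂ a ξ‖} := by
    ext ξ; simp [Om]
  rw [this]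
  exact isOpen_compl_singleton.inter (isOpen_biInter_finset fun a _ =>
    isOpen_lt (by fun_prop) (by unfold den; fun_prop))

theorem den_ne {T : Finset ℂ} {a₁ a₂ ξ a : ℂ} {K : ℝ} (h : ξ ∈ Om T a₁ a₂ K) (ha : a ∈ T) :
    den a₁ a₂ a ξ ≠ 0 := fun e => by
  have := h.2 a ha
  rw [e, norm_zero, mul_zero] at this
  exact this.not_ge (by positivity)

variable {T : Finset ℂ} {ε M : ℝ} {s s' : ℂ → ℂ → ℂ}

theorem Br.lip (h : Br D T ε M s s') : ∃ L : ℝ, 0 < L ∧ ∀ a ∈ T, ∀ c ∈ T, ∀ w ∈ ball (0 : ℂ) ε,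
    ‖s' a w - s' c w‖ ≤ L * ‖a - c‖ := by
  have := h.Mpos
  refine ⟨2 * M * (∑ a ∈ T, ∑ c ∈ T, ‖a - c‖⁻¹ + 1), by positivity, fun a ha c hc w hw => ?_⟩
  by_cases hac : a = c
  · simp [hac]
  have k0 := norm_pos_iff.2 (sub_ne_zero.2 hac)
  have k1 : ‖a - c‖⁻¹ ≤ ∑ a ∈ T, ∑ c ∈ T, ‖a - c‖⁻¹ :=
    (Finset.single_le_sum (f := fun c => ‖a - c‖⁻¹) (fun _ _ => by positivity) hc).trans
      (Finset.single_le_sum (f := fun a => ∑ c ∈ T, ‖a - c‖⁻¹) (fun _ _ => by positivity) ha)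
  have k2 := mul_inv_cancel₀ k0.ne'
  have k3 := norm_sub_le (s' a w) (s' c w)
  have k4 := mul_le_mul_of_nonneg_left k1 k0.le
  nlinarith [(h.der a ha w hw).2, (h.der c hc w hw).2]

/-- Numerators of the Moebius coordinate. -/
noncomputable def num (s : ℂ → ℂ → ℂ) (a₁ a₂ a ξ w : ℂ) : ℂ :=
  s a₁ w - s a w - ξ * (s a₂ w - s a w)

theorem Br.tan_aux (h : Br D T ε M s s') {a₁ a₂ : ℂ} (h₁ : a₁ ∈ T) (h₂ : a₂ ∈ T) {K : ℝ}
    {ξ ζ w : ℂ → ℂ} {ξ' w' t : ℂ} (hξ : HasDerivAt ξ ξ' t)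
    (hζ : HasDerivAt ζ (ζ t * (al D T a₁ a₂ (ξ t) * ξ')) t) (hw : HasDerivAt w w' t)
    (hΩ : ξ t ∈ Om T a₁ a₂ K) (hb : w t ∈ ball (0 : ℂ) ε) (h0 : w t ≠ 0)
    (n4 : ∀ a ∈ T, num s a₁ a₂ a (ξ t) (w t) / den a₁ a₂ a (ξ t) ∈ Complex.slitPlane)
    (n6 : w t * ∑ a ∈ T, lam D a * (num s' a₁ a₂ a (ξ t) (w t) / num s a₁ a₂ a (ξ t) (w t)) ≠ 1)
    (hev : ∀ᶠ t in 𝓝 t, w t = ζ t * Complex.exp (∑ a ∈ T, lam D a *
      Complex.log (num s a₁ a₂ a (ξ t) (w t) / den a₁ a₂ a (ξ t)))) :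
    W D.F1 D.F2 (emb ((s a₁ (w t) - ξ t * s a₂ (w t)) / (1 - ξ t)) (w t)) ≠ 0 ∧
      ∃ κ : ℂ, HasDerivAt (fun t => emb ((s a₁ (w t) - ξ t * s a₂ (w t)) / (1 - ξ t)) (w t))
        (κ • W D.F1 D.F2 (emb ((s a₁ (w t) - ξ t * s a₂ (w t)) / (1 - ξ t)) (w t))) t := by
  have h1 : 1 - ξ t ≠ 0 := sub_ne_zero.2 hΩ.1.symm
  have ds : ∀ a ∈ T, HasDerivAt (fun t => s a (w t)) (s' a (w t) * w') t := fun a ha =>
    (h.der a ha _ hb).1.comp t hw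
  have hu := ((ds a₁ h₁).fun_sub (hξ.fun_mul (ds a₂ h₂))).fun_div (hξ.const_sub 1) h1
  obtain ⟨u, hudef⟩ : ∃ u, u = (s a₁ (w t) - ξ t * s a₂ (w t)) / (1 - ξ t) := ⟨_, rfl⟩
  have hn : ∀ a ∈ T, u - s a (w t) = num s a₁ a₂ a (ξ t) (w t) / (1 - ξ t) := fun a _ => by
    simp only [hudef, num]; field_simp; ring
  have hn5 : ∀ a ∈ T, num s a₁ a₂ a (ξ t) (w t) ≠ 0 := fun a ha e =>
    Complex.slitPlane_ne_zero (n4 a ha) (by simp [e])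
  obtain ⟨p1, p2, p3⟩ := h.pf (w t) hb u fun a ha =>
    sub_ne_zero.1 (by rw [hn a ha]; exact div_ne_zero (hn5 a ha) h1)
  have p4 : ev (RR D.F1 D.F2) u (w t) = ev D.Φ u (w t) *
      (1 + w t * ∑ a ∈ T, lam D a * s' a (w t) / (u - s a (w t))) := by
    linear_combination D.ev_B u (w t) + w t * p3
  refine tangent (u := fun t => (s a₁ (w t) - ξ t * s a₂ (w t)) / (1 - ξ t)) (w := w) (t := t)
    hu hw h0 (fun e1 e2 => n6 ?_) ?_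
  · rw [← hudef] at e1 e2
    rw [p2, neg_eq_zero] at e1
    rw [p4] at e2
    have e3 : ∑ a ∈ T, lam D a * (num s' a₁ a₂ a (ξ t) (w t) / num s a₁ a₂ a (ξ t) (w t)) =
        (s' a₁ (w t) - ξ t * s' a₂ (w t)) / (1 - ξ t) * ∑ a ∈ T, lam D a / (u - s a (w t)) -
          ∑ a ∈ T, lam D a * s' a (w t) / (u - s a (w t)) := by
      rw [Finset.mul_sum, ← Finset.sum_sub_distrib]
      refine Finset.sum_congr rfl fun a ha => ?_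
      have := hn5 a ha
      rw [hn a ha, num.eq_def s']
      field_simp
      ring
    rw [e3, (mul_eq_zero.1 e1).resolve_left p1]
    linear_combination -(mul_eq_zero.1 e2).resolve_left p1
  · have dk : HasDerivAt (fun t => ∑ a ∈ T, lam D a *
        Complex.log (num s a₁ a₂ a (ξ t) (w t) / den a₁ a₂ a (ξ t))) (∑ a ∈ T, lam D a *
        ((num s' a₁ a₂ a (ξ t) (w t) * w' - ξ' * (s a₂ (w t) - s a (w t))) /
          num s a₁ a₂ a (ξ t) (w t) + ξ' * (a₂ - a) / den a₁ a₂ a (ξ t))) t :=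
      HasDerivAt.fun_sum fun a ha => by
        have d1 : HasDerivAt (fun t => num s a₁ a₂ a (ξ t) (w t))
            (num s' a₁ a₂ a (ξ t) (w t) * w' - ξ' * (s a₂ (w t) - s a (w t))) t :=
          (((ds a₁ h₁).fun_sub (ds a ha)).fun_sub
            (hξ.fun_mul ((ds a₂ h₂).fun_sub (ds a ha)))).congr_deriv (by simp only [num]; ring)
        have d2 : HasDerivAt (fun t => den a₁ a₂ a (ξ t)) (-(ξ' * (a₂ - a))) t :=
          (hξ.mul_const (a₂ - a)).const_sub (a₁ - a)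
        refine (((d1.fun_div d2 (den_ne hΩ ha)).clog (n4 a ha)).const_mul _).congr_deriv ?_
        have k1 := den_ne hΩ ha
        have k2 := hn5 a ha
        field_simp
        ring
    have e1 := hw.unique ((hζ.fun_mul dk.cexp).congr_of_eventuallyEq hev)
    have e2 := hev.self_of_nhds
    rw [← hudef, p2, p4]
    have e3 : al D T a₁ a₂ (ξ t) * ξ' + ∑ a ∈ T, lam D a *
        ((num s' a₁ a₂ a (ξ t) (w t) * w' - ξ' * (s a₂ (w t) - s a (w t))) /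
          num s a₁ a₂ a (ξ t) (w t) + ξ' * (a₂ - a) / den a₁ a₂ a (ξ t)) =
        (∑ a ∈ T, lam D a / (u - s a (w t))) *
          (((s' a₁ (w t) * w' - (ξ' * s a₂ (w t) + ξ t * (s' a₂ (w t) * w'))) * (1 - ξ t) -
            (s a₁ (w t) - ξ t * s a₂ (w t)) * -ξ') / (1 - ξ t) ^ 2) -
        (∑ a ∈ T, lam D a * s' a (w t) / (u - s a (w t))) * w' := by
      rw [al, Finset.sum_mul, Finset.sum_mul, Finset.sum_mul, ← Finset.sum_sub_distrib,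
        ← Finset.sum_add_distrib]
      refine Finset.sum_congr rfl fun a ha => ?_
      have k1 := den_ne hΩ ha
      have k2 := hn5 a ha
      rw [hn a ha, num.eq_def s']
      have k3 : s a₁ (w t) = num s a₁ a₂ a (ξ t) (w t) + s a (w t) +
          ξ t * (s a₂ (w t) - s a (w t)) := by simp only [num]; ring
      rw [k3]
      generalize num s a₁ a₂ a (ξ t) (w t) = N at k2 ⊢
      field_simp
      ring
    rw [mul_right_comm (ζ t), ← mul_assoc (ζ t), ← e2, ← mul_add, e3] at e1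
    generalize (∑ a ∈ T, lam D a / (u - s a (w t))) = S₁ at e1 ⊢
    generalize (∑ a ∈ T, lam D a * s' a (w t) / (u - s a (w t))) = S₂ at e1 ⊢
    generalize ((s' a₁ (w t) * w' - (ξ' * s a₂ (w t) + ξ t * (s' a₂ (w t) * w'))) * (1 - ξ t) -
      (s a₁ (w t) - ξ t * s a₂ (w t)) * -ξ') / (1 - ξ t) ^ 2 = u' at e1 ⊢
    linear_combination ev D.Φ u (w t) * e1

/-- The chart adapted to two singular points. -/
structure Ch (D : Dat) (T : Finset ℂ) (s : ℂ → ℂ → ℂ) (a₁ a₂ : ℂ) (K b : ℝ) (P : ℂ → ℂ → E) :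
    Prop where
  pos : 0 < b
  tan : ∀ (ξ ζ : ℂ → ℂ) (ξ' t : ℂ), HasDerivAt ξ ξ' t →
    HasDerivAt ζ (ζ t * (al D T a₁ a₂ (ξ t) * ξ')) t → ξ t ∈ Om T a₁ a₂ K → ζ t ≠ 0 → ‖ζ t‖ < b →
    W D.F1 D.F2 (P (ξ t) (ζ t)) ≠ 0 ∧ ∃ κ : ℂ, HasDerivAt (fun t => P (ξ t) (ζ t))
      (κ • W D.F1 D.F2 (P (ξ t) (ζ t))) t
  inj : ∀ ξ ∈ Om T a₁ a₂ K, ∀ ξ' ∈ Om T a₁ a₂ K, ∀ ζ ζ' : ℂ, ζ ≠ 0 → ‖ζ‖ < b → ‖ζ'‖ < b →
    P ξ ζ = P ξ' ζ' → ξ = ξ' ∧ ζ = ζ'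
  far : ∀ ξ ∈ Om T a₁ a₂ K, ∀ ζ : ℂ, ζ ≠ 0 → ‖ζ‖ < b → (2 * ‖ζ‖)⁻¹ ≤ ‖P ξ ζ‖
  onto : ∀ ξ ∈ Om T a₁ a₂ K, ∀ w : ℂ, w ≠ 0 → ‖w‖ < b / 2 →
    ∃ ζ : ℂ, ζ ≠ 0 ∧ ‖ζ‖ ≤ 2 * ‖w‖ ∧ P ξ ζ = emb ((s a₁ w - ξ * s a₂ w) / (1 - ξ)) w

theorem Br.exists_ch (h : Br D T ε M s s') {a₁ a₂ : ℂ} (h₁ : a₁ ∈ T) (h₂ : a₂ ∈ T) {K : ℝ}
    (hK : 0 < K) : ∃ b P, Ch D T s a₁ a₂ K b P := by
  obtain ⟨L, hL, hlip⟩ := h.lip
  have hε := h.pos
  set A := ∑ a ∈ T, ‖lam D a‖ + 1 with hA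
  have hA1 : 1 ≤ A := le_add_of_nonneg_left (by positivity)
  obtain ⟨b, hb, hbε, hbL⟩ : ∃ b : ℝ, 0 < b ∧ b < ε ∧ A * (2 * (L * K)) * b ≤ 1 / 4 :=
    ⟨min (ε / 2) (1 / 4 / (A * (2 * (L * K)))), by positivity,
      (min_le_left _ _).trans_lt (half_lt_self hε), by
        rw [← le_div_iff₀' (by positivity)]; exact min_le_right _ _⟩
  have hsub : closedBall (0 : ℂ) b ⊆ ball 0 ε := closedBall_subset_ball hbε
  let nm := num s a₁ a₂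
  let nm' := num s' a₁ a₂
  let k : ℂ → ℂ → ℂ := fun ξ w => ∑ a ∈ T, lam D a * Complex.log (nm a ξ w / den a₁ a₂ a ξ)
  let kw : ℂ → ℂ → ℂ := fun ξ w => ∑ a ∈ T, lam D a * (nm' a ξ w / nm a ξ w)
  have n0 : ∀ a ∈ T, ∀ ξ, nm a ξ 0 = den a₁ a₂ a ξ := fun a ha ξ => by
    simp only [nm, num, den, h.zero a ha, h.zero a₁ h₁, h.zero a₂ h₂]
  have n1 : ∀ a ∈ T, ∀ ξ, ∀ w ∈ closedBall (0 : ℂ) b, HasDerivAt (nm a ξ) (nm' a ξ w) w :=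
    fun a ha ξ w hw => ((h.der a₁ h₁ w (hsub hw)).1.sub (h.der a ha w (hsub hw)).1).sub
      (((h.der a₂ h₂ w (hsub hw)).1.sub (h.der a ha w (hsub hw)).1).const_mul ξ)
  have n2 : ∀ a ∈ T, ∀ ξ ∈ Om T a₁ a₂ K, ∀ w ∈ closedBall (0 : ℂ) b,
      ‖nm' a ξ w‖ ≤ L * K * ‖den a₁ a₂ a ξ‖ := fun a ha ξ hξ w hw => by
    refine (norm_sub_le _ _).trans ?_
    rw [norm_mul]
    have k1 := hlip a₁ h₁ a ha w (hsub hw)
    have k2 := mul_le_mul_of_nonneg_left (hlip a₂ h₂ a ha w (hsub hw)) (norm_nonneg ξ)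
    have k3 := mul_le_mul_of_nonneg_left (hξ.2 a ha).le hL.le
    nlinarith
  have n3 : ∀ a ∈ T, ∀ ξ ∈ Om T a₁ a₂ K, ∀ w ∈ closedBall (0 : ℂ) b,
      ‖nm a ξ w / den a₁ a₂ a ξ - 1‖ ≤ 1 / 2 := fun a ha ξ hξ w hw => by
    have := (convex_closedBall (0 : ℂ) b).norm_image_sub_le_of_norm_hasDerivWithin_le
      (fun w hw => (n1 a ha ξ w hw).hasDerivWithinAt) (n2 a ha ξ hξ) (mem_closedBall_self hb.le) hw
    rw [n0 a ha, sub_zero] at this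
    have k0 := norm_pos_iff.2 (den_ne hξ ha)
    rw [div_sub_one (den_ne hξ ha), norm_div, div_le_iff₀ k0]
    have k1 : L * K * b ≤ 1 / 2 := by nlinarith [mul_pos (mul_pos hL hK) hb]
    have k2 := mem_closedBall_zero_iff.1 hw
    have k3 : L * K * ‖w‖ ≤ 1 / 2 := le_trans (by gcongr) k1
    nlinarith
  have n4 : ∀ a ∈ T, ∀ ξ ∈ Om T a₁ a₂ K, ∀ w ∈ closedBall (0 : ℂ) b,
      nm a ξ w / den a₁ a₂ a ξ ∈ Complex.slitPlane := fun a ha ξ hξ w hw => by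
    simpa using Complex.mem_slitPlane_of_norm_lt_one ((n3 a ha ξ hξ w hw).trans_lt (by norm_num))
  have n5 : ∀ a ∈ T, ∀ ξ ∈ Om T a₁ a₂ K, ∀ w ∈ closedBall (0 : ℂ) b, nm a ξ w ≠ 0 :=
    fun a ha ξ hξ w hw e => Complex.slitPlane_ne_zero (n4 a ha ξ hξ w hw) (by simp [e])
  have n6 : ∀ ξ ∈ Om T a₁ a₂ K, ∀ w ∈ closedBall (0 : ℂ) b, ‖kw ξ w‖ * b ≤ 1 / 4 :=
    fun ξ hξ w hw => by
      refine le_trans ?_ hbL
      gcongr
      refine (norm_sum_le _ _).trans (le_trans ?_ (show (∑ a ∈ T, ‖lam D a‖) * (2 * (L * K)) ≤ _ by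
        gcongr; linarith))
      rw [Finset.sum_mul]
      refine Finset.sum_le_sum fun a ha => ?_
      rw [norm_mul, norm_div]
      gcongr
      rw [div_le_iff₀ (norm_pos_iff.2 (n5 a ha ξ hξ w hw))]
      have k0 := norm_pos_iff.2 (den_ne hξ ha)
      have k1 := norm_sub_norm_le (1 : ℂ) (nm a ξ w / den a₁ a₂ a ξ)
      rw [norm_sub_rev, norm_one, norm_div] at k1
      have k2 : 1 / 2 ≤ ‖nm a ξ w‖ / ‖den a₁ a₂ a ξ‖ := by linarith [n3 a ha ξ hξ w hw]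
      rw [le_div_iff₀ k0] at k2
      nlinarith [n2 a ha ξ hξ w hw, mul_pos hL hK]
  have cs : ∀ a ∈ T, ∀ w ∈ closedBall (0 : ℂ) b, ContDiffAt ℂ 1 (s a) w := fun a ha w hw =>
    ((DifferentiableOn.analyticOnNhd (fun w hw => (h.der a ha w hw).1.differentiableAt
      |>.differentiableWithinAt) isOpen_ball) w (hsub hw)).contDiffAt
  have n7 : ∀ ξ ∈ Om T a₁ a₂ K, ∀ w ∈ closedBall (0 : ℂ) b,
      ContDiffAt ℂ 1 (fun z : ℂ × ℂ => k z.1 z.2) (ξ, w) := fun ξ hξ w hw => by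
    refine ContDiffAt.sum fun a ha => contDiffAt_const.mul ?_
    have c : ∀ a ∈ T, ContDiffAt ℂ 1 (fun z : ℂ × ℂ => s a z.2) (ξ, w) := fun a ha =>
      (cs a ha w hw).comp (ξ, w) contDiffAt_snd
    refine (Complex.contDiffAt_log (n4 a ha ξ hξ w hw)).comp (ξ, w)
      (f := fun z : ℂ × ℂ => nm a z.1 z.2 / den a₁ a₂ a z.1) (ContDiffAt.div ?_ ?_ (den_ne hξ ha))
    · exact ((c a₁ h₁).sub (c a ha)).sub (contDiffAt_fst.mul ((c a₂ h₂).sub (c a ha)))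
    · exact contDiffAt_const.sub (contDiffAt_fst.mul contDiffAt_const)
  have n8 : ∀ ξ ∈ Om T a₁ a₂ K, ∀ w ∈ closedBall (0 : ℂ) b, HasDerivAt (k ξ) (kw ξ w) w :=
    fun ξ hξ w hw => by
    refine HasDerivAt.fun_sum fun a ha => ?_
    refine (((n1 a ha ξ w hw).div_const _).clog (n4 a ha ξ hξ w hw)).const_mul _ |>.congr_deriv ?_
    have := den_ne hξ ha
    have := n5 a ha ξ hξ w hw
    field_simp
  obtain ⟨hk, σ, hσ⟩ := fixed_point (k := k) (kw := kw) hb (fun ξ hξ => Finset.sum_eq_zero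
    fun a ha => by rw [n0 a ha, div_self (den_ne hξ ha), Complex.log_one, mul_zero])
    (fun ξ hξ w hw => ⟨n7 ξ hξ w hw, n8 ξ hξ w hw, n6 ξ hξ w hw⟩) (isOpen_Om T a₁ a₂ K)
  have s1 : ∀ ξ ∈ Om T a₁ a₂ K, ∀ ζ : ℂ, ‖ζ‖ < b / 2 → σ ξ ζ ∈ closedBall (0 : ℂ) b :=
    fun ξ hξ ζ hζ => mem_closedBall_zero_iff.2 (by
      linarith [(hσ ξ hξ ζ (mem_ball_zero_iff.2 hζ)).2.1])
  have s2 : ∀ ξ ∈ Om T a₁ a₂ K, ∀ ζ : ℂ, ζ ≠ 0 → ‖ζ‖ < b / 2 → σ ξ ζ ≠ 0 := fun ξ hξ ζ h0 hζ => by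
    rw [(hσ ξ hξ ζ (mem_ball_zero_iff.2 hζ)).1]
    exact mul_ne_zero h0 (Complex.exp_ne_zero _)
  refine ⟨b / 2, fun ξ ζ => emb ((s a₁ (σ ξ ζ) - ξ * s a₂ (σ ξ ζ)) / (1 - ξ)) (σ ξ ζ),
    half_pos hb, fun ξ ζ ξ' t hξ hζ hΩ h0 hlt => ?_, fun ξ hξ ξ' hξ' ζ ζ' h0 hζ hζ' e => ?_,
    fun ξ hξ ζ h0 hζ => ?_, fun ξ hξ w h0 hw => ?_⟩
  · have hw := ((hσ _ hΩ _ (mem_ball_zero_iff.2 hlt)).2.2.2.comp t
      (f := fun t => (ξ t, ζ t)) (hξ.prodMk hζ).differentiableAt).hasDerivAt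
    have hb' := s1 _ hΩ _ hlt
    refine h.tan_aux h₁ h₂ (w := fun t => σ (ξ t) (ζ t)) hξ hζ hw hΩ (hsub hb') (s2 _ hΩ _ h0 hlt)
      (fun a ha => n4 a ha _ hΩ _ hb') (fun e4 => ?_) ?_
    · have := congrArg norm e4
      rw [norm_one, norm_mul] at this
      nlinarith [mem_closedBall_zero_iff.1 hb', norm_nonneg (kw (ξ t) (σ (ξ t) (ζ t))),
        n6 _ hΩ _ hb']
    · filter_upwards [hξ.continuousAt ((isOpen_Om T a₁ a₂ K).mem_nhds hΩ),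
        hζ.continuousAt (isOpen_ball.mem_nhds (mem_ball_zero_iff.2 hlt))] with t k1 k2
      exact (hσ _ k1 _ k2).1
  · obtain ⟨e1, e2⟩ := emb_inj (s2 _ hξ _ h0 hζ) e
    have k1 := n5 a₂ h₂ ξ hξ _ (s1 _ hξ _ hζ)
    simp only [nm, num, sub_self, mul_zero, sub_zero] at k1
    rw [← e2, div_eq_div_iff (sub_ne_zero.2 hξ.1.symm) (sub_ne_zero.2 hξ'.1.symm)] at e1
    obtain rfl : ξ = ξ' := mul_right_cancel₀ k1 (by linear_combination e1)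
    refine ⟨rfl, mul_right_cancel₀ (Complex.exp_ne_zero (k ξ (σ ξ ζ))) ?_⟩
    rw [← (hσ ξ hξ ζ (mem_ball_zero_iff.2 hζ)).1, e2, ← (hσ ξ hξ ζ' (mem_ball_zero_iff.2 hζ')).1]
  · refine le_trans ?_ (norm_le_pi_norm _ 1)
    simp only [emb, Matrix.cons_val_one, Matrix.cons_val_zero, norm_inv]
    exact inv_anti₀ (norm_pos_iff.2 (s2 _ hξ _ h0 hζ)) (hσ ξ hξ ζ (mem_ball_zero_iff.2 hζ)).2.1
  · have hw' : w ∈ closedBall (0 : ℂ) b := mem_closedBall_zero_iff.2 (by linarith)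
    have k1 : ‖w * Complex.exp (-k ξ w)‖ ≤ 2 * ‖w‖ := by
      rw [norm_mul, mul_comm]
      gcongr
      exact norm_exp_le_two (by rw [norm_neg]; exact hk ξ hξ w hw')
    refine ⟨w * Complex.exp (-k ξ w), mul_ne_zero h0 (Complex.exp_ne_zero _), k1, ?_⟩
    rw [← (hσ ξ hξ _ (mem_ball_zero_iff.2 (by linarith))).2.2.1 w hw' (by
      rw [mul_assoc, ← Complex.exp_add, neg_add_cancel, Complex.exp_zero, mul_one])]

end Pool.Agent.P.MP_a31c1c_an.Inf
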