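import Pool.Agent.P.MP_a31c1c_an.InfMain

/-!
The exception occurs in degree two.
-/

set_option autoImplicit false

namespace Pool.Agent.P.MP_a31c1c_an.Inf

open MvPolynomial Metric Filter Topology Set AlgAux Complex

theorem na_of {d a c : ℕ} {F : Fin 3 → MP} {G F1 F2 A B C D KA KB KC KD : MP} {ν : ℂ} {p : E}
    (T : Dec d F G F1 F2) (P : Pb F1 F2 A B C D KA KB KC KD ν) (hν : ν.im ≠ 0)
    (hA : A.IsHomogeneous a) (hB : B.IsHomogeneous a) (hC : C.IsHomogeneous c)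
    (hD : D.IsHomogeneous c) (p0 : p 0 = 1) (k0 : eval p A ≠ 0) (k1 : eval p B ≠ 0)
    (k3 : eval p C ≠ 0) (k2 : eval p D ≠ 0) (hJ : eval p (Jac A B C D) ≠ 0)
    (hW : W F1 F2 p ≠ 0) : NA F p := by
  rintro ⟨k, Q, -, hQ, Q0, h⟩
  obtain ⟨c₀, hc₀, τ, hp⟩ : ∃ c₀, c₀ ≠ 0 ∧ ∃ τ, Rel A B C D ν c₀ p τ := by
    refine ⟨eval p A / eval p B / exp (ν * log (eval p C / eval p D)), div_ne_zero
      (div_ne_zero k0 k1) (exp_ne_zero _), log (eval p C / eval p D), ?_, ?_⟩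
    · field_simp
    · rw [exp_log (div_ne_zero k3 k2)]
      field_simp
  obtain ⟨ρ, γ, hρ, e0, hγ, e1, -⟩ := P.plaque p0 k1 k2 hJ hW hp
  obtain ⟨g, Cl, -, g2, -, g4, g5⟩ := exists_rel hA hB hC hD (isHomogeneous_X_pow 0 k) hQ Q0 hν hc₀
  obtain ⟨s, hs, hs'⟩ := ((g2 τ).and (mem_nhdsWithin_of_mem_nhds (ball_mem_nhds τ hρ))).exists
  obtain ⟨b0, b1, b2, b3⟩ := e1 s hs'
  have := g5 _ _ (g4 _ _ b3.1 b3.2 b1 b2) (h _ (LP.along (fun t ht => ⟨ne0 _ (e1 t ht).1,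
    fun h => ?_, ?_⟩) (mem_ball_self hρ) hs' (e0 ▸ Relation.ReflTransGen.refl))) hs
  · simp [b0] at this
  · obtain ⟨c, hc⟩ := T.hsing' _ h
    have : c = 0 := by simpa [W, (e1 t ht).1] using (congrFun hc 0).symm
    exact (hγ t ht).1 (by rw [hc, this, zero_smul])
  · obtain ⟨-, κ, hκ⟩ := hγ t ht
    refine ⟨-(κ * eval (γ t) G), κ, hκ.congr_deriv ?_⟩
    rw [T.hV, smul_add, smul_smul, neg_smul]
    abel

/-- A quadratic foliation, hyperbolic at infinity, with a parabolic non-algebraic leaf. -/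
theorem occurs : ∃ (F : Fin 3 → MP) (p : E), (∀ i, (F i).IsHomogeneous 2) ∧
    (∃ S : Finset E, ∀ z, SingP (VP F) z → ∃ s ∈ S, ∃ t : ℂ, z = t • s) ∧
    (∀ z : E, z 0 = 0 → VP F z 0 = 0) ∧ EigI 2 F ∧ p ≠ 0 ∧ ¬ SingP (VP F) p ∧ NA F p ∧
    ¬ Concl (VP F) p := by
  classical
  have x := fun i : Fin 3 => isHomogeneous_X_pow (R := ℂ) i 2
  have h1 := ((x 1).C_mul (1 + 2 * I)).sub (x 2)
  have h2 := ((isHomogeneous_X ℂ (1 : Fin 3)).mul (isHomogeneous_X ℂ 2)).C_mul (2 * I)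
  let F : Fin 3 → MP := ![0, C (1 + 2 * I) * X 1 ^ 2 - X 2 ^ 2, C (2 * I) * (X 1 * X 2)]
  have hF : ∀ i, (F i).IsHomogeneous 2 := fun i => by
    fin_cases i
    exacts [isHomogeneous_zero _ _ _, h1, h2]
  have T : Dec 2 F 0 (F 1) (F 2) := ⟨one_le_two, hF, by simp [F], by simp, by simp, h1, h2,
    isHomogeneous_zero _ _ _⟩
  have P : Pb (F 1) (F 2) (X 2) (X 0) (X 2 ^ 2 - X 1 ^ 2) (X 2 ^ 2) (C (2 * I) * X 1) 0
      (C (2 + 4 * I) * X 1) (C (4 * I) * X 1) I := by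
    constructor <;> refine MvPolynomial.funext fun z => ?_ <;> simp [Dw, F, pderiv_X] <;> ring
  have hJ : eval ![1, 1, 2] (Jac (X 2) (X 0) (X 2 ^ 2 - X 1 ^ 2) (X 2 ^ 2)) ≠ 0 := by
    simp [Jac, pderiv_X]
  have hW : W (F 1) (F 2) ![1, 1, 2] ≠ 0 := fun h => by simpa [F] using (W_eq_zero.1 h).2
  have hna := na_of T P (by simp) (isHomogeneous_X ℂ 2) (isHomogeneous_X ℂ 0) ((x 2).sub (x 1))
    (x 2) (p := ![1, 1, 2]) rfl (by simp) (by simp) (by simp; norm_num) (by simp) hJ hW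
  have hinv : ∀ z : E, z 0 = 0 → VP F z 0 = 0 := fun z _ => by simp [VP, F]
  have hp : ¬ SingP (VP F) ![1, 1, 2] := fun h => by
    obtain ⟨c, hc⟩ := T.hsing' _ h
    have : c = 0 := by simpa [W] using (congrFun hc 0).symm
    exact hW (by rw [hc, this, zero_smul])
  have key : ∀ (a : E) (c : ℂ), VP F a = c • a → c * a 0 = 0 ∧
      (1 + 2 * I) * a 1 ^ 2 - a 2 ^ 2 = c * a 1 ∧ 2 * I * (a 1 * a 2) = c * a 2 := fun a c h =>
    ⟨by simpa [VP, F] using (congrFun h 0).symm, by simpa [VP, F] using congrFun h 1,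
      by simpa [VP, F, -mul_eq_mul_right_iff] using congrFun h 2⟩
  have n1 : (1 + 2 * I : ℂ) ≠ 0 := fun h => by simpa using congrArg re h
  refine ⟨F, ![1, 1, 2], hF, ⟨{![1, 0, 0], ![0, 1, 0], ![0, 1, 1], ![0, 1, -1]},
    fun z ⟨_, c, h⟩ => ?_⟩, hinv, fun a c ha a0 h => ?_, ne0 _ rfl, hp, hna,
    not_concl one_le_two hF hinv (ne0 _ rfl) hp hna (T.exc.2 ⟨I, _, _, _, _, _, _, _, _, _, _,
      by simp, isHomogeneous_X ℂ 2, isHomogeneous_X ℂ 0, (x 2).sub (x 1), x 2, P, _, rfl, hJ⟩)⟩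
  · obtain ⟨e0, e1, e2⟩ := key z c h
    have e3 : z 2 * ((z 2 - z 1) * (z 2 + z 1)) = 0 := by
      linear_combination z 1 * e2 - z 2 * e1
    by_cases z0 : z 0 = 0
    · rcases mul_eq_zero.1 e3 with k | k
      · exact ⟨![0, 1, 0], by simp, z 1, by ext i; fin_cases i <;> simp [z0, k]⟩
      · rcases mul_eq_zero.1 k with k | k
        · exact ⟨![0, 1, 1], by simp, z 1, by ext i; fin_cases i <;> simp [z0, sub_eq_zero.1 k]⟩
        · exact ⟨![0, 1, -1], by simp, z 1, by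
            ext i; fin_cases i <;> simp [z0, eq_neg_of_add_eq_zero_left k]⟩
    · rw [(mul_eq_zero.1 e0).resolve_right z0, zero_mul] at e1 e2
      have k : z 1 = 0 ∧ z 2 = 0 := by
        rcases mul_eq_zero.1 ((mul_eq_zero.1 e2).resolve_left (by simp)) with k | k <;>
          simpa [k, n1] using e1
      exact ⟨![1, 0, 0], by simp, z 0, by ext i; fin_cases i <;> simp [k.1, k.2]⟩
  · obtain ⟨-, e1, e2⟩ := key a c h
    have a1 : a 1 ≠ 0 := fun k => ha (by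
      have : a 2 = 0 := by simpa [k] using e1
      ext i
      fin_cases i <;> simp [a0, k, this])
    by_cases a2 : a 2 = 0
    · have e : c = (1 + 2 * I) * a 1 := mul_right_cancel₀ a1 (by
        rw [a2] at e1; linear_combination -e1)
      refine ⟨-c, -a 1, fun y => ?_, by simp [e, a1]⟩
      rw [Matrix.det_fin_three]
      simp [F, pderiv_X, a2, e]
      ring
    · have e : c = 2 * I * a 1 := mul_right_cancel₀ a2 (by linear_combination -e2)
      refine ⟨-c, 2 * a 1, fun y => ?_, ?_⟩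
      · rw [Matrix.det_fin_three]
        simp [F, pderiv_X, e]
        rw [e] at e1
        linear_combination -(4 * I * y) * e1
      · rw [show -c / (2 * a 1) = -I by rw [e]; field_simp]
        simp

end Pool.Agent.P.MP_a31c1c_an.Inf
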