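import Pool.Agent.P.MP_a31c1c_an.InfBr

/-!
Factorisation of the inverse integrating factor according to residues.
-/

set_option autoImplicit false

namespace Pool.Agent.P.MP_a31c1c_an.Inf

open MvPolynomial Metric Filter Topology Set AlgAux

/-- Grading by an auxiliary variable. -/
noncomputable def grd (H : MP) : Polynomial MP :=
  aeval (fun i => Polynomial.C (X i) * Polynomial.X) H

theorem grd_hom (H : MP) (k : ℕ) : ((grd H).coeff k).IsHomogeneous k := by
  unfold grd
  induction H using MvPolynomial.induction_on generalizing k with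
  | C a =>
    rw [aeval_C, Polynomial.algebraMap_apply, Polynomial.coeff_C]
    split_ifs with h
    · exact h ▸ isHomogeneous_C _ a
    · exact isHomogeneous_zero _ _ _
  | add p q hp hq => rw [map_add, Polynomial.coeff_add]; exact (hp k).add (hq k)
  | mul_X p i hp =>
    rw [map_mul, aeval_X, ← mul_assoc]
    cases k with
    | zero => simpa using isHomogeneous_zero _ _ _
    | succ k =>
      rw [Polynomial.coeff_mul_X, Polynomial.coeff_mul_C]
      exact (hp k).mul (isHomogeneous_X ℂ i)

theorem grd_one (H : MP) : (grd H).eval 1 = H := by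
  unfold grd
  induction H using MvPolynomial.induction_on with
  | C a => simp
  | add p q hp hq => simp only [map_add, Polynomial.eval_add, hp, hq]
  | mul_X p i hp => simp [hp]

theorem hom_factor {f g : MP} {n : ℕ} (h : (f * g).IsHomogeneous n) (h0 : f * g ≠ 0) :
    ∃ k, f.IsHomogeneous k := by
  have e : grd f * grd g = Polynomial.monomial n (f * g) := by
    rw [show grd f * grd g = grd (f * g) from (map_mul _ _ _).symm]
    generalize f * g = H at h
    refine Polynomial.ext fun j => ?_
    have k := congrArg (homogeneousComponent j) (grd_one H)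
    rw [Polynomial.eval_eq_sum, Polynomial.sum, map_sum, homogeneousComponent_of_mem h,
      Finset.sum_eq_single j (fun i _ hi => by
        rw [one_pow, mul_one, homogeneousComponent_of_mem (grd_hom H i), if_neg hi.symm])
        (fun hj => by simp [Polynomial.notMem_support_iff.1 hj]), one_pow, mul_one,
      homogeneousComponent_eq_self (grd_hom H j)] at k
    rw [k, Polynomial.coeff_monomial]
    simp only [eq_comm]
  have n0 : grd f * grd g ≠ 0 := by rwa [e, Ne, Polynomial.monomial_eq_zero_iff]
  have k1 := Polynomial.natDegree_mul (left_ne_zero_of_mul n0) (right_ne_zero_of_mul n0)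
  have k2 := Polynomial.natTrailingDegree_mul (left_ne_zero_of_mul n0) (right_ne_zero_of_mul n0)
  rw [e] at k1 k2
  rw [Polynomial.natDegree_monomial_eq _ h0] at k1
  rw [Polynomial.natTrailingDegree_monomial h0] at k2
  have k3 := (grd f).natTrailingDegree_le_natDegree
  have k4 := (grd g).natTrailingDegree_le_natDegree
  refine ⟨(grd f).natDegree, ?_⟩
  have k5 : grd f = Polynomial.monomial (grd f).natDegree ((grd f).coeff (grd f).natDegree) :=
    Polynomial.ext fun j => by
      rw [Polynomial.coeff_monomial]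
      split_ifs with hj
      · rw [hj]
      · rcases lt_or_gt_of_ne hj with k | k
        · exact Polynomial.coeff_eq_zero_of_natDegree_lt k
        · exact Polynomial.coeff_eq_zero_of_lt_natTrailingDegree (by omega)
  have k6 := grd_one f
  rw [k5, Polynomial.eval_monomial, one_pow, mul_one] at k6
  have := grd_hom f (grd f).natDegree
  rwa [k6] at this

theorem exists_fac {ι : Type} [DecidableEq ι] {T : Finset ι} (hT : T.Nonempty) (P : ι → MP) :
    ∀ x : MP, x ∣ ∏ a ∈ T, P a → ∃ f : ι → MP, x = ∏ a ∈ T, f a ∧ ∀ a ∈ T, f a ∣ P a := by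
  induction hT using Finset.Nonempty.cons_induction with
  | singleton a => exact fun x h => ⟨fun _ => x, by simp, by simpa using h⟩
  | cons a s ha _ ih =>
    intro x h
    rw [Finset.prod_cons] at h
    obtain ⟨y, z, h1, h2, rfl⟩ := exists_dvd_and_dvd_of_dvd_mul h
    obtain ⟨f, rfl, hf⟩ := ih z h2
    have e : ∀ b ∈ s, Function.update f a y b = f b := fun b hb =>
      Function.update_of_ne (fun e : b = a => ha (e ▸ hb)) _ _
    refine ⟨Function.update f a y, by
      rw [Finset.prod_cons, Function.update_self, Finset.prod_congr rfl e], fun b hb => ?_⟩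
    rcases Finset.mem_cons.1 hb with rfl | hb
    · rwa [Function.update_self]
    · rw [e b hb]; exact hf b hb

/-- A polynomial in the last variable. -/
noncomputable def lst (H : MP) : Polynomial MP :=
  aeval ![Polynomial.C (X 0), Polynomial.C (X 1), Polynomial.X] H

theorem lst_eval (H : MP) : (lst H).eval (X 2) = H := by
  unfold lst
  induction H using MvPolynomial.induction_on with
  | C a => simp
  | add p q hp hq => simp only [map_add, Polynomial.eval_add, hp, hq]
  | mul_X p i hp => fin_cases i <;> simp [hp]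

theorem lst_map (H : MP) (z : E) (u : ℂ) :
    ((lst H).map (eval z)).eval u = eval ![z 0, z 1, u] H := by
  unfold lst
  induction H using MvPolynomial.induction_on with
  | C a => simp
  | add p q hp hq => simp only [map_add, Polynomial.map_add, Polynomial.eval_add, hp, hq]
  | mul_X p i hp => fin_cases i <;> simp [hp]

theorem lst_deg {H : MP} {n : ℕ} (h : H.IsHomogeneous n) :
    (lst H).natDegree ≤ n ∧ (lst H).coeff n = C (eval ![0, 0, 1] H) := by
  have key : ∀ z : E, ∃ K : MP, K.IsHomogeneous n ∧ (lst H).map (eval z) = res K ∧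
      eval ![0, 0, 1] K = eval ![0, 0, 1] H := fun z => by
    have e : ∀ y : E, eval y (aeval (![C (z 0) * X 1, C (z 1) * X 1, X 2] : Fin 3 → MP) H) =
        eval ![z 0 * y 1, z 1 * y 1, y 2] H := fun y => by
      clear h
      induction H using MvPolynomial.induction_on with
      | C a => simp
      | add p q hp hq => simp only [map_add, hp, hq]
      | mul_X p j hp =>
        simp only [map_mul, hp, aeval_X, eval_X]
        congr 1
        fin_cases j <;> simp
    refine ⟨aeval (![C (z 0) * X 1, C (z 1) * X 1, X 2] : Fin 3 → MP) H, ?_,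
      Polynomial.funext fun u => by rw [lst_map, eval_res, e]; simp, by rw [e]; simp⟩
    have := h.aeval (n := 1) (![C (z 0) * X 1, C (z 1) * X 1, X 2] : Fin 3 → MP) fun i => by
      fin_cases i
      · exact isHomogeneous_C_mul_X _ 1
      · exact isHomogeneous_C_mul_X _ 1
      · exact isHomogeneous_X ℂ 2
    rwa [one_mul] at this
  refine ⟨Polynomial.natDegree_le_iff_coeff_eq_zero.2 fun k hk => MvPolynomial.funext fun z => ?_,
    MvPolynomial.funext fun z => ?_⟩
  · obtain ⟨K, h1, h2, -⟩ := key z
    rw [← Polynomial.coeff_map, h2, map_zero]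
    exact Polynomial.coeff_eq_zero_of_natDegree_lt ((natDegree_res_le h1).trans_lt hk)
  · obtain ⟨K, h1, h2, h3⟩ := key z
    rw [← Polynomial.coeff_map, h2, coeff_res_top h1, h3, eval_C]

theorem dvd_of_branch {T : Finset ℂ} {s : ℂ → ℂ → ℂ} {Φ H : MP} {n : ℕ}
    (hΦ : Φ.IsHomogeneous T.card) (h0 : eval ![0, 0, 1] Φ ≠ 0) (hH : H.IsHomogeneous n)
    (h : ∀ᶠ w in 𝓝 (0 : ℂ), InjOn (fun a => s a w) T ∧
      ∀ a ∈ T, ev Φ (s a w) w = 0 ∧ ev H (s a w) w = 0) : Φ ∣ H := by
  obtain ⟨ε, hε, h⟩ := Metric.eventually_nhds_iff_ball.1 h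
  obtain ⟨d1, d2⟩ := lst_deg (hΦ.C_mul (eval ![0, 0, 1] Φ)⁻¹)
  rw [map_mul, eval_C, inv_mul_cancel₀ h0, map_one] at d2
  set m := lst (C (eval ![0, 0, 1] Φ)⁻¹ * Φ) with hm
  have m1 : m.Monic := Polynomial.monic_of_natDegree_le_of_coeff_eq_one _ d1 d2
  have m2 := (Polynomial.degree_modByMonic_lt (lst H) m1).trans_le
    (Polynomial.degree_le_of_natDegree_le d1)
  have e := Polynomial.modByMonic_add_div (lst H) m
  have r0 : lst H %ₘ m = 0 := Polynomial.ext fun k => by
    refine MvPolynomial.funext_set ![ball 0 ε, (ball 0 1)ᶜ, univ] (fun i => ?_) fun z hz => ?_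
    · fin_cases i
      · exact infinite_of_mem_nhds (0 : ℂ) (ball_mem_nhds _ hε)
      · exact infinite_of_mem_nhds (2 : ℂ) (mem_of_superset (isClosed_closedBall.isOpen_compl.mem_nhds
          (show (2 : ℂ) ∉ closedBall 0 1 by simp)) (compl_subset_compl.2 ball_subset_closedBall))
      · exact infinite_univ
    have z0 : ‖z 0‖ < ε := by simpa using hz 0 trivial
    have z1 : 1 ≤ ‖z 1‖ := by simpa using hz 1 trivial
    have z2 : z 1 ≠ 0 := norm_pos_iff.1 (one_pos.trans_le z1)
    obtain ⟨k1, k2⟩ := h (z 0 / z 1) (by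
      rw [mem_ball_zero_iff, norm_div]
      exact (div_le_self (norm_nonneg _) z1).trans_lt z0)
    rw [← Polynomial.coeff_map, Polynomial.eq_zero_of_degree_lt_of_eval_index_eq_zero T
      (v := fun a => z 1 * s a (z 0 / z 1)) (f := (lst H %ₘ m).map (eval z))
      (fun a ha b hb e => k1 ha hb (mul_left_cancel₀ z2 e)) (Polynomial.degree_map_le.trans_lt m2)
      fun a ha => ?_]
    · simp
    have e2 := congrArg (fun P => (P.map (eval z)).eval (z 1 * s a (z 0 / z 1))) e
    have e3 : (![z 0, z 1, z 1 * s a (z 0 / z 1)] : E) = z 1 • ![z 0 / z 1, 1, s a (z 0 / z 1)] := by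
      ext i
      fin_cases i <;> simp [mul_div_cancel₀ _ z2]
    simp only [Polynomial.map_add, Polynomial.map_mul, Polynomial.eval_add, Polynomial.eval_mul, hm,
      lst_map, e3, map_mul, eval_smul_of_hom hΦ, eval_smul_of_hom hH, ← ev_def, k2 a ha] at e2
    simpa using e2
  have e2 := congrArg (Polynomial.eval (X 2)) e
  rw [r0, zero_add, Polynomial.eval_mul, hm, lst_eval, lst_eval] at e2
  exact ⟨_, by rw [← e2, mul_comm (C _), mul_assoc]⟩

theorem ld_prod (δ : Derivation ℂ MP MP) {Φ : MP} {T : Finset ℂ} {f h : ℂ → MP} (m : ℂ → ℕ)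
    (H : ∀ a ∈ T, δ (f a) * Φ = f a * h a) :
    δ (∏ a ∈ T, f a ^ m a) * Φ = (∏ a ∈ T, f a ^ m a) * ∑ a ∈ T, m a * h a := by
  classical
  induction T using Finset.induction_on with
  | empty => simp
  | insert a s ha ih =>
    have k : ∀ n : ℕ, δ (f a ^ n) * Φ = f a ^ n * (n * h a) := fun n => by
      induction n with
      | zero => simp
      | succ n ihn =>
        rw [pow_succ, δ.leibniz]
        push_cast
        simp only [smul_eq_mul]
        linear_combination f a ^ n * H a (Finset.mem_insert_self _ _) + f a * ihn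
    rw [Finset.prod_insert ha, Finset.sum_insert ha, δ.leibniz]
    simp only [smul_eq_mul]
    linear_combination f a ^ m a * ih (fun b hb => H b (Finset.mem_insert_of_mem hb)) +
      (∏ a ∈ s, f a ^ m a) * k (m a)

end Pool.Agent.P.MP_a31c1c_an.Inf
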