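import Pool.Agent.P.MP_a31c1c_an.InfRed

/-!
Darboux polynomials along a leaf, and the local structure of a pull-back of a linear foliation.
-/

set_option autoImplicit false

namespace Pool.Agent.P.MP_a31c1c_an.Inf

open MvPolynomial Metric Filter Topology Set AlgAux Complex

variable {v : E → E} {Λ : Set E} {p : E}

theorem spread (H : IsLeaf v Λ p) {Ω : Set E} (h : ∀ ψ r, Sol v ψ r → 0 < r → ψ 0 ∈ Λ →
    ∀ t ∈ ball (0 : ℂ) r, (ψ t ∈ Ω ↔ ψ 0 ∈ Ω)) {z z' : E} (hz : z ∈ Λ) (hz' : z' ∈ Λ) (k : z ∈ Ω) :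
    z' ∈ Ω := by
  have key := H.gen {z | z ∈ Ω ↔ p ∈ Ω} Iff.rfl fun Γ a ρ hΓ s hs t ht hΛ k => by
    refine Iff.trans ?_ k
    refine (convex_ball a ρ).isPreconnected.induction₂' (fun t s => Γ t ∈ Ω ↔ Γ s ∈ Ω)
      (fun x hx => ?_) (fun _ _ _ _ _ _ a b => a.trans b) ht hs
    obtain ⟨ψ, r, h0, hc⟩ := exists_chart H.smooth (hΓ x hx).1
    obtain ⟨τ, hτ, hτ0, hτe⟩ :=
      factor H.smooth (hΓ.tg hx) (hΓ x hx).1 hc.2.1 (mem_ball_self hc.1) h0
    have k1 : ∀ᶠ y in 𝓝 x, τ y ∈ ball (0 : ℂ) r :=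
      hτ.continuousAt (isOpen_ball.mem_nhds (hτ0 ▸ mem_ball_self hc.1))
    filter_upwards [mem_nhdsWithin_of_mem_nhds (k1.and hτe)] with y hy
    have := h ψ r hc.2.1 hc.1 (h0 ▸ H.inv Γ a ρ hΓ s hs x hx hΛ) _ hy.1
    rw [h0, ← hy.2] at this
    exact ⟨this.symm, this⟩
  exact (key hz').2 ((key hz).1 k)

theorem Sol.diff {ψ : ℂ → E} {r : ℝ} (h : Sol v ψ r) (K : MP) :
    ∀ t ∈ ball (0 : ℂ) r, DifferentiableAt ℂ (fun s => eval (ψ s) K) t := fun t ht =>
  (hasDerivAt_eval K (h t ht)).differentiableAt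

theorem vanish (H : IsLeaf v Λ p) {Q : MP} {ψ : ℂ → E} {r : ℝ} (h : Sol v ψ r) (hr : 0 < r)
    (h0 : ψ 0 ∈ Λ) (hQ : ∀ᶠ t in 𝓝 (0 : ℂ), eval (ψ t) Q = 0) : ∀ z ∈ Λ, eval z Q = 0 := by
  intro z hz
  obtain ⟨χ, ρ, -, -, e, k⟩ := spread H (Ω := {z | ∃ χ ρ, Sol v χ ρ ∧ 0 < ρ ∧ χ 0 = z ∧
    ∀ᶠ t in 𝓝 (0 : ℂ), eval (χ t) Q = 0}) (fun ψ r h hr _ t ht => by
      have aux : ∀ s ∈ ball (0 : ℂ) r, ∀ t ∈ ball (0 : ℂ) r, (∃ χ ρ, Sol v χ ρ ∧ 0 < ρ ∧
          χ 0 = ψ s ∧ ∀ᶠ t in 𝓝 (0 : ℂ), eval (χ t) Q = 0) → ∃ χ ρ, Sol v χ ρ ∧ 0 < ρ ∧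
          χ 0 = ψ t ∧ ∀ᶠ t in 𝓝 (0 : ℂ), eval (χ t) Q = 0 := by
        rintro s hs t ht ⟨χ, ρ, h1, h2, h3, h4⟩
        have h5 := Sol.eventually_eq H.smooth h1 h (mem_ball_self h2) hs h3
        have h6 : ∀ᶠ y in 𝓝 (0 : ℂ), eval (ψ (s + y)) Q = 0 := by
          filter_upwards [h4, ball_mem_nhds (0 : ℂ) (lt_min (show 0 < ρ - ‖(0 : ℂ)‖ by simpa)
            (sub_pos.2 (mem_ball_zero_iff.1 hs)))] with y a b
          simpa [← h5 b] using a
        have h7 := eqOn_ball_of_eventuallyEq (g := fun _ => 0) (Sol.diff h Q)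
          (fun _ _ => differentiableAt_const _) hs (by
            have : Tendsto (fun y => y - s) (𝓝 s) (𝓝 0) :=
              Continuous.tendsto' (by fun_prop) _ _ (sub_self s)
            filter_upwards [this.eventually h6] with y hy using by simpa using hy)
        have h8 := sub_pos.2 (mem_ball_zero_iff.1 ht)
        exact ⟨_, _, h.shift t, h8, by simp, by
          filter_upwards [ball_mem_nhds 0 h8] with y hy using h7 (add_mem_ball hy)⟩
      exact ⟨aux t ht 0 (mem_ball_self hr), aux 0 (mem_ball_self hr) t ht⟩)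
    h0 hz ⟨ψ, r, h, hr, rfl, hQ⟩
  exact e ▸ k.self_of_nhds

theorem Sol.prim {ψ : ℂ → E} {r : ℝ} (h : Sol v ψ r) (K : MP) :
    ∃ k : ℂ → ℂ, k 0 = 0 ∧ ∀ t ∈ ball (0 : ℂ) r, HasDerivAt k (eval (ψ t) K) t :=
  (DifferentiableOn.isExactOn_ball fun t ht =>
    (Sol.diff h K t ht).differentiableWithinAt).with_val_at 0 0

variable {F1 F2 A B C D KA KB KC KD : MP} {ν : ℂ}

/-- The derivation of the field `(0, F1, F2)`. -/
noncomputable def Dw (F1 F2 H : MP) : MP := F1 * pderiv 1 H + F2 * pderiv 2 H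

theorem darb (hA : Dw F1 F2 A = KA * A) {ψ : ℂ → E} {r : ℝ} (h : Sol (W F1 F2) ψ r) {k : ℂ → ℂ}
    (h0 : k 0 = 0) (hk : ∀ t ∈ ball (0 : ℂ) r, HasDerivAt k (eval (ψ t) KA) t) {t : ℂ}
    (ht : t ∈ ball (0 : ℂ) r) : eval (ψ t) A = eval (ψ 0) A * exp (k t) := by
  have h3 : ∀ t ∈ ball (0 : ℂ) r, HasDerivAt (fun t => eval (ψ t) A * exp (-k t)) 0 t :=
    fun t ht => by
      refine ((hasDerivAt_eval A (h t ht)).mul (hk t ht).neg.cexp).congr_deriv ?_
      have := congrArg (eval (ψ t)) hA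
      simp [Dw, Fin.sum_univ_three, W] at this ⊢
      linear_combination exp (-k t) * this
  have h4 := isOpen_ball.is_const_of_deriv_eq_zero (convex_ball (0 : ℂ) r).isPreconnected
    (fun w hw => (h3 w hw).differentiableAt.differentiableWithinAt)
    (fun w hw => (h3 w hw).deriv) ht (mem_ball_self (pos_of_mem_ball ht))
  rw [h0, neg_zero, exp_zero, mul_one] at h4
  rw [← h4, mul_assoc, ← exp_add, neg_add_cancel, exp_zero, mul_one]

/-- The Jacobian of `(A / B, C / D)` up to the factor `B ^ 2 D ^ 2`. -/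
noncomputable def Jac (A B C D : MP) : MP :=
  (pderiv 1 A * B - A * pderiv 1 B) * (pderiv 2 C * D - C * pderiv 2 D) -
    (pderiv 2 A * B - A * pderiv 2 B) * (pderiv 1 C * D - C * pderiv 1 D)

/-- Darboux first integral `(A / B) (C / D) ^ (-ν)`. -/
structure Pb (F1 F2 A B C D KA KB KC KD : MP) (ν : ℂ) : Prop where
  hA : Dw F1 F2 A = KA * A
  hB : Dw F1 F2 B = KB * B
  hC : Dw F1 F2 C = KC * C
  hD : Dw F1 F2 D = KD * D
  hK : KA - KB = MvPolynomial.C ν * (KC - KD)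

/-- The relation between a point and its time. -/
def Rel (A B C D : MP) (ν c₀ : ℂ) (z : E) (t : ℂ) : Prop :=
  eval z A = c₀ * exp (ν * t) * eval z B ∧ eval z C = exp t * eval z D

theorem Pb.time (P : Pb F1 F2 A B C D KA KB KC KD ν) {ψ : ℂ → E} {r : ℝ} (h : Sol (W F1 F2) ψ r) :
    ∃ k : ℂ → ℂ, k 0 = 0 ∧ ∀ t ∈ ball (0 : ℂ) r, DifferentiableAt ℂ k t ∧
      ∀ c₀ τ, Rel A B C D ν c₀ (ψ t) (τ + k t) ↔ Rel A B C D ν c₀ (ψ 0) τ := by
  obtain ⟨kB, b0, b1⟩ := Sol.prim h KB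
  obtain ⟨kC, c0, c1⟩ := Sol.prim h KC
  obtain ⟨kD, d0, d1⟩ := Sol.prim h KD
  refine ⟨fun t => kC t - kD t, by simp [c0, d0], fun t ht =>
    ⟨((c1 t ht).sub (d1 t ht)).differentiableAt, fun c₀ τ => ?_⟩⟩
  have e := darb P.hA h (k := fun t => kB t + ν * (kC t - kD t)) (by simp [b0, c0, d0])
    (fun t ht => ((b1 t ht).add (((c1 t ht).sub (d1 t ht)).const_mul ν)).congr_deriv (by
      have := congrArg (eval (ψ t)) P.hK
      simp only [map_sub, map_mul, eval_C] at this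
      linear_combination -this)) ht
  have e1 : exp (kC t) = exp (kC t - kD t) * exp (kD t) := by rw [← exp_add, sub_add_cancel]
  rw [Rel, Rel, e, darb P.hB h b0 b1 ht, darb P.hC h c0 c1 ht, darb P.hD h d0 d1 ht, mul_add ν,
    exp_add, exp_add, exp_add, e1]
  refine and_congr ?_ ?_
  · exact ⟨fun k => mul_right_cancel₀ (mul_ne_zero (exp_ne_zero (kB t))
      (exp_ne_zero (ν * (kC t - kD t)))) (by linear_combination k),
      fun k => by linear_combination exp (kB t) * exp (ν * (kC t - kD t)) * k⟩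
  · exact ⟨fun k => mul_right_cancel₀ (mul_ne_zero (exp_ne_zero (kC t - kD t))
      (exp_ne_zero (kD t))) (by linear_combination k),
      fun k => by linear_combination exp (kC t - kD t) * exp (kD t) * k⟩

theorem Rel.unique {c₀ s t : ℂ} {z : E} (hν : ν.im ≠ 0) (hc : c₀ ≠ 0) (hB : eval z B ≠ 0)
    (hD : eval z D ≠ 0) (h : Rel A B C D ν c₀ z s) (h' : Rel A B C D ν c₀ z t) : s = t := by
  obtain ⟨m, hm⟩ := exp_eq_exp_iff_exists_int.1
    (mul_left_cancel₀ hc (mul_right_cancel₀ hB (h.1.symm.trans h'.1)))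
  obtain ⟨n, hn⟩ := exp_eq_exp_iff_exists_int.1 (mul_right_cancel₀ hD (h.2.symm.trans h'.2))
  have e : ν * n = m := mul_right_cancel₀ two_pi_I_ne_zero (by linear_combination hm - ν * hn)
  have := congrArg im e
  simp [hν] at this
  simpa [this] using hn

/-- The rational map. -/
noncomputable def Th (A B C D : MP) (z : E) : E := ![z 0, eval z A / eval z B, eval z C / eval z D]

/-- Its derivative. -/
noncomputable def Th' (A B C D : MP) (z x : E) : E := ![x 0,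
  ((∑ i, eval z (pderiv i A) * x i) * eval z B - eval z A * ∑ i, eval z (pderiv i B) * x i) /
    eval z B ^ 2,
  ((∑ i, eval z (pderiv i C) * x i) * eval z D - eval z C * ∑ i, eval z (pderiv i D) * x i) /
    eval z D ^ 2]

theorem hasDerivAt_Th {γ : ℂ → E} {x : E} {t : ℂ} (h : HasDerivAt γ x t) (hB : eval (γ t) B ≠ 0)
    (hD : eval (γ t) D ≠ 0) : HasDerivAt (fun s => Th A B C D (γ s)) (Th' A B C D (γ t) x) t := by
  refine hasDerivAt_pi.2 fun i => ?_
  fin_cases i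
  · exact hasDerivAt_pi.1 h 0
  · exact (hasDerivAt_eval A h).div (hasDerivAt_eval B h) hB
  · exact (hasDerivAt_eval C h).div (hasDerivAt_eval D h) hD

theorem Th'_inj {z x y : E} {k : ℂ} (hB : eval z B ≠ 0) (hD : eval z D ≠ 0)
    (hJ : eval z (Jac A B C D) ≠ 0) (h : Th' A B C D z x = k • Th' A B C D z y) : x = k • y := by
  have h0 := congrFun h 0
  have h1 := congrFun h 1
  have h2 := congrFun h 2
  simp [Th', Fin.sum_univ_three] at h0 h1 h2
  field_simp at h1 h2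
  rw [h0] at h1 h2
  simp only [Jac, map_sub, map_mul] at hJ
  have k1 : x 1 = k * y 1 := mul_left_cancel₀ hJ (by
    linear_combination (eval z (pderiv 2 C) * eval z D - eval z C * eval z (pderiv 2 D)) * h1 -
      (eval z (pderiv 2 A) * eval z B - eval z A * eval z (pderiv 2 B)) * h2)
  have k2 : x 2 = k * y 2 := mul_left_cancel₀ hJ (by
    linear_combination -(eval z (pderiv 1 C) * eval z D - eval z C * eval z (pderiv 1 D)) * h1 +
      (eval z (pderiv 1 A) * eval z B - eval z A * eval z (pderiv 1 B)) * h2)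
  ext i
  fin_cases i
  exacts [h0, k1, k2]

theorem Pb.plaque (P : Pb F1 F2 A B C D KA KB KC KD ν) {c₀ τ : ℂ} {z : E} (h0 : z 0 = 1)
    (hB : eval z B ≠ 0) (hD : eval z D ≠ 0) (hJ : eval z (Jac A B C D) ≠ 0) (hW : W F1 F2 z ≠ 0)
    (h : Rel A B C D ν c₀ z τ) : ∃ (ρ : ℝ) (γ : ℂ → E), 0 < ρ ∧ γ τ = z ∧
      TC (W F1 F2) γ τ ρ ∧ (∀ s ∈ ball τ ρ, γ s 0 = 1 ∧ eval (γ s) B ≠ 0 ∧ eval (γ s) D ≠ 0 ∧
        Rel A B C D ν c₀ (γ s) s) ∧
      ∀ᶠ y in 𝓝 z, ∀ s, y 0 = 1 → Rel A B C D ν c₀ y s → y = γ s := by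
  have hf : ContDiffAt ℂ 1 (Th A B C D) z := by
    refine contDiffAt_pi.2 fun i => ?_
    fin_cases i
    · exact contDiffAt_apply ℂ ℂ 0 z
    · exact (contDiff_eval A).contDiffAt.div (contDiff_eval B).contDiffAt hB
    · exact (contDiff_eval C).contDiffAt.div (contDiff_eval D).contDiffAt hD
  have hd := (hf.differentiableAt one_ne_zero).hasFDerivAt
  have hi : Function.Injective (fderiv ℂ (Th A B C D) z) := by
    refine (injective_iff_map_eq_zero _).2 fun x hx => ?_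
    have k : HasDerivAt (fun s : ℂ => z + s • x) x 0 := by
      simpa using ((hasDerivAt_id (0 : ℂ)).smul_const x).const_add z
    have k2 := (hasDerivAt_Th (A := A) (C := C) k (by simpa) (by simpa)).unique
      (hd.comp_hasDerivAt_of_eq (0 : ℂ) k (by simp))
    rw [hx, zero_smul, add_zero] at k2
    simpa using Th'_inj (k := 0) (y := x) hB hD hJ (by rw [k2, zero_smul])
  let L : E ≃L[ℂ] E := (LinearEquiv.ofInjectiveEndo (fderiv ℂ (Th A B C D) z : E →ₗ[ℂ] E)
    hi).toContinuousLinearEquiv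
  have hL : HasFDerivAt (Th A B C D) (L : E →L[ℂ] E) z := hd
  have hs := hf.hasStrictFDerivAt' hL one_ne_zero
  let I := hf.localInverse hL one_ne_zero
  let η : ℂ → E := fun s => ![1, c₀ * exp (ν * s), exp s]
  have hη : ∀ s, HasDerivAt η ![0, c₀ * (exp (ν * s) * ν), exp s] s := fun s => by
    refine hasDerivAt_pi.2 fun i => ?_
    fin_cases i
    · exact hasDerivAt_const s (1 : ℂ)
    · exact (((hasDerivAt_id s).const_mul ν).cexp.const_mul c₀).congr_deriv (by simp)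
    · exact hasDerivAt_exp s
  have key : ∀ y s, eval y B ≠ 0 → eval y D ≠ 0 →
      (Th A B C D y = η s ↔ y 0 = 1 ∧ Rel A B C D ν c₀ y s) := fun y s h1 h2 => by
    simp [Th, η, Rel, div_eq_iff h1, div_eq_iff h2]
  have e0 := (key z τ hB hD).2 ⟨h0, h⟩
  have t1 : Tendsto η (𝓝 τ) (𝓝 (Th A B C D z)) := e0 ▸ (hη τ).continuousAt
  have hI := hf.to_localInverse hL one_ne_zero
  have e1 : I (η τ) = z := e0 ▸ hf.localInverse_apply_image hL one_ne_zero
  have t2 : Tendsto (fun s => I (η s)) (𝓝 τ) (𝓝 z) := by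
    have := hI.continuousAt.tendsto.comp t1
    rwa [hf.localInverse_apply_image hL one_ne_zero] at this
  have cE : ∀ {H : MP}, eval z H ≠ 0 → ∀ᶠ y in 𝓝 z, eval y H ≠ 0 := fun {H} h =>
    (contDiff_eval H (n := 0)).continuous.continuousAt.eventually_ne h
  have n1 := (cE hB).and ((cE hD).and ((cE hJ).and
    ((contDiff_W F1 F2 (n := 0)).continuous.continuousAt.eventually_ne hW)))
  obtain ⟨ρ, hρ, K⟩ := Metric.eventually_nhds_iff_ball.1 ((t2.eventually n1).and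
    ((t1.eventually hs.eventually_right_inverse).and (t1.eventually (hI.eventually (by simp)))))
  have K2 := fun s hs => (key _ s (K s hs).1.1 (K s hs).1.2.1).1 (K s hs).2.1
  refine ⟨ρ, fun s => I (η s), hρ, e1, fun s hs => ⟨(K s hs).1.2.2.2, ?_⟩,
    fun s hs => ⟨(K2 s hs).1, (K s hs).1.1, (K s hs).1.2.1, (K2 s hs).2⟩, ?_⟩
  · obtain ⟨⟨a1, a2, a3, a4⟩, -, a5⟩ := K s hs
    have b1 := ((a5.differentiableAt one_ne_zero).comp s (hη s).differentiableAt).hasDerivAt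
    have b2 := (hasDerivAt_Th (A := A) (C := C) b1 a1 a2).unique ((hη s).congr_of_eventuallyEq (by
      filter_upwards [isOpen_ball.mem_nhds hs] with y hy using (K y hy).2.1))
    obtain ⟨r1, r2⟩ := (K2 s hs).2
    have b3 := Th'_inj (x := W F1 F2 (I (η s))) (k := eval (I (η s)) (KC - KD)) a1 a2 a3 (by
      refine Eq.trans ?_ (congrArg _ b2.symm)
      have q1 := congrArg (eval (I (η s))) P.hA
      have q2 := congrArg (eval (I (η s))) P.hB
      have q3 := congrArg (eval (I (η s))) P.hC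
      have q4 := congrArg (eval (I (η s))) P.hD
      have q5 := congrArg (eval (I (η s))) P.hK
      simp only [Dw, map_add, map_mul, map_sub, eval_C] at q1 q2 q3 q4 q5
      change eval (I (η s)) A = _ * eval (I (η s)) B at r1
      change eval (I (η s)) C = _ * eval (I (η s)) D at r2
      change eval (I (η s)) B ≠ 0 at a1
      change eval (I (η s)) D ≠ 0 at a2
      generalize I (η s) = y at *
      ext i
      fin_cases i <;> simp [Th', W, Fin.sum_univ_three]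
      · rw [div_eq_iff (pow_ne_zero 2 a1)]
        linear_combination eval y B * q1 - eval y A * q2 + eval y A * eval y B * q5 +
          ν * (eval y KC - eval y KD) * eval y B * r1
      · rw [div_eq_iff (pow_ne_zero 2 a2)]
        linear_combination eval y D * q3 - eval y C * q4 + (eval y KC - eval y KD) * eval y D * r2)
    have b4 : eval (I (η s)) (KC - KD) ≠ 0 := fun e => a4 (by rw [e, zero_smul] at b3; exact b3)
    refine ⟨(eval (I (η s)) (KC - KD))⁻¹, b1.congr_deriv ?_⟩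
    rw [b3, smul_smul, inv_mul_cancel₀ b4, one_smul]
  · filter_upwards [n1, hs.eventually_left_inverse] with y a1 a2 s a3 a4
    rw [← (key y s a1.1 a1.2.1).2 ⟨a3, a4⟩]
    exact a2.symm

end Pool.Agent.P.MP_a31c1c_an.Inf
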