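import Pool.Agent.P.MP_a31c1c_an.InfFac
import Pool.Agent.P.MP_a31c1c_an.InfLoc

/-!
The closed form is logarithmic; when its residues have rank two it is a pull-back of a linear one.
-/

set_option autoImplicit false

namespace Pool.Agent.P.MP_a31c1c_an.Inf

open MvPolynomial Metric Filter Topology Set AlgAux

variable {D : Dat}

theorem exists_log (Hy : Hyq D.d D.F1 D.F2) (hG : D.G = 0) :
    ∃ (T : Finset ℂ) (f : ℂ → MP) (e : ℂ → ℕ), (∀ a, a ∈ T ↔ D.R.eval a = 0) ∧ T.Nonempty ∧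
      D.Φ = ∏ a ∈ T, f a ∧ (∀ a ∈ T, (f a).IsHomogeneous (e a)) ∧
      (∀ i, ∀ a ∈ T, ((∏ b ∈ T.erase a, f b) * pderiv i (f a)).IsHomogeneous D.d) ∧
      (∀ i, pderiv i D.Φ = ∑ a ∈ T, (∏ b ∈ T.erase a, f b) * pderiv i (f a)) ∧
      D.F1 = -∑ a ∈ T, C (lam D a) * ((∏ b ∈ T.erase a, f b) * pderiv 2 (f a)) ∧
      D.F2 = ∑ a ∈ T, C (lam D a) * ((∏ b ∈ T.erase a, f b) * pderiv 1 (f a)) := by
  obtain ⟨T, ε, M, s, s', hB⟩ := exists_br Hy hG
  have hT : T.card = D.d + 1 := by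
    have h0 : D.R ≠ 0 := R_neq Hy
    rw [← card_roots Hy]
    congr 1
    ext a
    simp [hB.mem, h0]
  have hne : T.Nonempty := Finset.card_pos.1 (by omega)
  have top : eval ![0, 0, 1] D.Φ ≠ 0 := by rw [top_Φ D]; exact neg_ne_zero.2 Hy.top
  have Φ0 : D.Φ ≠ 0 := fun e => top (by rw [e, map_zero])
  have cs : ∀ a ∈ T, ContinuousAt (s a) 0 := fun a ha =>
    (hB.der a ha 0 (mem_ball_self hB.pos)).1.continuousAt
  have e1 : ∀ᶠ w in 𝓝 (0 : ℂ), ∀ a ∈ T, ∀ b ∈ T, a ≠ b → s a w ≠ s b w := by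
    refine (eventually_all_finset T).2 fun a ha => (eventually_all_finset T).2 fun b hb => ?_
    by_cases hab : a = b
    · exact Eventually.of_forall fun _ h => absurd hab h
    · have := ((cs a ha).sub (cs b hb)).eventually_ne (y := 0)
        (by simpa [hB.zero a ha, hB.zero b hb, sub_eq_zero] using hab)
      filter_upwards [this] with w hw _ using sub_ne_zero.1 hw
  have e2 : ∀ᶠ w in 𝓝 (0 : ℂ), ∀ a ∈ T, ev (pderiv 2 D.Φ) (s a w) w ≠ 0 := by
    refine (eventually_all_finset T).2 fun a ha => ?_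
    have c1 : ContinuousAt (fun w => ev (pderiv 2 D.Φ) (s a w) w) 0 :=
      (continuous_ev _).continuousAt.comp_of_eq (f := fun w => (s a w, w))
        ((cs a ha).prodMk continuousAt_id) rfl
    refine c1.eventually_ne ?_
    rw [hB.zero a ha, evu_zero]
    exact der_ne Hy ((hB.mem a).1 ha)
  have dv : ∀ {H : MP} {n : ℕ}, H.IsHomogeneous n → (∀ a ∈ T, ∀ z : E, eval z D.Φ = 0 →
      eval z D.F1 = -lam D a * eval z (pderiv 2 D.Φ) → eval z (pderiv 2 D.Φ) ≠ 0 → eval z H = 0) →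
      D.Φ ∣ H := fun hH h => dvd_of_branch (s := s) (hT ▸ D.hΦ) top hH (by
    filter_upwards [e1, e2, ball_mem_nhds 0 hB.pos] with w k1 k2 k3
    refine ⟨fun a ha b hb e => by_contra fun k => k1 a ha b hb k e, fun a ha => ?_⟩
    have k4 := hB.root a ha w k3
    have k5 := k2 a ha
    simp only [ev_def] at k4 k5 ⊢
    exact ⟨k4.1, h a ha _ k4.1 k4.2 k5⟩)
  have zero : ∀ {H : MP}, H.IsHomogeneous D.d → D.Φ ∣ H → H = 0 := by
    rintro _ hH ⟨c, rfl⟩
    by_contra h
    rw [mul_comm] at hH h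
    obtain ⟨k, hk⟩ := hom_factor hH h
    have := (hk.mul D.hΦ).inj_right hH h
    omega
  obtain ⟨f, hf, hf'⟩ := exists_fac hne (fun a => D.F1 + C (lam D a) * pderiv 2 D.Φ) _
    (dv (IsHomogeneous.prod T _ (fun _ => D.d) fun a _ => D.h1.add (D.hΦ.pderiv.C_mul _))
      fun a ha z _ k _ => by
        rw [map_prod]
        exact Finset.prod_eq_zero ha (by simp [k]))
  have hp : ∀ a ∈ T, f a * ∏ b ∈ T.erase a, f b = D.Φ := fun a ha => by
    rw [Finset.mul_prod_erase T f ha, hf]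
  have : ∀ a, ∃ k, a ∈ T → (f a).IsHomogeneous k := fun a => by
    by_cases ha : a ∈ T
    · obtain ⟨k, hk⟩ := hom_factor ((hp a ha).symm ▸ D.hΦ) ((hp a ha).symm ▸ Φ0)
      exact ⟨k, fun _ => hk⟩
    · exact ⟨0, fun h => absurd h ha⟩
  choose e he using this
  have hh : ∀ i, ∀ a ∈ T, ((∏ b ∈ T.erase a, f b) * pderiv i (f a)).IsHomogeneous D.d :=
    fun i a ha => by
      have k1 := IsHomogeneous.prod (T.erase a) f e fun b hb => he b (Finset.mem_of_mem_erase hb)
      have k2 := ((he a ha).mul k1).inj_right ((hp a ha).symm ▸ D.hΦ) ((hp a ha).symm ▸ Φ0)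
      rcases Nat.eq_zero_or_pos (e a) with k | k
      · have k3 := he a ha
        rw [k, ← totalDegree_zero_iff_isHomogeneous, totalDegree_eq_zero_iff_eq_C] at k3
        rw [k3, pderiv_C, mul_zero]
        exact isHomogeneous_zero _ _ _
      · have := k1.mul ((he a ha).pderiv (i := i))
        rwa [show ∑ b ∈ T.erase a, e b + (e a - 1) = D.d by omega] at this
  have hd : ∀ i, pderiv i D.Φ = ∑ a ∈ T, (∏ b ∈ T.erase a, f b) * pderiv i (f a) := fun i => by
    have := ld_prod (pderiv i) (Φ := D.Φ) (T := T) (f := f)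
      (h := fun a => (∏ b ∈ T.erase a, f b) * pderiv i (f a)) (fun _ => 1)
      fun a ha => by rw [← hp a ha]; ring
    simp only [pow_one, ← hf, Nat.cast_one, one_mul] at this
    exact mul_right_cancel₀ Φ0 (this.trans (mul_comm _ _))
  have pt : ∀ z : E, eval z D.Φ = 0 → ∃ a, eval z D.F1 + lam D a * eval z (pderiv 2 D.Φ) = 0 ∧
      ∀ i, eval z (∑ a ∈ T, C (lam D a) * ((∏ b ∈ T.erase a, f b) * pderiv i (f a))) =
        lam D a * eval z (pderiv i D.Φ) := fun z hz => by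
    rw [hf, map_prod] at hz
    obtain ⟨a, ha, k⟩ := Finset.prod_eq_zero_iff.1 hz
    obtain ⟨c, hc⟩ := hf' a ha
    refine ⟨a, by simpa [k] using congrArg (eval z) hc, fun i => ?_⟩
    rw [hd, map_sum, map_sum, Finset.mul_sum]
    refine Finset.sum_congr rfl fun b _ => ?_
    by_cases hb : a = b
    · simp [hb]
    · simp [map_prod, Finset.prod_eq_zero (f := fun b => eval z (f b))
        (Finset.mem_erase.2 ⟨hb, ha⟩) k]
  have hs := fun i => IsHomogeneous.sum T _ _ fun a ha => (hh i a ha).C_mul (lam D a)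
  refine ⟨T, f, e, hB.mem, hne, hf, he, hh, hd, eq_neg_of_add_eq_zero_left (zero (D.h1.add (hs 2))
    (dv (D.h1.add (hs 2)) fun _ _ z hz _ _ => ?_)), sub_eq_zero.1 (zero (D.h2.sub (hs 1))
    (dv (D.h2.sub (hs 1)) fun _ _ z hz _ k => ?_))⟩
  · obtain ⟨a, k1, k2⟩ := pt z hz
    rw [map_add, k2, k1]
  · obtain ⟨a, k1, k2⟩ := pt z hz
    have k3 := congrArg (eval z) D.hG
    simp only [hG, map_sub, map_add, map_mul, hz, mul_zero, map_zero] at k3
    rw [map_sub, k2]
    refine mul_left_cancel₀ k ?_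
    linear_combination k3 - eval z (pderiv 1 D.Φ) * k1

/-- Rational pull-back of a linear foliation with non-real ratio. -/
def Exw (F1 F2 : MP) : Prop :=
  ∃ (ν : ℂ) (a c : ℕ) (A B C D KA KB KC KD : MP), ν.im ≠ 0 ∧ A.IsHomogeneous a ∧
    B.IsHomogeneous a ∧ C.IsHomogeneous c ∧ D.IsHomogeneous c ∧ Pb F1 F2 A B C D KA KB KC KD ν ∧
    ∃ z : E, z 0 = 1 ∧ eval z (Jac A B C D) ≠ 0

theorem exists_den {T : Finset ℂ} {l : ℂ → ℂ} {ν : ℂ} (hν : ν.im ≠ 0)
    (h : ∀ a ∈ T, ∃ m n k : ℤ, m * ν + n * l a = k ∧ ¬ (m = 0 ∧ n = 0)) :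
    ∃ (N : ℕ) (p q : ℂ → ℤ), N ≠ 0 ∧ ∀ a ∈ T, N * l a = p a + q a * ν := by
  choose! m n k e h using h
  have n0 : ∀ a ∈ T, n a ≠ 0 := fun a ha k => h a ha ⟨by
    simpa [k, hν] using congrArg Complex.im (e a ha), k⟩
  have : ∀ a ∈ T, ∃ c : ℤ, ((∏ a ∈ T, (n a).natAbs : ℕ) : ℤ) = n a * c := fun a ha =>
    Int.natAbs_dvd.1 (Int.natCast_dvd_natCast.2 (Finset.dvd_prod_of_mem (fun a => (n a).natAbs) ha))
  choose! c hc using this
  refine ⟨_, fun a => c a * k a, fun a => -(c a * m a),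
    Finset.prod_ne_zero_iff.2 fun a ha => Int.natAbs_ne_zero.2 (n0 a ha), fun a ha => ?_⟩
  have := congrArg (Int.cast (R := ℂ)) (hc a ha)
  rw [Int.cast_natCast] at this
  rw [this]
  push_cast
  linear_combination c a * e a ha

theorem jac_alg {A A1 A2 B B1 B2 C C1 C2 G G1 G2 Y Φ N ν F1 F2 a1 a2 b1 b2 c1 c2 g1 g2 α1 α2 β1 β2 :
    MP} (h1 : A1 * Φ = A * a1) (h2 : A2 * Φ = A * a2) (h3 : B1 * Φ = B * b1) (h4 : B2 * Φ = B * b2)
    (h5 : C1 * Φ = C * c1) (h6 : C2 * Φ = C * c2) (h7 : G1 * Φ = G * g1) (h8 : G2 * Φ = G * g2)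
    (k1 : a1 - b1 = α1) (k2 : a2 - b2 = α2) (k3 : g1 - c1 = β1) (k4 : g2 - c2 = β2)
    (w1 : N * F2 = α1 + ν * β1) (w2 : N * -F1 = α2 + ν * β2) :
    -(N * (A * (Y * B) * C * G * (F1 * β1 + F2 * β2))) = Φ ^ 2 *
      ((A1 * (Y * B) - A * (0 * B + Y * B1)) * (C2 * G - C * G2) -
        (A2 * (Y * B) - A * (0 * B + Y * B2)) * (C1 * G - C * G1)) := by
  have u1 : (A1 * (Y * B) - A * (0 * B + Y * B1)) * Φ = A * Y * B * α1 := by
    linear_combination Y * B * h1 - A * Y * h3 + A * Y * B * k1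
  have u2 : (A2 * (Y * B) - A * (0 * B + Y * B2)) * Φ = A * Y * B * α2 := by
    linear_combination Y * B * h2 - A * Y * h4 + A * Y * B * k2
  have v1 : (C1 * G - C * G1) * Φ = -(C * G * β1) := by
    linear_combination G * h5 - C * h7 - C * G * k3
  have v2 : (C2 * G - C * G2) * Φ = -(C * G * β2) := by
    linear_combination G * h6 - C * h8 - C * G * k4
  generalize A1 * (Y * B) - A * (0 * B + Y * B1) = U1 at *
  generalize A2 * (Y * B) - A * (0 * B + Y * B2) = U2 at *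
  generalize C1 * G - C * G1 = V1 at *
  generalize C2 * G - C * G2 = V2 at *
  linear_combination -(V2 * Φ) * u1 - A * Y * B * α1 * v2 + V1 * Φ * u2 + A * Y * B * α2 * v1 -
    A * Y * B * C * G * β2 * w1 + A * Y * B * C * G * β1 * w2

theorem log_case (Hy : Hyq D.d D.F1 D.F2) (hG : D.G = 0) (hr : ∀ a₁ a₂, D.R.eval a₁ = 0 →
    D.R.eval a₂ = 0 → ∃ m n k : ℤ, m * lam D a₁ + n * lam D a₂ = k ∧ ¬ (m = 0 ∧ n = 0)) :
    Exw D.F1 D.F2 := by
  obtain ⟨T, f, e, hT, ⟨c, hc⟩, hf, he, hh, hd, e1, e2⟩ := exists_log Hy hG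
  have hν := lam_im Hy ((hT c).1 hc)
  obtain ⟨N, p, q, N0, hN⟩ := exists_den (T := T) (l := lam D) hν
    fun a ha => hr c a ((hT c).1 hc) ((hT a).1 ha)
  generalize lam D c = ν at hν hN
  have top : eval ![0, 0, 1] D.Φ ≠ 0 := by rw [top_Φ D]; exact neg_ne_zero.2 Hy.top
  have Φ0 : D.Φ ≠ 0 := fun e => top (by rw [e, map_zero])
  have hp : ∀ a ∈ T, f a * ∏ b ∈ T.erase a, f b = D.Φ := fun a ha => by
    rw [Finset.mul_prod_erase T f ha, hf]
  set h : Fin 3 → ℂ → MP := fun i a => (∏ b ∈ T.erase a, f b) * pderiv i (f a) with hh'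
  have : ∀ a ∈ T, ∃ K, Dw D.F1 D.F2 (f a) = f a * K := fun a ha => by
    rw [Dw, e1, e2, neg_mul, Finset.sum_mul, Finset.sum_mul, neg_add_eq_sub,
      ← Finset.sum_sub_distrib]
    refine Finset.dvd_sum fun b _ => ?_
    by_cases hb : a = b
    · subst hb
      exact ⟨0, by ring⟩
    · obtain ⟨x, hx⟩ := Finset.dvd_prod_of_mem f (Finset.mem_erase.2 ⟨hb, ha⟩)
      rw [hx]
      exact ⟨C (lam D b) * x * (pderiv 1 (f b) * pderiv 2 (f a) - pderiv 2 (f b) * pderiv 1 (f a)),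
        by ring⟩
  choose! K hK using this
  have hKh : ∀ a ∈ T, D.F1 * h 1 a + D.F2 * h 2 a = K a * D.Φ := fun a ha => by
    have := hK a ha
    rw [Dw] at this
    rw [← hp a ha]
    simp only [h]
    linear_combination (∏ b ∈ T.erase a, f b) * this
  have sp : ∀ x : ℂ → MP, (N : MP) * ∑ a ∈ T, C (lam D a) * x a =
      ∑ a ∈ T, p a * x a + C ν * ∑ a ∈ T, q a * x a := fun x => by
    rw [Finset.mul_sum, Finset.mul_sum, ← Finset.sum_add_distrib]
    refine Finset.sum_congr rfl fun a ha => ?_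
    have := congrArg (C (σ := Fin 3)) (hN a ha)
    simp only [map_mul, map_add, map_natCast, map_intCast] at this
    linear_combination x a * this
  have sK : ∑ a ∈ T, C (lam D a) * K a = 0 := by
    refine mul_right_cancel₀ Φ0 ?_
    rw [zero_mul, Finset.sum_mul, Finset.sum_congr rfl (g := fun a => D.F1 * (C (lam D a) * h 1 a) +
      D.F2 * (C (lam D a) * h 2 a)) fun a ha => by linear_combination -C (lam D a) * hKh a ha,
      Finset.sum_add_distrib, ← Finset.mul_sum, ← Finset.mul_sum, ← e2,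
      ← neg_neg (∑ a ∈ T, _), ← e1]
    ring
  have z0 : eval ![0, 1, c] D.Φ = 0 := by rw [← eval_res, res_Φ, (hT c).1 hc]
  have z1 : eval ![0, 1, c] (pderiv 2 D.Φ) ≠ 0 := by
    rw [← ev_def, evu_zero]; exact der_ne Hy ((hT c).1 hc)
  have z2 : eval ![0, 1, c] D.F1 ≠ 0 := fun k => Hy.inf c ((hT c).1 hc) (by simp [eval_res, k])
  have z3 : eval ![0, 1, c] D.F2 = c * eval ![0, 1, c] D.F1 := by
    simpa [Dat.R, eval_res, RR, sub_eq_zero] using (hT c).1 hc
  have se : ∑ a ∈ T, lam D a * e a = 1 := by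
    obtain ⟨u, hu⟩ := Infinite.exists_notMem_finset T
    have k1 : eval ![0, 1, u] D.Φ ≠ 0 := by rw [← eval_res, res_Φ]; exact fun k => hu ((hT u).2 k)
    have k2 : eval ![0, 1, u] D.Φ = eval ![0, 1, u] D.F2 - u * eval ![0, 1, u] D.F1 := by
      rw [← eval_res, res_Φ, Dat.R, eval_res]; simp [RR]
    refine mul_right_cancel₀ k1 ?_
    rw [one_mul, Finset.sum_mul]
    conv_rhs => rw [k2, e1, e2, map_neg, map_sum, map_sum, mul_neg, sub_neg_eq_add, Finset.mul_sum,
      ← Finset.sum_add_distrib]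
    refine Finset.sum_congr rfl fun a ha => ?_
    have := euler (he a ha) ![0, 1, u]
    rw [← hp a ha]
    simp at this ⊢
    linear_combination -lam D a * (∏ b ∈ T.erase a, eval ![0, 1, u] (f b)) * this
  obtain ⟨s1, s2⟩ : ∑ a ∈ T, p a * e a = N ∧ ∑ a ∈ T, q a * e a = 0 := by
    have k : (N : ℂ) = (∑ a ∈ T, p a * e a : ℤ) + (∑ a ∈ T, q a * e a : ℤ) * ν := by
      push_cast
      rw [← mul_one (N : ℂ), ← se, Finset.mul_sum, Finset.sum_mul, ← Finset.sum_add_distrib]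
      exact Finset.sum_congr rfl fun a ha => by linear_combination e a * hN a ha
    generalize ∑ a ∈ T, p a * e a = x at k ⊢
    generalize ∑ a ∈ T, q a * e a = y at k ⊢
    have k2 : y = 0 := by simpa [hν] using congrArg Complex.im k
    refine ⟨?_, k2⟩
    rw [k2, Int.cast_zero, zero_mul, add_zero] at k
    exact_mod_cast k.symm
  have sK2 := sp K
  rw [sK, mul_zero] at sK2
  have qK : ∑ a ∈ T, q a * K a ≠ 0 := fun k => by
    rw [k, mul_zero, add_zero] at sK2
    have z4 := z0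
    rw [hf, map_prod] at z4
    obtain ⟨a, ha, k0⟩ := Finset.prod_eq_zero_iff.1 z4
    have k1 : ∀ b ∈ T, b ≠ a → eval ![0, 1, c] (K b) = e b * eval ![0, 1, c] D.F1 :=
      fun b hb hba => by
        have k2 : eval ![0, 1, c] (f b) ≠ 0 := fun k3 => z1 (by
          rw [hd, map_sum]
          refine Finset.sum_eq_zero fun x _ => ?_
          by_cases hx : a = x
          · simp [map_prod, Finset.prod_eq_zero (f := fun b => eval ![0, 1, c] (f b))
              (Finset.mem_erase.2 ⟨hx ▸ hba, hb⟩) k3]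
          · simp [map_prod, Finset.prod_eq_zero (f := fun b => eval ![0, 1, c] (f b))
              (Finset.mem_erase.2 ⟨hx, ha⟩) k0])
        have k3 := congrArg (eval ![0, 1, c]) (hK b hb)
        have k4 := euler (he b hb) ![0, 1, c]
        simp [Dw, z3] at k3 k4
        refine mul_left_cancel₀ k2 ?_
        linear_combination -k3 + eval ![0, 1, c] D.F1 * k4
    have k2 : ∀ r : ℂ → ℤ, eval ![0, 1, c] (∑ a ∈ T, r a * K a) = (∑ a ∈ T, r a * e a : ℤ) *
        eval ![0, 1, c] D.F1 + r a * (eval ![0, 1, c] (K a) - e a * eval ![0, 1, c] D.F1) :=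
      fun r => by
        push_cast
        rw [map_sum, Finset.sum_mul, ← sub_eq_iff_eq_add', ← Finset.sum_sub_distrib,
          Finset.sum_eq_single_of_mem a ha fun b hb hba => by simp [k1 b hb hba, mul_assoc]]
        simp
        ring
    have k3 := k2 q
    have k4 := k2 p
    have k5 : q a ≠ 0 := fun k5 => by
      simpa [k5, N0, lam_im Hy ((hT a).1 ha)] using congrArg Complex.im (hN a ha)
    rw [k, s2] at k3
    rw [← sK2, s1] at k4
    simp only [map_zero, Int.cast_zero, zero_mul, zero_add, zero_eq_mul, Int.cast_eq_zero, k5,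
      false_or] at k3
    simp [k3, N0, z2] at k4
  have cast : ∀ (r : ℂ → ℤ) (x : ℂ → MP), ∑ a ∈ T, ((r a).toNat : MP) * x a -
      ∑ a ∈ T, ((-r a).toNat : MP) * x a = ∑ a ∈ T, r a * x a := fun r x => by
    rw [← Finset.sum_sub_distrib]
    refine Finset.sum_congr rfl fun a _ => ?_
    rw [← sub_mul, ← Int.cast_natCast, ← Int.cast_natCast (-r a).toNat, ← Int.cast_sub,
      Int.toNat_sub_toNat_neg]
  have hom : ∀ m : ℂ → ℕ, (∏ a ∈ T, f a ^ m a).IsHomogeneous (∑ a ∈ T, e a * m a) := fun m =>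
    IsHomogeneous.prod T _ _ fun a ha => (he a ha).pow _
  have deg : ∀ r : ℂ → ℤ, ((∑ a ∈ T, e a * (r a).toNat : ℕ) : ℤ) =
      (∑ a ∈ T, e a * (-r a).toNat : ℕ) + ∑ a ∈ T, r a * e a := fun r => by
    push_cast
    rw [← Finset.sum_add_distrib]
    refine Finset.sum_congr rfl fun a _ => ?_
    linear_combination e a * Int.toNat_sub_toNat_neg (r a)
  have dar : ∀ m : ℂ → ℕ, Dw D.F1 D.F2 (∏ a ∈ T, f a ^ m a) =
      (∑ a ∈ T, m a * K a) * ∏ a ∈ T, f a ^ m a := fun m => by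
    have := ld_prod (D.F1 • pderiv 1 + D.F2 • pderiv 2) (Φ := 1) (T := T) (f := f) (h := K) m
      fun a ha => by simpa [Dw] using hK a ha
    simpa [Dw, mul_comm] using this
  have der := fun (i : Fin 3) (m : ℂ → ℕ) => ld_prod (pderiv i) (Φ := D.Φ) (T := T) (f := f)
    (h := h i) m fun a ha => by rw [← hp a ha]; ring
  have nz : ∀ m : ℂ → ℕ, ∏ a ∈ T, f a ^ m a ≠ 0 := fun m => Finset.prod_ne_zero_iff.2 fun a ha =>
    pow_ne_zero _ (left_ne_zero_of_mul ((hp a ha).symm ▸ Φ0))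
  have hA := hom fun a => (p a).toNat
  have hB := (isHomogeneous_X_pow (R := ℂ) (0 : Fin 3) N).mul (hom fun a => (-p a).toNat)
  have hC := hom fun a => (-q a).toNat
  have hD := hom fun a => (q a).toNat
  have d1 : N + ∑ a ∈ T, e a * (-p a).toNat = ∑ a ∈ T, e a * (p a).toNat := by
    have := deg p
    omega
  have d2 : ∑ a ∈ T, e a * (q a).toNat = ∑ a ∈ T, e a * (-q a).toNat := by
    have := deg q
    omega
  rw [d1] at hB
  rw [d2] at hD
  refine ⟨ν, _, _, _, _, _, _, _, ∑ a ∈ T, ((-p a).toNat : MP) * K a, _, _, hν, hA, hB, hC, hD,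
    ⟨dar _, ?_, dar _, dar _, ?_⟩, ?_⟩
  · have := dar fun a => (-p a).toNat
    simp only [Dw, pderiv_mul, pderiv_pow, pderiv_X] at this ⊢
    simp
    linear_combination X 0 ^ N * this
  · linear_combination cast p K + C ν * cast q K - sK2
  · have hb : ∀ i, (∑ a ∈ T, q a * h i a).IsHomogeneous D.d := fun i =>
      IsHomogeneous.sum T _ _ fun a ha => by
        simpa using (hh i a ha).C_mul (q a)
    have hQ : D.F1 * ∑ a ∈ T, q a * h 1 a + D.F2 * ∑ a ∈ T, q a * h 2 a =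
        (∑ a ∈ T, q a * K a) * D.Φ := by
      rw [Finset.mul_sum, Finset.mul_sum, Finset.sum_mul, ← Finset.sum_add_distrib]
      exact Finset.sum_congr rfl fun a ha => by linear_combination q a * hKh a ha
    by_contra hcon
    push Not at hcon
    refine mul_ne_zero (mul_ne_zero (mul_ne_zero (mul_ne_zero (nz _) (mul_ne_zero
      (pow_ne_zero N (X_ne_zero 0)) (nz _))) (nz _)) (nz _)) (hQ ▸ mul_ne_zero qK Φ0)
      (eq_zero_of_aff ((((hA.mul hB).mul hC).mul hD).mul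
        ((D.h1.mul (hb 1)).add (D.h2.mul (hb 2)))) fun z hz => ?_)
    refine mul_left_cancel₀ (Nat.cast_ne_zero.2 N0 : (N : ℂ) ≠ 0) ?_
    rw [mul_zero, ← map_natCast (eval z), ← map_mul, ← neg_eq_zero, ← map_neg,
      ← mul_zero (eval z (D.Φ ^ 2)), ← hcon z hz, ← map_mul]
    congr 1
    have a1 := der 1 fun a => (p a).toNat
    have a2 := der 2 fun a => (p a).toNat
    have b1 := der 1 fun a => (-p a).toNat
    have b2 := der 2 fun a => (-p a).toNat
    have c1 := der 1 fun a => (-q a).toNat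
    have c2 := der 2 fun a => (-q a).toNat
    have g1 := der 1 fun a => (q a).toNat
    have g2 := der 2 fun a => (q a).toNat
    have w1 := sp (h 1)
    have w2 := sp (h 2)
    rw [← e2] at w1
    rw [← neg_neg (∑ a ∈ T, C _ * _), ← e1] at w2
    have x1 : pderiv 1 (X 0 ^ N : MP) = 0 := by simp [pderiv_X]
    have x2 : pderiv 2 (X 0 ^ N : MP) = 0 := by simp [pderiv_X]
    simp only [Jac, pderiv_mul, x1, x2]
    exact jac_alg a1 a2 b1 b2 c1 c2 g1 g2 (cast p _) (cast p _) (cast q _) (cast q _) w1 w2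

end Pool.Agent.P.MP_a31c1c_an.Inf
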