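import Mathlib

/-!
Maximum principles for bounded upper semicontinuous functions with the sub-mean value property,
and the Liouville property for spaces that are proper over the plane minus a discrete set.
-/

set_option autoImplicit false

namespace Pool.Agent.P.MP_a31c1c_an.Inf

open Metric Filter Topology Set MeasureTheory

/-- Subharmonic on a disc. -/
def SH (f : ℂ → ℝ) (a : ℂ) (ρ : ℝ) : Prop :=
  UpperSemicontinuousOn f (ball a ρ) ∧ ∀ z r, 0 < r → closedBall z r ⊆ ball a ρ →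
    2 * Real.pi * f z ≤ ∫ θ in (0 : ℝ)..2 * Real.pi, f (circleMap z r θ)

variable {f : ℂ → ℝ} {a : ℂ} {ρ M : ℝ}

theorem SH.usc (h : SH f a ρ) {z : ℂ} {r : ℝ} (hr : 0 < r) (hz : closedBall z r ⊆ ball a ρ) :
    UpperSemicontinuous fun θ => f (circleMap z r θ) :=
  upperSemicontinuousOn_univ_iff.1 (h.1.comp (continuous_circleMap z r).continuousOn
    fun θ _ => hz (circleMap_mem_closedBall z hr.le θ))

theorem SH.ii (h : SH f a ρ) (hM : ∀ t ∈ ball a ρ, |f t| ≤ M) {z : ℂ} {r : ℝ} (hr : 0 < r)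
    (hz : closedBall z r ⊆ ball a ρ) :
    IntervalIntegrable (fun θ => f (circleMap z r θ)) volume 0 (2 * Real.pi) :=
  (intervalIntegrable_const (c := M)).mono_fun' (h.usc hr hz).measurable.aestronglyMeasurable
    (Eventually.of_forall fun θ => hM _ (hz (circleMap_mem_closedBall z hr.le θ)))

theorem SH.le_of_circle (h : SH f a ρ) (hM : ∀ t ∈ ball a ρ, |f t| ≤ M) {z : ℂ} {r S : ℝ}
    (hr : 0 < r) (hz : closedBall z r ⊆ ball a ρ) (hS : ∀ θ, f (circleMap z r θ) ≤ S) : f z ≤ S := by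
  have k := (h.2 z r hr hz).trans (intervalIntegral.integral_mono_on Real.two_pi_pos.le
    (h.ii hM hr hz) (intervalIntegrable_const (c := S)) fun θ _ => hS θ)
  simp only [intervalIntegral.integral_const, sub_zero, smul_eq_mul] at k
  exact le_of_mul_le_mul_left k Real.two_pi_pos

theorem SH.strong (h : SH f a ρ) (hM : ∀ t ∈ ball a ρ, |f t| ≤ M) {S : ℝ}
    (hS : ∀ t ∈ ball a ρ, f t ≤ S) {s t : ℂ} (hs : s ∈ ball a ρ) (ht : t ∈ ball a ρ) :
    f s = S → f t = S := by
  refine (convex_ball a ρ).isPreconnected.induction₂' (fun s t => f s = S → f t = S)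
    (fun x hx => ?_) (fun _ _ _ _ _ _ a b c => b (a c)) hs ht
  by_cases e : f x = S
  swap
  · filter_upwards [h.1 x hx S (lt_of_le_of_ne (hS x hx) e)] with y hy using
      ⟨fun k => absurd k e, fun k => absurd k hy.ne⟩
  obtain ⟨δ, hδ, hb⟩ := nhds_basis_closedBall.mem_iff.1 (isOpen_ball.mem_nhds hx)
  filter_upwards [mem_nhdsWithin_of_mem_nhds (closedBall_mem_nhds x hδ)] with y hy
  refine ⟨fun _ => ?_, fun _ => e⟩
  by_contra k
  have hr : 0 < dist y x := dist_pos.2 fun k' => k (k' ▸ e)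
  have hz : closedBall x (dist y x) ⊆ ball a ρ := (closedBall_subset_closedBall hy).trans hb
  have hi := h.ii hM hr hz
  obtain ⟨θ, hθ, rfl'⟩ : y ∈ circleMap x (dist y x) '' Ioc 0 (2 * Real.pi) := by
    rw [image_circleMap_Ioc, abs_of_pos hr]; exact mem_sphere.2 rfl
  have ho := (h.usc hr hz).isOpen_preimage S
  have hp : 0 < ∫ θ in (0 : ℝ)..2 * Real.pi, (S - f (circleMap x (dist y x) θ)) := by
    refine (intervalIntegral.integral_pos_iff_support_of_nonneg_ae
      (Eventually.of_forall fun θ => sub_nonneg.2 (hS _ (hz (circleMap_mem_closedBall x hr.le θ))))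
      (intervalIntegrable_const.sub hi)).2 ⟨Real.two_pi_pos, ?_⟩
    have k2 : θ ∈ closure (Ioo 0 (2 * Real.pi)) := by
      rw [closure_Ioo Real.two_pi_pos.ne]; exact Ioc_subset_Icc_self hθ
    refine ((ho.inter isOpen_Ioo).measure_pos volume (mem_closure_iff.1 k2 _ ho ?_)).trans_le
      (measure_mono fun t ht => ⟨(sub_pos.2 ht.1).ne', Ioo_subset_Ioc_self ht.2⟩)
    rw [mem_preimage, rfl']
    exact lt_of_le_of_ne (hS y (hb hy)) k
  rw [intervalIntegral.integral_sub intervalIntegrable_const hi] at hp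
  have := h.2 x _ hr hz
  simp only [intervalIntegral.integral_const, sub_zero, smul_eq_mul] at hp
  rw [e] at this
  linarith

theorem mean_log {G : ℂ → ℂ} (hG : Differentiable ℂ G) {c : ℂ} {r : ℝ} (hr : 0 < r)
    (h : ∀ t ∈ closedBall c r, G t ≠ 0) :
    IntervalIntegrable (fun θ => Real.log ‖G (circleMap c r θ)‖) volume 0 (2 * Real.pi) ∧
      ∫ θ in (0 : ℝ)..2 * Real.pi, Real.log ‖G (circleMap c r θ)‖ =
        2 * Real.pi * Real.log ‖G c‖ := by
  refine ⟨(Continuous.log (hG.continuous.comp (continuous_circleMap c r)).norm fun θ =>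
    norm_ne_zero_iff.2 (h _ (circleMap_mem_closedBall c hr.le θ))).intervalIntegrable _ _, ?_⟩
  have := AnalyticOnNhd.circleAverage_log_norm_of_ne_zero (R := r) (c := c) (g := G)
    (fun t _ => hG.analyticAt t) (by rwa [abs_of_pos hr])
  rw [Real.circleAverage, smul_eq_mul, inv_mul_eq_iff_eq_mul₀ Real.two_pi_pos.ne'] at this
  exact this

theorem exists_max {X : Type} [TopologicalSpace X] {Z : Set X} {τ : X → ℂ} (hτ : Continuous τ)
    {u : X → ℝ} (hM : ∀ z ∈ Z, |u z| ≤ M) {g : ℂ → ℂ} (hg : Differentiable ℂ g)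
    (cpt : ∀ K : Set ℂ, IsCompact K → (∀ t ∈ K, g t ≠ 0) → IsCompact (Z ∩ τ ⁻¹' K))
    (loc : ∀ z ∈ Z, g (τ z) ≠ 0 → UpperSemicontinuousWithinAt u Z z ∧ ∃ (ρ : ℝ) (γ : ℂ → X),
      0 < ρ ∧ γ (τ z) = z ∧ (∀ s ∈ ball (τ z) ρ, γ s ∈ Z ∧ τ (γ s) = s) ∧
      SH (fun s => u (γ s)) (τ z) ρ) {z₁ : X} (h₁ : z₁ ∈ Z) (h₂ : g (τ z₁) ≠ 0) :
    ∃ z₀ ∈ Z, ∀ z ∈ Z, g (τ z) ≠ 0 → u z ≤ u z₀ := by
  set c := τ z₁
  obtain ⟨r, hr, hb⟩ := nhds_basis_closedBall.mem_iff.1 (hg.continuous.continuousAt.eventually_ne h₂)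
  obtain ⟨z₀, hz₀, hmax⟩ := UpperSemicontinuousOn.exists_isMaxOn (s := Z ∩ τ ⁻¹' closedBall c r)
    ⟨z₁, h₁, mem_closedBall_self hr.le⟩ (cpt _ (isCompact_closedBall c r) hb)
    fun z hz => (loc z hz.1 (hb hz.2)).1.mono inter_subset_left
  refine ⟨z₀, hz₀.1, fun z hz hgz => not_lt.1 fun hlt => ?_⟩
  have hzr : r < ‖τ z - c‖ := not_le.1 fun k =>
    hlt.not_ge (hmax ⟨hz, mem_closedBall_iff_norm.2 k⟩)
  set η := u z - u z₀ with hη
  have hη0 : 0 < η := sub_pos.2 hlt
  have hM0 := (abs_nonneg _).trans (hM z hz)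
  have l1 : 0 < Real.log ‖τ z - c‖ - Real.log r := sub_pos.2 (Real.log_lt_log hr hzr)
  set ε := η / 4 / (Real.log ‖τ z - c‖ - Real.log r) with hε
  have hε0 : 0 < ε := by positivity
  have e1 : ε * (Real.log ‖τ z - c‖ - Real.log r) = η / 4 := by rw [hε]; field_simp
  set R := max ‖τ z - c‖ (Real.exp (Real.log r + 2 * M / ε)) with hR
  have hR0 : 0 < R := lt_max_of_lt_right (Real.exp_pos _)
  have e2 : 2 * M ≤ ε * (Real.log R - Real.log r) := by
    have := (Real.le_log_iff_exp_le hR0).2 (le_max_right _ _)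
    rw [← div_le_iff₀' hε0]
    linarith
  obtain ⟨C₀, hC₀⟩ := (isCompact_closedBall c R).exists_bound_of_continuousOn
    hg.continuous.continuousOn
  have hzR : τ z ∈ closedBall c R := mem_closedBall_iff_norm.2 (le_max_left _ _)
  have l2 : ∀ t ∈ closedBall c R, g t ≠ 0 → Real.log ‖g t‖ - Real.log C₀ ≤ 0 := fun t ht h0 =>
    sub_nonpos.2 (Real.log_le_log (norm_pos_iff.2 h0) (hC₀ t ht))
  set δ := η / 4 / (Real.log C₀ - Real.log ‖g (τ z)‖ + 1) with hδ
  have l3 : 0 < Real.log C₀ - Real.log ‖g (τ z)‖ + 1 := by linarith [l2 _ hzR hgz]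
  have hδ0 : 0 < δ := by positivity
  have e3 : δ * (Real.log C₀ - Real.log ‖g (τ z)‖ + 1) = η / 4 := by rw [hδ]; field_simp
  set δ' := η / 4 / R ^ 2 with hδ'
  have hδ'0 : 0 < δ' := by positivity
  have e4 : ∀ t ∈ closedBall c R, δ' * ‖t - c‖ ^ 2 ≤ η / 4 := fun t ht => by
    rw [show η / 4 = δ' * R ^ 2 by rw [hδ']; field_simp]
    gcongr
    exact mem_closedBall_iff_norm.1 ht
  let h : ℂ → ℝ := fun t => -(ε * (Real.log ‖t - c‖ - Real.log r)) +
    δ * (Real.log ‖g t‖ - Real.log C₀) + δ' * ‖t - c‖ ^ 2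
  set κ := Real.exp (Real.log C₀ - 2 * M / δ) with hκ
  have hκ0 : 0 < κ := Real.exp_pos _
  have e5 : ∀ t, g t ≠ 0 → ‖g t‖ ≤ κ → δ * (Real.log ‖g t‖ - Real.log C₀) ≤ -(2 * M) :=
    fun t h0 h1 => by
      have := (Real.log_le_iff_le_exp (norm_pos_iff.2 h0)).2 h1
      rw [← le_div_iff₀' hδ0, neg_div]
      linarith
  have e6 : ∀ t, r ≤ ‖t - c‖ → 0 ≤ ε * (Real.log ‖t - c‖ - Real.log r) := fun t ht =>
    mul_nonneg hε0.le (sub_nonneg.2 (Real.log_le_log hr ht))
  have hw : u z₀ + η / 2 ≤ u z + h (τ z) := by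
    simp only [h]
    nlinarith [mul_nonneg hδ'0.le (sq_nonneg ‖τ z - c‖)]
  let K : Set ℂ := closedBall c R ∩ ({t | r ≤ ‖t - c‖} ∩ {t | κ ≤ ‖g t‖})
  have hK : IsCompact K := (isCompact_closedBall c R).inter_right
    ((isClosed_le (by fun_prop) (by fun_prop)).inter
      (isClosed_le continuous_const hg.continuous.norm))
  have hKg : ∀ t ∈ K, g t ≠ 0 := fun t ht => norm_pos_iff.1 (hκ0.trans_le ht.2.2)
  have hKc : ∀ t ∈ K, t - c ≠ 0 := fun t ht => norm_pos_iff.1 (hr.trans_le ht.2.1)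
  have m0 := abs_le.1 (hM z₀ hz₀.1)
  have hzK : τ z ∈ K := ⟨hzR, hzr.le, not_lt.1 fun k => by
    have := e5 _ hgz k.le
    simp only [h] at hw
    linarith [e6 _ hzr.le, e4 _ hzR, (abs_le.1 (hM z hz)).2]⟩
  have hc : ContinuousOn h K := by
    refine (((continuousOn_const.mul (ContinuousOn.sub (ContinuousOn.log (by fun_prop)
      fun t ht => norm_ne_zero_iff.2 (hKc t ht)) continuousOn_const)).neg).add
      (continuousOn_const.mul (ContinuousOn.sub (ContinuousOn.log hg.continuous.norm.continuousOn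
        fun t ht => norm_ne_zero_iff.2 (hKg t ht)) continuousOn_const))).add (by fun_prop)
  obtain ⟨y, hy, hymax⟩ := UpperSemicontinuousOn.exists_isMaxOn (f := fun z => u z + h (τ z))
    (s := Z ∩ τ ⁻¹' K) ⟨z, hz, hzK⟩ (cpt K hK hKg) (UpperSemicontinuousOn.add
      (fun z hz => (loc z hz.1 (hKg _ hz.2)).1.mono inter_subset_left)
      (hc.comp hτ.continuousOn fun _ h => h.2).upperSemicontinuousOn)
  have hy1 : u z₀ + η / 2 ≤ u y + h (τ y) := hw.trans (hymax ⟨hz, hzK⟩)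
  obtain ⟨y1, y2, y3⟩ := hy.2
  have y4 := hKg _ hy.2
  have y5 := mul_nonpos_of_nonneg_of_nonpos hδ0.le (l2 _ y1 y4)
  have y6 := e6 _ y2
  have y7 := e4 _ y1
  have y8 := (abs_le.1 (hM y hy.1)).2
  simp only [h] at hy1
  have i1 : r < ‖τ y - c‖ := not_le.1 fun k => by
    have : u y ≤ u z₀ := hmax ⟨hy.1, mem_closedBall_iff_norm.2 k⟩
    linarith
  have i2 : ‖τ y - c‖ < R := not_le.1 fun k => by
    have := mul_le_mul_of_nonneg_left (Real.log_le_log hR0 k) hε0.le
    linarith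
  have i3 : κ < ‖g (τ y)‖ := not_le.1 fun k => by linarith [e5 _ y4 k]
  obtain ⟨-, ρ, γ, hρ, g0, g1, g2⟩ := loc y hy.1 y4
  obtain ⟨r', hr', hb'⟩ := nhds_basis_closedBall.mem_iff.1 (inter_mem (ball_mem_nhds (τ y) hρ)
    (show K ∈ 𝓝 (τ y) from inter_mem (closedBall_mem_nhds_of_mem (mem_ball_iff_norm.2 i2))
      (inter_mem ((continuousAt_const.eventually_lt (g := fun t => ‖t - c‖) (by fun_prop) i1).mono
        fun _ h => h.le)
        ((continuousAt_const.eventually_lt hg.continuous.norm.continuousAt i3).mono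
          fun _ h => h.le))))
  set x := τ y
  have hb1 : closedBall x r' ⊆ ball x ρ := fun t ht => (hb' ht).1
  obtain ⟨a1, a2⟩ := mean_log (G := fun t => t - c) (by fun_prop) hr' fun t ht => hKc t (hb' ht).2
  obtain ⟨b1, b2⟩ := mean_log hg hr' fun t ht => hKg t (hb' ht).2
  obtain ⟨c1, c2⟩ := mean_log (G := fun t => Complex.exp (2 * (starRingEnd ℂ) (x - c) * (t - x)))
    (c := x) (by fun_prop) hr' fun t _ => Complex.exp_ne_zero _
  have d1 := g2.ii (fun t ht => hM _ (g1 t ht).1) hr' hb1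
  have d2 := g2.2 x r' hr' hb1
  have key := intervalIntegral.integral_mono_on Real.two_pi_pos.le
    (((d1.sub (a1.const_mul ε)).add (b1.const_mul δ)).add (c1.const_mul δ'))
    (intervalIntegrable_const (c := u y - ε * Real.log ‖x - c‖ + δ * Real.log ‖g x‖ - δ' * r' ^ 2))
    fun θ _ => by
      have k0 := circleMap_mem_closedBall x hr'.le θ
      have k1 := hymax (a := γ (circleMap x r' θ))
        ⟨(g1 _ (hb1 k0)).1, by rw [mem_preimage, (g1 _ (hb1 k0)).2]; exact (hb' k0).2⟩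
      simp only [mem_ofPred_eq, (g1 _ (hb1 k0)).2, h] at k1
      have k2 : ‖circleMap x r' θ - c‖ ^ 2 = ‖x - c‖ ^ 2 + r' ^ 2 + Real.log ‖Complex.exp
          (2 * (starRingEnd ℂ) (x - c) * (circleMap x r' θ - x))‖ := by
        have k3 : ‖circleMap x r' θ - x‖ = r' := by simp [abs_of_pos hr']
        rw [Complex.norm_exp, Real.log_exp]
        generalize circleMap x r' θ = s at k3 ⊢
        rw [← k3]
        simp only [← Complex.normSq_eq_norm_sq, Complex.normSq_apply]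
        simp
        ring
      rw [k2] at k1
      linarith
  rw [intervalIntegral.integral_add ((d1.sub (a1.const_mul ε)).add (b1.const_mul δ))
      (c1.const_mul δ'), intervalIntegral.integral_add (d1.sub (a1.const_mul ε)) (b1.const_mul δ),
    intervalIntegral.integral_sub d1 (a1.const_mul ε), intervalIntegral.integral_const_mul,
    intervalIntegral.integral_const_mul, intervalIntegral.integral_const_mul, a2, b2, c2] at key
  simp only [g0, sub_self, mul_zero, Complex.exp_zero, norm_one, Real.log_one, add_zero,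
    intervalIntegral.integral_const, sub_zero, smul_eq_mul] at key d2
  nlinarith [mul_pos Real.two_pi_pos (mul_pos hδ'0 (pow_pos hr' 2))]

end Pool.Agent.P.MP_a31c1c_an.Inf
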