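import Pool.Agent.P.MP_a31c1c_an.AlgAux

/-!
Three rational functions on the projective plane are algebraically dependent; consequence along a
leaf of a linear foliation.
-/

set_option autoImplicit false

namespace Pool.Agent.P.MP_a31c1c_an.Inf

open MvPolynomial Filter Topology Set AlgAux Complex

theorem exists_dep {ι : Type} [Fintype ι] {L : ℕ} (P : ι → MP) (hP : ∀ i, (P i).IsHomogeneous L)
    (h : (L + 1) * (L + 1) < Fintype.card ι) : ∃ c : ι → ℂ, c ≠ 0 ∧ ∑ i, C (c i) * P i = 0 := by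
  let ex : Fin (L + 1) × Fin (L + 1) → (Fin 3 →₀ ℕ) := fun p =>
    Finsupp.equivFunOnFinite.symm ![L - p.1 - p.2, p.1, p.2]
  let Ψ : MP →ₗ[ℂ] (Fin (L + 1) × Fin (L + 1) → ℂ) := LinearMap.pi fun p => lcoeff ℂ (ex p)
  have hk : LinearMap.ker (Ψ.comp (Fintype.linearCombination ℂ P)) ≠ ⊥ := by
    apply LinearMap.ker_ne_bot_of_finrank_lt
    simpa using h
  obtain ⟨c, hc, hc0⟩ := (Submodule.ne_bot_iff _).1 hk
  refine ⟨c, hc0, ?_⟩
  have hh : (∑ i, C (c i) * P i).IsHomogeneous L :=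
    IsHomogeneous.sum _ _ _ fun i _ => (hP i).C_mul _
  rw [LinearMap.mem_ker, LinearMap.comp_apply, Fintype.linearCombination_apply] at hc
  simp only [smul_eq_C_mul] at hc
  ext m
  by_contra hm
  have hd := deg_of_mem hh hm
  have := congrFun hc (⟨m 1, by omega⟩, ⟨m 2, by omega⟩)
  simp only [Ψ, LinearMap.pi_apply, lcoeff_apply] at this
  refine hm (Eq.trans ?_ this)
  congr 1
  ext i
  fin_cases i <;> simp [ex]
  omega

theorem exp_indep {ι : Type} [Fintype ι] {l : ι → ℂ} (hl : Function.Injective l) {c : ι → ℂ}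
    (h : ∀ t, ∑ i, c i * exp (l i * t) = 0) : c = 0 := by
  let χ : ι → (Multiplicative ℂ →* ℂ) := fun i =>
    { toFun := fun t => exp (l i * t.toAdd)
      map_one' := by simp
      map_mul' := fun a b => by simp [mul_add, exp_add] }
  have hχ : Function.Injective χ := fun i j e => hl (by
    have k : ∀ a : ℂ, HasDerivAt (fun t => exp (a * t)) a 0 := fun a => by
      simpa using ((hasDerivAt_id (0 : ℂ)).const_mul a).cexp
    refine (k (l i)).unique ?_
    rw [show (fun t => exp (l i * t)) = fun t => exp (l j * t) from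
      funext fun t => DFunLike.congr_fun e (Multiplicative.ofAdd t)]
    exact k _)
  have := Fintype.linearIndependent_iff.1
    ((linearIndependent_monoidHom (Multiplicative ℂ) ℂ).comp χ hχ) c (by
      ext t
      simpa [χ] using h t.toAdd)
  exact funext this

theorem exists_rel {A B C D N M : MP} {a c m : ℕ} (hA : A.IsHomogeneous a) (hB : B.IsHomogeneous a)
    (hC : C.IsHomogeneous c) (hD : D.IsHomogeneous c) (hN : N.IsHomogeneous m)
    (hM : M.IsHomogeneous m) (hM0 : M ≠ 0) {ν c₀ : ℂ} (hν : ν.im ≠ 0) (hc₀ : c₀ ≠ 0) :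
    ∃ (g : ℂ → ℂ) (Cl : Set (E × ℂ)), Differentiable ℂ g ∧ (∀ t, ∀ᶠ s in 𝓝[≠] t, g s ≠ 0) ∧
      IsClosed Cl ∧ (∀ z t, eval z A = c₀ * exp (ν * t) * eval z B → eval z C = exp t * eval z D →
        eval z B ≠ 0 → eval z D ≠ 0 → (z, t) ∈ Cl) ∧
      ∀ z t, (z, t) ∈ Cl → eval z M = 0 → g t ≠ 0 → eval z N = 0 := by
  classical
  set n := (a + c + m + 1) ^ 2 with hn
  have hom : ∀ {P Q : MP} {e : ℕ}, P.IsHomogeneous e → Q.IsHomogeneous e → ∀ i : Fin (n + 1),
      (P ^ (i : ℕ) * Q ^ (n - i)).IsHomogeneous (e * n) := fun hP hQ i => by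
    have := (hP.pow i).mul (hQ.pow (n - i))
    rwa [← mul_add, Nat.add_sub_cancel' (Nat.lt_succ_iff.1 i.2)] at this
  obtain ⟨co, hco, e⟩ := exists_dep (L := a * n + c * n + m * n)
    (fun p : (Fin (n + 1) × Fin (n + 1)) × Fin (n + 1) => A ^ (p.1.1 : ℕ) * B ^ (n - p.1.1) *
      (C ^ (p.1.2 : ℕ) * D ^ (n - p.1.2)) * (N ^ (p.2 : ℕ) * M ^ (n - p.2)))
    (fun p => ((hom hA hB _).mul (hom hC hD _)).mul (hom hN hM _)) (by
      simp only [Fintype.card_prod, Fintype.card_fin]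
      have k : a * n + c * n + m * n + 1 ≤ (n + 1) * (a + c + m + 1) := by nlinarith
      calc _ ≤ ((n + 1) * (a + c + m + 1)) * ((n + 1) * (a + c + m + 1)) := Nat.mul_le_mul k k
        _ = (n + 1) * (n + 1) * n := by rw [hn]; ring
        _ < _ := by gcongr; omega)
  obtain ⟨p₀, hp₀, hmax⟩ := Finset.exists_max_image (Finset.univ.filter fun p => co p ≠ 0)
    (fun p => p.2) (by
      obtain ⟨p, hp⟩ := Function.ne_iff.1 hco
      exact ⟨p, by simpa using hp⟩)
  have hle : ∀ p, co p ≠ 0 → (p.2 : ℕ) ≤ p₀.2 := fun p hp => hmax p (by simpa using hp)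
  have e2 : ∑ p, MvPolynomial.C (co p) * (A ^ (p.1.1 : ℕ) * B ^ (n - p.1.1) *
      (C ^ (p.1.2 : ℕ) * D ^ (n - p.1.2)) * (N ^ (p.2 : ℕ) * M ^ (p₀.2 - p.2 : ℕ))) = 0 := by
    refine mul_left_cancel₀ (pow_ne_zero (n - p₀.2) hM0) ?_
    rw [mul_zero, ← e, Finset.mul_sum]
    refine Finset.sum_congr rfl fun p _ => ?_
    by_cases h : co p = 0
    · simp [h]
    · have := hle p h
      have k := p₀.2.2
      rw [show n - p.2 = n - p₀.2 + (p₀.2 - p.2) by omega, pow_add]
      ring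
  let g : ℂ → ℂ := fun t => ∑ q : Fin (n + 1) × Fin (n + 1),
    co (q, p₀.2) * c₀ ^ (q.1 : ℕ) * exp ((q.1 * ν + q.2) * t)
  have hg : Differentiable ℂ g := by fun_prop
  have hex : ∀ (i j : ℕ) (t : ℂ), exp ((i * ν + j) * t) = exp (ν * t) ^ i * exp t ^ j :=
    fun i j t => by rw [← exp_nat_mul, ← exp_nat_mul, ← exp_add]; congr 1; ring
  refine ⟨g, {z | ∑ p, co p * c₀ ^ (p.1.1 : ℕ) * exp ((p.1.1 * ν + p.1.2) * z.2) *
    (eval z.1 N ^ (p.2 : ℕ) * eval z.1 M ^ (p₀.2 - p.2 : ℕ)) = 0}, hg, fun t => ?_,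
    isClosed_eq ?_ continuous_const, fun z t h1 h2 h3 h4 => ?_, fun z t h1 h2 h3 => ?_⟩
  · refine (hg.analyticAt t).eventually_eq_zero_or_eventually_ne_zero.resolve_left fun h => ?_
    have k := AnalyticOnNhd.eq_of_eventuallyEq (fun t _ => hg.analyticAt t) analyticOnNhd_const h
    have := exp_indep (l := fun q : Fin (n + 1) × Fin (n + 1) => (q.1 * ν + q.2 : ℂ))
      (fun q q' e => by
        have k1 := congrArg im e
        have k2 := congrArg re e
        simp [hν] at k1 k2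
        rw [Fin.ext k1, add_right_inj, Nat.cast_inj] at k2
        exact Prod.ext (Fin.ext k1) (Fin.ext k2)) (congrFun k)
    simpa [hc₀, (Finset.mem_filter.1 hp₀).2] using congrFun this p₀.1
  · have := fun H => (contDiff_eval H (n := 0)).continuous
    fun_prop
  · have := congrArg (eval z) e2
    simp only [map_sum, map_mul, map_pow, eval_C, map_zero, h1, h2] at this
    refine mul_left_cancel₀ (mul_ne_zero (pow_ne_zero n h3) (pow_ne_zero n h4)) ?_
    rw [mul_zero, ← this, Finset.mul_sum]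
    refine Finset.sum_congr rfl fun p _ => ?_
    rw [hex, ← pow_mul_pow_sub (eval z B) (Nat.lt_succ_iff.1 p.1.1.2),
      ← pow_mul_pow_sub (eval z D) (Nat.lt_succ_iff.1 p.1.2.2)]
    ring
  · rw [mem_ofPred_eq, Fintype.sum_prod_type, Finset.sum_congr rfl (g := fun q =>
      co (q, p₀.2) * c₀ ^ (q.1 : ℕ) * exp ((q.1 * ν + q.2) * t) * eval z N ^ (p₀.2 : ℕ))
      fun q _ => ?_, ← Finset.sum_mul] at h1
    · exact eq_zero_of_pow_eq_zero ((mul_eq_zero.1 h1).resolve_left h3)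
    · rw [Finset.sum_eq_single p₀.2 (fun k _ hk => ?_) (by simp)]
      · simp
      · by_cases h : co (q, k) = 0
        · simp [h]
        · have : (k : ℕ) ≤ p₀.2 := hle _ h
          have k2 : (k : ℕ) ≠ p₀.2 := fun e => hk (Fin.ext e)
          rw [h2, zero_pow (Nat.sub_ne_zero_of_lt (lt_of_le_of_ne this k2)), mul_zero, mul_zero]

end Pool.Agent.P.MP_a31c1c_an.Inf
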