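import Pool.Agent.P.MP_a31c1c_an.InfLoc
import Pool.Agent.P.MP_a31c1c_an.InfRel
import Pool.Agent.P.MP_a31c1c_an.InfMax

/-!
Non-algebraic leaves of a rational pull-back of a linear foliation are parabolic.
-/

set_option autoImplicit false

namespace Pool.Agent.P.MP_a31c1c_an.Inf

open MvPolynomial Metric Filter Topology Set AlgAux Complex

theorem SH.congr {f g : ℂ → ℝ} {a : ℂ} {ρ : ℝ} (h : SH f a ρ) (e : EqOn f g (ball a ρ)) :
    SH g a ρ := by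
  refine ⟨fun x hx y hy => ?_, fun z r hr hz => ?_⟩
  · filter_upwards [h.1 x hx y ((e hx).trans_lt hy), self_mem_nhdsWithin] with t a b using
      (e b).symm.trans_lt a
  rw [← e (hz (mem_closedBall_self hr.le)), ← intervalIntegral.integral_congr
    (f := fun θ => f (circleMap z r θ)) fun θ _ => e (hz (circleMap_mem_closedBall z hr.le θ))]
  exact h.2 z r hr hz

theorem SH.const (c : ℝ) (a : ℂ) (ρ : ℝ) : SH (fun _ => c) a ρ :=
  ⟨upperSemicontinuousOn_const, fun _ _ _ _ => by simp⟩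

variable {Λ : Set E} {p : E} {F1 F2 A B C D KA KB KC KD : MP} {ν : ℂ} {d a c : ℕ}

theorem Rel.smul (hA : A.IsHomogeneous a) (hB : B.IsHomogeneous a) (hC : C.IsHomogeneous c)
    (hD : D.IsHomogeneous c) {c₀ τ : ℂ} {z : E} (h : Rel A B C D ν c₀ z τ) (t : ℂ) :
    Rel A B C D ν c₀ (t • z) τ := by
  rw [Rel, eval_smul_of_hom hA, eval_smul_of_hom hB, eval_smul_of_hom hC, eval_smul_of_hom hD,
    h.1, h.2]
  exact ⟨by ring, by ring⟩

theorem parab (H : IsLeaf (W F1 F2) Λ p) (hΛ : ∀ z ∈ Λ, z 0 = 1)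
    (hna : ∀ (Q : MP) (n : ℕ), Q.IsHomogeneous n → (∀ z ∈ Λ, eval z Q = 0) → Q = 0)
    (P : Pb F1 F2 A B C D KA KB KC KD ν) (hν : ν.im ≠ 0) (h1 : F1.IsHomogeneous d)
    (h2 : F2.IsHomogeneous d) (hA : A.IsHomogeneous a) (hB : B.IsHomogeneous a)
    (hC : C.IsHomogeneous c) (hD : D.IsHomogeneous c)
    (hJ : ∃ z : E, z 0 = 1 ∧ eval z (Jac A B C D) ≠ 0) {u : E → ℝ} {M : ℝ}
    (hM : ∀ z ∈ Λ, |u z| ≤ M) (hu : ∀ Γ a ρ, TC (W F1 F2) Γ a ρ → (∀ t ∈ ball a ρ, Γ t ∈ Λ) →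
      SH (fun t => u (Γ t)) a ρ) : ∃ S, ∀ q ∈ Λ, u q = S := by
  classical
  obtain ⟨zJ, hzJ, hJ⟩ := hJ
  have nz : ∀ {Q K : MP} {n : ℕ}, Q.IsHomogeneous n → Dw F1 F2 Q = K * Q → Q ≠ 0 →
      ∀ z ∈ Λ, eval z Q ≠ 0 := fun {Q K n} hQ e h0 z hz h => h0 (hna Q n hQ fun y hy =>
    spread H (Ω := {z | eval z Q = 0}) (fun ψ r h _ _ t ht => by
      obtain ⟨k, k0, k1⟩ := Sol.prim h K
      simp [darb e h k0 k1 ht]) hz hy h)
  have A0 : A ≠ 0 := fun e => hJ (by simp [Jac, e])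
  have B0 : B ≠ 0 := fun e => hJ (by simp [Jac, e])
  have C0 : C ≠ 0 := fun e => hJ (by simp [Jac, e])
  have D0 : D ≠ 0 := fun e => hJ (by simp [Jac, e])
  have nB := nz hB P.hB B0
  have nD := nz hD P.hD D0
  obtain ⟨c₀, hc₀, τp, hp⟩ : ∃ c₀, c₀ ≠ 0 ∧ ∃ τ, Rel A B C D ν c₀ p τ := by
    have k1 := nB p H.base
    have k2 := nD p H.base
    refine ⟨eval p A / eval p B / exp (ν * log (eval p C / eval p D)), div_ne_zero
      (div_ne_zero (nz hA P.hA A0 p H.base) k1) (exp_ne_zero _), log (eval p C / eval p D), ?_, ?_⟩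
    · field_simp
    · rw [exp_log (div_ne_zero (nz hC P.hC C0 p H.base) k2)]
      field_simp
  have tt : ∀ z ∈ Λ, ∃ τ, Rel A B C D ν c₀ z τ := fun z hz =>
    spread H (Ω := {z | ∃ τ, Rel A B C D ν c₀ z τ}) (fun ψ r h _ _ t ht => by
      obtain ⟨k, -, k1⟩ := P.time h
      exact ⟨fun ⟨τ, e⟩ => ⟨τ - k t, ((k1 t ht).2 _ _).1 (by rwa [sub_add_cancel])⟩,
        fun ⟨τ, e⟩ => ⟨_, ((k1 t ht).2 _ _).2 e⟩⟩) H.base hz ⟨τp, hp⟩
  obtain ⟨Fx, hFx, Fx0, hFW⟩ : ∃ Fx : MP, Fx.IsHomogeneous d ∧ Fx ≠ 0 ∧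
      ∀ z, eval z Fx ≠ 0 → W F1 F2 z ≠ 0 := by
    by_cases e : F1 = 0
    · exact ⟨F2, h2, fun e' => H.ne p H.base (W_eq_zero.2 (by simp [e, e'])),
        fun z h k => h (W_eq_zero.1 k).2⟩
    · exact ⟨F1, h1, e, fun z h k => h (W_eq_zero.1 k).1⟩
  obtain ⟨J, hJh, hJe⟩ := exists_hom_aff (Jac A B C D) le_rfl
  have J0 : J ≠ 0 := fun e => hJ (by rw [← hJe _ hzJ, e, map_zero])
  have hQ := ((((isHomogeneous_X ℂ (0 : Fin 3)).mul hB).mul hD).mul hJh).mul hFx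
  choose g Cl g1 g2 g3 g4 g5 using fun i : Fin 3 => exists_rel hA hB hC hD
    (isHomogeneous_X_pow i _) hQ (mul_ne_zero (mul_ne_zero (mul_ne_zero
      (mul_ne_zero (X_ne_zero 0) B0) D0) J0) Fx0) hν hc₀
  let G : ℂ → ℂ := fun t => ∏ i, g i t
  have G1 : ∀ t, ∀ᶠ s in 𝓝[≠] t, G s ≠ 0 := fun t =>
    (eventually_all.2 fun i => g2 i t).mono fun s hs => Finset.prod_ne_zero_iff.2 fun i _ => hs i
  let Z : Set (E × ℂ) := {x | ‖x.1‖ = 1 ∧ (∀ i, x ∈ Cl i) ∧ Rel A B C D ν c₀ x.1 x.2}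
  let w : E → ℝ := fun z => if z ∈ Λ then u z else -(M + 1)
  have sc : ∀ (t : ℂ) (z : E), t ≠ 0 → z 0 = 1 → ((t • z) 0)⁻¹ • t • z = z := fun t z ht hz => by
    simp [hz, smul_smul, ht]
  have mem : ∀ (t τ : ℂ) (z : E), ‖t • z‖ = 1 → eval z B ≠ 0 → eval z D ≠ 0 →
      Rel A B C D ν c₀ z τ → (t • z, τ) ∈ Z := fun t τ z k1 k2 k3 k4 => by
    have k5 : t ≠ 0 := fun e => by simp [e] at k1
    have k6 := k4.smul hA hB hC hD t
    refine ⟨k1, fun i => g4 i _ _ k6.1 k6.2 ?_ ?_, k6⟩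
    · rw [eval_smul_of_hom hB]; exact mul_ne_zero (pow_ne_zero _ k5) k2
    · rw [eval_smul_of_hom hD]; exact mul_ne_zero (pow_ne_zero _ k5) k3
  have unit : ∀ (t : ℂ) (z : E), t ≠ 0 → z 0 = 1 → ((‖t • z‖ : ℂ)⁻¹ * t) ≠ 0 ∧
      ‖((‖t • z‖ : ℂ)⁻¹ * t) • z‖ = 1 := fun t z ht hz => by
    have k := norm_ne_zero_iff.2 (smul_ne_zero ht (ne0 z hz))
    refine ⟨mul_ne_zero (inv_ne_zero (ofReal_ne_zero.2 k)) ht, ?_⟩
    rw [mul_smul, norm_smul, norm_inv, norm_real, norm_norm, inv_mul_cancel₀ k]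
  have good : ∀ z ∈ Λ, ∃ ψ r, Sol (W F1 F2) ψ r ∧ 0 < r ∧ ψ 0 = z ∧
      ∀ᶠ t in 𝓝[≠] (0 : ℂ), ∃ x ∈ Z, G x.2 ≠ 0 ∧ w ((x.1 0)⁻¹ • x.1) = u (ψ t) := fun z hz => by
    obtain ⟨ψ, r, h0, hr, hs, -⟩ := exists_chart H.smooth (H.ne z hz)
    obtain ⟨τ, hτ⟩ := tt z hz
    obtain ⟨k, k0, k1⟩ := P.time hs
    have k2 : AnalyticAt ℂ k 0 := analyticAt_iff_eventually_differentiableAt.2
      (mem_of_superset (ball_mem_nhds 0 hr) fun t ht => (k1 t ht).1)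
    have k3 : ∀ t ∈ ball (0 : ℂ) r, Rel A B C D ν c₀ (ψ t) (τ + k t) := fun t ht =>
      ((k1 t ht).2 _ _).2 (h0 ▸ hτ)
    have k4 : ∀ᶠ t in 𝓝[≠] (0 : ℂ), k t ≠ 0 :=
      k2.eventually_eq_zero_or_eventually_ne_zero.resolve_left fun e => by
        have k5 := hna _ c (hC.sub (hD.C_mul (exp τ))) (vanish H hs hr (h0 ▸ hz) (by
          filter_upwards [e, ball_mem_nhds 0 hr] with t a b
          simp [(k3 t b).2, a]))
        refine hJ ?_
        simp [sub_eq_zero.1 k5, Jac, mul_assoc, mul_comm]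
    have k5 : Tendsto (fun t => τ + k t) (𝓝[≠] 0) (𝓝[≠] τ) :=
      tendsto_nhdsWithin_iff.2 ⟨by
        simpa [k0] using (k2.continuousAt.tendsto.const_add τ).mono_left nhdsWithin_le_nhds,
        k4.mono fun t ht => by simpa using ht⟩
    refine ⟨ψ, r, hs, hr, h0, ?_⟩
    filter_upwards [k5.eventually (G1 τ), mem_nhdsWithin_of_mem_nhds (ball_mem_nhds 0 hr)]
      with t a b
    have m := H.sol_mem hs (mem_ball_self hr) b (h0 ▸ hz)
    obtain ⟨n1, n2⟩ := unit 1 _ one_ne_zero (hΛ _ m)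
    exact ⟨_, mem _ _ _ n2 (nB _ m) (nD _ m) (k3 t b), a, by simp only [sc _ _ n1 (hΛ _ m), w, m,
      if_true]⟩
  have M0 := (abs_nonneg _).trans (hM p H.base)
  obtain ⟨x₁, hx₁, hG₁, ψ₁, m₁⟩ : ∃ x ∈ Z, G x.2 ≠ 0 ∧ ∃ y ∈ Λ, w ((x.1 0)⁻¹ • x.1) = u y := by
    obtain ⟨ψ, r, hs, hr, h0, k⟩ := good p H.base
    obtain ⟨t, ⟨x, k1, k2, k3⟩, b⟩ :=
      (k.and (mem_nhdsWithin_of_mem_nhds (ball_mem_nhds 0 hr))).exists
    exact ⟨x, k1, k2, _, H.sol_mem hs (mem_ball_self hr) b (h0 ▸ H.base), k3⟩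
  obtain ⟨x₀, -, hmax⟩ := exists_max (Z := Z) continuous_snd (M := M + 1)
    (u := fun x => w ((x.1 0)⁻¹ • x.1)) (g := G) (fun x _ => by
      simp only [w]
      split_ifs with k
      · linarith [hM _ k]
      · rw [abs_neg, abs_of_nonneg (by linarith)])
    (Differentiable.fun_finsetProd fun i _ => g1 i) (fun K hK _ => by
      have cE := fun Q : MP => (contDiff_eval Q (n := 0)).continuous
      refine ((isCompact_sphere (0 : E) 1).prod hK).of_isClosed_subset (IsClosed.inter ?_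
        (hK.isClosed.preimage continuous_snd)) fun x hx => ⟨by simpa using hx.1.1, hx.2⟩
      refine (isClosed_eq (by fun_prop) continuous_const).and (IsClosed.and ?_
        ((isClosed_eq (by fun_prop) (by fun_prop)).and (isClosed_eq (by fun_prop) (by fun_prop))))
      rw [ofPred_forall]
      exact isClosed_iInter g3) (fun ⟨q, τ⟩ hx hG => by
      have k0 : eval q (X 0 * B * D * J * Fx) ≠ 0 := fun e => by
        have : q = 0 := funext fun i => by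
          simpa using g5 i q τ (hx.2.1 i) e (Finset.prod_ne_zero_iff.1 hG i (Finset.mem_univ i))
        simpa [this] using hx.1
      simp only [map_mul, eval_X, ne_eq, mul_eq_zero, not_or] at k0
      obtain ⟨⟨⟨⟨k0, k1⟩, k2⟩, k3⟩, k4⟩ := k0
      have nm : ∀ {Q : MP} {n : ℕ}, Q.IsHomogeneous n → eval q Q ≠ 0 →
          eval ((q 0)⁻¹ • q) Q ≠ 0 := fun h k => by
        rw [eval_smul_of_hom h]; exact mul_ne_zero (pow_ne_zero _ (inv_ne_zero k0)) k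
      have z0 : ((q 0)⁻¹ • q) 0 = 1 := by simp [k0]
      obtain ⟨ρ, γ, hρ, e0, hγ, e1, e2⟩ := P.plaque z0 (nm hB k1) (nm hD k2)
        (hJe _ z0 ▸ nm hJh k3) (hFW _ (nm hFx k4)) (hx.2.2.smul hA hB hC hD (q 0)⁻¹)
      have sh : SH (fun s => w (γ s)) τ ρ := by
        by_cases k : γ τ ∈ Λ
        · have k' := fun s hs => H.inv γ τ ρ hγ τ (mem_ball_self hρ) s hs k
          exact (hu γ τ ρ hγ k').congr fun s hs => by simp only [w, k' s hs, if_true]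
        · exact (SH.const (-(M + 1)) τ ρ).congr fun s hs => by
            simp only [w, if_neg fun k' => k (H.inv γ τ ρ hγ s hs τ (mem_ball_self hρ) k')]
      refine ⟨fun y hy => ?_, ρ, fun s => (((‖q 0 • γ s‖ : ℂ)⁻¹ * q 0) • γ s, s), hρ, ?_,
        fun s hs => ⟨mem _ _ _ (unit _ _ k0 (e1 s hs).1).2 (e1 s hs).2.1 (e1 s hs).2.2.1
          (e1 s hs).2.2.2, rfl⟩, sh.congr fun s hs => by
            simp only [sc _ _ (unit _ _ k0 (e1 s hs).1).1 (e1 s hs).1]⟩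
      · have c0 : ContinuousAt (fun x : E × ℂ => x.1 0) (q, τ) := by fun_prop
        have c1 : ContinuousAt (fun x : E × ℂ => (x.1 0)⁻¹ • x.1) (q, τ) :=
          (c0.inv₀ k0).smul continuousAt_fst
        have c2 := sh.1 τ (mem_ball_self hρ) y (by simpa only [e0] using hy)
        rw [isOpen_ball.nhdsWithin_eq (mem_ball_self hρ)] at c2
        filter_upwards [self_mem_nhdsWithin, mem_nhdsWithin_of_mem_nhds ((c1.eventually e2).and
          ((c0.eventually_ne k0).and (continuousAt_snd (p := (q, τ)).eventually c2)))] with x a b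
        rw [b.1 x.2 (by simp [b.2.1]) (a.2.2.smul hA hB hC hD _)]
        exact b.2.2
      · simp only [e0, smul_smul, mul_inv_cancel₀ k0, one_smul, show ‖q‖ = 1 from hx.1]
        simp [k0]) hx₁ hG₁
  have tc := fun ψ r (h : Sol (W F1 F2) ψ r) (hr : 0 < r) (h0 : ψ 0 ∈ Λ) =>
    hu ψ 0 r (h.tc H.smooth (mem_ball_self hr) (H.ne _ h0))
      fun t ht => H.sol_mem h (mem_ball_self hr) ht h0
  have le : ∀ z ∈ Λ, u z ≤ w ((x₀.1 0)⁻¹ • x₀.1) := fun z hz => by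
    obtain ⟨ψ, r, hs, hr, h0, k⟩ := good z hz
    obtain ⟨δ, hδ, hb⟩ := nhds_basis_closedBall.mem_iff.1
      ((eventually_nhdsWithin_iff.1 k).and (ball_mem_nhds 0 hr))
    rw [← h0] at hz ⊢
    refine (tc ψ r hs hr hz).le_of_circle (fun t ht => hM _ (H.sol_mem hs (mem_ball_self hr) ht hz))
      hδ (fun t ht => (hb ht).2) fun θ => ?_
    obtain ⟨x, k1, k2, k3⟩ := (hb (circleMap_mem_closedBall 0 hδ.le θ)).1
      (circleMap_ne_center hδ.ne')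
    exact k3 ▸ hmax x k1 k2
  have m₀ : (x₀.1 0)⁻¹ • x₀.1 ∈ Λ := by
    by_contra k
    have := le p H.base
    simp only [w, if_neg k] at this
    linarith [(abs_le.1 (hM p H.base)).1]
  simp only [w, if_pos m₀] at le
  refine ⟨_, fun q hq => spread H (Ω := {z | u z = u ((x₀.1 0)⁻¹ • x₀.1)})
    (fun ψ r h hr h0 t ht => ?_) m₀ hq rfl⟩
  have k := fun t ht => H.sol_mem h (t := t) (mem_ball_self hr) ht h0
  exact ⟨(tc ψ r h hr h0).strong (fun t ht => hM _ (k t ht)) (fun t ht => le _ (k t ht)) ht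
    (mem_ball_self hr), (tc ψ r h hr h0).strong (fun t ht => hM _ (k t ht))
      (fun t ht => le _ (k t ht)) (mem_ball_self hr) ht⟩

end Pool.Agent.P.MP_a31c1c_an.Inf
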