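import Pool.Agent.P.MP_a31c1c_an.InfBase

/-!
With an integrating factor, if two residues and `1` are independent over the integers, the leaf is
transient.
-/

set_option autoImplicit false

namespace Pool.Agent.P.MP_a31c1c_an.Inf

open MvPolynomial Metric Filter Topology Set Complex

variable {D : Dat} {Λ : Set E} {p : E} {T : Finset ℂ} {a₁ a₂ : ℂ}

theorem eF_ne (t : ℂ) : eF D T a₁ a₂ t ≠ 0 := exp_ne_zero _

theorem norm_pow_le {z : ℂ} (h : z.re < 0) (n : ℕ) : ‖exp (n * z)‖ ≤ 1 := by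
  rw [norm_exp, Real.exp_le_one_iff, ← ofReal_natCast, re_ofReal_mul]
  exact mul_nonpos_of_nonneg_of_nonpos (Nat.cast_nonneg n) h.le

theorem indep {l₁ l₂ : ℂ} (hind : ∀ m n k : ℤ, m * l₁ + n * l₂ = k → m = 0 ∧ n = 0) {m n : ℤ}
    (h : exp ((m * l₁ + n * l₂) * (2 * Real.pi * I)) = 1) : m = 0 ∧ n = 0 := by
  obtain ⟨k, hk⟩ := exp_eq_one_iff.1 h
  exact hind m n k (mul_right_cancel₀ two_pi_I_ne_zero hk)

/-- A family of sectors at one of the two singular points. -/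
theorem mk_cusp (H : IsLeaf (W D.F1 D.F2) Λ p) {Q : ℂ → ℂ → E} {b C δ y : _} {x l₂ : ℂ}
    {e₁ e₂ : ℤ} (hδ : 0 < δ) (he : (lam D a₁ * ((e₁ * (2 * Real.pi) : ℝ) * I)).re < 0)
    (he₂ : e₂ ≠ 0) (he₂' : (l₂ * ((e₂ * (2 * Real.pi) : ℝ) * I)).re < 0)
    (hind : ∀ m n k : ℤ, m * lam D a₁ + n * l₂ = k → m = 0 ∧ n = 0) (hy : y ≠ 0)
    (hb : ‖y‖ * (C * Real.exp ((lam D a₁ * x).re + ‖lam D a₁‖ * δ)) < b) (hC : 0 < C)
    (h1 : ∀ t ∈ Sec (lam D a₁) x δ, ‖eF D T a₁ a₂ t‖ ≤ C * Real.exp (lam D a₁ * t).re)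
    (h2 : ∀ t ∈ Sec (lam D a₁) x δ, ∀ z : ℂ, z ≠ 0 → ‖z * eF D T a₁ a₂ t‖ < b →
      W D.F1 D.F2 (Q (exp t) (z * eF D T a₁ a₂ t)) ≠ 0 ∧ ∃ κ : ℂ,
        HasDerivAt (fun t => Q (exp t) (z * eF D T a₁ a₂ t))
          (κ • W D.F1 D.F2 (Q (exp t) (z * eF D T a₁ a₂ t))) t)
    (h3 : ∀ t ∈ Sec (lam D a₁) x δ, ∀ t' ∈ Sec (lam D a₁) x δ, ∀ ζ ζ' : ℂ, ζ ≠ 0 → ‖ζ‖ < b →
      ‖ζ'‖ < b → Q (exp t) ζ = Q (exp t') ζ' → exp t = exp t' ∧ ζ = ζ') (N : Set ℕ)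
    (h4 : ∀ n ∈ N, Q (exp x) (y * exp (n * (l₂ * ((e₂ * (2 * Real.pi) : ℝ) * I))) *
      eF D T a₁ a₂ x) ∈ Λ) :
    (∀ n ∈ N, ∀ t ∈ Sec (lam D a₁) x δ, Tn (W D.F1 D.F2) Λ (fun t => Q (exp t)
      (y * exp (n * (l₂ * ((e₂ * (2 * Real.pi) : ℝ) * I))) * eF D T a₁ a₂ t)) t) ∧
    (N = univ → Cusp (W D.F1 D.F2) Λ (lam D a₁) x δ (e₁ * (2 * Real.pi)) fun n t => Q (exp t)
      (y * exp (n * (l₂ * ((e₂ * (2 * Real.pi) : ℝ) * I))) * eF D T a₁ a₂ t)) := by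
  have hl : lam D a₁ ≠ 0 := fun e => by simp [e] at he
  have k0 : ∀ n : ℕ, y * exp (n * (l₂ * ((e₂ * (2 * Real.pi) : ℝ) * I))) ≠ 0 := fun n =>
    mul_ne_zero hy (exp_ne_zero _)
  have k1 : ∀ n : ℕ, ∀ t ∈ Sec (lam D a₁) x δ,
      ‖y * exp (n * (l₂ * ((e₂ * (2 * Real.pi) : ℝ) * I))) * eF D T a₁ a₂ t‖ < b := fun n t ht => by
    refine lt_of_le_of_lt ?_ hb
    rw [norm_mul, norm_mul]
    refine mul_le_mul (mul_le_of_le_one_right (norm_nonneg _) (norm_pow_le he₂' n))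
      ((h1 t ht).trans ?_) (norm_nonneg _) (norm_nonneg _)
    gcongr
    exact ht.2.le
  have k2 := fun n (hn : n ∈ N) => mem_of_conn H (isOpen_sec _ _ _) (convex_sec _ _ _)
    (fun t ht => h2 t ht _ (k0 n) (k1 n t ht))
    (mem_sec (y := 0) hl le_rfl (by simp) (by simpa using hδ)) (h4 n hn)
  refine ⟨k2, fun hN => ⟨hδ, he, fun n => k2 n (hN ▸ mem_univ n), fun n n' t ht t' ht' e => ?_⟩⟩
  obtain ⟨e1, e2⟩ := h3 t ht t' ht' _ _ (mul_ne_zero (k0 n) (eF_ne _)) (k1 n t ht)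
    (k1 n' t' ht') e
  obtain ⟨k, rfl⟩ := exp_eq_exp_iff_exists_int.1 e1
  rw [eF_add, ← mul_assoc, mul_left_inj' (eF_ne _), mul_assoc, mul_right_inj' hy,
    ← exp_add, exp_eq_exp_iff_exp_sub_eq_one] at e2
  obtain ⟨rfl, e3⟩ := indep hind (m := k) (n := (n - n') * e₂) (by
    rw [← e2]; congr 1; push_cast; ring)
  exact ⟨by have := (mul_eq_zero.1 e3).resolve_right he₂; omega, by simp⟩

theorem rank_three (Hy : Hyq D.d D.F1 D.F2) (hG : D.G = 0) (H : IsLeaf (W D.F1 D.F2) Λ p) {a : ℂ}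
    (ha : D.R.eval a ≠ 0) (h : ∀ ε : ℝ, 0 < ε → ∃ u w : ℂ, dist u a < ε ∧ Dat.In Λ u ε w)
    (r₁ : D.R.eval a₁ = 0) (r₂ : D.R.eval a₂ = 0)
    (hind : ∀ m n k : ℤ, m * lam D a₁ + n * lam D a₂ = k → m = 0 ∧ n = 0) :
    Gr (W D.F1 D.F2) Λ := by
  obtain ⟨T, ε, M, s, s', hB⟩ := exists_br Hy hG
  have h₁ := (hB.mem a₁).2 r₁
  have h₂ := (hB.mem a₂).2 r₂
  have hne : a₁ ≠ a₂ := fun e => by simpa using hind 1 (-1) 0 (by simp [e])
  have hind' : ∀ m n k : ℤ, m * lam D a₂ + n * lam D a₁ = k → m = 0 ∧ n = 0 := fun m n k e =>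
    (hind n m k (by rw [← e, add_comm])).symm
  obtain ⟨e₁, he₁, he₁'⟩ := exists_sign (lam_im Hy r₁)
  obtain ⟨e₂, he₂, he₂'⟩ := exists_sign (lam_im Hy r₂)
  obtain ⟨X₁, C₁, hC₁, n₁⟩ := near_root D T hne
  obtain ⟨X₂, C₂, hC₂, n₂⟩ := near_root D T hne.symm
  obtain ⟨θ, δ₀, hδ₀, hδ₁, hS⟩ := exists_strip T a₁ a₂
  obtain ⟨δ, hδ, rfl⟩ : ∃ δ : ℝ, 0 < δ ∧ δ₀ = 2 * δ := ⟨δ₀ / 2, half_pos hδ₀, by ring⟩
  obtain ⟨X, hX, hX₁, hX₂⟩ : ∃ X : ℝ, 0 < X ∧ X₁ + 1 ≤ X ∧ X₂ + 1 ≤ X :=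
    ⟨|X₁| + |X₂| + 1, by positivity, by linarith [le_abs_self X₁, abs_nonneg X₂],
      by linarith [le_abs_self X₂, abs_nonneg X₁]⟩
  set x : ℂ := -X + θ * I with hx
  set U := thickening δ (segment ℝ x (x + (2 * X : ℝ))) with hU
  have hcomp : IsCompact (cthickening δ (segment ℝ x (x + (2 * X : ℝ)))) := by
    refine IsCompact.cthickening ?_
    rw [segment_eq_image]
    exact isCompact_Icc.image (by fun_prop)
  have hUs : ∀ t ∈ cthickening δ (segment ℝ x (x + (2 * X : ℝ))), |t.im - θ| < 2 * δ := by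
    intro t ht
    obtain ⟨z, hz, hz'⟩ := mem_thickening_iff.1
      (cthickening_subset_thickening' (by positivity : 0 < 2 * δ) (by linarith) _ ht)
    rw [segment_eq_image'] at hz
    obtain ⟨τ, -, rfl⟩ := hz
    rw [dist_eq_norm] at hz'
    refine lt_of_le_of_lt (le_of_eq_of_le ?_ (abs_im_le_norm _)) hz'
    simp [hx]
  have hUc := thickening_subset_cthickening δ (segment ℝ x (x + (2 * X : ℝ)))
  have hxU : ∀ t : ℂ, ‖t‖ < δ → x + t ∈ U := fun t ht =>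
    mem_thickening_iff.2 ⟨x, left_mem_segment _ _ _, by simpa using ht⟩
  have hxU' : ∀ t : ℂ, ‖t‖ < δ → x + (2 * X : ℝ) - t ∈ U := fun t ht =>
    mem_thickening_iff.2 ⟨_, right_mem_segment _ _ _, by simpa [dist_eq_norm] using ht⟩
  have hxU0 : x ∈ U := by simpa using hxU 0 (by simpa using hδ)
  obtain ⟨K, hK4, hK⟩ : ∃ K : ℝ, 4 ≤ K ∧ ∀ t ∈ U, exp t ∈ Om T a₁ a₂ K := by
    have hd := fun t ht a (ha : a ∈ T) => (hS t (hUs t ht)).1.den_ne (exp_ne_zero t) hne ha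
    obtain ⟨K, hK⟩ := hcomp.exists_bound_of_continuousOn (f := fun t => ∑ a ∈ T,
      (‖a₁ - a‖ + ‖exp t‖ * ‖a₂ - a‖) / ‖den a₁ a₂ a (exp t)‖) (continuousOn_finsetSum _
        fun a ha => ContinuousOn.div (by fun_prop) (by unfold den; fun_prop)
          fun t ht => norm_ne_zero_iff.2 (hd t ht a ha))
    refine ⟨|K| + 4, by simp, fun t ht => ⟨fun e => slitPlane_ne_zero (hS t (hUs t (hUc ht))).1.1
      (by simp [e]), fun a ha => ?_⟩⟩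
    rw [← div_lt_iff₀ (norm_pos_iff.2 (hd t (hUc ht) a ha))]
    have k := Finset.single_le_sum (f := fun a => (‖a₁ - a‖ + ‖exp t‖ * ‖a₂ - a‖) /
      ‖den a₁ a₂ a (exp t)‖) (fun _ _ => by positivity) ha
    linarith [(le_abs_self _).trans (hK t (hUc ht)), le_abs_self K]
  obtain ⟨b, P, hP⟩ := hB.exists_ch h₁ h₂ (K := K) (by linarith)
  have hb := hP.pos
  have d₁ := fun t (ht : |t.im - θ| < 2 * δ) => hasDerivAt_eF (D := D) h₁ hne (hS t ht).1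
  obtain ⟨C₃, hC₃⟩ := hcomp.exists_bound_of_continuousOn (f := eF D T a₁ a₂)
    fun t ht => (d₁ t (hUs t ht)).continuousAt.continuousWithinAt
  obtain ⟨κ, hκ0, hκ⟩ : ∃ κ : ℂ, κ ≠ 0 ∧ ∀ t ∈ U, eF D T a₁ a₂ t = κ * eF D T a₂ a₁ (-t) := by
    have k : ∀ t ∈ U, HasDerivAt (fun t => eF D T a₁ a₂ t / eF D T a₂ a₁ (-t)) 0 t := fun t ht => by
      have k1 := hUs t (hUc ht)
      have k2 := (hasDerivAt_eF (D := D) h₂ hne.symm (hS t k1).2).comp t (hasDerivAt_neg t)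
      refine ((d₁ t k1).fun_div k2 (exp_ne_zero _)).congr_deriv ?_
      rw [exp_neg t, al_inv (exp_ne_zero t) (slitPlane_ne_zero (hS t k1).1.1)
        fun a ha => den_ne (hK t ht) ha]
      simp only [Function.comp]
      ring
    refine ⟨eF D T a₁ a₂ x / eF D T a₂ a₁ (-x), div_ne_zero (exp_ne_zero _) (exp_ne_zero _),
      fun t ht => ?_⟩
    rw [← isOpen_thickening.is_const_of_deriv_eq_zero ((convex_segment _ _).thickening δ).isPreconnected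
      (fun t ht => (k t ht).differentiableAt.differentiableWithinAt) (fun t ht => (k t ht).deriv) ht
      hxU0, div_mul_cancel₀ _ (eF_ne _)]
  set x' := -(x + (2 * X : ℝ)) with hx'
  set B₁ := C₁ * Real.exp ((lam D a₁ * x).re + ‖lam D a₁‖ * δ) with hB₁
  set B₂ := C₂ * Real.exp ((lam D a₂ * x').re + ‖lam D a₂‖ * δ) with hB₂
  have tanU : ∀ t, Sl T a₁ a₂ (exp t) → exp t ∈ Om T a₁ a₂ K → ∀ z : ℂ, z ≠ 0 →
      ‖z * eF D T a₁ a₂ t‖ < b → W D.F1 D.F2 (P (exp t) (z * eF D T a₁ a₂ t)) ≠ 0 ∧ ∃ κ : ℂ,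
        HasDerivAt (fun t => P (exp t) (z * eF D T a₁ a₂ t))
          (κ • W D.F1 D.F2 (P (exp t) (z * eF D T a₁ a₂ t))) t := fun t k1 k2 z hz hlt =>
    hP.tan exp (fun t => z * eF D T a₁ a₂ t) _ t (hasDerivAt_exp t)
      (((hasDerivAt_eF h₁ hne k1).const_mul z).congr_deriv (by ring)) k2
      (mul_ne_zero hz (exp_ne_zero _)) hlt
  obtain ⟨y, hy0, hy, t₁, ht₁, hΛ⟩ : ∃ y : ℂ, y ≠ 0 ∧ ‖y‖ * (B₁ + ‖κ‖ * B₂ + |C₃|) < b ∧
      ∃ t₁ ∈ U, P (exp t₁) (y * eF D T a₁ a₂ t₁) ∈ Λ := by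
    have hΩ := hK x hxU0
    have k1 : 1 - exp x ≠ 0 := sub_ne_zero.2 hΩ.1.symm
    set u := (a₁ - exp x * a₂) / (1 - exp x) with hu
    have k2 : ∀ a ∈ T, u - a = den a₁ a₂ a (exp x) / (1 - exp x) := fun a _ => by
      rw [hu, den]; field_simp; ring
    have k3 : ∀ a ∈ T, u - a ≠ 0 := fun a ha => by
      rw [k2 a ha]; exact div_ne_zero (den_ne hΩ ha) k1
    have c : ∀ a ∈ T, ContinuousAt (fun w => u - s a w) 0 := fun a ha =>
      continuousAt_const.sub (hB.der a ha 0 (mem_ball_self hB.pos)).1.continuousAt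
    have z₁ := hB.zero a₁ h₁
    have z₂ := hB.zero a₂ h₂
    let q : ℂ → ℂ := fun w => (u - s a₁ w) / (u - s a₂ w) / exp x
    have q0 : q 0 = 1 := by
      have := sub_ne_zero.2 hne
      simp only [q, z₁, z₂, k2 a₁ h₁, k2 a₂ h₂, den, sub_self, mul_zero, sub_zero]
      field_simp
      ring
    have cq : ContinuousAt q 0 :=
      ((c a₁ h₁).div (c a₂ h₂) (by simpa [z₂] using k3 a₂ h₂)).div_const _
    have ct : ContinuousAt (fun w => x + log (q w)) 0 :=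
      continuousAt_const.add (cq.clog (by simp [q0]))
    have t0 : x + log (q 0) = x := by simp [q0]
    have ce : ContinuousAt (fun w => eF D T a₁ a₂ (x + log (q w))) 0 :=
      (d₁ x (hUs x (hUc hxU0))).continuousAt.comp_of_eq ct t0
    have e1 : ∀ᶠ w in 𝓝 (0 : ℂ), 2 * ‖w‖ * (B₁ + ‖κ‖ * B₂ + |C₃|) <
        b * ‖eF D T a₁ a₂ (x + log (q w))‖ :=
      ContinuousAt.eventually_lt (by fun_prop) (continuousAt_const.mul ce.norm)
        (by simpa using mul_pos hb (norm_pos_iff.2 (eF_ne (x + log (q 0)))))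
    obtain ⟨ρ, hρ, Hρ⟩ := Metric.eventually_nhds_iff_ball.1 (e1.and
      ((ct.eventually_mem (isOpen_thickening.mem_nhds (t0.symm ▸ hxU0))).and
      ((cq.eventually_ne (q0.symm ▸ one_ne_zero)).and
      ((c a₂ h₂).eventually_ne (by simpa [z₂] using k3 a₂ h₂)))))
    obtain ⟨w, w0, w1, w2⟩ := acc_all Hy H ha h (u := u)
      (fun e => k3 u ((hB.mem u).2 e) (sub_self u)) (min ρ (b / 2)) (by positivity)
    obtain ⟨f1, f2, f3, f4⟩ := Hρ w (mem_ball_zero_iff.2 (w1.trans_le (min_le_left _ _)))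
    obtain ⟨ζ, g0, g1, g2⟩ := hP.onto _ (hK _ f2) w w0 (w1.trans_le (min_le_right _ _))
    have g3 : eF D T a₁ a₂ (x + log (q w)) ≠ 0 := exp_ne_zero _
    refine ⟨ζ / eF D T a₁ a₂ (x + log (q w)), div_ne_zero g0 g3, ?_, _, f2, ?_⟩
    · rw [norm_div, div_mul_eq_mul_div, div_lt_iff₀ (norm_pos_iff.2 g3)]
      exact lt_of_le_of_lt (by gcongr) f1
    · have g4 : 1 - exp (x + log (q w)) ≠ 0 := sub_ne_zero.2 (hK _ f2).1.symm
      have g5 : exp (x + log (q w)) * (u - s a₂ w) = u - s a₁ w := by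
        rw [exp_add, exp_log f3]
        simp only [q]
        field_simp
      rw [div_mul_cancel₀ _ g3, g2, show (s a₁ w - exp (x + log (q w)) * s a₂ w) /
        (1 - exp (x + log (q w))) = u by rw [div_eq_iff g4]; linear_combination g5]
      exact w2
  have hB₁0 : 0 < B₁ := by positivity
  have hB₂0 : 0 < B₂ := by positivity
  have hB₂1 := mul_nonneg (norm_nonneg κ) hB₂0.le
  have y₁ : ‖y‖ * B₁ < b := lt_of_le_of_lt (by gcongr; linarith [abs_nonneg C₃]) hy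
  have y₂ : ‖y * κ‖ * B₂ < b := by
    rw [norm_mul, mul_assoc]
    exact lt_of_le_of_lt (by gcongr; linarith [abs_nonneg C₃]) hy
  have y₃ : ‖y‖ * |C₃| < b := lt_of_le_of_lt (by gcongr; linarith) hy
  set ω₁ := lam D a₁ * ((e₁ * (2 * Real.pi) : ℝ) * I) with hω₁
  set ω₂ := lam D a₂ * ((e₂ * (2 * Real.pi) : ℝ) * I) with hω₂
  let J : ℕ × ℕ → ℂ → E := fun j t =>
    P (exp t) (y * exp (j.1 * ω₁) * exp (j.2 * ω₂) * eF D T a₁ a₂ t)
  have j0 : ∀ j : ℕ × ℕ, y * exp (j.1 * ω₁) * exp (j.2 * ω₂) ≠ 0 := fun j =>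
    mul_ne_zero (mul_ne_zero hy0 (exp_ne_zero _)) (exp_ne_zero _)
  have j1 : ∀ j : ℕ × ℕ, ∀ t ∈ U, ‖y * exp (j.1 * ω₁) * exp (j.2 * ω₂) * eF D T a₁ a₂ t‖ ≤
      ‖y‖ * |C₃| * ‖exp (j.1 * ω₁)‖ := fun j t ht => by
    rw [norm_mul, norm_mul, norm_mul, mul_right_comm ‖y‖ |C₃|]
    exact mul_le_mul (mul_le_of_le_one_right (by positivity) (norm_pow_le he₂' _))
      ((hC₃ t (hUc ht)).trans (le_abs_self _)) (norm_nonneg _) (by positivity)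
  have j2 : ∀ j : ℕ × ℕ, ∀ t ∈ U, ‖y * exp (j.1 * ω₁) * exp (j.2 * ω₂) * eF D T a₁ a₂ t‖ < b :=
    fun j t ht => ((j1 j t ht).trans (mul_le_of_le_one_right (by positivity)
      (norm_pow_le he₁' _))).trans_lt y₃
  have j3 : ∀ j, ∀ t₁ ∈ U, J j t₁ ∈ Λ → ∀ t ∈ U, Tn (W D.F1 D.F2) Λ (J j) t := fun j t₁ k1 k2 =>
    mem_of_conn H isOpen_thickening ((convex_segment _ _).thickening δ)
      (fun t ht => tanU t (hS t (hUs t (hUc ht))).1 (hK t ht) _ (j0 j) (j2 j t ht)) k1 k2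
  have p₁ : ∀ (e : ℤ) (m : ℕ) (x t : ℂ), x + m * ((e * (2 * Real.pi) : ℝ) * I) + t =
      x + t + (m * e : ℤ) * (2 * Real.pi * I) := fun e m x t => by push_cast; ring
  have c1 : ∀ (m n : ℕ) (t : ℂ), P (exp (x + m * ((e₁ * (2 * Real.pi) : ℝ) * I) + t))
      (y * exp (n * ω₂) * eF D T a₁ a₂ (x + m * ((e₁ * (2 * Real.pi) : ℝ) * I) + t)) =
      J (m, n) (x + t) := fun m n t => by
    rw [p₁, eF_add, exp_add (x + t), exp_int_mul_two_pi_mul_I, mul_one,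
      show lam D a₁ * ((m * e₁ : ℤ) * (2 * Real.pi * I)) = m * ω₁ by rw [hω₁]; push_cast; ring]
    simp only [J]
    congr 1
    ring
  have c2 : ∀ (m n : ℕ) (t : ℂ), ‖t‖ < δ → P (exp (x' + n * ((e₂ * (2 * Real.pi) : ℝ) * I) + t))⁻¹
      (y * κ * exp (m * ω₁) * eF D T a₂ a₁ (x' + n * ((e₂ * (2 * Real.pi) : ℝ) * I) + t)) =
      J (m, n) (x + (2 * X : ℝ) - t) := fun m n t ht => by
    rw [p₁, eF_add, exp_add (x' + t), exp_int_mul_two_pi_mul_I, mul_one,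
      show lam D a₂ * ((n * e₂ : ℤ) * (2 * Real.pi * I)) = n * ω₂ by rw [hω₂]; push_cast; ring,
      ← exp_neg]
    simp only [J, hκ _ (hxU' t ht)]
    rw [show x + (2 * X : ℝ) - t = -(x' + t) by rw [hx']; ring, neg_neg]
    congr 1
    ring
  have s₁ : ∀ t ∈ Sec (lam D a₁) x δ, t.re < -X₁ := fun t ht => by
    have := ht.1
    simp [hx] at this
    linarith
  have s₂ : ∀ t ∈ Sec (lam D a₂) x' δ, t.re < -X₂ := fun t ht => by
    have := ht.1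
    simp [hx, hx'] at this
    linarith
  have o₂ : ∀ t ∈ Sec (lam D a₂) x' δ, (exp t)⁻¹ ∈ Om T a₁ a₂ K := fun t ht =>
    Om_inv (exp_ne_zero t) (Om_mono hK4 (n₂ t (s₂ t ht)).2.1)
  have cu₁ := mk_cusp H (Q := P) hδ he₁' he₂ he₂' hind hy0 y₁ hC₁ (fun t ht => (n₁ t (s₁ t ht)).2.2)
    (fun t ht => tanU t (n₁ t (s₁ t ht)).1 (Om_mono hK4 (n₁ t (s₁ t ht)).2.1))
    fun t ht t' ht' => hP.inj _ (Om_mono hK4 (n₁ t (s₁ t ht)).2.1) _
      (Om_mono hK4 (n₁ t' (s₁ t' ht')).2.1)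
  have cu₂ := mk_cusp H (Q := fun ξ ζ => P ξ⁻¹ ζ) hδ he₂' he₁ he₁' hind' (mul_ne_zero hy0 hκ0) y₂
    hC₂ (fun t ht => (n₂ t (s₂ t ht)).2.2)
    (fun t ht z hz hlt => hP.tan (fun t => (exp t)⁻¹) (fun t => z * eF D T a₂ a₁ t) _ t
      ((hasDerivAt_exp t).inv (exp_ne_zero t))
      (((hasDerivAt_eF h₂ hne.symm (n₂ t (s₂ t ht)).1).const_mul z).congr_deriv (by
        have k := al_inv (D := D) (inv_ne_zero (exp_ne_zero t)) (sub_ne_zero.2 (o₂ t ht).1.symm)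
          fun a ha => den_ne (o₂ t ht) ha
        rw [inv_inv] at k
        rw [k]
        field_simp)) (o₂ t ht) (mul_ne_zero hz (exp_ne_zero _)) hlt)
    fun t ht t' ht' ζ ζ' k1 k2 k3 e => (hP.inj _ (o₂ t ht) _ (o₂ t' ht') ζ ζ' k1 k2 k3 e).imp_left
      inv_injective.eq_iff.1
  have h0δ : ‖(0 : ℂ)‖ < δ := by simpa using hδ
  have hl₁ : lam D a₁ ≠ 0 := fun e => lam_im Hy r₁ (by simp [e])
  have hl₂ : lam D a₂ ≠ 0 := fun e => lam_im Hy r₂ (by simp [e])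
  have m₁ : ∀ m : ℕ, x + m * ((e₁ * (2 * Real.pi) : ℝ) * I) + 0 ∈ Sec (lam D a₁) x δ := fun m =>
    mem_sec (y := m * ((e₁ * (2 * Real.pi) : ℝ) * I)) hl₁ (by simp) (by
      rw [mul_left_comm, ← ofReal_natCast, re_ofReal_mul]
      exact mul_nonpos_of_nonneg_of_nonpos (Nat.cast_nonneg m) he₁'.le) (by simpa using hδ)
  have m₂ : ∀ m : ℕ, x' + m * ((e₂ * (2 * Real.pi) : ℝ) * I) + 0 ∈ Sec (lam D a₂) x' δ := fun m =>
    mem_sec (y := m * ((e₂ * (2 * Real.pi) : ℝ) * I)) hl₂ (by simp) (by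
      rw [mul_left_comm, ← ofReal_natCast, re_ofReal_mul]
      exact mul_nonpos_of_nonneg_of_nonpos (Nat.cast_nonneg m) he₂'.le) (by simpa using hδ)
  have i₁ := j3 (0, 0) t₁ ht₁ (by simpa [J] using hΛ)
  have i₂ := (cu₂ {0} fun n hn => by
    obtain rfl : n = 0 := hn
    have := (i₁ _ (hxU' 0 h0δ)).2
    rw [← c2 0 0 0 h0δ] at this
    simpa using this).1 0 rfl
  have i₃ : ∀ n, ∀ t ∈ U, Tn (W D.F1 D.F2) Λ (J (0, n)) t := fun n =>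
    j3 _ _ (hxU' 0 h0δ) (by rw [← c2 0 n 0 h0δ]; exact (i₂ _ (m₂ n)).2)
  have i₄ := (cu₁ univ fun n _ => by
    have := (i₃ n _ (hxU 0 h0δ)).2
    rw [← c1 0 n 0] at this
    simpa only [Nat.cast_zero, zero_mul, add_zero] using this).2 rfl
  have i₅ : ∀ j, ∀ t ∈ U, Tn (W D.F1 D.F2) Λ (J j) t := fun j =>
    j3 _ _ (hxU 0 h0δ) (by rw [← c1 j.1 j.2 0]; exact (i₄.tn j.2 _ (m₁ j.1)).2)
  have i₆ := (cu₂ univ fun m _ => by
    have := (i₅ (m, 0) _ (hxU' 0 h0δ)).2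
    rw [← c2 m 0 0 h0δ] at this
    simpa only [Nat.cast_zero, zero_mul, add_zero] using this).2 rfl
  refine transient H i₄ i₆ (J := J) (x := x) (D := (2 * X : ℝ)) (by simpa using hX.ne') hδ
    (by rw [tube_eq]; exact i₅) ?_ (fun m n t _ => c1 m n t) c2 fun R => ?_
  · rw [tube_eq]
    intro j j' t ht t' ht' e
    obtain ⟨e1, e2⟩ := hP.inj _ (hK t ht) _ (hK t' ht') _ _ (mul_ne_zero (j0 j) (eF_ne _))
      (j2 j t ht) (j2 j' t' ht') e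
    obtain ⟨k, rfl⟩ := exp_eq_exp_iff_exists_int.1 e1
    obtain rfl : k = 0 := by
      have k1 := abs_lt.1 (hUs _ (hUc ht))
      have k2 := abs_lt.1 (hUs _ (hUc ht'))
      simp at k1
      have k3 : |(k : ℝ)| < 1 := abs_lt.2 ⟨by nlinarith [Real.pi_gt_three],
        by nlinarith [Real.pi_gt_three]⟩
      exact Int.abs_lt_one_iff.1 (by exact_mod_cast k3)
    simp only [Int.cast_zero, zero_mul, add_zero] at e2 ⊢
    rw [mul_left_inj' (eF_ne _), mul_assoc, mul_assoc, mul_right_inj' hy0,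
      ← exp_add, ← exp_add, exp_eq_exp_iff_exp_sub_eq_one] at e2
    obtain ⟨e3, e4⟩ := indep hind (m := (j.1 - j'.1) * e₁) (n := (j.2 - j'.2) * e₂) (by
      rw [← e2, hω₁, hω₂]; congr 1; push_cast; ring)
    have := (mul_eq_zero.1 e3).resolve_right he₁
    have := (mul_eq_zero.1 e4).resolve_right he₂
    exact ⟨Prod.ext (by omega) (by omega), trivial⟩
  · have k1 : ‖exp ω₁‖ < 1 := by rwa [norm_exp, Real.exp_lt_one_iff]
    obtain ⟨N₀, hN₀⟩ := exists_pow_lt_of_lt_one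
      (show 0 < 1 / (2 * (b * (|R| + 1))) by positivity) k1
    refine ⟨N₀, fun m n hm t ht => lt_of_lt_of_le ?_ (hP.far _ (hK _ (hxU t ht)) _
      (mul_ne_zero (j0 (m, n)) (eF_ne _)) (j2 (m, n) _ (hxU t ht)))⟩
    have k2 := j1 (m, n) _ (hxU t ht)
    have k3 : ‖exp (m * ω₁)‖ ≤ ‖exp ω₁‖ ^ N₀ := by
      rw [exp_nat_mul, norm_pow]
      exact pow_le_pow_of_le_one (norm_nonneg _) k1.le hm
    have k4 := norm_pos_iff.2 (mul_ne_zero (j0 (m, n)) (eF_ne (D := D) (T := T) (a₁ := a₁)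
      (a₂ := a₂) (x + t)))
    rw [lt_div_iff₀ (by positivity)] at hN₀
    rw [← one_div, lt_div_iff₀ (mul_pos two_pos k4)]
    have k5 : ‖y‖ * |C₃| * ‖exp (m * ω₁)‖ ≤ b * ‖exp ω₁‖ ^ N₀ := by gcongr
    have k6 := mul_le_mul_of_nonneg_left (k2.trans k5) (show 0 ≤ |R| + 1 by positivity)
    nlinarith [le_abs_self R]

end Pool.Agent.P.MP_a31c1c_an.Inf
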