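import Pool.Agent.P.MP_a31c1c_an.InfLog
import Pool.Agent.P.MP_a31c1c_an.InfPar
import Pool.Agent.P.MP_a31c1c_an.InfTrans

/-!
The classification of parabolic non-algebraic leaves.
-/

set_option autoImplicit false

namespace Pool.Agent.P.MP_a31c1c_an.Inf

open MvPolynomial Metric Filter Topology Set AlgAux

/-- A Darboux first integral `(A / B) (C / D) ^ (-ν)` in homogeneous coordinates. -/
def Exc (F : Fin 3 → MP) : Prop :=
  ∃ (ν : ℂ) (a c : ℕ) (A B C D KA KB KC KD : MP), ν.im ≠ 0 ∧ A.IsHomogeneous a ∧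
    B.IsHomogeneous a ∧ C.IsHomogeneous c ∧ D.IsHomogeneous c ∧
    ∑ i, F i * pderiv i A = KA * A ∧ ∑ i, F i * pderiv i B = KB * B ∧
    ∑ i, F i * pderiv i C = KC * C ∧ ∑ i, F i * pderiv i D = KD * D ∧
    KA - KB = MvPolynomial.C ν * (KC - KD) ∧ ∃ z : E, z 0 = 1 ∧ eval z (Jac A B C D) ≠ 0

variable {d : ℕ} {F : Fin 3 → MP} {G F1 F2 : MP} {p : E}

theorem Dec.der (D : Dec d F G F1 F2) {H : MP} {n : ℕ} (h : H.IsHomogeneous n) :
    ∑ i, F i * pderiv i H = Dw F1 F2 H + n * G * H := by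
  have := h.sum_X_mul_pderiv
  rw [Fin.sum_univ_three, nsmul_eq_mul] at this
  rw [Fin.sum_univ_three, D.hG, D.hF1, D.hF2, Dw]
  linear_combination G * this

theorem Dec.exc (D : Dec d F G F1 F2) : Exc F ↔ Exw F1 F2 := by
  constructor
  · rintro ⟨ν, a, c, A, B, C, D', KA, KB, KC, KD, hν, hA, hB, hC, hD, h1, h2, h3, h4, h5, hJ⟩
    exact ⟨ν, a, c, A, B, C, D', KA - a * G, KB - a * G, KC - c * G, KD - c * G, hν, hA, hB, hC, hD,
      ⟨by linear_combination h1 - D.der hA, by linear_combination h2 - D.der hB,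
        by linear_combination h3 - D.der hC, by linear_combination h4 - D.der hD,
        by linear_combination h5⟩, hJ⟩
  · rintro ⟨ν, a, c, A, B, C, D', KA, KB, KC, KD, hν, hA, hB, hC, hD, ⟨h1, h2, h3, h4, h5⟩, hJ⟩
    exact ⟨ν, a, c, A, B, C, D', KA + a * G, KB + a * G, KC + c * G, KD + c * G, hν, hA, hB, hC, hD,
      by linear_combination h1 + D.der hA, by linear_combination h2 + D.der hB,
      by linear_combination h3 + D.der hC, by linear_combination h4 + D.der hD,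
      by linear_combination h5, hJ⟩

theorem proj_or (hd : 1 ≤ d) (hF : ∀ i, (F i).IsHomogeneous d)
    (hS : ∃ S : Finset E, ∀ z, SingP (VP F) z → ∃ s ∈ S, ∃ t : ℂ, z = t • s)
    (hinv : ∀ z : E, z 0 = 0 → VP F z 0 = 0) (heig : EigI d F) (htop : ¬ SingP (VP F) ![0, 0, 1])
    (h0 : p ≠ 0) (hp : ¬ SingP (VP F) p) (hna : NA F p) : Concl (VP F) p ∨ Exc F := by
  obtain ⟨G, F1, F2, D⟩ := exists_dec hd hF hinv
  have Hy := D.hyq heig htop
  have H := D.leaf h0 hp hna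
  obtain ⟨a, ha, h⟩ := D.accum Hy hS h0 hp hna
  by_cases hf : ∃ Φ, Fac d F1 F2 Φ
  swap
  · exact Or.inl (D.concl h0 hp hna (coreq Hy hf H ha h))
  obtain ⟨Φ, hΦ, hres, hG⟩ := hf
  obtain ⟨B, hB⟩ := X0_dvd ((RR_homq Hy).sub hΦ) (by rw [res_sub, hres, sub_self])
  let T : Dat := ⟨d, 1, F1, F2, Φ, B, 0, le_rfl, Hy.h1, Hy.h2, hΦ, hB, by rw [mul_zero]; exact hG⟩
  by_cases hr : ∀ a₁ a₂, T.R.eval a₁ = 0 → T.R.eval a₂ = 0 →
      ∃ m n k : ℤ, m * lam T a₁ + n * lam T a₂ = k ∧ ¬ (m = 0 ∧ n = 0)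
  · exact Or.inr (D.exc.2 (log_case (D := T) Hy rfl hr))
  · push Not at hr
    obtain ⟨a₁, a₂, r₁, r₂, hr⟩ := hr
    exact Or.inl (D.concl h0 hp hna (rank_three (D := T) Hy rfl H ha h r₁ r₂ hr))

theorem shP_shP (c : ℂ) (H : MP) : shP c (shP (-c) H) = H :=
  MvPolynomial.funext fun z => by rw [eval_shP, eval_shP, sh_neg]

theorem exc_shear (c : ℂ) (h : Exc (shF c F)) : Exc F := by
  obtain ⟨ν, a, e, A, B, C, D, KA, KB, KC, KD, hν, hA, hB, hC, hD, h1, h2, h3, h4, h5, z, hz, hJ⟩ := h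
  have k : ∀ {H K : MP}, ∑ i, shF c F i * pderiv i H = K * H →
      ∑ i, F i * pderiv i (shP (-c) H) = shP (-c) K * shP (-c) H := fun {H K} h =>
    MvPolynomial.funext fun y => by
      have := congrArg (eval (sh (-c) y)) h
      simp [Fin.sum_univ_three, shF, eval_shP, sh_neg', pderiv_shP, sh0, sh1, sh2] at this ⊢
      linear_combination this
  refine ⟨ν, a, e, _, _, _, _, _, _, _, _, hν, shP_hom (-c) hA, shP_hom (-c) hB, shP_hom (-c) hC,
    shP_hom (-c) hD, k h1, k h2, k h3, k h4, MvPolynomial.funext fun y => ?_, sh c z,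
    by rw [sh0, hz], fun k => hJ ?_⟩
  · simpa [eval_shP] using congrArg (eval (sh (-c) y)) h5
  · simp [Jac, Fin.sum_univ_three, eval_shP, sh_neg, pderiv_shP, sh0, sh1, sh2] at k ⊢
    linear_combination k

theorem main_or (hd : 1 ≤ d) (hF : ∀ i, (F i).IsHomogeneous d)
    (hS : ∃ S : Finset E, ∀ z, SingP (VP F) z → ∃ s ∈ S, ∃ t : ℂ, z = t • s)
    (hinv : ∀ z : E, z 0 = 0 → VP F z 0 = 0) (heig : EigI d F)
    (h0 : p ≠ 0) (hp : ¬ SingP (VP F) p) (hna : NA F p) : Concl (VP F) p ∨ Exc F := by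
  classical
  obtain ⟨S, hS⟩ := hS
  obtain ⟨c, hc⟩ : ∃ c : ℂ, ¬ SingP (VP F) ![0, c, 1] := by
    obtain ⟨c, hc⟩ := Infinite.exists_notMem_finset (S.image fun s : E => s 1 / s 2)
    refine ⟨c, fun h => hc ?_⟩
    obtain ⟨s, hs, t, e⟩ := hS _ h
    have e1 : c = t * s 1 := by simpa using congrFun e 1
    have e2 : 1 = t * s 2 := by simpa using congrFun e 2
    have e3 : s 2 ≠ 0 := fun h => by simp [h] at e2
    refine Finset.mem_image.2 ⟨s, hs, ?_⟩
    rw [div_eq_iff e3]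
    linear_combination s 1 * e2 - s 2 * e1
  have hV := VP_shF c F
  have hs := fun z => SingP.map (z := z) (sh_neg c) hV
  rw [← sh_neg' c p] at hp hna ⊢
  refine Or.imp (Concl.map (sh_neg c) (sh_neg' c) hV) (exc_shear c) (proj_or hd (fun i => ?_)
    ⟨S.image (sh (-c)), fun z hz => ?_⟩ (fun z hz => ?_) (fun a e ha ha0 he => ?_) (fun h => hc ?_)
    (fun h => h0 ?_) (fun h => hp ((hs _).2 h)) ?_)
  · fin_cases i
    · exact shP_hom c (hF 0)
    · exact (shP_hom c (hF 1)).sub ((shP_hom c (hF 2)).C_mul c)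
    · exact shP_hom c (hF 2)
  · obtain ⟨s, hs, t, e⟩ := hS _ ((hs z).2 hz)
    exact ⟨_, Finset.mem_image_of_mem _ hs, t, by rw [← map_smul, ← e, sh_neg]⟩
  · rw [← sh0 c (VP (shF c F) z), ← hV]
    exact hinv _ (by rw [sh0, hz])
  · obtain ⟨ν₁, ν₂, hν, him⟩ := heig (sh c a) e
      (fun h => ha (by rw [← sh_neg c a, h, map_zero])) (by rw [sh0, ha0]) (by rw [hV, he, map_smul])
    refine ⟨ν₁, ν₂, fun x => ?_, him⟩
    rw [← hν x, Matrix.det_fin_three, Matrix.det_fin_three]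
    simp [shF, pderiv_shP, Fin.sum_univ_three, sh0, sh1, sh2]
    ring
  · have : sh c ![0, 0, 1] = ![0, c, 1] := by
      ext i
      fin_cases i <;> simp [sh0, sh1, sh2]
    rw [← this]
    exact (hs _).2 h
  · rw [← sh_neg' c p, h, map_zero]
  · rintro ⟨k, P, hk, hP, hP0, h⟩
    refine hna ⟨k, shP (-c) P, hk, shP_hom _ hP, fun e => hP0 (MvPolynomial.funext fun z => ?_),
      fun q hq => ?_⟩
    · rw [← sh_neg c z, ← eval_shP, e, map_zero, map_zero]
    · rw [eval_shP]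
      refine h _ ?_
      have hV' : ∀ z, VP (shF c F) (sh (-c) z) = sh (-c) (VP F z) := fun z => by
        conv_rhs => rw [← sh_neg' c z, hV, sh_neg]
      simpa only [sh_neg] using hq.map (sh_neg' c) hV'

theorem not_concl (hd : 1 ≤ d) (hF : ∀ i, (F i).IsHomogeneous d)
    (hinv : ∀ z : E, z 0 = 0 → VP F z 0 = 0) (h0 : p ≠ 0) (hp : ¬ SingP (VP F) p) (hna : NA F p)
    (h : Exc F) : ¬ Concl (VP F) p := by
  obtain ⟨G, F1, F2, D⟩ := exists_dec hd hF hinv
  obtain ⟨ν, a, c, A, B, C, D', KA, KB, KC, KD, hν, hA, hB, hC, hD, P, hJ⟩ := D.exc.1 h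
  rintro ⟨u, ⟨M, hM⟩, h1, h2, q₁, q₂, k1, k2, k3⟩
  have hn := D.hnorm h0 hp hna
  obtain ⟨S, hS⟩ := parab (D.leaf h0 hp hna) (fun z hz => hz.2) (fun Q n hQ h => by
    by_contra k
    refine hna ⟨1 + n, X 0 * Q, by omega, (isHomogeneous_X ℂ 0).mul hQ,
      mul_ne_zero (X_ne_zero 0) k, fun q hq => ?_⟩
    have := h _ (hn q hq)
    rw [eval_smul_of_hom hQ] at this
    rw [map_mul, (mul_eq_zero.1 this).resolve_left (pow_ne_zero _ (inv_ne_zero (D.hL0 hna q hq))),
      mul_zero]) P hν D.h1 D.h2 hA hB hC hD hJ (u := u) (M := M) (fun z hz => hM z hz.1)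
    fun Γ a ρ hΓ hΛ => by
      rcases le_or_gt ρ 0 with hρ | hρ
      · rw [SH, ball_eq_empty.2 hρ]
        exact ⟨fun x hx => absurd hx (notMem_empty x), fun z r hr hz =>
          absurd (hz (mem_closedBall_self hr.le)) (notMem_empty z)⟩
      have hρ' : (ρ : ℂ) ≠ 0 := by exact_mod_cast hρ.ne'
      have b1 : ∀ x ∈ ball (0 : ℂ) 1, a + ρ * x ∈ ball a ρ := fun x hx => by
        rw [mem_ball, dist_self_add_left, norm_mul, Complex.norm_real, Real.norm_of_nonneg hρ.le]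
        exact mul_lt_of_lt_one_right hρ (mem_ball_zero_iff.1 hx)
      have b2 : ∀ x y : ℂ, ‖(x - a) / ρ - (y - a) / ρ‖ = ‖x - y‖ / ρ := fun x y => by
        rw [← sub_div, sub_sub_sub_cancel_right, norm_div, Complex.norm_real,
          Real.norm_of_nonneg hρ.le]
      have b3 : ∀ x : ℂ, a + ρ * ((x - a) / ρ) = x := fun x => by field_simp; ring
      have b4 : ∀ x ∈ ball (0 : ℂ) 1, ∃ κ : ℂ, HasDerivAt (fun x => Γ (a + ρ * x))
          (κ • W F1 F2 (Γ (a + ρ * x))) x := fun x hx => by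
        obtain ⟨-, κ, hκ⟩ := hΓ _ (b1 x hx)
        exact ⟨ρ * κ, (hκ.scomp x (((hasDerivAt_id x).const_mul (ρ : ℂ)).const_add a)).congr_deriv
          (by rw [mul_one, smul_smul])⟩
      obtain ⟨s1, s2⟩ := h2 (fun x => Γ (a + ρ * x)) ⟨fun x hx => by
          obtain ⟨κ, hκ⟩ := b4 x hx
          exact hκ.differentiableAt.differentiableWithinAt, fun x hx => by
          obtain ⟨κ, hκ⟩ := b4 x hx
          obtain ⟨r1, r2⟩ := (hΛ _ (b1 x hx)).1.reg hF h0 hp
          refine ⟨r1, r2, -(κ * eval (Γ (a + ρ * x)) G), κ, ?_⟩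
          rw [hκ.deriv, D.hV, smul_add, smul_smul, neg_smul]
          abel⟩ fun x hx => (hΛ _ (b1 x hx)).1
      refine ⟨?_, fun z r hr hz => ?_⟩
      · have := s1.comp (g := fun x : ℂ => (x - a) / ρ) (t := ball a ρ) (by fun_prop) fun x hx => by
          have := b2 x a
          rw [sub_self, zero_div, sub_zero] at this
          rw [mem_ball_zero_iff, this, div_lt_one hρ]
          exact mem_ball_iff_norm.1 hx
        simpa only [Function.comp_def, b3] using this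
      · have := s2 ((z - a) / ρ) (r / ρ) (by positivity) fun x hx => by
          have k := hz (show a + ρ * x ∈ closedBall z r by
            rw [mem_closedBall_iff_norm] at hx ⊢
            rw [← div_le_div_iff_of_pos_right hρ, ← b2, add_sub_cancel_left,
              mul_div_cancel_left₀ _ hρ']
            exact hx)
          rw [mem_ball, dist_self_add_left, norm_mul, Complex.norm_real,
            Real.norm_of_nonneg hρ.le] at k
          exact mem_ball_zero_iff.2 (by nlinarith)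
        have b5 : ∀ θ, a + ρ * circleMap ((z - a) / ρ) (r / ρ) θ = circleMap z r θ := fun θ => by
          simp only [circleMap]
          push_cast
          field_simp
          ring
        simpa only [b3, b5] using this
  exact k3 (by rw [← h1 q₁ k1 _ (inv_ne_zero (D.hL0 hna _ k1)), hS _ (hn _ k1),
    ← h1 q₂ k2 _ (inv_ne_zero (D.hL0 hna _ k2)), hS _ (hn _ k2)])

theorem main_iff (hd : 1 ≤ d) (hF : ∀ i, (F i).IsHomogeneous d)
    (hS : ∃ S : Finset E, ∀ z, SingP (VP F) z → ∃ s ∈ S, ∃ t : ℂ, z = t • s)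
    (hinv : ∀ z : E, z 0 = 0 → VP F z 0 = 0) (heig : EigI d F)
    (h0 : p ≠ 0) (hp : ¬ SingP (VP F) p) (hna : NA F p) : ¬ Concl (VP F) p ↔ Exc F :=
  ⟨(main_or hd hF hS hinv heig h0 hp hna).resolve_left, not_concl hd hF hinv h0 hp hna⟩

end Pool.Agent.P.MP_a31c1c_an.Inf
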