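import Pool.Agent.P.MP_a31c1c_an.Defs

/-!
Leaves of a holomorphic vector field: flow charts, tangent curves, a countable atlas.
-/

set_option autoImplicit false

namespace Pool.Agent.P.MP_a31c1c_an

open Metric Set Filter Topology

/-- `γ` solves the equation of `v` on the disc of radius `r`. -/
def Sol (v : E → E) (γ : ℂ → E) (r : ℝ) : Prop :=
  ∀ t ∈ ball (0 : ℂ) r, HasDerivAt γ (v (γ t)) t

/-- `Γ` is tangent to `v` near `t`. -/
def TG (v : E → E) (Γ : ℂ → E) (t : ℂ) : Prop :=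
  ∀ᶠ s in 𝓝 t, ∃ κ : ℂ, HasDerivAt Γ (κ • v (Γ s)) s

/-- `Γ` is tangent to `v` on a disc and avoids the zeros of `v`. -/
def TC (v : E → E) (Γ : ℂ → E) (a : ℂ) (ρ : ℝ) : Prop :=
  ∀ t ∈ ball a ρ, v (Γ t) ≠ 0 ∧ ∃ κ : ℂ, HasDerivAt Γ (κ • v (Γ t)) t

/-- An injective solution on a disc. -/
def Chart (v : E → E) (ψ : ℂ → E) (r : ℝ) : Prop :=
  0 < r ∧ Sol v ψ r ∧ InjOn ψ (ball 0 r)

/-- `Λ` is the leaf of `v` through `p`. -/
structure IsLeaf (v : E → E) (Λ : Set E) (p : E) : Prop where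
  smooth : ContDiff ℂ 1 v
  base : p ∈ Λ
  ne : ∀ z ∈ Λ, v z ≠ 0
  inv : ∀ Γ a ρ, TC v Γ a ρ → ∀ s ∈ ball a ρ, ∀ t ∈ ball a ρ, Γ s ∈ Λ → Γ t ∈ Λ
  gen : ∀ Ω : Set E, p ∈ Ω → (∀ Γ a ρ, TC v Γ a ρ → ∀ s ∈ ball a ρ, ∀ t ∈ ball a ρ,
    Γ s ∈ Λ → Γ s ∈ Ω → Γ t ∈ Ω) → Λ ⊆ Ω

variable {v : E → E} {Λ : Set E} {p : E}

theorem TC.tg {Γ : ℂ → E} {a : ℂ} {ρ : ℝ} (h : TC v Γ a ρ) {t : ℂ} (ht : t ∈ ball a ρ) :
    TG v Γ t := by
  filter_upwards [isOpen_ball.mem_nhds ht] with s hs using (h s hs).2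

theorem TC.continuousOn {Γ : ℂ → E} {a : ℂ} {ρ : ℝ} (h : TC v Γ a ρ) :
    ContinuousOn Γ (ball a ρ) := fun t ht => by
  obtain ⟨_, κ, hκ⟩ := h t ht
  exact hκ.continuousAt.continuousWithinAt

theorem Sol.tg {γ : ℂ → E} {r : ℝ} (h : Sol v γ r) {t : ℂ} (ht : t ∈ ball (0 : ℂ) r) :
    TG v γ t := by
  filter_upwards [isOpen_ball.mem_nhds ht] with s hs using ⟨1, by simpa using h s hs⟩

theorem Sol.continuousOn {γ : ℂ → E} {r : ℝ} (h : Sol v γ r) : ContinuousOn γ (ball 0 r) :=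
  fun t ht => (h t ht).continuousAt.continuousWithinAt

theorem Sol.mono {γ : ℂ → E} {r r' : ℝ} (h : Sol v γ r) (hr : r' ≤ r) : Sol v γ r' :=
  fun t ht => h t (ball_subset_ball hr ht)

theorem add_mem_ball {s t : ℂ} {r : ℝ} (ht : t ∈ ball (0 : ℂ) (r - ‖s‖)) :
    s + t ∈ ball (0 : ℂ) r := by
  rw [mem_ball_zero_iff] at ht ⊢
  linarith [norm_add_le s t]

theorem Sol.shift {γ : ℂ → E} {r : ℝ} (h : Sol v γ r) (s : ℂ) :
    Sol v (fun t => γ (s + t)) (r - ‖s‖) := fun t ht =>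
  HasDerivAt.comp_const_add s t (h _ (add_mem_ball ht))

theorem Chart.shift {ψ : ℂ → E} {r : ℝ} (h : Chart v ψ r) {s : ℂ} (hs : s ∈ ball (0 : ℂ) r) :
    Chart v (fun t => ψ (s + t)) (r - ‖s‖) :=
  ⟨sub_pos.2 (mem_ball_zero_iff.1 hs), h.2.1.shift s, fun _ ha _ hb hab =>
    add_left_cancel (h.2.2 (add_mem_ball ha) (add_mem_ball hb) hab)⟩

theorem Chart.mono {ψ : ℂ → E} {r r' : ℝ} (h : Chart v ψ r) (h0 : 0 < r') (hr : r' ≤ r) :
    Chart v ψ r' :=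
  ⟨h0, h.2.1.mono hr, h.2.2.mono (ball_subset_ball hr)⟩

theorem Sol.ne_zero (hv : ContDiff ℂ 1 v) {γ : ℂ → E} {r : ℝ} (h : Sol v γ r) {s t : ℂ}
    (hs : s ∈ ball (0 : ℂ) r) (ht : t ∈ ball (0 : ℂ) r) (h0 : v (γ s) ≠ 0) : v (γ t) ≠ 0 := by
  intro h1
  have := unique_ball (v := v) (f := γ) (g := fun _ => γ t) hv.contDiffAt h
    (fun u _ => by simpa [h1] using hasDerivAt_const u (γ t)) ht rfl hs
  exact h0 (by rw [this]; exact h1)

theorem Sol.tc (hv : ContDiff ℂ 1 v) {γ : ℂ → E} {r : ℝ} (h : Sol v γ r) {s : ℂ}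
    (hs : s ∈ ball (0 : ℂ) r) (h0 : v (γ s) ≠ 0) : TC v γ 0 r :=
  fun t ht => ⟨h.ne_zero hv hs ht h0, 1, by simpa using h t ht⟩

theorem IsLeaf.sol_mem (H : IsLeaf v Λ p) {γ : ℂ → E} {r : ℝ} (h : Sol v γ r) {s t : ℂ}
    (hs : s ∈ ball (0 : ℂ) r) (ht : t ∈ ball (0 : ℂ) r) (h0 : γ s ∈ Λ) : γ t ∈ Λ :=
  H.inv γ 0 r (h.tc H.smooth hs (H.ne _ h0)) s hs t ht h0

/-- Two solutions through the same point differ by a translation of time. -/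
theorem Sol.eventually_eq (hv : ContDiff ℂ 1 v) {γ γ' : ℂ → E} {r r' : ℝ} (h : Sol v γ r)
    (h' : Sol v γ' r') {s s' : ℂ} (hs : s ∈ ball (0 : ℂ) r) (hs' : s' ∈ ball (0 : ℂ) r')
    (e : γ s = γ' s') :
    EqOn (fun t => γ (s + t)) (fun t => γ' (s' + t)) (ball 0 (min (r - ‖s‖) (r' - ‖s'‖))) := by
  have h1 : 0 < r - ‖s‖ := sub_pos.2 (mem_ball_zero_iff.1 hs)
  have h2 : 0 < r' - ‖s'‖ := sub_pos.2 (mem_ball_zero_iff.1 hs')
  exact unique_ball (v := v) (t₀ := 0) hv.contDiffAt ((h.shift s).mono (min_le_left _ _))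
    ((h'.shift s').mono (min_le_right _ _)) (mem_ball_self (lt_min h1 h2)) (by simpa using e)

theorem exists_chart (hv : ContDiff ℂ 1 v) {z : E} (hz : v z ≠ 0) :
    ∃ ψ r, ψ 0 = z ∧ Chart v ψ r := by
  obtain ⟨a, r, K, ha, hr, -, -, H⟩ := exists_sol (z₀ := z) hv.contDiffAt univ_mem
  obtain ⟨ψ, h0, hψ⟩ := H z (mem_closedBall_self (by positivity))
  have hc : ContinuousAt (fun t => v (ψ t)) 0 :=
    hv.continuous.continuousAt.comp (hψ 0 (mem_ball_self hr)).1.continuousAt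
  have hn : 0 < ‖v z‖ / 2 := by have := norm_pos_iff.2 hz; positivity
  obtain ⟨δ, hδ, hδ'⟩ := Metric.continuousAt_iff.1 hc _ hn
  refine ⟨ψ, min r δ, h0, lt_min hr hδ, fun t ht => (hψ t (ball_subset_ball (min_le_left _ _) ht)).1,
    fun s hs t ht e => ?_⟩
  have := (convex_ball (0 : ℂ) (min r δ)).norm_image_sub_le_of_norm_hasDerivWithin_le
    (f := fun t => ψ t - t • v z) (f' := fun t => v (ψ t) - v z) (C := ‖v z‖ / 2)
    (fun t ht => by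
      have h1 := (hψ t (ball_subset_ball (min_le_left _ _) ht)).1
      have h2 : HasDerivAt (fun t : ℂ => t • v z) (v z) t := by
        simpa using (hasDerivAt_id t).smul_const (v z)
      exact (h1.sub h2).hasDerivWithinAt)
    (fun t ht => by
      have := hδ' (x := t) (ball_subset_ball (min_le_right _ _) ht)
      rw [h0, dist_eq_norm] at this
      exact this.le) hs ht
  have h3 : ψ t - t • v z - (ψ s - s • v z) = -((t - s) • v z) := by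
    rw [e, sub_smul]; abel
  rw [h3, norm_neg, norm_smul] at this
  have h4 : ‖t - s‖ = 0 := by nlinarith [norm_nonneg (t - s)]
  exact (sub_eq_zero.1 (norm_eq_zero.1 h4)).symm

/-- A tangent curve is locally a solution composed with a holomorphic change of time. -/
theorem factor (hv : ContDiff ℂ 1 v) {Γ ψ : ℂ → E} {t₀ s₀ : ℂ} {r : ℝ} (hΓ : TG v Γ t₀)
    (h0 : v (Γ t₀) ≠ 0) (hψ : Sol v ψ r) (hs₀ : s₀ ∈ ball (0 : ℂ) r) (e : ψ s₀ = Γ t₀) :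
    ∃ τ : ℂ → ℂ, AnalyticAt ℂ τ t₀ ∧ τ t₀ = s₀ ∧ Γ =ᶠ[𝓝 t₀] fun t => ψ (τ t) := by
  obtain ⟨i, hi⟩ : ∃ i, v (Γ t₀) i ≠ 0 := Function.ne_iff.1 h0
  have hd : ∀ᶠ t in 𝓝 t₀, DifferentiableAt ℂ Γ t := by
    filter_upwards [hΓ] with t ⟨κ, hκ⟩ using hκ.differentiableAt
  have ha : AnalyticAt ℂ Γ t₀ := Complex.analyticAt_iff_eventually_differentiableAt.2 hd
  have hva : AnalyticAt ℂ (fun t => v (Γ t) i) t₀ := by
    refine Complex.analyticAt_iff_eventually_differentiableAt.2 ?_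
    filter_upwards [hd] with t ht
    exact differentiableAt_pi.1 ((hv.differentiable (by simp) _).comp t ht) i
  have hda : AnalyticAt ℂ (fun t => deriv Γ t i) t₀ := by
    refine Complex.analyticAt_iff_eventually_differentiableAt.2 ?_
    filter_upwards [ha.deriv.eventually_analyticAt] with t ht
    exact differentiableAt_pi.1 ht.differentiableAt i
  let κ : ℂ → ℂ := fun t => deriv Γ t i / v (Γ t) i
  have hκ : AnalyticAt ℂ κ t₀ := hda.div hva hi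
  have hne : ∀ᶠ t in 𝓝 t₀, v (Γ t) i ≠ 0 := hva.continuousAt.eventually_ne hi
  have hΓ' : ∀ᶠ t in 𝓝 t₀, HasDerivAt Γ (κ t • v (Γ t)) t := by
    filter_upwards [hΓ, hne] with t ⟨k, hk⟩ ht
    have : κ t = k := by
      simp only [κ, hk.deriv, Pi.smul_apply, smul_eq_mul]
      field_simp
    rw [this]; exact hk
  obtain ⟨δ, hδ, hδ'⟩ := Metric.eventually_nhds_iff_ball.1 hκ.eventually_analyticAt
  have h1 : DifferentiableOn ℂ κ (ball t₀ δ) := fun t ht =>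
    (hδ' t ht).differentiableAt.differentiableWithinAt
  obtain ⟨τ, hτ0, hτ⟩ := h1.isExactOn_ball.with_val_at t₀ s₀
  have hτ' : ∀ᶠ t in 𝓝 t₀, HasDerivAt τ (κ t) t := by
    filter_upwards [ball_mem_nhds t₀ hδ] with t ht using hτ t ht
  refine ⟨τ, Complex.analyticAt_iff_eventually_differentiableAt.2
    (hτ'.mono fun t ht => ht.differentiableAt), hτ0, ?_⟩
  have h2 : ∀ᶠ t in 𝓝 t₀, τ t ∈ ball (0 : ℂ) r :=
    hτ'.self_of_nhds.continuousAt (isOpen_ball.mem_nhds (hτ0 ▸ hs₀))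
  refine unique_local (κ := κ) hv.contDiffAt hκ.continuousAt hΓ' ?_ (by simp [hτ0, e])
  filter_upwards [hτ', h2] with t ht ht2
  exact HasDerivAt.scomp t (hψ _ ht2) ht

/-- A leaf is covered by countably many flow charts. -/
theorem IsLeaf.exists_atlas (H : IsLeaf v Λ p) :
    ∃ (ψ : ℕ → ℂ → E) (r : ℕ → ℝ), (∀ i, Chart v (ψ i) (r i) ∧ ψ i 0 ∈ Λ ∧ Measurable (ψ i)) ∧
      ∀ z ∈ Λ, ∃ i, ∃ t ∈ ball (0 : ℂ) (r i), ψ i t = z := by
  classical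
  have hv := H.smooth
  have big : ∀ z : E, ∃ (ψ : ℂ → E) (r : ℝ), z ∈ Λ → ψ 0 = z ∧ Chart v ψ r ∧ Measurable ψ ∧
      ∀ ψ' r', ψ' 0 = z → Chart v ψ' r' → r' ≤ 1 → r' / 2 < r := by
    intro z
    by_cases hz : z ∈ Λ
    swap
    · exact ⟨0, 0, fun h => absurd h hz⟩
    let T : Set ℝ := {r | r ≤ 1 ∧ ∃ ψ, ψ 0 = z ∧ Chart v ψ r}
    have hb : BddAbove T := ⟨1, fun r hr => hr.1⟩
    obtain ⟨ψ₀, r₀, h0, hc⟩ := exists_chart hv (H.ne z hz)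
    have hm : min r₀ 1 ∈ T :=
      ⟨min_le_right _ _, ψ₀, h0, hc.mono (lt_min hc.1 one_pos) (min_le_left _ _)⟩
    have hpos : 0 < sSup T := (lt_min hc.1 one_pos).trans_le (le_csSup hb hm)
    obtain ⟨r, ⟨-, ψ, hψ0, hψ⟩, hr⟩ := exists_lt_of_lt_csSup ⟨_, hm⟩ (half_lt_self hpos)
    have heq : EqOn ((ball (0 : ℂ) r).piecewise ψ 0) ψ (ball 0 r) := piecewise_eqOn _ _ _
    refine ⟨(ball (0 : ℂ) r).piecewise ψ 0, r, fun _ => ⟨by rw [heq (mem_ball_self hψ.1), hψ0],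
      ⟨hψ.1, fun t ht => ?_, hψ.2.2.congr heq.symm⟩, ?_, fun ψ' r' h0' hc' h1 => ?_⟩⟩
    · rw [heq ht]
      exact (hψ.2.1 t ht).congr_of_eventuallyEq (heq.eventuallyEq_of_mem (isOpen_ball.mem_nhds ht))
    · exact hψ.2.1.continuousOn.measurable_piecewise continuousOn_const measurableSet_ball
    · have : r' ≤ sSup T := le_csSup hb ⟨h1, ψ', h0', hc'⟩
      linarith
  choose χ ρ hχ using big
  let q : ℕ → ℂ := TopologicalSpace.denseSeq ℂ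
  have hq : DenseRange q := TopologicalSpace.denseRange_denseSeq ℂ
  let pt : List ℕ → E := fun l =>
    l.foldr (fun n z => if q n ∈ ball (0 : ℂ) (ρ z) then χ z (q n) else z) p
  have hpt : ∀ l, pt l ∈ Λ := by
    intro l
    induction l with
    | nil => exact H.base
    | cons n l ih =>
      simp only [pt, List.foldr_cons]
      split_ifs with h
      · obtain ⟨h0, hc, -⟩ := hχ _ ih
        exact H.sol_mem hc.2.1 (mem_ball_self hc.1) h (h0.symm ▸ ih)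
      · exact ih
  let Ω : Set E := {z | ∃ l, ∃ t ∈ ball (0 : ℂ) (ρ (pt l)), χ (pt l) t = z}
  have claim : ∀ ψ r, Chart v ψ r → r ≤ 1 → ψ 0 ∈ Λ → ∀ s ∈ ball (0 : ℂ) (r / 4), ψ s ∈ Ω →
      ψ 0 ∈ Ω := by
    rintro ψ r hc h1 hΛ s hs ⟨l, t, ht, e⟩
    obtain ⟨-, hcl, -⟩ := hχ _ (hpt l)
    have hs4 : ‖s‖ < r / 4 := mem_ball_zero_iff.1 hs
    have hsr : s ∈ ball (0 : ℂ) r := ball_subset_ball (by linarith [hc.1]) hs
    have h2 := Sol.eventually_eq hv hcl.2.1 hc.2.1 ht hsr e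
    have ht' : 0 < ρ (pt l) - ‖t‖ := sub_pos.2 (mem_ball_zero_iff.1 ht)
    have hε : 0 < min (ρ (pt l) - ‖t‖) (r / 4 - ‖s‖) := lt_min ht' (by linarith)
    obtain ⟨n, hn⟩ := hq.exists_dist_lt t hε
    set τ := q n - t with hτ
    have hτ1 : ‖τ‖ < min (ρ (pt l) - ‖t‖) (r / 4 - ‖s‖) := by
      rw [hτ, ← dist_eq_norm, dist_comm]; exact hn
    have hτ2 := lt_of_lt_of_le hτ1 (min_le_left _ _)
    have hτ3 := lt_of_lt_of_le hτ1 (min_le_right _ _)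
    have hqn : t + τ = q n := by rw [hτ]; ring
    have hqb : q n ∈ ball (0 : ℂ) (ρ (pt l)) := hqn ▸ add_mem_ball (mem_ball_zero_iff.2 hτ2)
    have h3 : χ (pt l) (t + τ) = ψ (s + τ) :=
      h2 (mem_ball_zero_iff.2 (lt_min hτ2 (by linarith [hc.1])))
    have h4 : pt (n :: l) = ψ (s + τ) := by
      have : pt (n :: l) = χ (pt l) (q n) := by
        simp only [pt, List.foldr_cons]
        exact if_pos hqb
      rw [this, ← hqn, h3]
    have hs' : ‖s + τ‖ < r / 4 := by linarith [norm_add_le s τ]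
    have hs'r : s + τ ∈ ball (0 : ℂ) r := mem_ball_zero_iff.2 (by linarith [hc.1])
    obtain ⟨h5, h6, -, h7⟩ := hχ _ (hpt (n :: l))
    have h8 := h7 _ _ (by simpa using h4.symm) (hc.shift hs'r) (by linarith [norm_nonneg (s + τ)])
    have h9 := Sol.eventually_eq hv h6.2.1 hc.2.1 (mem_ball_self h6.1) hs'r (h5.trans h4)
    have h10 : ‖-(s + τ)‖ < ρ (pt (n :: l)) := by rw [norm_neg]; linarith [hc.1]
    refine ⟨n :: l, -(s + τ), mem_ball_zero_iff.2 h10, ?_⟩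
    have := h9 (x := -(s + τ)) (mem_ball_zero_iff.2 (lt_min (by simpa using h10)
      (by rw [norm_neg]; linarith [hc.1])))
    simpa using this
  have hΩ : Λ ⊆ Ω := by
    refine H.gen Ω ⟨[], 0, mem_ball_self (hχ p H.base).2.1.1, (hχ p H.base).1⟩ ?_
    intro Γ a δ hΓ s hs t ht hsΛ hsΩ
    have hop : ∀ x ∈ ball a δ, Γ x ∈ Ω → ∀ᶠ y in 𝓝 x, Γ y ∈ Ω := by
      rintro x hx ⟨l, t, ht, e⟩
      obtain ⟨τ, hτ, hτ0, hτe⟩ := factor hv (hΓ.tg hx) (hΓ x hx).1 (hχ _ (hpt l)).2.1.2.1 ht e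
      have : ∀ᶠ y in 𝓝 x, τ y ∈ ball (0 : ℂ) (ρ (pt l)) :=
        hτ.continuousAt (isOpen_ball.mem_nhds (hτ0 ▸ ht))
      filter_upwards [this, hτe] with y hy hy' using ⟨l, τ y, hy, hy'.symm⟩
    have hcl : ∀ x ∈ ball a δ, Γ x ∉ Ω → ∀ᶠ y in 𝓝 x, Γ y ∉ Ω := by
      intro x hx hxΩ
      obtain ⟨ψ, r, h0, hc⟩ := exists_chart hv (hΓ x hx).1
      have hc' := hc.mono (lt_min hc.1 one_pos) (min_le_left _ _)
      obtain ⟨τ, hτ, hτ0, hτe⟩ := factor hv (hΓ.tg hx) (hΓ x hx).1 hc.2.1 (mem_ball_self hc.1) h0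
      have : ∀ᶠ y in 𝓝 x, τ y ∈ ball (0 : ℂ) (min r 1 / 4) :=
        hτ.continuousAt (isOpen_ball.mem_nhds (hτ0 ▸ mem_ball_self (by linarith [hc'.1])))
      filter_upwards [this, hτe] with y hy hy' hyΩ
      refine hxΩ (h0 ▸ claim ψ _ hc' (min_le_right _ _) ?_ _ hy (hy' ▸ hyΩ))
      rw [h0]; exact H.inv Γ a δ hΓ s hs x hx hsΛ
    by_contra htΩ
    have hU : IsOpen {x | x ∈ ball a δ ∧ Γ x ∈ Ω} := isOpen_iff_mem_nhds.2 fun x hx =>
      (Filter.Eventually.and (isOpen_ball.mem_nhds hx.1) (hop x hx.1 hx.2) :)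
    have hV : IsOpen {x | x ∈ ball a δ ∧ Γ x ∉ Ω} := isOpen_iff_mem_nhds.2 fun x hx =>
      (Filter.Eventually.and (isOpen_ball.mem_nhds hx.1) (hcl x hx.1 hx.2) :)
    obtain ⟨x, -, hx1, hx2⟩ := (convex_ball a δ).isPreconnected _ _ hU hV
      (fun x hx => (em (Γ x ∈ Ω)).imp (fun h => ⟨hx, h⟩) fun h => ⟨hx, h⟩) ⟨s, hs, hs, hsΩ⟩ ⟨t, ht, ht, htΩ⟩
    exact hx2.2 hx1.2
  obtain ⟨en, hen⟩ := exists_surjective_nat (List ℕ)
  refine ⟨fun i => χ (pt (en i)), fun i => ρ (pt (en i)), fun i => ?_, fun z hz => ?_⟩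
  · obtain ⟨h0, hc, hm, -⟩ := hχ _ (hpt (en i))
    exact ⟨hc, by simp only [h0]; exact hpt _, hm⟩
  · obtain ⟨l, t, ht, e⟩ := hΩ hz
    obtain ⟨i, rfl⟩ := hen l
    exact ⟨i, t, ht, e⟩

end Pool.Agent.P.MP_a31c1c_an
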