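import Mathlib

set_option autoImplicit false

namespace Pool.Agent.P.MP_a31c1c_an

open Polynomial Metric

section aux
open Filter Topology Set Real

theorem poly_of_growth {f : ℂ → ℂ} (hf : Differentiable ℂ f) {N : ℕ} {K ρ : ℝ}
    (h : ∀ u, ρ ≤ ‖u‖ → ‖f u‖ ≤ K * ‖u‖ ^ N) : ∃ P : ℂ[X], ∀ u, f u = P.eval u := by
  have h1 : ∀ n > N, iteratedDeriv n f 0 = 0 := by
    intro n hn
    have h2 := (tendsto_pow_div_pow_atTop_zero (𝕜 := ℝ) hn).const_mul (n.factorial * K)
    rw [mul_zero] at h2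
    refine norm_le_zero_iff.1 (ge_of_tendsto h2 ?_)
    filter_upwards [eventually_ge_atTop ρ, eventually_gt_atTop 0] with r h3 h4
    refine (Complex.norm_iteratedDeriv_le_of_forall_mem_sphere_norm_le (C := K * r ^ N) n h4
      hf.diffContOnCl fun z hz => ?_).trans (le_of_eq (by ring))
    have : ‖z‖ = r := by simpa using hz
    exact this ▸ h z (this ▸ h3)
  refine ⟨∑ n ∈ Finset.range (N + 1), C ((n.factorial : ℂ)⁻¹ * iteratedDeriv n f 0) * X ^ n,
    fun u => ?_⟩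
  rw [← Complex.taylorSeries_eq_of_entire' 0 u hf, tsum_eq_sum (s := Finset.range (N + 1))
    fun n hn => by rw [h1 n (by simpa using hn)]; simp]
  simp [eval_finsetSum]

theorem norm_exp_ne_one {l : ℂ} (hl : l.im ≠ 0) : ‖Complex.exp (2 * π * Complex.I * l)‖ ≠ 1 := by
  rw [Complex.norm_exp, Ne, Real.exp_eq_one_iff]
  simp [hl, Real.pi_ne_zero]

/-- A single-valued solution is bounded at a regular singular point with non-real exponent. -/
theorem bdd_near {c a h : ℂ → ℂ} {u0 : ℂ} (ha : ContinuousAt a u0) (hh : ContinuousAt h u0)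
    (hl : (a u0).im ≠ 0) (hc : ∀ᶠ u in 𝓝[≠] u0, HasDerivAt c ((h u - a u * c u) / (u - u0)) u) :
    ∃ B, ∀ᶠ u in 𝓝[≠] u0, ‖c u‖ ≤ B := by
  set l := a u0 with hl0
  set κ := ‖Complex.exp (2 * π * Complex.I * l) - 1‖ with hκ
  have hκ0 : 0 < κ := norm_pos_iff.2 (sub_ne_zero.2 fun e => norm_exp_ne_one hl (by simp [e]))
  set K := Real.exp (‖l‖ * (2 * π)) * (2 * π) with hK
  have hK0 : 0 < K := by positivity
  have h1 : ∀ᶠ u in 𝓝 u0, ‖a u - l‖ < κ / (2 * K) := by
    have := (ha.sub (continuousAt_const (y := l))).norm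
    exact this.eventually (gt_mem_nhds (by simp [hl0]; positivity))
  have h2 : ∀ᶠ u in 𝓝 u0, ‖h u‖ < ‖h u0‖ + 1 := hh.norm.eventually (gt_mem_nhds (lt_add_one _))
  obtain ⟨δ, hδ, H⟩ := Metric.eventually_nhds_iff_ball.1
    (h1.and (h2.and (eventually_nhdsWithin_iff.1 hc)))
  refine ⟨2 * K * (‖h u0‖ + 1) / κ, ?_⟩
  filter_upwards [self_mem_nhdsWithin, mem_nhdsWithin_of_mem_nhds (ball_mem_nhds u0 hδ)]
    with u hu hu'
  have hr : 0 < dist u u0 := dist_pos.2 hu
  have h3 : ∀ v ∈ sphere u0 (dist u u0), v ∈ ball u0 δ ∧ v ≠ u0 := fun v hv =>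
    ⟨by rw [mem_ball, mem_sphere.1 hv]; exact hu', fun e => hr.ne (by simpa [e] using hv)⟩
  obtain ⟨t, ht, hmax⟩ := (isCompact_sphere u0 (dist u u0)).exists_isMaxOn ⟨u, rfl⟩
    (f := fun v => ‖c v‖)
    fun v hv => ((H v (h3 v hv).1).2.2 (h3 v hv).2).continuousAt.norm.continuousWithinAt
  refine le_trans (hmax (show u ∈ sphere u0 (dist u u0) from rfl)) ?_
  let γ : ℂ → ℂ := fun z => u0 + (t - u0) * Complex.exp (Complex.I * z)
  have h4 : ∀ s : ℝ, γ s ∈ sphere u0 (dist u u0) := fun s => by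
    rw [mem_sphere_iff_norm] at ht ⊢
    simp [γ, ht, mul_comm Complex.I, Complex.norm_exp_ofReal_mul_I]
  have h5 : ∀ s : ℝ, HasDerivAt (fun s : ℝ => c (γ s) * Complex.exp (Complex.I * l * s))
      (Complex.I * Complex.exp (Complex.I * l * s) * (h (γ s) - (a (γ s) - l) * c (γ s))) s := by
    intro s
    have k1 : HasDerivAt γ ((t - u0) * (Complex.exp (Complex.I * s) * Complex.I)) s := by
      have := (((hasDerivAt_id (s : ℂ)).const_mul Complex.I).cexp.const_mul (t - u0)).const_add u0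
      simp only [id, mul_one] at this
      exact this
    have k2 : HasDerivAt (fun z : ℂ => Complex.exp (Complex.I * l * z))
        (Complex.exp (Complex.I * l * s) * (Complex.I * l)) s := by
      simpa using ((hasDerivAt_id (s : ℂ)).const_mul (Complex.I * l)).cexp
    have k3 := ((((H _ (h3 _ (h4 s)).1).2.2 (h3 _ (h4 s)).2).comp (s : ℂ) k1).mul k2).comp_ofReal
    refine k3.congr_deriv ?_
    have k4 : t - u0 ≠ 0 := sub_ne_zero.2 (h3 t ht).2
    have k5 : γ s - u0 = (t - u0) * Complex.exp (Complex.I * s) := by simp [γ]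
    simp only [Function.comp_apply, k5]
    field_simp
    ring
  have h6 := norm_image_sub_le_of_norm_deriv_le_segment' (a := 0) (b := 2 * π)
    (C := Real.exp (‖l‖ * (2 * π)) * (‖h u0‖ + 1 + κ / (2 * K) * ‖c t‖))
    (fun s _ => (h5 s).hasDerivWithinAt) (fun s hs => by
      have k1 := H _ (h3 _ (h4 s)).1
      have k2 : ‖c (γ s)‖ ≤ ‖c t‖ := hmax (h4 s)
      rw [norm_mul, norm_mul, Complex.norm_I, one_mul]
      refine mul_le_mul ((Complex.norm_exp_le_exp_norm _).trans (Real.exp_le_exp.2 ?_))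
        ((norm_sub_le _ _).trans (add_le_add k1.2.1.le ?_)) (norm_nonneg _) (by positivity)
      · rw [norm_mul, norm_mul, Complex.norm_I, one_mul, Complex.norm_real,
          Real.norm_of_nonneg hs.1]
        exact mul_le_mul_of_nonneg_left hs.2.le (norm_nonneg _)
      · rw [norm_mul]
        exact mul_le_mul k1.1.le k2 (norm_nonneg _) (by positivity)) (2 * π)
      ⟨by positivity, le_rfl⟩
  have h7 : c (γ (2 * π : ℝ)) * Complex.exp (Complex.I * l * (2 * π : ℝ)) -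
      c (γ (0 : ℝ)) * Complex.exp (Complex.I * l * (0 : ℝ)) =
      c t * (Complex.exp (2 * π * Complex.I * l) - 1) := by
    have e1 : γ (2 * π : ℝ) = t := by
      simp [γ, mul_comm Complex.I, Complex.exp_two_pi_mul_I]
    have e2 : γ (0 : ℝ) = t := by simp [γ]
    rw [e1, e2]
    push_cast
    rw [show Complex.I * l * (2 * π) = 2 * π * Complex.I * l by ring]
    simp [mul_sub]
  rw [h7, norm_mul, ← hκ, sub_zero, mul_right_comm, ← hK] at h6
  have h8 : K * (‖h u0‖ + 1 + κ / (2 * K) * ‖c t‖) = K * (‖h u0‖ + 1) + ‖c t‖ * κ / 2 := by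
    field_simp
  rw [le_div_iff₀ hκ0]
  linarith

theorem growth {c c' : ℂ → ℂ} (hc : Continuous c) {K m : ℕ} {ρ : ℝ} (hK : 0 < K) (hρ : 1 ≤ ρ)
    (hd : ∀ u, ρ ≤ ‖u‖ → HasDerivAt c (c' u) u ∧ ‖u * c' u‖ ≤ K * ‖c u‖ + K * ‖u‖ ^ m) :
    ∃ B : ℝ, ∀ u, ρ ≤ ‖u‖ → ‖c u‖ ≤ B * ‖u‖ ^ (m + K) := by
  obtain ⟨δ, hδ⟩ := (isCompact_sphere (0 : ℂ) ρ).exists_bound_of_continuousOn hc.continuousOn
  refine ⟨|δ| + 1, fun u hu => ?_⟩
  have h0 : 1 ≤ ‖u‖ := hρ.trans hu
  have h1 : 0 < ρ / ‖u‖ := by positivity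
  have h2 : ∀ s : ℝ, ‖Complex.exp s * u‖ = Real.exp s * ‖u‖ := fun s => by simp
  have h3 : ∀ s ∈ Icc (Real.log (ρ / ‖u‖)) 0,
      ρ ≤ ‖Complex.exp s * u‖ ∧ ‖Complex.exp s * u‖ ≤ ‖u‖ := fun s hs => by
    rw [h2]
    have k1 := (Real.log_le_iff_le_exp h1).1 hs.1
    have k2 := Real.exp_le_one_iff.2 hs.2
    rw [div_le_iff₀ (by positivity)] at k1
    exact ⟨k1, by nlinarith⟩
  have h4 : ∀ s ∈ Icc (Real.log (ρ / ‖u‖)) 0, HasDerivAt (fun s : ℝ => c (Complex.exp s * u))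
      (Complex.exp s * u * c' (Complex.exp s * u)) s := fun s hs => by
    have := ((hd _ (h3 s hs).1).1.comp (s : ℂ)
      ((Complex.hasDerivAt_exp s).mul_const u)).comp_ofReal
    exact this.congr_deriv (mul_comm _ _)
  have h5 : Real.log (ρ / ‖u‖) ≤ 0 := Real.log_nonpos h1.le ((div_le_one (by positivity)).2 hu)
  have h6 := norm_le_gronwallBound_of_norm_deriv_right_le (δ := |δ|) (K := K) (ε := K * ‖u‖ ^ m)
    (fun s hs => (h4 s hs).continuousAt.continuousWithinAt)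
    (fun s hs => (h4 s (Ico_subset_Icc_self hs)).hasDerivWithinAt)
    ((hδ _ (by
      rw [mem_sphere_zero_iff_norm, h2, Real.exp_log h1]
      field_simp)).trans (le_abs_self δ))
    (fun s hs => (hd _ (h3 s (Ico_subset_Icc_self hs)).1).2.trans (by
      gcongr
      exact (h3 s (Ico_subset_Icc_self hs)).2)) 0 ⟨h5, le_rfl⟩
  have hK' : (K : ℝ) ≠ 0 := by positivity
  rw [gronwallBound_of_K_ne_0 hK'] at h6
  have h7 : Real.exp (K * (0 - Real.log (ρ / ‖u‖))) ≤ ‖u‖ ^ K := by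
    rw [Real.exp_nat_mul, zero_sub, Real.exp_neg, Real.exp_log h1, inv_div]
    gcongr
    exact div_le_self (by positivity) hρ
  simp only [Complex.ofReal_zero, Complex.exp_zero, one_mul, mul_div_cancel_left₀ _ hK'] at h6
  have h8 : 1 ≤ ‖u‖ ^ m := one_le_pow₀ h0
  have h9 : 0 ≤ ‖u‖ ^ K := by positivity
  have h10 := abs_nonneg δ
  rw [pow_add]
  calc _ ≤ _ := h6
    _ ≤ |δ| * ‖u‖ ^ K + ‖u‖ ^ m * ‖u‖ ^ K := by gcongr; linarith
    _ ≤ _ := by nlinarith [mul_nonneg h10 h9]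

theorem eventually_ne_root {R : ℂ[X]} (hR : R ≠ 0) (u0 : ℂ) : ∀ᶠ u in 𝓝[≠] u0, R.eval u ≠ 0 := by
  have h1 : ({u | R.IsRoot u} \ {u0}).Finite := (finite_setOfPred_isRoot hR).sdiff
  filter_upwards [self_mem_nhdsWithin, mem_nhdsWithin_of_mem_nhds
    (h1.isClosed.isOpen_compl.mem_nhds fun h => h.2 rfl)] with u h2 h3 h4
  exact h3 ⟨h4, h2⟩

theorem exists_factor {R A : ℂ[X]} {u : ℂ} (hu : R.eval u = 0)
    (h : (A.eval u / R.derivative.eval u).im ≠ 0) :
    ∃ S : ℂ[X], R = (X - C u) * S ∧ S.eval u = R.derivative.eval u ∧ S.eval u ≠ 0 := by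
  obtain ⟨S, rfl⟩ := dvd_iff_isRoot.2 hu
  have e : S.eval u = ((X - C u) * S).derivative.eval u := by simp
  exact ⟨S, rfl, e, fun h0 => h (by rw [← e, h0]; simp)⟩

end aux

section aux2
open Filter Topology Set

/-- A single-valued solution of the linear equation would give a polynomial solution. -/
theorem mono {R A g : ℂ[X]} {p : ℕ} (hp : 1 ≤ p) (hdeg : A.degree < R.degree)
    (hinf : ∀ u : ℂ, R.eval u = 0 → (A.eval u / R.derivative.eval u).im ≠ 0)
    (hno : ¬ ∃ c : ℂ[X], R * c.derivative + (C (p : ℂ) * A - R.derivative) * c = -g) :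
    ¬ ∃ c : ℂ → ℂ, ∀ u : ℂ, R.eval u ≠ 0 →
      HasDerivAt c (-(p * (A.eval u / R.eval u)) * c u + g.eval u / R.eval u ^ 2) u := by
  rintro ⟨c, hc⟩
  have hR : R ≠ 0 := by rintro rfl; simp at hdeg
  set Q := C (p : ℂ) * A - R.derivative with hQ
  let c1 : ℂ → ℂ := fun u => -(R.eval u * c u)
  have h1 : ∀ u, R.eval u ≠ 0 → HasDerivAt c1 ((-g.eval u - Q.eval u * c1 u) / R.eval u) u := by
    intro u hu
    refine ((R.hasDerivAt u).mul (hc u hu)).neg.congr_deriv ?_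
    simp only [hQ, c1, eval_sub, eval_mul, eval_C]
    field_simp
    ring
  let c2 : ℂ → ℂ := fun u => limUnder (𝓝[≠] u) c1
  have h2 : ∀ u, R.eval u ≠ 0 → c2 u = c1 u := fun u hu =>
    ((h1 u hu).continuousAt.tendsto.mono_left nhdsWithin_le_nhds).limUnder_eq
  have h3 : ∀ u, R.eval u ≠ 0 → HasDerivAt c2 ((-g.eval u - Q.eval u * c2 u) / R.eval u) u := by
    intro u hu
    rw [h2 u hu]
    refine (h1 u hu).congr_of_eventuallyEq ?_
    filter_upwards [R.continuous.continuousAt.eventually_ne hu] with v hv using h2 v hv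
  have h4 : Differentiable ℂ c2 := by
    intro u
    by_cases hu : R.eval u = 0
    swap
    · exact (h3 u hu).differentiableAt
    obtain ⟨S, e1, e2, e3⟩ := exists_factor hu (hinf u hu)
    obtain ⟨B, hB⟩ := bdd_near (c := c1) (a := fun v => Q.eval v / S.eval v)
      (h := fun v => -g.eval v / S.eval v) (u0 := u)
      (Q.continuous.continuousAt.div S.continuous.continuousAt e3)
      (g.continuous.continuousAt.neg.div S.continuous.continuousAt e3) (by
        have : Q.eval u / S.eval u = p * (A.eval u / R.derivative.eval u) - 1 := by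
          rw [hQ, eval_sub, eval_mul, eval_C, ← e2]
          field_simp
        have hp' : (p : ℝ) ≠ 0 := by positivity
        simpa [this, hp'] using hinf u hu) (by
        filter_upwards [eventually_ne_root hR u] with v hv
        refine (h1 v hv).congr_deriv ?_
        rw [e1] at hv ⊢
        simp only [eval_mul, eval_sub, eval_X, eval_C, mul_ne_zero_iff] at hv ⊢
        have := hv.1
        have := hv.2
        field_simp)
    have k1 := eventually_nhdsWithin_iff.1 (hB.and (eventually_ne_root hR u))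
    have k2 := Complex.differentiableOn_update_limUnder_of_bddAbove (f := c1) k1
      (fun v hv => (h1 v (hv.1 hv.2).2).differentiableAt.differentiableWithinAt)
      ⟨B, by rintro _ ⟨v, hv, rfl⟩; exact (hv.1 hv.2).1⟩
    refine (k2.differentiableAt k1).congr_of_eventuallyEq ?_
    filter_upwards [k1] with v hv
    by_cases e : v = u
    · simp [e, c2]
    · rw [Function.update_of_ne e, h2 v (hv e).2]
  have d1 : (X * Q).degree ≤ R.degree := by
    have : Q.degree < R.degree := (degree_sub_le _ _).trans_lt (max_lt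
      (by rw [C_mul']; exact (degree_smul_le _ _).trans_lt hdeg)
      (degree_derivative_lt hR))
    rw [mul_comm, degree_mul_X]
    exact Nat.WithBot.add_one_le_of_lt this
  have d2 : (X * g).degree ≤ (R * X ^ (g.natDegree + 1)).degree := by
    rw [mul_comm, degree_mul_X, degree_mul_X_pow, Nat.cast_succ]
    exact (add_le_add_left degree_le_natDegree _).trans
      (le_add_of_nonneg_left (zero_le_degree_iff.2 hR))
  obtain ⟨K1, k1⟩ := (isBigO_cobounded_of_degree_le d1).bound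
  obtain ⟨K2, k2⟩ := (isBigO_cobounded_of_degree_le d2).bound
  have k3 : ∀ᶠ u in Bornology.cobounded ℂ, R.eval u ≠ 0 := (finite_setOfPred_isRoot hR).isBounded
  obtain ⟨ρ, -, k4⟩ := Filter.hasBasis_cobounded_norm.eventually_iff.1 (k1.and (k2.and k3))
  obtain ⟨K, hK⟩ := exists_nat_ge (max K1 K2)
  obtain ⟨B, hB⟩ := growth (c' := fun u => (-g.eval u - Q.eval u * c2 u) / R.eval u)
    h4.continuous (K := K + 1) (m := g.natDegree + 1) K.succ_pos (le_max_right ρ 1) fun u hu => by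
      obtain ⟨l1, l2, l3⟩ := k4 ((le_max_left ρ 1).trans hu)
      refine ⟨h3 u l3, ?_⟩
      have l4 : 0 < ‖R.eval u‖ := norm_pos_iff.2 l3
      have l5 : K1 ≤ (K + 1 : ℕ) := by push_cast; linarith [le_max_left K1 K2]
      have l6 : K2 ≤ (K + 1 : ℕ) := by push_cast; linarith [le_max_right K1 K2]
      simp only [eval_mul, eval_X, eval_pow, norm_mul, norm_pow] at l1 l2
      rw [← mul_div_assoc, norm_div, div_le_iff₀ l4, mul_sub, ← mul_assoc]
      refine (norm_sub_le _ _).trans ?_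
      simp only [norm_mul, norm_neg]
      have l7 := mul_le_mul_of_nonneg_right
        (l1.trans (mul_le_mul_of_nonneg_right l5 l4.le)) (norm_nonneg (c2 u))
      have l8 := l2.trans (mul_le_mul_of_nonneg_right l6 (by positivity))
      linarith
  obtain ⟨P, hP⟩ := poly_of_growth h4 hB
  refine hno ⟨P, eq_of_infinite_eval_eq _ _ ((finite_setOfPred_isRoot hR).infinite_compl.mono
    fun u hu => ?_)⟩
  have hu' : R.eval u ≠ 0 := hu
  have := h3 u hu'
  rw [show c2 = fun u => P.eval u from funext hP] at this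
  have := (P.hasDerivAt u).unique this
  simp only [mem_ofPred_eq, eval_add, eval_mul, eval_neg, this]
  field_simp
  ring

end aux2

/-- Composites of elementary affine transitions. -/
inductive Ch (St : ℂ → ℂ → ℂ → ℂ → Prop) : ℂ → ℂ → ℂ → ℂ → Prop
  | step {u u' m τ : ℂ} : St u u' m τ → Ch St u u' m τ
  | trans {u u' u'' m τ m' τ' : ℂ} :
      Ch St u u' m τ → Ch St u' u'' m' τ' → Ch St u u'' (m' * m) (m' * τ + τ')

theorem Ch.inv {St : ℂ → ℂ → ℂ → ℂ → Prop}
    (h : ∀ u u' m τ, St u u' m τ → m ≠ 0 ∧ St u' u m⁻¹ (-τ / m)) {u u' m τ : ℂ}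
    (h1 : Ch St u u' m τ) : m ≠ 0 ∧ Ch St u' u m⁻¹ (-τ / m) := by
  induction h1 with
  | step k => exact ⟨(h _ _ _ _ k).1, .step (h _ _ _ _ k).2⟩
  | trans _ _ i1 i2 =>
    refine ⟨mul_ne_zero i2.1 i1.1, ?_⟩
    have := i1.1
    have := i2.1
    convert i2.2.trans i1.2 using 1 <;> field_simp
    ring

theorem affine_group {G : ℂ → ℂ → Prop}
    (hm : ∀ m τ m' τ', G m τ → G m' τ' → G (m' * m) (m' * τ + τ'))
    (hi : ∀ m τ, G m τ → m ≠ 0 ∧ G m⁻¹ (-τ / m)) {m s m' τ' : ℂ} (h1 : G m (s * (1 - m)))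
    (h2 : 1 < ‖m‖) (h3 : G m' τ') (h4 : m' * s + τ' ≠ s) :
    ∃ M τ₀ τ₁ : ℂ, 4 ≤ ‖M‖ ∧ τ₀ ≠ τ₁ ∧ G M τ₀ ∧ G M τ₁ := by
  have h5 : ∀ n : ℕ, G (m ^ (n + 1)) (s * (1 - m ^ (n + 1))) := by
    intro n
    induction n with
    | zero => simpa using h1
    | succ n ih => convert hm _ _ _ _ h1 ih using 1 <;> ring
  obtain ⟨n, hn⟩ := pow_unbounded_of_one_lt 4 h2
  have h6 : 4 ≤ ‖m ^ (n + 1)‖ := by
    rw [norm_pow, pow_succ]
    nlinarith
  have h7 : 1 - m ^ (n + 1) ≠ 0 := fun e => by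
    rw [← sub_eq_zero.1 e] at h6
    norm_num at h6
  refine ⟨_, _, (m' * s + τ') * (1 - m ^ (n + 1)), h6, fun e => h4 (mul_right_cancel₀ h7 e).symm,
    h5 n, ?_⟩
  have := (hi _ _ h3).1
  convert hm _ _ _ _ (hm _ _ _ _ (hi _ _ h3).2 (h5 n)) h3 using 1 <;> field_simp
  ring

theorem exists_local {a h : ℂ → ℂ} {b u : ℂ} {r : ℝ} (ha : DifferentiableOn ℂ a (ball b r))
    (hh : DifferentiableOn ℂ h (ball b r)) : ∃ e c : ℂ → ℂ, (∀ v ∈ ball b r,
      HasDerivAt e (a v * e v) v ∧ e v ≠ 0 ∧ HasDerivAt c (a v * c v + h v) v) ∧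
      e u = 1 ∧ c u = 0 := by
  obtain ⟨α, h0, h1⟩ := ha.isExactOn_ball.with_val_at u 0
  have h2 : DifferentiableOn ℂ (fun v => h v / Complex.exp (α v)) (ball b r) :=
    hh.div (fun v hv => (h1 v hv).cexp.differentiableAt.differentiableWithinAt)
      fun v _ => Complex.exp_ne_zero _
  obtain ⟨η, h3, h4⟩ := h2.isExactOn_ball.with_val_at u 0
  refine ⟨fun v => Complex.exp (α v), fun v => Complex.exp (α v) * η v, fun v hv =>
    ⟨(h1 v hv).cexp.congr_deriv (mul_comm _ _), Complex.exp_ne_zero _,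
      ((h1 v hv).cexp.mul (h4 v hv)).congr_deriv ?_⟩, by simp [h0], by simp [h3]⟩
  field_simp

open Filter Topology Set Real in
/-- Two loops with the same large multiplier and different translation parts. -/
theorem two_loops {R A g : ℂ[X]} {p : ℕ} (hp : 1 ≤ p) (hR : 0 < R.degree)
    (hinf : ∀ u : ℂ, R.eval u = 0 → (A.eval u / R.derivative.eval u).im ≠ 0)
    (hno : ¬ ∃ c : ℂ → ℂ, ∀ u : ℂ, R.eval u ≠ 0 →
      HasDerivAt c (-(p * (A.eval u / R.eval u)) * c u + g.eval u / R.eval u ^ 2) u)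
    (ρ : ℂ → ℝ) (hρ : ∀ b : ℂ, R.eval b ≠ 0 → 0 < ρ b ∧ ∀ v ∈ ball b (ρ b), R.eval v ≠ 0)
    (Lk : ℂ → ℂ → ℂ → ℂ → Prop)
    (htrans : ∀ u u' u'' m τ m' τ' : ℂ, Lk u u' m τ → Lk u' u'' m' τ' →
      Lk u u'' (m' * m) (m' * τ + τ'))
    (hstep : ∀ b : ℂ, R.eval b ≠ 0 → ∀ u ∈ ball b (ρ b), ∀ u' ∈ ball b (ρ b), ∀ e c : ℂ → ℂ,
      (∀ v ∈ ball b (ρ b), HasDerivAt e (-(p * (A.eval v / R.eval v)) * e v) v ∧ e v ≠ 0 ∧
        HasDerivAt c (-(p * (A.eval v / R.eval v)) * c v + g.eval v / R.eval v ^ 2) v) →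
      e u = 1 → c u = 0 → Lk u u' (e u') (c u'))
    (a : ℂ) (ha : R.eval a ≠ 0) :
    ∃ M τ₀ τ₁ : ℂ, 4 ≤ ‖M‖ ∧ τ₀ ≠ τ₁ ∧ Lk a a M τ₀ ∧ Lk a a M τ₁ := by
  have hR0 : R ≠ 0 := by rintro rfl; simp at hR
  let α : ℂ → ℂ := fun v => -(p * (A.eval v / R.eval v))
  let β : ℂ → ℂ := fun v => g.eval v / R.eval v ^ 2
  let Sol : ℂ → (ℂ → ℂ) → (ℂ → ℂ) → Prop := fun b e c => ∀ v ∈ ball b (ρ b),
    HasDerivAt e (α v * e v) v ∧ e v ≠ 0 ∧ HasDerivAt c (α v * c v + β v) v
  let St : ℂ → ℂ → ℂ → ℂ → Prop := fun u u' m τ => ∃ b, R.eval b ≠ 0 ∧ u ∈ ball b (ρ b) ∧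
    u' ∈ ball b (ρ b) ∧ ∃ e c, Sol b e c ∧ e u = 1 ∧ c u = 0 ∧ e u' = m ∧ c u' = τ
  have hLk : ∀ {u u' m τ}, Ch St u u' m τ → Lk u u' m τ := by
    intro u u' m τ h
    induction h with
    | step k =>
      obtain ⟨b, k1, k2, k3, e, c, k4, k5, k6, rfl, rfl⟩ := k
      exact hstep b k1 _ k2 _ k3 e c k4 k5 k6
    | trans _ _ i1 i2 => exact htrans _ _ _ _ _ _ _ i1 i2
  have hinv : ∀ {u u' m τ}, Ch St u u' m τ → m ≠ 0 ∧ Ch St u' u m⁻¹ (-τ / m) := by
    refine Ch.inv ?_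
    rintro u u' _ _ ⟨b, k1, k2, k3, e, c, k4, k5, k6, rfl, rfl⟩
    have k7 := (k4 u' k3).2.1
    refine ⟨k7, b, k1, k3, k2, fun v => e v / e u', fun v => c v - c u' * (e v / e u'),
      fun v hv => ⟨((k4 v hv).1.div_const _).congr_deriv (by ring), div_ne_zero (k4 v hv).2.1 k7,
        ((k4 v hv).2.2.sub (((k4 v hv).1.div_const _).const_mul _)).congr_deriv (by ring)⟩,
      div_self k7, by simp [k7], by simp [k5], by simp [k5, k6, div_eq_mul_inv]⟩
  have hloc : ∀ b, R.eval b ≠ 0 → ∃ e c, Sol b e c ∧ e b = 1 ∧ c b = 0 ∧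
      ∀ v ∈ ball b (ρ b), Ch St b v (e v) (c v) := by
    intro b hb
    obtain ⟨e, c, k1, k2, k3⟩ := exists_local (a := α) (h := β) (b := b) (u := b) (r := ρ b)
      ((((A.differentiable.differentiableOn.div R.differentiable.differentiableOn
        (hρ b hb).2).const_mul _).neg))
      (g.differentiable.differentiableOn.div (R.differentiable.differentiableOn.pow 2)
        fun v hv => pow_ne_zero 2 ((hρ b hb).2 v hv))
    exact ⟨e, c, k1, k2, k3, fun v hv =>
      .step ⟨b, hb, mem_ball_self (hρ b hb).1, hv, e, c, k1, k2, k3, rfl, rfl⟩⟩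
  have hconn : ∀ u, R.eval u ≠ 0 → ∃ m τ, Ch St a u m τ := by
    intro u hu
    refine ((finite_setOfPred_isRoot hR0).countable.isConnected_compl_of_one_lt_rank
      (by simp)).isPreconnected.induction₂ (fun x y => ∃ m τ, Ch St x y m τ) (fun x hx => ?_)
      (fun x y z _ _ _ ⟨_, _, h1⟩ ⟨_, _, h2⟩ => ⟨_, _, h1.trans h2⟩)
      (fun x y _ _ ⟨_, _, h1⟩ => ⟨_, _, (hinv h1).2⟩) ha hu
    obtain ⟨e, c, -, -, -, k⟩ := hloc x hx
    filter_upwards [mem_nhdsWithin_of_mem_nhds (ball_mem_nhds x (hρ x hx).1)] with v hv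
      using ⟨_, _, k v hv⟩
  obtain ⟨u0, hu0⟩ := Complex.exists_root hR
  obtain ⟨S, e1, e2, e3⟩ := exists_factor hu0 (hinf u0 hu0)
  obtain ⟨r, hr, hS⟩ := Metric.nhds_basis_closedBall.eventually_iff.1
    (S.continuous.continuousAt.eventually_ne e3)
  have hγ : ∀ s, R.eval (circleMap u0 r s) ≠ 0 := fun s => by
    rw [e1, eval_mul, eval_sub, eval_X, eval_C]
    exact mul_ne_zero (sub_ne_zero.2 (circleMap_ne_center hr.ne'))
      (hS (circleMap_mem_closedBall u0 hr.le s))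
  let φ : ℝ → ℂ := fun s => deriv (circleMap u0 r) s • α (circleMap u0 r s)
  have hφ : Continuous φ := by
    simp only [φ, α, deriv_circleMap]
    have k1 := A.continuous.comp (continuous_circleMap u0 r)
    have k2 := R.continuous.comp (continuous_circleMap u0 r)
    exact ((continuous_circleMap 0 r).mul continuous_const).smul
      (continuous_const.mul (k1.div k2 hγ)).neg
  let F : ℝ → ℂ := fun t => Complex.exp (∫ s in (0 : ℝ)..t, φ s)
  have hF : ∀ t, HasDerivAt F (F t * φ t) t := fun t =>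
    (hφ.integral_hasStrictDerivAt 0 t).hasDerivAt.cexp
  have hF0 : ∀ t, F t ≠ 0 := fun t => Complex.exp_ne_zero _
  have hcirc : ∃ τ, Ch St (circleMap u0 r 0) (circleMap u0 r (2 * π)) (F (2 * π) / F 0) τ := by
    refine isPreconnected_univ.induction₂
      (fun s t => ∃ τ, Ch St (circleMap u0 r s) (circleMap u0 r t) (F t / F s) τ) (fun s _ => ?_)
      (fun x y z _ _ _ ⟨_, h1⟩ ⟨_, h2⟩ => ⟨_, by
        convert h1.trans h2 using 1
        have := hF0 x
        have := hF0 y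
        field_simp⟩)
      (fun x y _ _ ⟨_, h1⟩ => ⟨_, by simpa using (hinv h1).2⟩) (mem_univ _) (mem_univ _)
    obtain ⟨e, c, k1, k2, -, k3⟩ := hloc _ (hγ s)
    obtain ⟨δ, hδ, k4⟩ := Metric.eventually_nhds_iff_ball.1
      ((continuous_circleMap u0 r).continuousAt (x := s) (ball_mem_nhds _ (hρ _ (hγ s)).1))
    have k5 : ∀ t ∈ ball s δ, HasDerivAt (fun t => e (circleMap u0 r t) / F t) 0 t := by
      intro t ht
      refine (((k1 _ (k4 t ht)).1.scomp t (hasDerivAt_circleMap u0 r t)).div (hF t)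
        (hF0 t)).congr_deriv ?_
      simp only [φ, deriv_circleMap, Function.comp_apply, smul_eq_mul]
      ring
    filter_upwards [mem_nhdsWithin_of_mem_nhds (ball_mem_nhds s hδ)] with t ht
    have k6 := isOpen_ball.is_const_of_deriv_eq_zero (convex_ball s δ).isPreconnected
      (fun t ht => (k5 t ht).differentiableAt.differentiableWithinAt)
      (fun t ht => (k5 t ht).deriv) ht (mem_ball_self hδ)
    refine ⟨c (circleMap u0 r t), ?_⟩
    convert k3 _ (k4 t ht) using 1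
    rw [k2, div_eq_iff (hF0 t)] at k6
    rw [k6]
    ring
  have hmul : ‖F (2 * π) / F 0‖ ≠ 1 := by
    have k1 : ∫ s in (0 : ℝ)..2 * π, φ s = ∮ z in C(u0, r), (z - u0)⁻¹ •
        (-(p * (A.eval z / S.eval z))) := by
      refine intervalIntegral.integral_congr fun s _ => ?_
      simp only [φ, α]
      rw [e1, eval_mul, eval_sub, eval_X, eval_C, smul_eq_mul, smul_eq_mul, smul_eq_mul,
        div_eq_mul_inv, mul_inv]
      ring
    have k2 : DifferentiableOn ℂ (fun z => -((p : ℂ) * (A.eval z / S.eval z))) (closedBall u0 r) :=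
      ((A.differentiable.differentiableOn.div S.differentiable.differentiableOn
        fun z hz => hS hz).const_mul _).neg
    rw [k2.circleIntegral_sub_inv_smul (mem_ball_self hr)] at k1
    simp only [F, k1, intervalIntegral.integral_same, Complex.exp_zero, div_one, smul_eq_mul]
    have hp' : (p : ℝ) ≠ 0 := by positivity
    exact norm_exp_ne_one (by simpa [hp', e2] using hinf u0 hu0)
  obtain ⟨m, τ, hm, hloop⟩ : ∃ m τ, 1 < ‖m‖ ∧ Ch St a a m τ := by
    obtain ⟨τ, k1⟩ := hcirc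
    rw [show circleMap u0 r (2 * π) = circleMap u0 r 0 by
      simpa using periodic_circleMap u0 r 0] at k1
    obtain ⟨m0, τ0, k2⟩ := hconn _ (hγ 0)
    have k3 := (k2.trans k1).trans (hinv k2).2
    rw [mul_comm _ m0, inv_mul_cancel_left₀ (hinv k2).1] at k3
    rcases hmul.lt_or_gt with h | h
    · exact ⟨_, _, by rw [norm_inv]; exact (one_lt_inv₀ (norm_pos_iff.2 (hinv k3).1)).2 h,
        (hinv k3).2⟩
    · exact ⟨_, _, h, k3⟩
  have hm1 : 1 - m ≠ 0 := fun e => by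
    rw [← sub_eq_zero.1 e] at hm
    simp at hm
  by_cases hfix : ∀ m' τ', Ch St a a m' τ' → m' * (τ / (1 - m)) + τ' = τ / (1 - m)
  swap
  · push Not at hfix
    obtain ⟨m', τ', k1, k2⟩ := hfix
    obtain ⟨M, τ₀, τ₁, k3, k4, k5, k6⟩ := affine_group (G := Ch St a a)
      (fun _ _ _ _ => Ch.trans) (fun _ _ => hinv) (s := τ / (1 - m))
      (by rwa [div_mul_cancel₀ _ hm1]) hm k1 k2
    exact ⟨M, τ₀, τ₁, k3, k4, hLk k5, hLk k6⟩
  set s := τ / (1 - m)
  choose! μ σ hμ using hconn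
  have hval : ∀ u m' τ', R.eval u ≠ 0 → Ch St a u m' τ' → μ u * s + σ u = m' * s + τ' := by
    intro u m' τ' hu h
    have k1 := hfix _ _ ((hμ u hu).trans (hinv h).2)
    have k2 := (hinv h).1
    field_simp at k1
    linear_combination k1
  refine (hno ⟨fun u => μ u * s + σ u, fun u hu => ?_⟩).elim
  obtain ⟨e, c, k1, k2, k3, k4⟩ := hloc u hu
  have k5 := k1 u (mem_ball_self (hρ u hu).1)
  refine (((k5.1.mul_const (μ u * s + σ u)).add k5.2.2).congr_deriv ?_).congr_of_eventuallyEq ?_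
  · simp only [k2, k3, α, β]
    ring
  · filter_upwards [ball_mem_nhds u (hρ u hu).1] with v hv
    rw [hval v _ _ ((hρ u hu).2 v hv) ((hμ u hu).trans (k4 v hv)), Pi.add_apply]
    ring

end Pool.Agent.P.MP_a31c1c_an
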