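import Mathlib

/-!
Holomorphic ordinary differential equations in complex time: Gronwall estimate, uniqueness,
local existence with a uniform radius.
-/

set_option autoImplicit false

namespace Pool.Agent.P.MP_a31c1c_an

open Metric Set Filter Topology
open scoped NNReal

variable {F : Type*} [NormedAddCommGroup F] [NormedSpace ℂ F]

/-- Gronwall along segments of a convex set. -/
theorem gronwall {y y' : ℂ → F} {U : Set ℂ} (hU : Convex ℝ U) {K : ℝ}
    (hy : ∀ t ∈ U, HasDerivAt y (y' t) t) (hb : ∀ t ∈ U, ‖y' t‖ ≤ K * ‖y t‖)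
    {s t : ℂ} (hs : s ∈ U) (ht : t ∈ U) : ‖y t‖ ≤ ‖y s‖ * Real.exp (K * ‖t - s‖) := by
  let c : ℝ → ℂ := fun x => s + (x : ℂ) * (t - s)
  have hc : ∀ x ∈ Icc (0 : ℝ) 1, c x ∈ U := by
    intro x hx
    have := hU.add_smul_sub_mem hs ht hx
    simpa [c, Complex.real_smul] using this
  have hd : ∀ x ∈ Icc (0 : ℝ) 1, HasDerivAt (fun x => y (c x)) ((t - s) • y' (c x)) x := by
    intro x hx
    have h1 : HasDerivAt (fun z : ℂ => s + z * (t - s)) (t - s) (x : ℂ) := by
      simpa using ((hasDerivAt_id (x : ℂ)).mul_const (t - s)).const_add s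
    have h2 : HasDerivAt (fun z : ℂ => y (s + z * (t - s))) ((t - s) • y' (c x)) (x : ℂ) :=
      HasDerivAt.scomp (x : ℂ) (hy _ (hc x hx)) h1
    have h3 : HasDerivAt (fun x : ℝ => (x : ℂ)) 1 x := Complex.ofRealCLM.hasDerivAt
    simpa [c, Function.comp_def] using HasDerivAt.scomp x h2 h3
  have := norm_le_gronwallBound_of_norm_deriv_right_le (f := fun x => y (c x))
    (f' := fun x => (t - s) • y' (c x)) (δ := ‖y s‖) (K := K * ‖t - s‖) (ε := 0) (a := 0) (b := 1)
    (fun x hx => (hd x hx).continuousAt.continuousWithinAt)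
    (fun x hx => (hd x (Ico_subset_Icc_self hx)).hasDerivWithinAt) (by simp [c])
    (fun x hx => by
      have := hb _ (hc x (Ico_subset_Icc_self hx))
      rw [norm_smul, add_zero]
      calc ‖t - s‖ * ‖y' (c x)‖ ≤ ‖t - s‖ * (K * ‖y (c x)‖) := by gcongr
        _ = _ := by ring) 1 (by simp)
  simpa [c, gronwallBound_ε0] using this

/-- Two solutions of a Lipschitz equation on a convex set. -/
theorem gronwall_sub {v : ℂ → F → F} {S : Set F} {K : ℝ} {U : Set ℂ} (hU : Convex ℝ U)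
    (hv : ∀ t ∈ U, ∀ a ∈ S, ∀ b ∈ S, ‖v t a - v t b‖ ≤ K * ‖a - b‖) {f g : ℂ → F}
    (hf : ∀ t ∈ U, HasDerivAt f (v t (f t)) t ∧ f t ∈ S)
    (hg : ∀ t ∈ U, HasDerivAt g (v t (g t)) t ∧ g t ∈ S)
    {s t : ℂ} (hs : s ∈ U) (ht : t ∈ U) :
    ‖f t - g t‖ ≤ ‖f s - g s‖ * Real.exp (K * ‖t - s‖) :=
  gronwall (y := fun t => f t - g t) (y' := fun t => v t (f t) - v t (g t)) hU
    (fun t ht => (hf t ht).1.sub (hg t ht).1)
    (fun t ht => hv t ht _ (hf t ht).2 _ (hg t ht).2) hs ht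

/-- Local uniqueness for the equation `z' = κ(t) v(z)`. -/
theorem unique_local [CompleteSpace F] {v : F → F} {κ : ℂ → ℂ} {f g : ℂ → F} {t₀ : ℂ}
    (hv : ContDiffAt ℂ 1 v (f t₀)) (hκ : ContinuousAt κ t₀)
    (hf : ∀ᶠ t in 𝓝 t₀, HasDerivAt f (κ t • v (f t)) t)
    (hg : ∀ᶠ t in 𝓝 t₀, HasDerivAt g (κ t • v (g t)) t) (h0 : f t₀ = g t₀) :
    f =ᶠ[𝓝 t₀] g := by
  obtain ⟨K, S, hS, hK⟩ := hv.exists_lipschitzOnWith
  have h1 : ∀ᶠ t in 𝓝 t₀, f t ∈ S := hf.self_of_nhds.continuousAt hS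
  have h2 : ∀ᶠ t in 𝓝 t₀, g t ∈ S := hg.self_of_nhds.continuousAt (h0 ▸ hS)
  have h3 : ∀ᶠ t in 𝓝 t₀, ‖κ t‖ < ‖κ t₀‖ + 1 :=
    hκ.norm.eventually (gt_mem_nhds (lt_add_one _))
  obtain ⟨r, hr, H⟩ := Metric.eventually_nhds_iff_ball.1 (hf.and (hg.and (h1.and (h2.and h3))))
  filter_upwards [ball_mem_nhds t₀ hr] with t ht
  have := gronwall_sub (v := fun t z => κ t • v z) (S := S) (K := (‖κ t₀‖ + 1) * K)
    (convex_ball t₀ r) (fun t ht a ha b hb => by
      rw [← smul_sub, norm_smul, mul_assoc]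
      have := hK.dist_le_mul a ha b hb
      rw [dist_eq_norm, dist_eq_norm] at this
      have h5 := (H t ht).2.2.2.2.le
      gcongr)
    (fun t ht => ⟨(H t ht).1, (H t ht).2.2.1⟩) (fun t ht => ⟨(H t ht).2.1, (H t ht).2.2.2.1⟩)
    (mem_ball_self hr) ht
  rw [h0, sub_self, norm_zero, zero_mul] at this
  exact sub_eq_zero.1 (norm_le_zero_iff.1 this)

/-- Functions holomorphic on a ball that agree near one point agree on the ball. -/
theorem eqOn_ball_of_eventuallyEq [CompleteSpace F] {f g : ℂ → F} {c t₀ : ℂ} {r : ℝ}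
    (hf : ∀ t ∈ ball c r, DifferentiableAt ℂ f t) (hg : ∀ t ∈ ball c r, DifferentiableAt ℂ g t)
    (ht₀ : t₀ ∈ ball c r) (h : f =ᶠ[𝓝 t₀] g) : EqOn f g (ball c r) := by
  have h1 : AnalyticOnNhd ℂ f (ball c r) :=
    (DifferentiableOn.analyticOnNhd (fun t ht => (hf t ht).differentiableWithinAt) isOpen_ball)
  have h2 : AnalyticOnNhd ℂ g (ball c r) :=
    (DifferentiableOn.analyticOnNhd (fun t ht => (hg t ht).differentiableWithinAt) isOpen_ball)
  exact h1.eqOn_of_preconnected_of_eventuallyEq h2 (convex_ball c r).isPreconnected ht₀ h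

/-- Uniqueness on a ball for an autonomous equation. -/
theorem unique_ball [CompleteSpace F] {v : F → F} {f g : ℂ → F} {c t₀ : ℂ} {r : ℝ}
    (hv : ContDiffAt ℂ 1 v (f t₀))
    (hf : ∀ t ∈ ball c r, HasDerivAt f (v (f t)) t) (hg : ∀ t ∈ ball c r, HasDerivAt g (v (g t)) t)
    (ht₀ : t₀ ∈ ball c r) (h0 : f t₀ = g t₀) : EqOn f g (ball c r) := by
  refine eqOn_ball_of_eventuallyEq (fun t ht => (hf t ht).differentiableAt)
    (fun t ht => (hg t ht).differentiableAt) ht₀ ?_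
  refine unique_local (κ := fun _ => 1) hv continuousAt_const ?_ ?_ h0
  · filter_upwards [isOpen_ball.mem_nhds ht₀] with t ht using by simpa using hf t ht
  · filter_upwards [isOpen_ball.mem_nhds ht₀] with t ht using by simpa using hg t ht

/-- Picard iteration in complex time. -/
theorem picard [CompleteSpace F] {v : F → F} {z₀ : F} {a M r : ℝ} {K : ℝ≥0} (hr : 0 < r)
    (hd : ∀ z ∈ closedBall z₀ a, DifferentiableAt ℂ v z)
    (hK : LipschitzOnWith K v (closedBall z₀ a)) (hM : ∀ z ∈ closedBall z₀ a, ‖v z‖ ≤ M)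
    (hrM : r * M ≤ a / 2) (hrK : r * K ≤ 1 / 2) {z : F} (hz : z ∈ closedBall z₀ (a / 2)) :
    ∃ γ : ℂ → F, γ 0 = z ∧ ∀ t ∈ ball (0 : ℂ) r,
      HasDerivAt γ (v (γ t)) t ∧ γ t ∈ closedBall z₀ a := by
  have ha : 0 ≤ a := by
    have := mem_closedBall.1 hz
    have := dist_nonneg (x := z) (y := z₀)
    linarith
  have hza : z ∈ closedBall z₀ a := closedBall_subset_closedBall (by linarith) hz
  have hM0 : 0 ≤ M := (norm_nonneg _).trans (hM z hza)
  let P : (ℂ → F) → Prop := fun γ => ∀ t ∈ ball (0 : ℂ) r,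
    DifferentiableAt ℂ γ t ∧ γ t ∈ closedBall z₀ a
  have step : ∀ γ : {γ // P γ}, ∃ δ : {γ // P γ}, δ.1 0 = z ∧
      ∀ t ∈ ball (0 : ℂ) r, HasDerivAt δ.1 (v (γ.1 t)) t := by
    rintro ⟨γ, hγ⟩
    have h1 : DifferentiableOn ℂ (fun t => v (γ t)) (ball (0 : ℂ) r) := fun t ht =>
      ((hd _ (hγ t ht).2).comp t (hγ t ht).1).differentiableWithinAt
    obtain ⟨δ, h0, hδ⟩ := h1.isExactOn_ball.with_val_at 0 z
    refine ⟨⟨δ, fun t ht => ⟨(hδ t ht).differentiableAt, ?_⟩⟩, h0, hδ⟩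
    have := (convex_ball (0 : ℂ) r).norm_image_sub_le_of_norm_hasDerivWithin_le
      (f := δ) (f' := fun t => v (γ t)) (C := M) (fun t ht => (hδ t ht).hasDerivWithinAt)
      (fun t ht => hM _ (hγ t ht).2) (mem_ball_self hr) ht
    rw [h0, sub_zero] at this
    have h2 : ‖t‖ < r := by simpa using ht
    have h3 : dist (δ t) z ≤ a / 2 := by
      rw [dist_eq_norm]
      nlinarith [norm_nonneg t]
    have := dist_triangle (δ t) z z₀
    have := mem_closedBall.1 hz
    rw [mem_closedBall]; linarith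
  choose T hT0 hT using step
  let γ₀ : {γ // P γ} := ⟨fun _ => z, fun t _ => ⟨differentiableAt_const _, hza⟩⟩
  let γ : ℕ → ℂ → F := fun n => (T^[n] γ₀).1
  have hP : ∀ n, P (γ n) := fun n => (T^[n] γ₀).2
  have h0 : ∀ n, γ n 0 = z := by
    intro n
    cases n with
    | zero => rfl
    | succ n => simp only [γ, Function.iterate_succ_apply']; exact hT0 _
  have hder : ∀ n, ∀ t ∈ ball (0 : ℂ) r, HasDerivAt (γ (n + 1)) (v (γ n t)) t := by
    intro n t ht
    simp only [γ, Function.iterate_succ_apply']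
    exact hT _ t ht
  have hgeo : ∀ n, ∀ t ∈ ball (0 : ℂ) r, ‖γ (n + 1) t - γ n t‖ ≤ 2 * a * (1 / 2) ^ n := by
    intro n
    induction n with
    | zero =>
      intro t ht
      have h1 := mem_closedBall.1 (hP 1 t ht).2
      have h2 := mem_closedBall.1 (hP 0 t ht).2
      have := dist_triangle_right (γ 1 t) (γ 0 t) z₀
      rw [← dist_eq_norm]; simp only [pow_zero, zero_add]; linarith
    | succ n ih =>
      intro t ht
      have := (convex_ball (0 : ℂ) r).norm_image_sub_le_of_norm_hasDerivWithin_le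
        (f := fun t => γ (n + 2) t - γ (n + 1) t) (f' := fun t => v (γ (n + 1) t) - v (γ n t))
        (C := K * (2 * a * (1 / 2) ^ n))
        (fun t ht => ((hder (n + 1) t ht).sub (hder n t ht)).hasDerivWithinAt)
        (fun t ht => by
          have := hK.dist_le_mul _ (hP (n + 1) t ht).2 _ (hP n t ht).2
          rw [dist_eq_norm, dist_eq_norm] at this
          exact this.trans (by gcongr; exact ih t ht)) (mem_ball_self hr) ht
      simp only [h0, sub_self, sub_zero] at this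
      have h2 : ‖t‖ ≤ r := le_of_lt (by simpa using ht)
      calc _ ≤ K * (2 * a * (1 / 2) ^ n) * ‖t‖ := this
        _ ≤ K * (2 * a * (1 / 2) ^ n) * r := by gcongr
        _ = (r * K) * (2 * a * (1 / 2) ^ n) := by ring
        _ ≤ (1 / 2) * (2 * a * (1 / 2) ^ n) := by gcongr
        _ = _ := by ring
  have hgeo' : ∀ t ∈ ball (0 : ℂ) r, ∀ n,
      dist (γ n t) (γ (n + 1) t) ≤ 2 * a * (1 / 2) ^ n := fun t ht n => by
    rw [dist_comm, dist_eq_norm]; exact hgeo n t ht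
  let g : ℂ → F := fun t => limUnder atTop fun n => γ n t
  have hlim : ∀ t ∈ ball (0 : ℂ) r, Tendsto (fun n => γ n t) atTop (𝓝 (g t)) := fun t ht =>
    (cauchySeq_of_le_geometric (1 / 2) (2 * a) (by norm_num) (hgeo' t ht)).tendsto_limUnder
  have hmem : ∀ t ∈ ball (0 : ℂ) r, g t ∈ closedBall z₀ a := fun t ht =>
    isClosed_closedBall.mem_of_tendsto (hlim t ht) (Eventually.of_forall fun n => (hP n t ht).2)
  have hdist : ∀ t ∈ ball (0 : ℂ) r, ∀ n, dist (γ n t) (g t) ≤ 4 * a * (1 / 2) ^ n := by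
    intro t ht n
    have := dist_le_of_le_geometric_of_tendsto (1 / 2) (2 * a) (by norm_num) (hgeo' t ht)
      (hlim t ht) n
    refine this.trans (le_of_eq ?_)
    ring
  have hunif : TendstoUniformlyOn (fun n t => v (γ n t)) (fun t => v (g t)) atTop
      (ball (0 : ℂ) r) := by
    rw [Metric.tendstoUniformlyOn_iff]
    intro ε hε
    have h1 : Tendsto (fun n : ℕ => K * (4 * a * (1 / 2 : ℝ) ^ n)) atTop (𝓝 (K * (4 * a * 0))) :=
      ((tendsto_pow_atTop_nhds_zero_of_lt_one (by norm_num) (by norm_num)).const_mul _).const_mul _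
    rw [mul_zero, mul_zero] at h1
    filter_upwards [h1.eventually (gt_mem_nhds hε)] with n hn t ht
    have := hK.dist_le_mul _ (hmem t ht) _ (hP n t ht).2
    refine lt_of_le_of_lt (this.trans ?_) hn
    rw [dist_comm]
    gcongr
    exact hdist t ht n
  refine ⟨g, ?_, fun t ht => ⟨?_, hmem t ht⟩⟩
  · have := hlim 0 (mem_ball_self hr)
    simp only [h0] at this
    exact (tendsto_nhds_unique tendsto_const_nhds this).symm
  · exact hasDerivAt_of_tendstoUniformlyOn (f := fun n => γ (n + 1)) isOpen_ball hunif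
      (Eventually.of_forall fun n t ht => hder n t ht)
      (fun t ht => (hlim t ht).comp (tendsto_add_atTop_nat 1)) ht

/-- Local existence in complex time, with a radius that is uniform near `z₀`; the solutions stay
in a closed ball, inside a prescribed neighbourhood, on which the field is Lipschitz. -/
theorem exists_sol [CompleteSpace F] {v : F → F} {z₀ : F} (hv : ContDiffAt ℂ 1 v z₀)
    {S : Set F} (hS : S ∈ 𝓝 z₀) :
    ∃ (a r : ℝ) (K : ℝ≥0), 0 < a ∧ 0 < r ∧ closedBall z₀ a ⊆ S ∧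
      LipschitzOnWith K v (closedBall z₀ a) ∧ ∀ z ∈ closedBall z₀ (a / 2),
        ∃ γ : ℂ → F, γ 0 = z ∧ ∀ t ∈ ball (0 : ℂ) r,
          HasDerivAt γ (v (γ t)) t ∧ γ t ∈ closedBall z₀ a := by
  obtain ⟨K, S', hS', hK⟩ := hv.exists_lipschitzOnWith
  have h1 : ∀ᶠ z in 𝓝 z₀, DifferentiableAt ℂ v z := by
    filter_upwards [hv.eventually (by simp)] with z hz using hz.differentiableAt (by simp)
  have h2 : ∀ᶠ z in 𝓝 z₀, ‖v z‖ < ‖v z₀‖ + 1 :=
    hv.continuousAt.norm.eventually (gt_mem_nhds (lt_add_one _))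
  obtain ⟨a, ha, H⟩ := Metric.nhds_basis_closedBall.eventually_iff.1
    (h1.and (h2.and ((show ∀ᶠ z in 𝓝 z₀, z ∈ S from hS).and (show ∀ᶠ z in 𝓝 z₀, z ∈ S' from hS'))))
  have hM : 0 < ‖v z₀‖ + 1 := by positivity
  have hK1 : (0 : ℝ) < K + 1 := by positivity
  refine ⟨a, min (a / 2 / (‖v z₀‖ + 1)) (1 / 2 / (K + 1)), K, ha, by positivity,
    fun z hz => (H hz).2.2.1, hK.mono fun z hz => (H hz).2.2.2, fun z hz => ?_⟩
  refine picard (M := ‖v z₀‖ + 1) (by positivity) (fun z hz => (H hz).1)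
    (hK.mono fun z hz => (H hz).2.2.2) (fun z hz => (H hz).2.1.le) ?_ ?_ hz
  · exact (le_div_iff₀ hM).1 (min_le_left _ _)
  · have h3 := (le_div_iff₀ hK1).1 (min_le_right (a / 2 / (‖v z₀‖ + 1)) (1 / 2 / (K + 1)))
    have h4 : 0 < min (a / 2 / (‖v z₀‖ + 1)) (1 / 2 / ((K : ℝ) + 1)) := by positivity
    nlinarith

end Pool.Agent.P.MP_a31c1c_an
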