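import Mathlib

set_option autoImplicit false

namespace Pool.Agent.P.MP_a31c1c_an

open Metric

/-- The Laplacian of a real function on the plane. -/
noncomputable def lap (f : ℂ → ℝ) (t : ℂ) : ℝ :=
  fderiv ℝ (fun s => fderiv ℝ f s 1) t 1 + fderiv ℝ (fun s => fderiv ℝ f s Complex.I) t Complex.I

theorem lap_congr {f g : ℂ → ℝ} {t : ℂ} (h : f =ᶠ[nhds t] g) : lap f t = lap g t := by
  have h1 : ∀ v : ℂ, (fun s => fderiv ℝ f s v) =ᶠ[nhds t] fun s => fderiv ℝ g s v := fun v =>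
    (h.fderiv (𝕜 := ℝ)).mono (fun s hs => by simp only [hs])
  unfold lap
  rw [(h1 1).fderiv_eq, (h1 Complex.I).fderiv_eq]

theorem hasFDerivAt_fderiv_of_two {f : ℂ → ℝ} {t : ℂ} (hf : ContDiffAt ℝ 2 f t) :
    HasFDerivAt (fderiv ℝ f) (fderiv ℝ (fderiv ℝ f) t) t :=
  ((hf.fderiv_right (m := 1) (by norm_num)).differentiableAt one_ne_zero).hasFDerivAt

theorem lap_eq {f : ℂ → ℝ} {t : ℂ} (hf : ContDiffAt ℝ 2 f t) :
    lap f t = fderiv ℝ (fderiv ℝ f) t 1 1 + fderiv ℝ (fderiv ℝ f) t Complex.I Complex.I := by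
  have h : ∀ v : ℂ, fderiv ℝ (fun s => fderiv ℝ f s v) t v = fderiv ℝ (fderiv ℝ f) t v v :=
    fun v => by
      rw [((hasFDerivAt_fderiv_of_two hf).clm_apply (hasFDerivAt_const v t)).fderiv]; simp
  rw [lap, h, h]

theorem bilin_rot (B : ℂ →L[ℝ] ℂ →L[ℝ] ℝ) (c : ℂ) :
    B c c + B (c * Complex.I) (c * Complex.I) = ‖c‖ ^ 2 * (B 1 1 + B Complex.I Complex.I) := by
  have e1 : c = c.re • (1:ℂ) + c.im • Complex.I := by
    apply Complex.ext <;> simp
  have e2 : c * Complex.I = (-c.im) • (1:ℂ) + c.re • Complex.I := by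
    apply Complex.ext <;> simp
  rw [e2, Complex.sq_norm, Complex.normSq_apply]
  generalize c.re = a at *
  generalize c.im = b at *
  subst e1
  simp only [map_add, map_smul, add_apply, smul_apply, smul_eq_mul]
  ring

/-- Conformal covariance of the Laplacian. -/
theorem lap_comp {f : ℂ → ℝ} {τ : ℂ → ℂ} {t : ℂ} (hf : ContDiffAt ℝ 2 f (τ t))
    (hτ : AnalyticAt ℂ τ t) : lap (fun s => f (τ s)) t = ‖deriv τ t‖ ^ 2 * lap f (τ t) := by
  have hd : ∀ {g : ℂ → ℂ} {s : ℂ}, AnalyticAt ℂ g s →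
      HasFDerivAt g ((ContinuousLinearMap.mul ℝ ℂ) (deriv g s)) s := fun {g s} hg => by
    have := hg.differentiableAt.hasDerivAt.hasFDerivAt.restrictScalars ℝ
    refine this.congr_fderiv ?_
    ext v
    simp [mul_comm]
  have h1 : ∀ᶠ s in nhds t, ContDiffAt ℝ 2 f (τ s) :=
    hτ.continuousAt.eventually (hf.eventually (by simp))
  have key : ∀ v : ℂ, fderiv ℝ (fun s => fderiv ℝ (fun s => f (τ s)) s v) t v =
      fderiv ℝ (fderiv ℝ f) (τ t) (deriv τ t * v) (deriv τ t * v)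
        + fderiv ℝ f (τ t) (deriv (deriv τ) t * v * v) := by
    intro v
    have h2 : (fun s => fderiv ℝ (fun s => f (τ s)) s v) =ᶠ[nhds t]
        fun s => fderiv ℝ f (τ s) (deriv τ s * v) := by
      filter_upwards [h1, hτ.eventually_analyticAt] with s hs hs'
      have := (hs.differentiableAt two_ne_zero).hasFDerivAt.comp s (hd hs')
      rw [show (fun s => f (τ s)) = f ∘ τ from rfl, this.fderiv]
      simp
    have h3 := ((hasFDerivAt_fderiv_of_two hf).comp t (hd hτ)).clm_apply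
      ((hd hτ.deriv).mul_const v)
    rw [h2.fderiv_eq]
    erw [h3.fderiv]
    simp [add_comm, mul_comm]
  rw [lap, key, key, lap_eq hf, ← bilin_rot, mul_assoc _ Complex.I, Complex.I_mul_I]
  simp only [mul_one, mul_neg, map_neg]
  ring

theorem integral_sub_eq_swap {φ φ' : ℝ → ℝ → ℝ} {ρ : ℝ} (hρ : 0 ≤ ρ)
    (hc : ContinuousOn (Function.uncurry φ') (Set.Icc 0 ρ ×ˢ Set.univ))
    (hd : ∀ θ, ∀ σ ∈ Set.Icc 0 ρ, HasDerivAt (fun σ => φ σ θ) (φ' σ θ) σ) :
    ∫ θ in (0 : ℝ)..2 * Real.pi, (φ ρ θ - φ 0 θ) =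
      ∫ σ in (0 : ℝ)..ρ, ∫ θ in (0 : ℝ)..2 * Real.pi, φ' σ θ := by
  rw [MeasureTheory.intervalIntegral_intervalIntegral_swap]
  · refine intervalIntegral.integral_congr (fun θ _ => ?_)
    refine (intervalIntegral.integral_eq_sub_of_hasDerivAt (f := fun σ => φ σ θ)
      (fun σ hσ => hd θ σ (by rwa [Set.uIcc_of_le hρ] at hσ)) ?_).symm
    refine ContinuousOn.intervalIntegrable ?_
    rw [Set.uIcc_of_le hρ]
    exact hc.comp (f := fun σ : ℝ => (σ, θ)) (by fun_prop) (fun σ hσ => ⟨hσ, trivial⟩)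
  · refine MeasureTheory.IntegrableOn.mono_set (t := Set.Icc 0 ρ ×ˢ Set.uIcc 0 (2 * Real.pi))
      (ContinuousOn.integrableOn_compact (isCompact_Icc.prod isCompact_uIcc)
        (hc.mono (Set.prod_mono le_rfl (Set.subset_univ _)))) (Set.prod_mono ?_ Set.uIoc_subset_uIcc)
    rw [Set.uIoc_of_le hρ]
    exact Set.Ioc_subset_Icc_self

/-- The sub-mean-value inequality for a `C²` function with non-negative Laplacian. -/
theorem submean {f : ℂ → ℝ} {z : ℂ} {r : ℝ} (hr : 0 < r)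
    (hf : ∀ t ∈ closedBall z r, ContDiffAt ℝ 2 f t ∧ 0 ≤ lap f t) :
    2 * Real.pi * f z ≤ ∫ θ in (0 : ℝ)..2 * Real.pi, f (circleMap z r θ) := by
  let e : ℝ → ℂ := fun θ => Complex.exp (θ * Complex.I)
  let p : ℝ → ℝ → ℂ := fun σ θ => z + σ • e θ
  have he : Continuous e := by fun_prop
  have hp : Continuous (Function.uncurry p) := by
    change Continuous fun q : ℝ × ℝ => z + q.1 • e q.2
    fun_prop
  have hne : ∀ θ, ‖e θ‖ = 1 := fun θ => Complex.norm_exp_ofReal_mul_I θ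
  have hmem : ∀ σ ∈ Set.Icc 0 r, ∀ θ, p σ θ ∈ closedBall z r := fun σ hσ θ => by
    simp only [p, mem_closedBall, dist_self_add_left, norm_smul, hne, mul_one, Real.norm_eq_abs,
      abs_of_nonneg hσ.1, hσ.2]
  have hpσ : ∀ σ θ, HasDerivAt (fun σ => p σ θ) (e θ) σ := fun σ θ =>
    (((hasDerivAt_id σ).smul_const (e θ)).const_add z).congr_deriv (one_smul _ _)
  have heθ : ∀ θ, HasDerivAt e (e θ * Complex.I) θ := fun θ => by
    simpa using ((hasDerivAt_id θ).ofReal_comp.mul_const Complex.I).cexp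
  have c1 : ContinuousOn (fun q : ℝ × ℝ => fderiv ℝ f (p q.1 q.2)) (Set.Icc 0 r ×ˢ Set.univ) :=
    fun q hq => (ContinuousAt.comp (f := Function.uncurry p)
      ((hf _ (hmem _ hq.1 _)).1.continuousAt_fderiv two_ne_zero) hp.continuousAt).continuousWithinAt
  have c2 : ContinuousOn (fun q : ℝ × ℝ => fderiv ℝ (fderiv ℝ f) (p q.1 q.2))
      (Set.Icc 0 r ×ˢ Set.univ) :=
    fun q hq => (ContinuousAt.comp (f := Function.uncurry p)
      (((hf _ (hmem _ hq.1 _)).1.fderiv_right (m := 1) (by norm_num)).continuousAt_fderiv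
        one_ne_zero) hp.continuousAt).continuousWithinAt
  have ce : ContinuousOn (fun q : ℝ × ℝ => e q.2) (Set.Icc 0 r ×ˢ Set.univ) :=
    (he.comp continuous_snd).continuousOn
  have slice : ∀ {F : ℝ × ℝ → ℝ}, ContinuousOn F (Set.Icc 0 r ×ˢ Set.univ) → ∀ σ ∈ Set.Icc 0 r,
      IntervalIntegrable (fun θ => F (σ, θ)) MeasureTheory.volume 0 (2 * Real.pi) :=
    fun {F} hF σ hσ => (hF.comp_continuous (f := fun θ : ℝ => (σ, θ)) (by fun_prop)
      (fun θ => ⟨hσ, trivial⟩)).intervalIntegrable _ _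
  have c3 := (c1.clm_apply ce).add (continuousOn_fst.mul ((c2.clm_apply ce).clm_apply ce))
  have ce' := ce.mul (continuousOn_const (c := Complex.I))
  have c4 := (continuousOn_fst.mul ((c2.clm_apply ce').clm_apply ce')).sub (c1.clm_apply ce)
  have A : ∀ σ ∈ Set.Icc 0 r, 0 ≤ ∫ θ in (0 : ℝ)..2 * Real.pi,
      (fderiv ℝ f (p σ θ) (e θ) + σ * fderiv ℝ (fderiv ℝ f) (p σ θ) (e θ) (e θ)) := by
    intro σ hσ
    have h1 := intervalIntegral.integral_eq_sub_of_hasDerivAt (a := 0) (b := 2 * Real.pi)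
      (f := fun θ => fderiv ℝ f (p σ θ) (e θ * Complex.I))
      (f' := fun θ => σ * fderiv ℝ (fderiv ℝ f) (p σ θ) (e θ * Complex.I) (e θ * Complex.I)
        - fderiv ℝ f (p σ θ) (e θ))
      (fun θ _ => by
        have h2 := (hasFDerivAt_fderiv_of_two (hf _ (hmem σ hσ θ)).1).comp_hasDerivAt θ
          (((heθ θ).const_smul σ).const_add z)
        refine (h2.clm_apply ((heθ θ).mul_const Complex.I)).congr_deriv ?_
        rw [mul_assoc (e θ), Complex.I_mul_I, map_smul]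
        simp [p, sub_eq_add_neg]) (slice c4 σ hσ)
    have e0 : e (2 * Real.pi) = e 0 := by
      simp [e, Complex.exp_two_pi_mul_I]
    have e1 : p σ (2 * Real.pi) = p σ 0 := by simp only [p, e0]
    rw [e0, e1, sub_self] at h1
    have h5 := intervalIntegral.integral_add (slice c3 σ hσ) (slice c4 σ hσ)
    simp only [Pi.add_apply, Pi.sub_apply, Pi.mul_apply] at h5
    rw [h1, add_zero] at h5
    rw [← h5]
    refine intervalIntegral.integral_nonneg (by positivity) (fun θ _ => ?_)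
    have h3 := (hf _ (hmem σ hσ θ)).2
    rw [lap_eq (hf _ (hmem σ hσ θ)).1] at h3
    have h4 := bilin_rot (fderiv ℝ (fderiv ℝ f) (p σ θ)) (e θ)
    rw [hne, one_pow, one_mul] at h4
    rw [← h4] at h3
    have := mul_nonneg hσ.1 h3
    linarith
  have B : ∀ ρ ∈ Set.Ioc 0 r, 0 ≤ ∫ θ in (0 : ℝ)..2 * Real.pi, fderiv ℝ f (p ρ θ) (e θ) := by
    intro ρ hρ
    have hsub : Set.Icc 0 ρ ⊆ Set.Icc 0 r := Set.Icc_subset_Icc_right hρ.2
    have h1 := integral_sub_eq_swap (φ := fun σ θ => σ * fderiv ℝ f (p σ θ) (e θ))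
      (φ' := fun σ θ => fderiv ℝ f (p σ θ) (e θ) + σ * fderiv ℝ (fderiv ℝ f) (p σ θ) (e θ) (e θ))
      hρ.1.le (c3.mono (Set.prod_mono hsub le_rfl)) (fun θ σ hσ => by
        have h2 := (hasFDerivAt_fderiv_of_two (hf _ (hmem σ (hsub hσ) θ)).1).comp_hasDerivAt σ
          (hpσ σ θ)
        simpa using (hasDerivAt_id σ).fun_mul (h2.clm_apply (hasDerivAt_const σ (e θ))))
    simp only [zero_mul, sub_zero, intervalIntegral.integral_const_mul] at h1
    have h2 := intervalIntegral.integral_nonneg (μ := MeasureTheory.volume) hρ.1.le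
      (fun σ hσ => A σ (hsub hσ))
    rw [← h1] at h2
    exact (mul_nonneg_iff_of_pos_left hρ.1).1 h2
  have h1 := integral_sub_eq_swap (φ := fun σ θ => f (p σ θ))
    (φ' := fun σ θ => fderiv ℝ f (p σ θ) (e θ)) hr.le (c1.clm_apply ce) (fun θ σ hσ =>
      ((hf _ (hmem σ hσ θ)).1.differentiableAt two_ne_zero).hasFDerivAt.comp_hasDerivAt σ (hpσ σ θ))
  have h2 : 0 ≤ ∫ σ in (0 : ℝ)..r, ∫ θ in (0 : ℝ)..2 * Real.pi, fderiv ℝ f (p σ θ) (e θ) := by
    rw [intervalIntegral.integral_of_le hr.le]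
    exact MeasureTheory.setIntegral_nonneg measurableSet_Ioc B
  have c0 : ContinuousOn (fun q : ℝ × ℝ => f (p q.1 q.2)) (Set.Icc 0 r ×ˢ Set.univ) :=
    fun q hq => (ContinuousAt.comp (f := Function.uncurry p)
      (hf _ (hmem _ hq.1 _)).1.continuousAt hp.continuousAt).continuousWithinAt
  rw [← h1, intervalIntegral.integral_sub (slice c0 r ⟨hr.le, le_rfl⟩)
    (slice c0 0 ⟨le_rfl, hr.le⟩)] at h2
  simp only [p, zero_smul, add_zero, intervalIntegral.integral_const, sub_zero, smul_eq_mul] at h2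
  simpa [circleMap, e] using h2

end Pool.Agent.P.MP_a31c1c_an
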