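import Pool.Agent.P.MP_a31c1c_an.Energy
import Pool.Agent.P.MP_a31c1c_an.Sub

/-!
Calculus on the plane: integration by parts, radial kernels, weak limits and their mollifications.
-/

set_option autoImplicit false

namespace Pool.Agent.P.MP_a31c1c_an

open Metric Set Filter Topology MeasureTheory
open scoped ENNReal Convolution

/-- The Dirichlet pairing on the plane. -/
noncomputable def bil (f θ : ℂ → ℝ) : ℝ :=
  ∫ t, (fderiv ℝ f t 1 * fderiv ℝ θ t 1 + fderiv ℝ f t Complex.I * fderiv ℝ θ t Complex.I)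

/-- Test functions supported in a closed disc. -/
structure Test (θ : ℂ → ℝ) (x : ℂ) (ε : ℝ) : Prop where
  smooth : ContDiff ℝ 2 θ
  supp : tsupport θ ⊆ closedBall x ε

theorem Test.compact {θ : ℂ → ℝ} {x : ℂ} {ε : ℝ} (h : Test θ x ε) : HasCompactSupport θ :=
  (isCompact_closedBall x ε).of_isClosed_subset (isClosed_tsupport _) h.supp

theorem integrable_mul_of_supp {a b : ℂ → ℝ} {K : Set ℂ} (hK : IsCompact K)
    (ha : ∀ t ∈ K, ContinuousAt a t) (hb : Continuous b) (hs : tsupport b ⊆ K) :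
    Integrable fun t => a t * b t := by
  refine Continuous.integrable_of_hasCompactSupport (continuous_iff_continuousAt.2 fun t => ?_) ?_
  · by_cases ht : t ∈ tsupport b
    · exact (ha t (hs ht)).mul hb.continuousAt
    · refine (continuousAt_const (y := (0 : ℝ))).congr ?_
      filter_upwards [notMem_tsupport_iff_eventuallyEq.1 ht] with s hs using by simp [hs]
  · exact HasCompactSupport.mul_left (hK.of_isClosed_subset (isClosed_tsupport _) hs)

theorem contDiff_fderiv_apply {θ : ℂ → ℝ} (h : ContDiff ℝ 2 θ) (ξ : ℂ) :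
    ContDiff ℝ 1 fun t => fderiv ℝ θ t ξ :=
  (h.fderiv_right (m := 1) (by norm_num)).clm_apply contDiff_const

theorem continuousAt_fderiv_apply {f : ℂ → ℝ} {t : ℂ} (h : ContDiffAt ℝ 1 f t) (ξ : ℂ) :
    ContinuousAt (fun t => fderiv ℝ f t ξ) t :=
  ((h.fderiv_right (m := 0) (by norm_num)).continuousAt).clm_apply continuousAt_const

theorem continuous_lap {θ : ℂ → ℝ} (h : ContDiff ℝ 2 θ) : Continuous (lap θ) :=
  (((contDiff_fderiv_apply h 1).continuous_fderiv (by norm_num)).clm_apply continuous_const).add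
    (((contDiff_fderiv_apply h _).continuous_fderiv (by norm_num)).clm_apply continuous_const)

theorem tsupport_lap (θ : ℂ → ℝ) : tsupport (lap θ) ⊆ tsupport θ :=
  (tsupport_add _ _).trans (union_subset
    ((tsupport_fderiv_apply_subset ℝ _).trans (tsupport_fderiv_apply_subset ℝ _))
    ((tsupport_fderiv_apply_subset ℝ _).trans (tsupport_fderiv_apply_subset ℝ _)))

theorem integrable_bil {f θ : ℂ → ℝ} {x : ℂ} {ε : ℝ} (hθ : Test θ x ε)
    (hf : ∀ t ∈ closedBall x ε, ContDiffAt ℝ 1 f t) (ξ : ℂ) :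
    Integrable fun t => fderiv ℝ f t ξ * fderiv ℝ θ t ξ :=
  integrable_mul_of_supp (isCompact_closedBall x ε)
    (fun t ht => continuousAt_fderiv_apply (hf t ht) ξ)
    (contDiff_fderiv_apply hθ.smooth ξ).continuous
    ((tsupport_fderiv_apply_subset ℝ ξ).trans hθ.supp)

/-- Green's identity. -/
theorem ibp {f θ : ℂ → ℝ} {x : ℂ} {ε : ℝ} (hθ : Test θ x ε)
    (hf : ∀ t ∈ closedBall x ε, ContDiffAt ℝ 1 f t) : ∫ t, f t * lap θ t = -bil f θ := by
  have hK := isCompact_closedBall x ε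
  have hc : ∀ t ∈ closedBall x ε, ContinuousAt f t := fun t ht => (hf t ht).continuousAt
  have h2 : ∀ ξ : ℂ, Integrable fun t => f t * fderiv ℝ (fun s => fderiv ℝ θ s ξ) t ξ := fun ξ =>
    integrable_mul_of_supp hK hc
      (((contDiff_fderiv_apply hθ.smooth ξ).continuous_fderiv (by norm_num)).clm_apply
        continuous_const)
      (((tsupport_fderiv_apply_subset ℝ ξ).trans (tsupport_fderiv_apply_subset ℝ ξ)).trans hθ.supp)
  have h1 : ∀ ξ : ℂ, ∫ t, f t * fderiv ℝ (fun s => fderiv ℝ θ s ξ) t ξ =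
      -∫ t, fderiv ℝ f t ξ * fderiv ℝ θ t ξ := fun ξ =>
    integral_mul_fderiv_eq_neg_fderiv_mul_of_integrable (integrable_bil hθ hf ξ) (h2 ξ)
      (integrable_mul_of_supp hK hc (contDiff_fderiv_apply hθ.smooth ξ).continuous
        ((tsupport_fderiv_apply_subset ℝ ξ).trans hθ.supp))
      (fun t ht => (hf t (hθ.supp (tsupport_fderiv_apply_subset ℝ ξ ht))).differentiableAt
        (by norm_num))
      (fun t _ => (contDiff_fderiv_apply hθ.smooth ξ).differentiable (by norm_num) t)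
  unfold lap bil
  simp only [mul_add]
  rw [integral_add (h2 1) (h2 _), h1, h1,
    integral_add (integrable_bil hθ hf 1) (integrable_bil hθ hf _)]
  ring

/-- Squared modulus. -/
def nsq (t : ℂ) : ℝ := t.re ^ 2 + t.im ^ 2

theorem nsq_eq (t : ℂ) : nsq t = ‖t‖ ^ 2 := by
  rw [← Complex.normSq_eq_norm_sq, Complex.normSq_apply, nsq]; ring

theorem contDiff_nsq {n : WithTop ℕ∞} : ContDiff ℝ n nsq :=
  (Complex.reCLM.contDiff.pow 2).add (Complex.imCLM.contDiff.pow 2)

theorem fderiv_radial {N : ℝ → ℝ} {n : ℝ} {t : ℂ} (h : HasDerivAt N n (nsq t)) :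
    HasFDerivAt (fun s => N (nsq s))
      (n • ((2 * t.re) • Complex.reCLM + (2 * t.im) • Complex.imCLM)) t := by
  have h1 : HasFDerivAt nsq ((2 * t.re) • Complex.reCLM + (2 * t.im) • Complex.imCLM) t := by
    have a := (Complex.reCLM.hasFDerivAt (x := t)).pow 2
    have b := (Complex.imCLM.hasFDerivAt (x := t)).pow 2
    refine (a.add b).congr_fderiv ?_
    ext ξ
    simp
  exact h.comp_hasFDerivAt t h1

theorem lap_radial {N n n' : ℝ → ℝ} (h : ∀ s, HasDerivAt N (n s) s) {t : ℂ}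
    (h' : HasDerivAt n (n' (nsq t)) (nsq t)) :
    lap (fun s => N (nsq s)) t = 4 * n (nsq t) + 4 * nsq t * n' (nsq t) := by
  have e1 : (fun s => fderiv ℝ (fun s => N (nsq s)) s 1) = fun s => n (nsq s) * (2 * s.re) := by
    ext s; rw [(fderiv_radial (h _)).fderiv]; simp
  have e2 : (fun s => fderiv ℝ (fun s => N (nsq s)) s Complex.I) =
      fun s => n (nsq s) * (2 * s.im) := by
    ext s; rw [(fderiv_radial (h _)).fderiv]; simp
  have a := (fderiv_radial h').mul ((Complex.reCLM.hasFDerivAt (x := t)).const_mul 2)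
  have b := (fderiv_radial h').mul ((Complex.imCLM.hasFDerivAt (x := t)).const_mul 2)
  unfold lap
  rw [e1, e2]
  have a' := a.fderiv
  have b' := b.fderiv
  rw [show (fun s : ℂ => n (nsq s) * (2 * s.re)) =
      (fun s => n (nsq s)) * fun s => 2 * Complex.reCLM s from rfl, a',
    show (fun s : ℂ => n (nsq s) * (2 * s.im)) =
      (fun s => n (nsq s)) * fun s => 2 * Complex.imCLM s from rfl, b']
  simp [nsq]
  ring

/-- Normalised radial profiles. -/
structure Ker (k : ℝ → ℝ) (ε : ℝ) : Prop where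
  pos : 0 < ε
  smooth : ContDiff ℝ 2 k
  nonneg : ∀ x, 0 ≤ k x
  const : k =ᶠ[𝓝 0] fun _ => k 0
  zero : ∀ x, ε ^ 2 ≤ x → k x = 0
  int : ∀ s, ε ^ 2 ≤ s → ∫ x in (0 : ℝ)..s, k x = 1

theorem Ker.mono {k : ℝ → ℝ} {ε ε' : ℝ} (h : Ker k ε) (he : ε ≤ ε') : Ker k ε' :=
  have : ε ^ 2 ≤ ε' ^ 2 := by have := h.pos; gcongr
  ⟨h.pos.trans_le he, h.smooth, h.nonneg, h.const, fun x hx => h.zero x (this.trans hx),
    fun x hx => h.int x (this.trans hx)⟩

theorem exists_ker {ε : ℝ} (hε : 0 < ε) :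
    ∃ k, Ker k ε ∧ 0 < k 0 ∧ ∀ x, 0 ≤ x → x ≤ (ε / 2) ^ 2 → k x = k 0 := by
  let b : ContDiffBump (0 : ℝ) := ⟨(ε / 2) ^ 2, ε ^ 2, by positivity, by nlinarith⟩
  have hb0 : ∀ x, ε ^ 2 ≤ x → b x = 0 := fun x hx =>
    b.zero_of_le_dist (by rw [Real.dist_eq, sub_zero]; exact hx.trans (le_abs_self x))
  have hb1 : ∀ x, |x| ≤ (ε / 2) ^ 2 → b x = 1 := fun x hx =>
    b.one_of_mem_closedBall (by rw [mem_closedBall, Real.dist_eq, sub_zero]; exact hx)
  have hi : ∀ a c, IntervalIntegrable b volume a c := fun a c =>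
    b.continuous.intervalIntegrable a c
  set J := ∫ x in (0 : ℝ)..ε ^ 2, b x with hJ
  have hpos : 0 < J := intervalIntegral.intervalIntegral_pos_of_pos_on (hi _ _)
    (fun x hx => b.pos_of_mem_ball (by
      rw [mem_ball, Real.dist_eq, sub_zero, abs_of_pos hx.1]; exact hx.2)) (by positivity)
  have h00 : b 0 = 1 := hb1 0 (by rw [abs_zero]; positivity)
  refine ⟨fun x => b x / J, ⟨hε, b.contDiff.div_const _, fun x => div_nonneg b.nonneg hpos.le, ?_,
    fun x hx => by simp [hb0 x hx], fun s hs => ?_⟩, by simpa [h00] using hpos,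
    fun x h0 hx => by simp only [h00, hb1 x (by rwa [abs_of_nonneg h0])]⟩
  · filter_upwards [b.eventuallyEq_one] with x hx using by simp [hx, h00]
  · rw [intervalIntegral.integral_div,
      ← intervalIntegral.integral_add_adjacent_intervals (hi 0 (ε ^ 2)) (hi _ s)]
    have : ∫ x in (ε ^ 2)..s, b x = 0 := by
      rw [intervalIntegral.integral_congr (g := fun _ => 0)]
      · simp
      · intro x hx
        rw [uIcc_of_le hs] at hx
        exact hb0 x hx.1
    rw [this, add_zero, div_self hpos.ne']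

theorem test_of_radial {N : ℝ → ℝ} {ε : ℝ} (hε : 0 < ε) (hN : ContDiff ℝ 2 N)
    (h0 : ∀ x, ε ^ 2 ≤ x → N x = 0) (x : ℂ) : Test (fun t => N (nsq (x - t))) x ε := by
  refine ⟨hN.comp (contDiff_nsq.comp (contDiff_const.sub contDiff_id)), ?_⟩
  refine closure_minimal (fun t ht => ?_) isClosed_closedBall
  by_contra h
  refine ht (h0 _ ?_)
  rw [mem_closedBall, dist_comm, dist_eq_norm, not_le] at h
  rw [nsq_eq]
  gcongr

theorem Ker.test {k : ℝ → ℝ} {ε : ℝ} (h : Ker k ε) (x : ℂ) :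
    Test (fun t => k (nsq (x - t))) x ε :=
  test_of_radial h.pos h.smooth h.zero x

theorem lap_sub {F : ℂ → ℝ} (hF : ContDiff ℝ 2 F) (x t : ℂ) :
    lap (fun s => F (x - s)) t = lap F (x - t) := by
  have := lap_comp (f := F) (τ := fun s => x - s) (t := t) hF.contDiffAt (by fun_prop)
  simpa using this

/-- The difference of two normalised radial kernels is the Laplacian of a test function. -/
theorem Ker.exists_lap {k₁ k₂ : ℝ → ℝ} {ε : ℝ} (h₁ : Ker k₁ ε) (h₂ : Ker k₂ ε) (x : ℂ) :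
    ∃ η, Test η x ε ∧ ∀ t, lap η t = k₁ (nsq (x - t)) - k₂ (nsq (x - t)) := by
  let k : ℝ → ℝ := fun s => k₁ s - k₂ s
  have hk : ContDiff ℝ 2 k := h₁.smooth.sub h₂.smooth
  let J : ℝ → ℝ := fun s => ∫ y in (0 : ℝ)..s, k y
  have hJ : ∀ s, HasDerivAt J (k s) s := fun s => hk.continuous.integral_hasStrictDerivAt 0 s
    |>.hasDerivAt
  have hJc : ContDiff ℝ 1 J := by
    rw [contDiff_one_iff_deriv]
    refine ⟨fun s => (hJ s).differentiableAt, ?_⟩
    rw [show deriv J = k from funext fun s => (hJ s).deriv]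
    exact hk.continuous
  let n : ℝ → ℝ := fun s => if s = 0 then k 0 / 4 else J s / (4 * s)
  have hn0 : n =ᶠ[𝓝 0] fun _ => k 0 / 4 := by
    obtain ⟨δ, hδ, H⟩ := Metric.eventually_nhds_iff_ball.1 (h₁.const.and h₂.const)
    filter_upwards [ball_mem_nhds 0 hδ] with s hs
    by_cases h : s = 0
    · simp [n, h]
    · have : J s = ∫ _ in (0 : ℝ)..s, k 0 := by
        refine intervalIntegral.integral_congr fun y hy => ?_
        have := H y ((convex_ball (0 : ℝ) δ).ordConnected.uIcc_subset (mem_ball_self hδ) hs hy)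
        simp only [k, this.1, this.2]
      simp only [n, if_neg h, this, intervalIntegral.integral_const, sub_zero, smul_eq_mul]
      field_simp
  have hn1 : ∀ s, s ≠ 0 → n =ᶠ[𝓝 s] fun s => J s / (4 * s) := fun s hs => by
    filter_upwards [eventually_ne_nhds hs] with y hy using by simp [n, hy]
  have hnc : ContDiff ℝ 1 n := contDiff_iff_contDiffAt.2 fun s => by
    by_cases h : s = 0
    · subst h; exact contDiffAt_const.congr_of_eventuallyEq hn0
    · exact (hJc.contDiffAt.div (contDiffAt_const.mul contDiffAt_id)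
        (by simpa using h)).congr_of_eventuallyEq (hn1 s h)
  let n' : ℝ → ℝ := fun s => if s = 0 then 0 else (k s * (4 * s) - J s * 4) / (4 * s) ^ 2
  have hn' : ∀ s, HasDerivAt n (n' s) s := fun s => by
    by_cases h : s = 0
    · subst h
      simpa [n'] using (hasDerivAt_const (0 : ℝ) (k 0 / 4)).congr_of_eventuallyEq hn0
    · have := (hJ s).div ((hasDerivAt_id s).const_mul 4) (by simpa using h)
      simp only [n', if_neg h]
      simpa using this.congr_of_eventuallyEq (hn1 s h)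
  let N : ℝ → ℝ := fun s => ∫ y in (ε ^ 2)..s, n y
  have hN : ∀ s, HasDerivAt N (n s) s := fun s =>
    hnc.continuous.integral_hasStrictDerivAt _ s |>.hasDerivAt
  have hNc : ContDiff ℝ 2 N := by
    rw [show (2 : WithTop ℕ∞) = 1 + 1 from rfl, contDiff_succ_iff_deriv]
    refine ⟨fun s => (hN s).differentiableAt, by simp, ?_⟩
    rw [show deriv N = n from funext fun s => (hN s).deriv]
    exact hnc
  have hN0 : ∀ s, ε ^ 2 ≤ s → N s = 0 := fun s hs => by
    have : N s = ∫ _ in (ε ^ 2)..s, (0 : ℝ) := by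
      refine intervalIntegral.integral_congr fun y hy => ?_
      rw [uIcc_of_le hs] at hy
      have hy0 : y ≠ 0 := (lt_of_lt_of_le (pow_pos h₁.pos 2) hy.1).ne'
      have : J y = 0 := by
        simp only [J, k]
        rw [intervalIntegral.integral_sub (h₁.smooth.continuous.intervalIntegrable _ _)
          (h₂.smooth.continuous.intervalIntegrable _ _), h₁.int y hy.1, h₂.int y hy.1, sub_self]
      simp [n, hy0, this]
    simpa using this
  refine ⟨fun t => N (nsq (x - t)), test_of_radial h₁.pos hNc hN0 x, fun t => ?_⟩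
  rw [lap_sub (F := fun s => N (nsq s)) (hNc.comp contDiff_nsq), lap_radial hN (hn' _)]
  by_cases h : nsq (x - t) = 0
  · simp only [h, n, n', if_pos, k]; ring
  · simp only [n, n', if_neg h, k]; field_simp; ring

/-- Weak limits along an ultrafilter. -/
theorem exists_weak_lim (𝒰 : Ultrafilter ℕ) {f : ℕ → ℂ → ℝ} {r C : ℝ}
    (hf : ∀ n, ContinuousOn (f n) (ball 0 r)) (hb : ∀ n, ∀ t ∈ ball (0 : ℂ) r, |f n t| ≤ C) :
    ∃ G : ℂ → ℝ, Integrable G ∧ ∀ θ : ℂ → ℝ, Continuous θ → HasCompactSupport θ →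
      (∀ t ∉ ball (0 : ℂ) r, θ t = 0) →
      Tendsto (fun n => ∫ t, f n t * θ t) 𝒰 (𝓝 (∫ t, G t * θ t)) := by
  let μ : Measure ℂ := volume.restrict (ball 0 r)
  have : IsFiniteMeasure μ := ⟨by
    rw [Measure.restrict_apply_univ]; exact measure_ball_lt_top⟩
  have hb' : ∀ n, ∀ᵐ t ∂μ, ‖f n t‖ ≤ C := fun n =>
    (ae_restrict_iff' measurableSet_ball).2 (Eventually.of_forall (hb n))
  have hm : ∀ n, MemLp (f n) 2 μ := fun n =>
    MemLp.of_bound ((hf n).aestronglyMeasurable measurableSet_ball) C (hb' n)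
  let F : ℕ → Lp ℝ 2 μ := fun n => (hm n).toLp _
  obtain ⟨R, hR⟩ : ∃ R, ∀ n, ‖F n‖ ≤ R := by
    refine ⟨(μ univ ^ (2 : ℝ≥0∞).toReal⁻¹ * ENNReal.ofReal C).toReal, fun n => ?_⟩
    rw [Lp.norm_toLp]
    exact ENNReal.toReal_mono (by finiteness) (eLpNorm_le_of_ae_bound (hb' n))
  let L : ℕ → WeakDual ℝ (Lp ℝ 2 μ) := fun n =>
    StrongDual.toWeakDual (InnerProductSpace.toDual ℝ _ (F n))
  obtain ⟨l, -, hl⟩ := (WeakDual.isCompact_closedBall (0 : StrongDual ℝ (Lp ℝ 2 μ)) R).ultrafilter_le_nhds'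
    (𝒰.map L) (by
      rw [Ultrafilter.mem_map]
      refine univ_mem' fun n => ?_
      simpa [L] using hR n)
  let g : Lp ℝ 2 μ := (InnerProductSpace.toDual ℝ _).symm (WeakDual.toStrongDual l)
  have hg : Integrable g μ := (Lp.memLp g).integrable (by norm_num)
  refine ⟨(ball 0 r).indicator g, (integrable_indicator_iff measurableSet_ball).2 hg,
    fun θ hθ hc h0 => ?_⟩
  obtain ⟨C', hC'⟩ := hθ.bounded_above_of_compact_support hc
  have hθm : MemLp θ 2 μ := MemLp.of_bound hθ.aestronglyMeasurable C' (Eventually.of_forall hC')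
  have h1 : Tendsto (fun n => L n (hθm.toLp _)) 𝒰 (𝓝 (l (hθm.toLp _))) :=
    ((WeakDual.eval_continuous (hθm.toLp _)).tendsto l).comp hl
  have h2 : ∀ n, L n (hθm.toLp _) = ∫ t, f n t * θ t := by
    intro n
    rw [← setIntegral_eq_integral_of_forall_compl_eq_zero (s := ball 0 r)
      (fun t ht => by simp [h0 t ht])]
    change inner ℝ (F n) (hθm.toLp _) = _
    rw [L2.inner_def]
    refine integral_congr_ae ?_
    filter_upwards [(hm n).coeFn_toLp, hθm.coeFn_toLp] with t h1 h2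
    simp [F, h1, h2, mul_comm]
  have h3 : l (hθm.toLp _) = ∫ t, (ball 0 r).indicator g t * θ t := by
    have : l (hθm.toLp _) = inner ℝ g (hθm.toLp _) := by
      simp only [g, InnerProductSpace.toDual_symm_apply]; rfl
    rw [this, L2.inner_def, ← setIntegral_eq_integral_of_forall_compl_eq_zero (s := ball 0 r)
      (f := fun t => (ball 0 r).indicator g t * θ t) (fun t ht => by simp [h0 t ht])]
    refine integral_congr_ae ?_
    filter_upwards [hθm.coeFn_toLp, ae_restrict_mem measurableSet_ball] with t h1 h2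
    simp [h1, h2, mul_comm]
  rw [← h3]
  simpa only [h2] using h1

theorem fderiv_conv {G ρ : ℂ → ℝ} (hG : Integrable G) (hρ : ContDiff ℝ 1 ρ)
    (hc : HasCompactSupport ρ) (ξ : ℂ) :
    (fun x => fderiv ℝ (G ⋆[ContinuousLinearMap.mul ℝ ℝ, volume] ρ) x ξ) =
      G ⋆[ContinuousLinearMap.mul ℝ ℝ, volume] fun t => fderiv ℝ ρ t ξ := by
  ext x
  rw [(hc.hasFDerivAt_convolution_right _ hG.locallyIntegrable hρ x).fderiv,
    convolution_precompR_apply _ hG.locallyIntegrable (hc.fderiv ℝ)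
      (hρ.continuous_fderiv (by norm_num))]

/-- Mollified limits are `C²`, and the Laplacian passes to the limit. -/
theorem exists_smooth_lim (𝒰 : Ultrafilter ℕ) {f : ℕ → ℂ → ℝ} {r C : ℝ}
    (hf : ∀ n, ContinuousOn (f n) (ball 0 r)) (hb : ∀ n, ∀ t ∈ ball (0 : ℂ) r, |f n t| ≤ C)
    {k : ℝ → ℝ} {ε : ℝ} (hk : Ker k ε) :
    ∃ a : ℂ → ℝ, ContDiff ℝ 2 a ∧ ∀ x, closedBall x ε ⊆ ball (0 : ℂ) r →
      Tendsto (fun n => ∫ t, f n t * k (nsq (x - t))) 𝒰 (𝓝 (a x)) ∧
      Tendsto (fun n => ∫ t, f n t * lap (fun s => k (nsq (x - s))) t) 𝒰 (𝓝 (lap a x)) := by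
  obtain ⟨G, hG, H⟩ := exists_weak_lim 𝒰 hf hb
  let ρ : ℂ → ℝ := fun t => k (nsq t)
  have hρ : ContDiff ℝ 2 ρ := hk.smooth.comp contDiff_nsq
  have hc : HasCompactSupport ρ := by
    have := (hk.test 0).compact
    simpa [ρ, nsq] using this
  refine ⟨G ⋆[ContinuousLinearMap.mul ℝ ℝ, volume] ρ,
    hc.contDiff_convolution_right _ hG.locallyIntegrable (n := 2) hρ, fun x hx => ⟨?_, ?_⟩⟩
  · have hT := hk.test x
    exact H _ hT.smooth.continuous hT.compact fun t ht =>
      image_eq_zero_of_notMem_tsupport (f := fun t => k (nsq (x - t)))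
        fun h => ht (hx (hT.supp h))
  · have hT := hk.test x
    have h1 := H _ (continuous_lap hT.smooth)
      (hT.compact.of_isClosed_subset (isClosed_tsupport _) (tsupport_lap _)) fun t ht =>
      image_eq_zero_of_notMem_tsupport fun h => ht (hx (hT.supp (tsupport_lap _ h)))
    have h2 : ∀ ξ : ℂ, fderiv ℝ (fun s => fderiv ℝ (G ⋆[ContinuousLinearMap.mul ℝ ℝ, volume] ρ) s ξ)
        x ξ = ∫ t, G t * fderiv ℝ (fun s => fderiv ℝ ρ s ξ) (x - t) ξ := fun ξ => by
      rw [fderiv_conv hG (hρ.of_le (by norm_num)) hc ξ]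
      exact congrFun (fderiv_conv hG (contDiff_fderiv_apply hρ ξ) (hc.fderiv_apply ℝ ξ) ξ) x
    have h3 : ∀ ξ : ℂ, Integrable fun t => G t * fderiv ℝ (fun s => fderiv ℝ ρ s ξ) (x - t) ξ :=
      fun ξ => ((hc.fderiv_apply ℝ ξ).fderiv_apply ℝ ξ).convolutionExists_right
        (ContinuousLinearMap.mul ℝ ℝ) hG.locallyIntegrable
        (((contDiff_fderiv_apply hρ ξ).continuous_fderiv (by norm_num)).clm_apply
          continuous_const) x
    have h4 : lap (G ⋆[ContinuousLinearMap.mul ℝ ℝ, volume] ρ) x =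
        ∫ t, G t * lap (fun s => k (nsq (x - s))) t := by
      rw [lap, h2, h2, ← integral_add (h3 1) (h3 _)]
      refine integral_congr_ae (Eventually.of_forall fun t => ?_)
      simp only
      rw [lap_sub (F := ρ) hρ, lap, mul_add]
    rw [h4]
    exact h1

end Pool.Agent.P.MP_a31c1c_an
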