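import Pool.Agent.P.MP_a31c1c_an.Var

/-!
The Dirichlet principle: positive capacity gives a bounded non-constant `C²` subharmonic function.
-/

set_option autoImplicit false

namespace Pool.Agent.P.MP_a31c1c_an

open Metric Set Filter Topology MeasureTheory
open scoped ENNReal

variable {v : E → E} {Λ : Set E} {p : E} {ν : (E → ℝ) → Measure E}

theorem Test.const_mul {θ : ℂ → ℝ} {x : ℂ} {ε : ℝ} (h : Test θ x ε) (c : ℝ) :
    Test (fun t => c * θ t) x ε :=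
  ⟨contDiff_const.mul h.smooth, (tsupport_mul_subset_right (f := fun _ => c)).trans h.supp⟩

theorem bil_const_mul {f θ : ℂ → ℝ} {x : ℂ} {ε : ℝ} (h : Test θ x ε) (c : ℝ) :
    bil f (fun t => c * θ t) = c * bil f θ := by
  unfold bil
  rw [← integral_const_mul]
  refine integral_congr_ae (Eventually.of_forall fun t => ?_)
  have := (((h.smooth.differentiable (by norm_num)) t).hasFDerivAt.const_mul c).fderiv
  simp only [this, _root_.smul_apply, smul_eq_mul]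
  ring

theorem bil_self_nonneg (θ : ℂ → ℝ) : 0 ≤ bil θ θ :=
  integral_nonneg fun _ => add_nonneg (mul_self_nonneg _) (mul_self_nonneg _)

/-- A minimising sequence for the capacity of `K`. -/
structure MinSeq (v : E → E) (Λ : Set E) (ν : (E → ℝ) → Measure E) (K : Set E) (cap : ℝ)
    (φ : ℕ → E → ℝ) : Prop where
  pos : 0 < cap
  adm : ∀ n, Adm v Λ (φ n)
  fin : ∀ n, ν (φ n) univ ≠ ⊤
  one : ∀ n, ∀ z ∈ K, 1 ≤ φ n z
  bdd : ∀ n z, |φ n z| ≤ 2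
  lim : Tendsto (fun n => (ν (φ n) univ).toReal) atTop (𝓝 cap)
  min : ∀ f, Adm v Λ f → ν f univ ≠ ⊤ → (∀ z ∈ K, 1 ≤ f z) → cap ≤ (ν f univ).toReal

theorem IsEnergy.exists_minSeq (h : IsEnergy v Λ ν) {K : Set E} {c : ℝ} (hc : 0 < c)
    (hcap : ∀ f, Adm v Λ f → ν f univ ≠ ⊤ → (∀ z ∈ K, 1 ≤ f z) → c ≤ (ν f univ).toReal)
    (hne : ∃ f, Adm v Λ f ∧ ν f univ ≠ ⊤ ∧ ∀ z ∈ K, 1 ≤ f z) :
    ∃ cap φ, MinSeq v Λ ν K cap φ := by
  let T : Set ℝ := {e | ∃ f, (Adm v Λ f ∧ ν f univ ≠ ⊤ ∧ ∀ z ∈ K, 1 ≤ f z) ∧ (ν f univ).toReal = e}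
  have hT : T.Nonempty := by obtain ⟨f, hf⟩ := hne; exact ⟨_, f, hf, rfl⟩
  have hlb : c ∈ lowerBounds T := by
    rintro _ ⟨f, hf, rfl⟩; exact hcap f hf.1 hf.2.1 hf.2.2
  have hb : BddBelow T := ⟨c, hlb⟩
  have hmin : ∀ f, Adm v Λ f → ν f univ ≠ ⊤ → (∀ z ∈ K, 1 ≤ f z) →
      sInf T ≤ (ν f univ).toReal := fun f h1 h2 h3 => csInf_le hb ⟨f, ⟨h1, h2, h3⟩, rfl⟩
  obtain ⟨u, -, hu, huT⟩ := exists_seq_tendsto_sInf hT hb
  choose f hf hfe using huT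
  choose φ h1 h2 h3 h4 using fun n => h.trunc (hf n).1
  have hfin : ∀ n, ν (φ n) univ ≠ ⊤ := fun n => ne_top_of_le_ne_top (hf n).2.1 (h2 n)
  have hone : ∀ n, ∀ z ∈ K, 1 ≤ φ n z := fun n z hz => h3 n z ((hf n).2.2 z hz)
  refine ⟨sInf T, φ, hc.trans_le (le_csInf hT hlb), h1, hfin, hone, h4, ?_, hmin⟩
  refine tendsto_of_tendsto_of_tendsto_of_le_of_le tendsto_const_nhds hu
    (fun n => hmin _ (h1 n) (hfin n) (hone n)) fun n => ?_
  rw [← hfe n]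
  exact ENNReal.toReal_mono (hf n).2.1 (h2 n)

section
variable {K : Set E} {cap : ℝ} {φ : ℕ → E → ℝ} {ψ : ℂ → E} {r ε : ℝ} {θ : ℂ → ℝ} {x : ℂ}

theorem MinSeq.super (M : MinSeq v Λ ν K cap φ) (h : IsEnergy v Λ ν) (H : IsLeaf v Λ p)
    (hψ : Chart v ψ r) (h0 : ψ 0 ∈ Λ) (hθ : Test θ x ε) (hx : closedBall x ε ⊆ ball (0 : ℂ) r)
    (hK : ∀ z ∈ K, 0 ≤ ext ψ r θ z) {δ : ℝ} (hδ : 0 < δ) :
    ∀ᶠ n in atTop, -δ ≤ bil (fun t => φ n (ψ t)) θ := by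
  have hD := bil_self_nonneg θ
  set s := δ / (bil θ θ + 1) with hs
  have hs0 : 0 < s := by positivity
  have hs1 : s * (bil θ θ + 1) = δ := by rw [hs]; field_simp
  filter_upwards [M.lim.eventually (gt_mem_nhds (lt_add_of_pos_right cap (mul_pos hs0 hδ)))]
    with n hn
  obtain ⟨h1, h2⟩ := h.var H hψ h0 hθ hx (M.adm n) (M.fin n) 1 s
  have h3 := M.min _ ((M.adm n).comb (H.adm_ext hψ hθ hx) 1 s) h1 fun z hz => by
    nlinarith [M.one n z hz, mul_nonneg hs0.le (hK z hz)]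
  have h4 : 0 ≤ s * (2 * δ + 2 * bil (fun t => φ n (ψ t)) θ) := by nlinarith
  have := nonneg_of_mul_nonneg_right h4 hs0
  linarith

theorem MinSeq.harm (M : MinSeq v Λ ν K cap φ) (h : IsEnergy v Λ ν) (H : IsLeaf v Λ p)
    (hψ : Chart v ψ r) (h0 : ψ 0 ∈ Λ) (hθ : Test θ x ε) (hx : closedBall x ε ⊆ ball (0 : ℂ) r)
    (hK : Disjoint (ψ '' closedBall x ε) K) :
    Tendsto (fun n => bil (fun t => φ n (ψ t)) θ) atTop (𝓝 0) := by
  rw [Metric.tendsto_nhds]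
  intro δ hδ
  have h1 := M.super h H hψ h0 hθ hx (fun z hz =>
    (ext_zero hψ hθ (disjoint_right.1 hK hz)).ge) (half_pos hδ)
  have h2 := M.super h H hψ h0 (hθ.const_mul (-1)) hx (fun z hz =>
    (ext_zero hψ (hθ.const_mul (-1)) (disjoint_right.1 hK hz)).ge) (half_pos hδ)
  filter_upwards [h1, h2] with n h1 h2
  rw [bil_const_mul hθ] at h2
  rw [Real.dist_eq, sub_zero, abs_lt]
  constructor <;> linarith

theorem MinSeq.strict (M : MinSeq v Λ ν K cap φ) (h : IsEnergy v Λ ν) (H : IsLeaf v Λ p)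
    (hψ : Chart v ψ r) (h0 : ψ 0 ∈ Λ) (hθ : Test θ x ε) (hx : closedBall x ε ⊆ ball (0 : ℂ) r)
    (hK : ∀ z ∈ K, 1 ≤ ext ψ r θ z) :
    ∃ κ : ℝ, 0 < κ ∧ ∀ᶠ n in atTop, κ ≤ bil (fun t => φ n (ψ t)) θ := by
  have hD := bil_self_nonneg θ
  have hc := M.pos
  set s := cap / (2 * (cap + bil θ θ)) with hs
  have hs0 : 0 < s := by positivity
  have hs1 : s * (2 * (cap + bil θ θ)) = cap := by rw [hs]; field_simp
  have hs2 : s ≤ 1 / 2 := by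
    rw [hs, div_le_iff₀ (by positivity)]; linarith
  refine ⟨cap / 4, by positivity, ?_⟩
  filter_upwards [M.lim.eventually (gt_mem_nhds (lt_add_of_pos_right cap (mul_pos hs0 hc)))]
    with n hn
  obtain ⟨h1, h2⟩ := h.var H hψ h0 hθ hx (M.adm n) (M.fin n) (1 - s) s
  have h3 := M.min _ ((M.adm n).comb (H.adm_ext hψ hθ hx) (1 - s) s) h1 fun z hz => by
    nlinarith [M.one n z hz, hK z hz]
  set e := (ν (φ n) univ).toReal
  set B := bil (fun t => φ n (ψ t)) θ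
  have h4 : (1 - s) ^ 2 * e ≤ (1 - s) ^ 2 * (cap + s * cap) := by gcongr
  have h5 : (1 - s) ^ 2 * (s * cap) ≤ s * cap := by
    have : (1 - s) ^ 2 ≤ 1 := by nlinarith
    nlinarith [mul_pos hs0 hc]
  have h6 : s * (cap / 2) ≤ s * (2 * (1 - s) * B) := by nlinarith
  have h7 := le_of_mul_le_mul_left h6 hs0
  by_contra hB
  have hB := not_le.1 hB
  nlinarith

end

/-- Mollified values in a chart. -/
noncomputable def mol (f : E → ℝ) (ψ : ℂ → E) (x : ℂ) (k : ℝ → ℝ) : ℝ :=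
  ∫ t, f (ψ t) * k (nsq (x - t))

theorem mol_eq (f : E → ℝ) (ψ : ℂ → E) (x : ℂ) (k : ℝ → ℝ) :
    mol f ψ x k = ∫ t, f (ψ (x + t)) * k (nsq t) := by
  rw [mol, ← integral_add_left_eq_self _ x]
  simp [nsq]

theorem mol_congr {f : E → ℝ} {ψ ψ' : ℂ → E} {x x' : ℂ} {k : ℝ → ℝ} {ε : ℝ} (hk : Ker k ε)
    (h : ∀ t ∈ closedBall (0 : ℂ) ε, ψ (x + t) = ψ' (x' + t)) : mol f ψ x k = mol f ψ' x' k := by
  rw [mol_eq, mol_eq]
  refine integral_congr_ae (Eventually.of_forall fun t => ?_)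
  by_cases ht : t ∈ closedBall (0 : ℂ) ε
  · simp only [h t ht]
  · have : k (nsq t) = 0 := hk.zero _ (by
      rw [mem_closedBall_zero_iff, not_le] at ht
      rw [nsq_eq]; have := hk.pos; gcongr)
    simp [this]

theorem mol_sub {f : ℂ → ℝ} {x : ℂ} {k₁ k₂ : ℝ → ℝ} {ε : ℝ} (h₁ : Ker k₁ ε) (h₂ : Ker k₂ ε)
    {η : ℂ → ℝ} (hη : Test η x ε) (hl : ∀ t, lap η t = k₁ (nsq (x - t)) - k₂ (nsq (x - t)))
    (hf : ∀ t ∈ closedBall x ε, ContDiffAt ℝ 1 f t) :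
    (∫ t, f t * k₁ (nsq (x - t))) - ∫ t, f t * k₂ (nsq (x - t)) = -bil f η := by
  have hi : ∀ k, Ker k ε → Integrable fun t => f t * k (nsq (x - t)) := fun k hk =>
    integrable_mul_of_supp (isCompact_closedBall x ε) (fun t ht => (hf t ht).continuousAt)
      (hk.test x).smooth.continuous (hk.test x).supp
  rw [← ibp hη hf, ← integral_sub (hi _ h₁) (hi _ h₂)]
  simp only [hl, mul_sub]

theorem exists_mol_bound : ∃ C : ℝ, ∀ (f : E → ℝ) ψ x k ε, Ker k ε → (∀ z, |f z| ≤ 2) →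
    |mol f ψ x k| ≤ C := by
  obtain ⟨k₀, h₀, -⟩ := exists_ker one_pos
  refine ⟨2 * ∫ t : ℂ, k₀ (nsq (0 - t)), fun f ψ x k ε hk hf => ?_⟩
  have h1 := hk.mono (le_max_left ε 1)
  have h2 := h₀.mono (le_max_right ε 1)
  obtain ⟨η, hη, hl⟩ := h1.exists_lap h2 0
  have h3 := mol_sub (f := fun _ => 1) h1 h2 hη hl fun _ _ => contDiffAt_const
  simp only [one_mul, bil, fderiv_fun_const, Pi.zero_apply, _root_.zero_apply,
    zero_mul, add_zero, integral_zero, neg_zero] at h3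
  rw [← sub_eq_zero.1 h3, mol_eq, ← integral_const_mul, ← Real.norm_eq_abs]
  refine norm_integral_le_of_norm_le
    (((hk.test 0).smooth.continuous.integrable_of_hasCompactSupport (hk.test 0).compact).const_mul 2)
    (Eventually.of_forall fun t => ?_)
  have : nsq (0 - t) = nsq t := by simp [nsq]
  rw [this, norm_mul, Real.norm_eq_abs, Real.norm_eq_abs, abs_of_nonneg (hk.nonneg _)]
  exact mul_le_mul_of_nonneg_right (hf _) (hk.nonneg _)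

/-- Positive capacity gives a bounded non-constant subharmonic function. -/
theorem IsLeaf.pot (H : IsLeaf v Λ p) {z₀ : E} (hz₀ : z₀ ∈ Λ)
    (hcap : ∀ ψ R, ψ 0 = z₀ → Chart v ψ R → ∀ r, 0 < r → r < R → ∃ c : ℝ, 0 < c ∧ ∀ φ e, 0 ≤ e →
      Adm v Λ φ → Bnd v Λ φ e → (∀ t ∈ closedBall (0 : ℂ) r, 1 ≤ φ (ψ t)) → c ≤ e) :
    ∃ g : E → ℝ, (∃ M, ∀ z ∈ Λ, |g z| ≤ M) ∧
      (∀ Γ t, TG v Γ t → Γ t ∈ Λ →
        ContDiffAt ℝ 2 (fun s => g (Γ s)) t ∧ 0 ≤ lap (fun s => g (Γ s)) t) ∧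
      ∃ q₁ ∈ Λ, ∃ q₂ ∈ Λ, g q₁ ≠ g q₂ := by
  classical
  obtain ⟨ν, hν⟩ := H.exists_energy
  obtain ⟨ψ₀, R, h0, hψ₀⟩ := exists_chart H.smooth (H.ne z₀ hz₀)
  have hΛ₀ : ψ₀ 0 ∈ Λ := h0 ▸ hz₀
  have hR := hψ₀.1
  set ε := R / 4 with hε
  have hε0 : 0 < ε := by positivity
  obtain ⟨k₀, hk₀, hk₀0, hk₀1⟩ := exists_ker hε0
  let K : Set E := ψ₀ '' closedBall 0 (ε / 2)
  have hsub : ∀ x ∈ ball (0 : ℂ) (R - ε), closedBall x ε ⊆ ball (0 : ℂ) R := fun x hx =>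
    closedBall_subset_ball' (by rw [mem_ball] at hx; linarith)
  have h0b : (0 : ℂ) ∈ ball (0 : ℂ) (R - ε) := mem_ball_self (by linarith)
  have hβ := (hk₀.test 0).const_mul (k₀ 0)⁻¹
  have hβK : ∀ z ∈ K, 1 ≤ ext ψ₀ R (fun t => (k₀ 0)⁻¹ * k₀ (nsq (0 - t))) z := by
    rintro _ ⟨t, ht, rfl⟩
    have ht' := mem_closedBall_zero_iff.1 ht
    rw [ext_apply hψ₀ (mem_ball_zero_iff.2 (by linarith)), hk₀1 (nsq (0 - t)) (by rw [nsq_eq]; positivity)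
      (by rw [nsq_eq, zero_sub, norm_neg]; gcongr), inv_mul_cancel₀ hk₀0.ne']
  obtain ⟨c, hc, hc'⟩ := hcap ψ₀ R h0 hψ₀ (ε / 2) (by positivity) (by linarith)
  have hz : Adm v Λ fun _ => 0 := ⟨fun _ _ _ _ => contDiffAt_const, 0, fun _ _ _ => rfl⟩
  have hzf : ν (fun _ => 0) univ ≠ ⊤ := by
    have := hν.le (fun _ => 0) (fun _ => 0) 0 univ le_rfl MeasurableSet.univ
      fun _ _ _ _ _ _ _ => by simp [qd]
    rw [ENNReal.ofReal_zero, zero_mul] at this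
    exact ne_top_of_le_ne_top ENNReal.zero_ne_top this
  obtain ⟨cap, φ, M⟩ := hν.exists_minSeq (K := K) hc
    (fun f h1 h2 h3 => hc' f _ ENNReal.toReal_nonneg h1 (hν.bnd h1.1 h2)
      fun t ht => h3 _ ⟨t, ht, rfl⟩)
    ⟨_, hz.comb (H.adm_ext hψ₀ hβ (hsub 0 h0b)) 0 1,
      (hν.var H hψ₀ hΛ₀ hβ (hsub 0 h0b) hz hzf 0 1).1, fun z hz => by simpa using hβK z hz⟩
  let 𝒰 : Ultrafilter ℕ := hyperfilter ℕ
  have h𝒰 : (𝒰 : Filter ℕ) ≤ atTop := Nat.hyperfilter_le_atTop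
  have hC1 : ∀ ψ r, Chart v ψ r → ψ 0 ∈ Λ → ∀ n, ∀ t ∈ ball (0 : ℂ) r,
      ContDiffAt ℝ 1 (fun s => φ n (ψ s)) t := fun ψ r hψ h0 n t ht =>
    (M.adm n).1 ψ t (hψ.2.1.tg ht) (H.sol_mem hψ.2.1 (mem_ball_self hψ.1) ht h0)
  have hlim : ∀ ψ r, Chart v ψ r → ψ 0 ∈ Λ → ∀ k δ, Ker k δ → ∃ a : ℂ → ℝ, ContDiff ℝ 2 a ∧
      ∀ x, closedBall x δ ⊆ ball (0 : ℂ) r →
        Tendsto (fun n => mol (φ n) ψ x k) 𝒰 (𝓝 (a x)) ∧ lap a x ≤ 0 ∧
        Tendsto (fun n => -bil (fun t => φ n (ψ t)) fun s => k (nsq (x - s))) 𝒰 (𝓝 (lap a x)) := by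
    intro ψ r hψ h0 k δ hk
    obtain ⟨a, ha, h1⟩ := exists_smooth_lim 𝒰 (f := fun n t => φ n (ψ t)) (r := r) (C := 2)
      (fun n t ht => (hC1 ψ r hψ h0 n t ht).continuousAt.continuousWithinAt)
      (fun n t _ => M.bdd n _) hk
    refine ⟨a, ha, fun x hx => ?_⟩
    have h2 := (h1 x hx).2
    simp only [fun n => ibp (hk.test x) fun t ht => hC1 ψ r hψ h0 n t (hx ht)] at h2
    refine ⟨(h1 x hx).1, le_of_forall_pos_le_add fun δ' hδ' => le_of_tendsto h2 ?_, h2⟩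
    filter_upwards [h𝒰 (M.super hν H hψ h0 (hk.test x) hx
      (fun z _ => ext_nonneg (fun t => hk.nonneg _) z) hδ')] with n hn
    have hn' : -δ' ≤ bil (fun t => φ n (ψ t)) fun s => k (nsq (x - s)) := hn
    linarith
  let P : E → ℝ → Prop := fun z val => ∃ ψ r x k δ, Chart v ψ r ∧ ψ 0 ∈ Λ ∧ ψ x = z ∧ Ker k δ ∧
    closedBall x δ ⊆ ball (0 : ℂ) r ∧ Disjoint (ψ '' closedBall x δ) K ∧
    Tendsto (fun n => mol (φ n) ψ x k) 𝒰 (𝓝 val)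
  have hsmall : ∀ ψ r x k δ val, Chart v ψ r → ψ 0 ∈ Λ → Ker k δ →
      closedBall x δ ⊆ ball (0 : ℂ) r → Disjoint (ψ '' closedBall x δ) K →
      Tendsto (fun n => mol (φ n) ψ x k) 𝒰 (𝓝 val) → ∀ k', Ker k' δ →
      Tendsto (fun n => mol (φ n) ψ x k') 𝒰 (𝓝 val) := by
    intro ψ r x k δ val hψ h0 hk hx hK ht k' hk'
    obtain ⟨η, hη, hl⟩ := hk.exists_lap hk' x
    have h1 := (M.harm hν H hψ h0 hη hx hK).mono_left h𝒰
    have h2 := ht.add h1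
    rw [add_zero] at h2
    refine h2.congr fun n => ?_
    have := mol_sub hk hk' hη hl fun t ht => hC1 ψ r hψ h0 n t (hx ht)
    unfold mol
    linarith
  have huniq : ∀ z val val', P z val → P z val' → val = val' := by
    rintro z val val' ⟨ψ, r, x, k, δ, hψ, h0, e, hk, hx, hK, ht⟩
      ⟨ψ', r', x', k', δ', hψ', h0', e', hk', hx', hK', ht'⟩
    have hxb := hx (mem_closedBall_self hk.pos.le)
    have hxb' := hx' (mem_closedBall_self hk'.pos.le)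
    have h1 := Sol.eventually_eq H.smooth hψ.2.1 hψ'.2.1 hxb hxb' (e.trans e'.symm)
    set m := min (r - ‖x‖) (r' - ‖x'‖)
    have hm : 0 < m :=
      lt_min (sub_pos.2 (mem_ball_zero_iff.1 hxb)) (sub_pos.2 (mem_ball_zero_iff.1 hxb'))
    obtain ⟨k'', hk'', -⟩ := exists_ker (lt_min (half_pos hm) (lt_min hk.pos hk'.pos))
    have h2 := hsmall ψ r x k δ val hψ h0 hk hx hK ht k''
      (hk''.mono ((min_le_right _ _).trans (min_le_left _ _)))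
    have h3 := hsmall ψ' r' x' k' δ' val' hψ' h0' hk' hx' hK' ht' k''
      (hk''.mono ((min_le_right _ _).trans (min_le_right _ _)))
    refine tendsto_nhds_unique h2 (h3.congr fun n => (mol_congr hk'' fun t ht => h1 ?_).symm)
    exact closedBall_subset_ball ((min_le_left _ _).trans_lt (half_lt_self hm)) ht
  obtain ⟨a₀, ha₀, ha₀'⟩ := hlim ψ₀ R hψ₀ hΛ₀ k₀ ε hk₀
  let g : E → ℝ := fun z => if z ∈ ψ₀ '' ball 0 (R - ε) then
    a₀ (Function.invFunOn ψ₀ (ball 0 R) z) else if h : ∃ val, P z val then h.choose else 0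
  have hg₀ : ∀ x ∈ ball (0 : ℂ) (R - ε), g (ψ₀ x) = a₀ x := fun x hx => by
    simp only [g]
    rw [if_pos ⟨x, hx, rfl⟩,
      hψ₀.2.2.leftInvOn_invFunOn (ball_subset_ball (by linarith) hx)]
  have hK' : IsCompact (ψ₀ '' closedBall 0 (ε / 2 + ε)) :=
    hψ₀.isCompact_image (closedBall_subset_ball (by linarith))
  have hg₁ : ∀ z val, z ∉ ψ₀ '' closedBall 0 (ε / 2 + ε) → P z val → g z = val := by
    intro z val hz hP
    by_cases h : z ∈ ψ₀ '' ball 0 (R - ε)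
    · obtain ⟨y, hy, rfl⟩ := h
      rw [hg₀ y hy]
      refine huniq _ _ _ ⟨ψ₀, R, y, k₀, ε, hψ₀, hΛ₀, rfl, hk₀, hsub y hy, ?_,
        (ha₀' y (hsub y hy)).1⟩ hP
      rw [Set.disjoint_left]
      rintro _ ⟨s, hs, rfl⟩ ⟨s', hs', e⟩
      have := hψ₀.2.2 (closedBall_subset_ball (by linarith) hs') (hsub y hy hs) e
      subst this
      refine hz ⟨y, ?_, rfl⟩
      rw [mem_closedBall] at hs hs' ⊢
      linarith [dist_triangle_left y 0 s']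
    · simp only [g]
      rw [if_neg h, dif_pos ⟨val, hP⟩]
      exact huniq _ _ _ (Exists.choose_spec (⟨val, hP⟩ : ∃ val, P z val)) hP
  have hloc : ∀ z ∈ Λ, ∃ ψ r, ∃ s ∈ ball (0 : ℂ) r, Sol v ψ r ∧ ψ s = z ∧ ∃ a : ℂ → ℝ,
      ContDiff ℝ 2 a ∧ lap a s ≤ 0 ∧ ((fun t => g (ψ t)) =ᶠ[𝓝 s] a) ∧
      ∃ k δ, Ker k δ ∧ Tendsto (fun n => mol (φ n) ψ s k) 𝒰 (𝓝 (a s)) := by
    intro z hz
    by_cases h : z ∈ ψ₀ '' ball 0 (R - ε)
    · obtain ⟨y, hy, rfl⟩ := h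
      refine ⟨ψ₀, R, y, ball_subset_ball (by linarith) hy, hψ₀.2.1, rfl, a₀, ha₀,
        (ha₀' y (hsub y hy)).2.1, ?_, k₀, ε, hk₀, (ha₀' y (hsub y hy)).1⟩
      filter_upwards [isOpen_ball.mem_nhds hy] with x hx using hg₀ x hx
    · obtain ⟨ψ, r, e, hψ⟩ := exists_chart H.smooth (H.ne z hz)
      have h1 : z ∉ ψ₀ '' closedBall 0 (ε / 2 + ε) := fun h' =>
        h (image_mono (closedBall_subset_ball (by linarith)) h')
      have h2 : ∀ᶠ s in 𝓝 (0 : ℂ), ψ s ∈ (ψ₀ '' closedBall 0 (ε / 2 + ε))ᶜ :=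
        (hψ.2.1 0 (mem_ball_self hψ.1)).continuousAt (hK'.isClosed.isOpen_compl.mem_nhds (e ▸ h1))
      obtain ⟨δ, hδ, hδ'⟩ := Metric.eventually_nhds_iff_ball.1 (h2.and (ball_mem_nhds 0 hψ.1))
      obtain ⟨k, hk, -⟩ := exists_ker (half_pos hδ)
      obtain ⟨a, ha, ha'⟩ := hlim ψ r hψ (e ▸ hz) k _ hk
      have h3 : ∀ x ∈ ball (0 : ℂ) (δ / 2), closedBall x (δ / 2) ⊆ ball (0 : ℂ) δ := fun x hx =>
        closedBall_subset_ball' (by rw [mem_ball] at hx; linarith)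
      have h4 : ∀ x ∈ ball (0 : ℂ) (δ / 2), closedBall x (δ / 2) ⊆ ball (0 : ℂ) r :=
        fun x hx s hs => (hδ' s (h3 x hx hs)).2
      have h5 := mem_ball_self (x := (0 : ℂ)) (half_pos hδ)
      refine ⟨ψ, r, 0, mem_ball_self hψ.1, hψ.2.1, e, a, ha, (ha' 0 (h4 0 h5)).2.1, ?_, k, _, hk,
        (ha' 0 (h4 0 h5)).1⟩
      filter_upwards [ball_mem_nhds 0 (half_pos hδ)] with x hx
      refine hg₁ _ _ (hδ' x (ball_subset_ball (half_le_self hδ.le) hx)).1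
        ⟨ψ, r, x, k, _, hψ, e ▸ hz, rfl, hk, h4 x hx, ?_, (ha' x (h4 x hx)).1⟩
      rw [Set.disjoint_left]
      rintro _ ⟨s, hs, rfl⟩ hs'
      exact (hδ' s (h3 x hx hs)).1 (image_mono (closedBall_subset_closedBall (by linarith)) hs')
  have hneg : ∀ (a : ℂ → ℝ) (s : ℂ), lap (fun t => -a t) s = -lap a s := fun a s => by
    simp only [lap, fderiv_fun_neg, _root_.neg_apply]
    ring
  refine ⟨fun z => -g z, ?_, ?_, ?_⟩
  · obtain ⟨C, hC⟩ := exists_mol_bound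
    refine ⟨C, fun z hz => ?_⟩
    obtain ⟨ψ, r, s, -, -, e, a, -, -, he, k, δ, hk, ht⟩ := hloc z hz
    have : g z = a s := e ▸ he.self_of_nhds
    rw [abs_neg, this]
    exact le_of_tendsto ht.abs (Eventually.of_forall fun n => hC _ _ _ _ _ hk (M.bdd n))
  · intro Γ t hΓ ht
    obtain ⟨ψ, r, s, hs, hψ, e, a, ha, hl, he, -⟩ := hloc _ ht
    obtain ⟨τ, hτ, hτ0, hτe⟩ := factor H.smooth hΓ (H.ne _ ht) hψ hs e
    have h1 : (fun s => -g (Γ s)) =ᶠ[𝓝 t] fun s => -a (τ s) := by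
      have h2 : ∀ᶠ y in 𝓝 t, g (ψ (τ y)) = a (τ y) := hτ.continuousAt.eventually (hτ0 ▸ he)
      filter_upwards [h2, hτe] with y hy hy' using by rw [hy', hy]
    refine ⟨(ha.contDiffAt.comp t ((hτ.contDiffAt (n := 2)).restrict_scalars ℝ)).neg
      |>.congr_of_eventuallyEq h1, ?_⟩
    rw [lap_congr h1, hneg, lap_comp ha.contDiffAt hτ, hτ0]
    nlinarith [sq_nonneg ‖deriv τ t‖]
  · by_contra hcon
    push Not at hcon
    have h1 : a₀ =ᶠ[𝓝 0] fun _ => g z₀ := by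
      filter_upwards [isOpen_ball.mem_nhds h0b] with x hx
      rw [← hg₀ x hx]
      exact neg_injective (hcon _ (H.sol_mem hψ₀.2.1 (mem_ball_self hR)
        (ball_subset_ball (by linarith) hx) hΛ₀) _ hz₀)
    have h2 : lap a₀ 0 = 0 := by rw [lap_congr h1]; simp [lap]
    obtain ⟨κ, hκ, hκ'⟩ := M.strict hν H hψ₀ hΛ₀ hβ (hsub 0 h0b) hβK
    have h3 : lap a₀ 0 ≤ -(k₀ 0 * κ) := by
      refine le_of_tendsto (ha₀' 0 (hsub 0 h0b)).2.2 ?_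
      filter_upwards [h𝒰 hκ'] with n hn
      have hn' : κ ≤ bil (fun t => φ n (ψ₀ t)) fun t => (k₀ 0)⁻¹ * k₀ (nsq (0 - t)) := hn
      rw [bil_const_mul (hk₀.test 0), ← div_eq_inv_mul, le_div_iff₀ hk₀0] at hn'
      linarith
    nlinarith [mul_pos hk₀0 hκ]

end Pool.Agent.P.MP_a31c1c_an
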