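import Pool.Agent.P.MP_a31c1c_an.Tree
import Pool.Agent.P.MP_a31c1c_an.Acc

/-!
From homogeneous coordinates to the affine core.
-/

set_option autoImplicit false

namespace Pool.Agent.P.MP_a31c1c_an

open MvPolynomial Metric Set Filter Topology

/-- The homogeneous vector field. -/
noncomputable def VP (F : Fin 3 → MP) (z : E) : E := fun i => eval z (F i)

/-- Singular points. -/
def SingP (V : E → E) (z : E) : Prop := z ≠ 0 ∧ ∃ c : ℂ, V z = c • z

/-- Tangent discs. -/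
def TanP (V : E → E) (φ : ℂ → E) : Prop :=
  DifferentiableOn ℂ φ (ball (0 : ℂ) 1) ∧ ∀ t ∈ ball (0 : ℂ) 1,
    φ t ≠ 0 ∧ ¬ SingP V (φ t) ∧ ∃ α β : ℂ, deriv φ t = α • φ t + β • V (φ t)

/-- Points of the leaf through `p`. -/
def LP (V : E → E) (p q : E) : Prop :=
  Relation.ReflTransGen (fun x y => ∃ φ, TanP V φ ∧ ∃ s ∈ ball (0 : ℂ) 1,
    ∃ t ∈ ball (0 : ℂ) 1, ∃ a b : ℂ, φ s = a • x ∧ φ t = b • y) p q

/-- Hyperbolicity of all singular points, through the characteristic determinant. -/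
def Eig (d : ℕ) (F : Fin 3 → MP) : Prop :=
  ∀ (a : E) (c : ℂ), a ≠ 0 → VP F a = c • a → ∃ ν₁ ν₂ : ℂ,
    (∀ x : ℂ, (Matrix.scalar (Fin 3) x - Matrix.of fun i j => eval a (pderiv j (F i))).det =
      (x - d * c) * (x - (ν₁ + c)) * (x - (ν₂ + c))) ∧ (ν₁ / ν₂).im ≠ 0

/-- The conclusion of the problem. -/
def Concl (V : E → E) (p : E) : Prop :=
  ∃ u : E → ℝ, (∃ M : ℝ, ∀ q, LP V p q → |u q| ≤ M) ∧
    (∀ q, LP V p q → ∀ c : ℂ, c ≠ 0 → u (c • q) = u q) ∧
    (∀ φ, TanP V φ → (∀ t ∈ ball (0 : ℂ) 1, LP V p (φ t)) →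
      UpperSemicontinuousOn (fun t => u (φ t)) (ball (0 : ℂ) 1) ∧
      ∀ z : ℂ, ∀ r : ℝ, 0 < r → closedBall z r ⊆ ball (0 : ℂ) 1 →
        2 * Real.pi * u (φ z) ≤ ∫ θ in (0 : ℝ)..2 * Real.pi, u (φ (circleMap z r θ))) ∧
    ∃ q₁ q₂, LP V p q₁ ∧ LP V p q₂ ∧ u q₁ ≠ u q₂

theorem TanP.hasDerivAt {V : E → E} {φ : ℂ → E} (h : TanP V φ) {t : ℂ} (ht : t ∈ ball (0 : ℂ) 1) :
    HasDerivAt φ (deriv φ t) t :=
  ((h.1 t ht).differentiableAt (isOpen_ball.mem_nhds ht)).hasDerivAt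

theorem LP.along {V : E → E} {p : E} {Γ : ℂ → E} {a : ℂ} {ρ : ℝ}
    (h : ∀ t ∈ ball a ρ, Γ t ≠ 0 ∧ ¬ SingP V (Γ t) ∧
      ∃ α β : ℂ, HasDerivAt Γ (α • Γ t + β • V (Γ t)) t)
    {s t : ℂ} (hs : s ∈ ball a ρ) (ht : t ∈ ball a ρ) (hL : LP V p (Γ s)) : LP V p (Γ t) := by
  have hρ : 0 < ρ := pos_of_mem_ball hs
  have hρ' : (ρ : ℂ) ≠ 0 := by exact_mod_cast hρ.ne'
  have h1 : ∀ x ∈ ball (0 : ℂ) 1, a + ρ * x ∈ ball a ρ := fun x hx => by
    rw [mem_ball, dist_self_add_left, norm_mul, Complex.norm_real, Real.norm_of_nonneg hρ.le]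
    nlinarith [mem_ball_zero_iff.1 hx]
  have h2 : ∀ x ∈ ball a ρ, (x - a) / ρ ∈ ball (0 : ℂ) 1 := fun x hx => by
    rw [mem_ball_zero_iff, norm_div, Complex.norm_real, Real.norm_of_nonneg hρ.le, div_lt_one hρ,
      ← dist_eq_norm]
    exact hx
  have h3 : ∀ x : ℂ, a + ρ * ((x - a) / ρ) = x := fun x => by field_simp; ring
  have h4 : ∀ x ∈ ball (0 : ℂ) 1, ∃ α β : ℂ, HasDerivAt (fun x : ℂ => Γ (a + ρ * x))
      (α • Γ (a + ρ * x) + β • V (Γ (a + ρ * x))) x := fun x hx => by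
    obtain ⟨-, -, α, β, hd⟩ := h _ (h1 x hx)
    have h5 : HasDerivAt (fun x : ℂ => a + ρ * x) (ρ : ℂ) x := by
      simpa using ((hasDerivAt_id x).const_mul (ρ : ℂ)).const_add a
    refine ⟨ρ * α, ρ * β, (HasDerivAt.scomp x hd h5).congr_deriv ?_⟩
    rw [smul_add, smul_smul, smul_smul]
  refine Relation.ReflTransGen.tail hL ⟨fun x => Γ (a + ρ * x), ⟨fun x hx => ?_, fun x hx =>
    ⟨(h _ (h1 x hx)).1, (h _ (h1 x hx)).2.1, ?_⟩⟩, _, h2 s hs, _, h2 t ht, 1, 1, by simp [h3],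
    by simp [h3]⟩
  · obtain ⟨α, β, hd⟩ := h4 x hx
    exact hd.differentiableAt.differentiableWithinAt
  · obtain ⟨α, β, hd⟩ := h4 x hx
    exact ⟨α, β, hd.deriv⟩

theorem two_eq {e t D ν₁ ν₂ : ℂ}
    (h : ∀ x : ℂ, (x - e) * (x ^ 2 - t * x + D) = (x - e) * (x - ν₁) * (x - ν₂)) :
    t = ν₁ + ν₂ ∧ D = ν₁ * ν₂ := by
  have h1 := h (e + 1)
  have h2 := h (e + 2)
  have h3 : t = ν₁ + ν₂ := by linear_combination h1 - h2 / 2
  exact ⟨h3, by linear_combination h1 + (e + 1) * h3⟩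

section
variable {d : ℕ} {F : Fin 3 → MP}

theorem VP_smul (hF : ∀ i, (F i).IsHomogeneous d) (c : ℂ) (z : E) :
    VP F (c • z) = c ^ d • VP F z := by
  ext i
  simp only [VP, eval_smul_of_hom (hF i), Pi.smul_apply, smul_eq_mul]

theorem SingP.smul (hF : ∀ i, (F i).IsHomogeneous d) {z : E} (h : SingP (VP F) z) {c : ℂ}
    (hc : c ≠ 0) : SingP (VP F) (c • z) := by
  obtain ⟨h0, e, he⟩ := h
  refine ⟨smul_ne_zero hc h0, c ^ d * e / c, ?_⟩
  rw [VP_smul hF, he, smul_smul, smul_smul]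
  congr 1
  field_simp

theorem LP.reg (hF : ∀ i, (F i).IsHomogeneous d) {p q : E} (h0 : p ≠ 0) (hp : ¬ SingP (VP F) p)
    (h : LP (VP F) p q) : q ≠ 0 ∧ ¬ SingP (VP F) q := by
  induction h with
  | refl => exact ⟨h0, hp⟩
  | tail _ h _ =>
    obtain ⟨φ, hφ, s, -, t, ht, a, b, -, e⟩ := h
    obtain ⟨h1, h2, -⟩ := hφ.2 t ht
    rw [e] at h1 h2
    exact ⟨right_ne_zero_of_smul h1, fun h => h2 (h.smul hF (left_ne_zero_of_smul h1))⟩

theorem LP.smul (hF : ∀ i, (F i).IsHomogeneous d) {p q : E} (h0 : p ≠ 0) (hp : ¬ SingP (VP F) p)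
    (h : LP (VP F) p q) {c : ℂ} (hc : c ≠ 0) : LP (VP F) p (c • q) := by
  obtain ⟨h1, h2⟩ := h.reg hF h0 hp
  refine Relation.ReflTransGen.tail h ⟨fun _ => q, ⟨differentiableOn_const _, fun t _ =>
    ⟨h1, h2, 0, 0, by simp⟩⟩, 0, by simp, 0, by simp, 1, c⁻¹, by simp, ?_⟩
  rw [smul_smul, inv_mul_cancel₀ hc, one_smul]

theorem exists_minor {x y : E} (h0 : x ≠ 0) (h : ∀ c : ℂ, y ≠ c • x) :
    ∃ i j, x i * y j - x j * y i ≠ 0 := by
  by_contra hc
  push Not at hc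
  obtain ⟨i, hi⟩ : ∃ i, x i ≠ 0 := Function.ne_iff.1 h0
  refine h (y i / x i) (funext fun j => ?_)
  have := hc i j
  rw [Pi.smul_apply, smul_eq_mul]
  field_simp
  linear_combination this

/-- The line at infinity is invariant under tangent discs. -/
theorem TanP.zero {G : MP} (hG : F 0 = X 0 * G) {φ : ℂ → E} (h : TanP (VP F) φ) {s t : ℂ}
    (hs : s ∈ ball (0 : ℂ) 1) (ht : t ∈ ball (0 : ℂ) 1) (h0 : φ s 0 = 0) : φ t 0 = 0 := by
  obtain ⟨h1, h2, -⟩ := h.2 s hs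
  obtain ⟨i, j, hij⟩ := exists_minor h1 fun c hc => h2 ⟨h1, c, hc⟩
  have hφ : ContinuousAt φ s := (h.hasDerivAt hs).continuousAt
  have hφ' : ContinuousAt (deriv φ) s :=
    ((h.1.analyticOnNhd isOpen_ball) s hs).deriv.continuousAt
  have c1 : ∀ k, ContinuousAt (fun t => φ t k) s := fun k => (continuous_apply k).continuousAt.comp hφ
  have c2 : ∀ k, ContinuousAt (fun t => deriv φ t k) s := fun k =>
    (continuous_apply k).continuousAt.comp hφ'
  have c3 : ∀ H : MP, ContinuousAt (fun t => eval (φ t) H) s := fun H =>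
    ContinuousAt.comp (g := fun z : E => eval z H) (contDiff_eval H (n := 0)).continuous.continuousAt hφ
  let m : ℂ → ℂ := fun t => φ t i * eval (φ t) (F j) - φ t j * eval (φ t) (F i)
  let k : ℂ → ℂ := fun t => ((deriv φ t i * eval (φ t) (F j) - deriv φ t j * eval (φ t) (F i)) +
    (φ t i * deriv φ t j - φ t j * deriv φ t i) * eval (φ t) G) / m t
  have cm : ContinuousAt m s := ((c1 i).mul (c3 _)).sub ((c1 j).mul (c3 _))
  have ck : ContinuousAt k s := ((((c2 i).mul (c3 _)).sub ((c2 j).mul (c3 _))).add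
    ((((c1 i).mul (c2 j)).sub ((c1 j).mul (c2 i))).mul (c3 _))).div cm hij
  obtain ⟨δ, hδ, H⟩ := Metric.eventually_nhds_iff_ball.1 ((cm.eventually_ne hij).and
    ((ck.norm.eventually (gt_mem_nhds (lt_add_one _))).and (isOpen_ball.mem_nhds hs)))
  have hd : ∀ t ∈ ball (0 : ℂ) 1, HasDerivAt (fun t => φ t 0) (deriv φ t 0) t := fun t ht =>
    hasDerivAt_pi.1 (h.hasDerivAt ht) 0
  refine eqOn_ball_of_eventuallyEq (f := fun t => φ t 0) (g := fun _ => 0)
    (fun t ht => (hd t ht).differentiableAt) (fun _ _ => differentiableAt_const _) hs ?_ ht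
  filter_upwards [ball_mem_nhds s hδ] with x hx
  have := gronwall (K := ‖k s‖ + 1) (convex_ball s δ) (fun t ht => hd t (H t ht).2.2)
    (fun t ht => by
      obtain ⟨hm, hk, hb⟩ := H t ht
      obtain ⟨-, -, α, β, e⟩ := h.2 t hb
      have e1 : deriv φ t 0 = k t * φ t 0 := by
        simp only [k, e, Pi.add_apply, Pi.smul_apply, smul_eq_mul, VP, hG, map_mul, eval_X]
        rw [div_mul_eq_mul_div, eq_div_iff hm]
        simp only [m]
        ring
      rw [e1, norm_mul]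
      gcongr) (mem_ball_self hδ) hx
  simpa [h0] using this

end

/-- The theorem when the point `(0 : 0 : 1)` is regular. -/
theorem proj {d : ℕ} {F : Fin 3 → MP} (hd : 2 ≤ d) (hF : ∀ i, (F i).IsHomogeneous d)
    (hS : ∃ S : Finset E, ∀ z, SingP (VP F) z → ∃ s ∈ S, ∃ t : ℂ, z = t • s)
    (hinv : ∀ z : E, z 0 = 0 → VP F z 0 = 0) (heig : Eig d F)
    (htop : ¬ SingP (VP F) ![0, 0, 1]) {p : E} (h0 : p ≠ 0) (hp : ¬ SingP (VP F) p)
    (hna : ¬ ∃ (k : ℕ) (P : MP), 0 < k ∧ P.IsHomogeneous k ∧ P ≠ 0 ∧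
      ∀ q, LP (VP F) p q → eval q P = 0) : Concl (VP F) p := by
  obtain ⟨G, hG⟩ := AlgAux.X0_dvd (hF 0) (Polynomial.funext fun u => by
    rw [eval_res, Polynomial.eval_zero]; exact hinv _ rfl)
  have hGh : G.IsHomogeneous (d - 1) := (AlgAux.hom_of_X0_mul (hG ▸ hF 0)).1
  have hXG : ∀ i, (X i * G : MP).IsHomogeneous d := fun i => by
    have := (isHomogeneous_X ℂ i).mul hGh
    rwa [show 1 + (d - 1) = d by omega] at this
  obtain ⟨F1, hF1⟩ : ∃ F1, F 1 = F1 + X 1 * G := ⟨F 1 - X 1 * G, by ring⟩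
  obtain ⟨F2, hF2⟩ : ∃ F2, F 2 = F2 + X 2 * G := ⟨F 2 - X 2 * G, by ring⟩
  have h1 : F1.IsHomogeneous d := by
    rw [show F1 = F 1 - X 1 * G by rw [hF1]; ring]; exact (hF 1).sub (hXG 1)
  have h2 : F2.IsHomogeneous d := by
    rw [show F2 = F 2 - X 2 * G by rw [hF2]; ring]; exact (hF 2).sub (hXG 2)
  have hV : ∀ z, VP F z = W F1 F2 z + eval z G • z := fun z => by
    ext i
    fin_cases i <;> simp [VP, W, hG, hF1, hF2, mul_comm]
  have hsing : ∀ (z : E) (c : ℂ), z ≠ 0 → W F1 F2 z = c • z → SingP (VP F) z := fun z c hz e =>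
    ⟨hz, c + eval z G, by rw [hV, e, add_smul]⟩
  have hsing' : ∀ z : E, SingP (VP F) z → ∃ c : ℂ, W F1 F2 z = c • z := fun z ⟨_, c, e⟩ =>
    ⟨c - eval z G, by rw [sub_smul, ← e, hV, add_sub_cancel_right]⟩
  have ne0 : ∀ z : E, z 0 = 1 → z ≠ 0 := fun z hz e => by simp [e] at hz
  have euler : ∀ {H : MP} {n : ℕ}, H.IsHomogeneous n → ∀ z : E, z 0 * eval z (pderiv 0 H) +
      z 1 * eval z (pderiv 1 H) + z 2 * eval z (pderiv 2 H) = n * eval z H := fun h z => by
    simpa [Fin.sum_univ_three] using congrArg (eval z) h.sum_X_mul_pderiv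
  have hd1 : ((d - 1 : ℕ) : ℂ) = d - 1 := by rw [Nat.cast_sub (by omega)]; simp
  have Hy : Hyp d F1 F2 := by
    refine ⟨hd, h1, h2, fun e => htop (hsing _ (eval ![0, 0, 1] F2) (by simp) ?_),
      fun u hu => ?_, fun z hz hW => ?_⟩
    · ext i
      fin_cases i <;> simp [W, e]
    · rw [eval_derivative_res]
      rw [eval_res] at hu ⊢
      set a : E := ![0, 1, u] with ha
      have a0 : a 0 = 0 := rfl
      have a1 : a 1 = 1 := rfl
      have a2 : a 2 = u := rfl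
      have e0 : eval a F2 = u * eval a F1 := by
        simpa [RR, a1, a2, sub_eq_zero] using hu
      obtain ⟨ν₁, ν₂, hν, him⟩ := heig a (eval a F1 + eval a G) (by simp [ha]) (by
        rw [hV, add_smul]
        congr 1
        ext i
        fin_cases i <;> simp [W, e0, a0, a1, a2, mul_comm])
      have e1 := euler h1 a
      have e2 := euler h2 a
      have e3 := euler hGh a
      rw [a0, a1, a2, zero_mul, zero_add, one_mul, ← eq_sub_iff_add_eq] at e1 e2 e3
      have e4 : eval a (pderiv 2 (RR F1 F2)) =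
          eval a (pderiv 2 F2) - eval a F1 - u * eval a (pderiv 2 F1) := by
        simp [RR, pderiv_X, a1, a2]; ring
      obtain ⟨e5, e6⟩ := two_eq (e := (d - 1) * (eval a F1 + eval a G))
        (t := -eval a F1 + eval a (pderiv 2 (RR F1 F2)))
        (D := -eval a F1 * eval a (pderiv 2 (RR F1 F2))) (ν₁ := ν₁) (ν₂ := ν₂) fun x => by
        have := hν (x + (eval a F1 + eval a G))
        rw [Matrix.det_fin_three] at this
        simp [hG, hF1, hF2, pderiv_X, a0, a1, a2] at this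
        rw [e1, e2, e3, e0, hd1] at this
        rw [e4]
        linear_combination this
      set f := eval a F1
      set r := eval a (pderiv 2 (RR F1 F2))
      have e7 : (ν₁ + f) * (ν₁ - r) = 0 := by linear_combination -ν₁ * e5 + e6
      rcases mul_eq_zero.1 e7 with e8 | e8
      · have e9 : ν₁ = -f := by linear_combination e8
        have e10 : ν₂ = r := by linear_combination -e5 - e8
        rw [e9, e10, neg_div, Complex.neg_im] at him
        exact fun h => him (by rw [h, neg_zero])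
      · have e9 : ν₁ = r := by linear_combination e8
        have e10 : ν₂ = -f := by linear_combination -e5 - e8
        rw [e9, e10, div_neg, Complex.neg_im, ← inv_div, Complex.inv_im] at him
        exact fun h => him (by rw [h]; simp)
    · obtain ⟨ν₁, ν₂, hν, him⟩ := heig z (eval z G) (ne0 z hz) (by rw [hV, hW, zero_add])
      obtain ⟨w1, w2⟩ := AlgAux.W_eq_zero.1 hW
      have e1 := euler h1 z
      have e2 := euler h2 z
      have e3 := euler hGh z
      rw [hz, one_mul, add_assoc, ← eq_sub_iff_add_eq] at e1 e2 e3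
      obtain ⟨e5, e6⟩ := two_eq (e := (d - 1) * eval z G)
        (t := eval z (pderiv 1 F1) + eval z (pderiv 2 F2))
        (D := eval z (pderiv 1 F1) * eval z (pderiv 2 F2) -
          eval z (pderiv 2 F1) * eval z (pderiv 1 F2)) (ν₁ := ν₁) (ν₂ := ν₂) fun x => by
        have := hν (x + eval z G)
        rw [Matrix.det_fin_three] at this
        simp [hG, hF1, hF2, pderiv_X, hz] at this
        rw [e1, e2, e3, w1, w2, hd1] at this
        linear_combination this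
      have n2 : ν₂ ≠ 0 := fun h => him (by simp [h])
      have n1 : ν₁ ≠ 0 := fun h => him (by simp [h])
      rw [e5, e6]
      refine ⟨mul_ne_zero n1 n2, fun h => him ?_⟩
      rw [show ν₁ = -ν₂ by linear_combination h, neg_div, div_self n2]
      simp
  have hL0 : ∀ q, LP (VP F) p q → q 0 ≠ 0 := by
    have key : ∀ q, LP (VP F) p q → (p 0 = 0 ↔ q 0 = 0) := by
      intro q hq
      induction hq with
      | refl => rfl
      | tail _ h ih =>
        obtain ⟨φ, hφ, s, hs, t, ht, a, b, e, e'⟩ := h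
        have ha : a ≠ 0 := left_ne_zero_of_smul (e ▸ (hφ.2 s hs).1)
        have hb : b ≠ 0 := left_ne_zero_of_smul (e' ▸ (hφ.2 t ht).1)
        have k1 := hφ.zero hG hs ht
        have k2 := hφ.zero hG ht hs
        simp only [e, e', Pi.smul_apply, smul_eq_mul, mul_eq_zero, ha, hb, false_or] at k1 k2
        exact ih.trans ⟨k1, k2⟩
    intro q hq h
    exact hna ⟨1, X 0, one_pos, isHomogeneous_X ℂ 0, X_ne_zero 0, fun q' hq' => by
      rw [eval_X]; exact (key q' hq').1 ((key q hq).2 h)⟩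
  let Λ : Set E := {z | LP (VP F) p z ∧ z 0 = 1}
  have hnorm : ∀ q, LP (VP F) p q → (q 0)⁻¹ • q ∈ Λ := fun q hq =>
    ⟨hq.smul hF h0 hp (inv_ne_zero (hL0 q hq)), by simp [hL0 q hq]⟩
  have hne : ∀ z ∈ Λ, W F1 F2 z ≠ 0 := fun z hz e =>
    (hz.1.reg hF h0 hp).2 (hsing z 0 (ne0 z hz.2) (by simpa using e))
  have htc : ∀ φ, TanP (VP F) φ → (∀ t ∈ ball (0 : ℂ) 1, LP (VP F) p (φ t)) →
      TC (W F1 F2) (fun t => (φ t 0)⁻¹ • φ t) 0 1 := by
    intro φ hφ hL t ht
    obtain ⟨-, -, α, β, e⟩ := hφ.2 t ht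
    have k0 := hL0 _ (hL t ht)
    have k1 := hφ.hasDerivAt ht
    have k2 := ((hasDerivAt_pi.1 k1 0).inv k0).smul k1
    refine ⟨hne _ (hnorm _ (hL t ht)), β * φ t 0 ^ d / φ t 0, k2.congr_deriv ?_⟩
    have w0 : ∀ z, W F1 F2 z 0 = 0 := fun _ => rfl
    have w1 : ∀ z, W F1 F2 z 1 = eval z F1 := fun _ => rfl
    have w2 : ∀ z, W F1 F2 z 2 = eval z F2 := fun _ => rfl
    rw [e, hV]
    ext i
    fin_cases i <;>
      simp [w0, w1, w2, eval_smul_of_hom h1, eval_smul_of_hom h2] <;> field_simp <;> ring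
  have H : IsLeaf (W F1 F2) Λ ((p 0)⁻¹ • p) := by
    refine ⟨contDiff_W F1 F2, hnorm p Relation.ReflTransGen.refl, hne,
      fun Γ a ρ hΓ s hs t ht hΛ => ?_, fun Ω hΩ hst z hz => ?_⟩
    · have k0 : ∀ t ∈ ball a ρ, Γ t 0 = 1 := fun t ht => by
        have := gronwall (y := fun t => Γ t 0 - 1) (y' := fun _ => 0) (K := 0) (convex_ball a ρ)
          (fun t ht => by
            obtain ⟨-, κ, hκ⟩ := hΓ t ht
            simpa [W] using (hasDerivAt_pi.1 hκ 0).sub_const 1)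
          (fun _ _ => by simp) hs ht
        simpa [hΛ.2, sub_eq_zero] using this
      refine ⟨LP.along (fun t ht => ⟨ne0 _ (k0 t ht), fun h => ?_, ?_⟩) hs ht hΛ.1, k0 t ht⟩
      · obtain ⟨c, hc⟩ := hsing' _ h
        have : c = 0 := by simpa [W, k0 t ht] using (congrFun hc 0).symm
        exact (hΓ t ht).1 (by rw [hc, this, zero_smul])
      · obtain ⟨-, κ, hκ⟩ := hΓ t ht
        refine ⟨-(κ * eval (Γ t) G), κ, hκ.congr_deriv ?_⟩
        rw [hV, smul_add, smul_smul, neg_smul]; abel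
    · have key : ∀ q, LP (VP F) p q → (q 0)⁻¹ • q ∈ Ω := by
        intro q hq
        induction hq with
        | refl => exact hΩ
        | @tail x y hx h ih =>
          obtain ⟨φ, hφ, s, hs, t, ht, a, b, e, e'⟩ := h
          have ha : a ≠ 0 := left_ne_zero_of_smul (e ▸ (hφ.2 s hs).1)
          have hb : b ≠ 0 := left_ne_zero_of_smul (e' ▸ (hφ.2 t ht).1)
          have hL : ∀ t ∈ ball (0 : ℂ) 1, LP (VP F) p (φ t) := fun t ht =>
            Relation.ReflTransGen.tail hx ⟨φ, hφ, s, hs, t, ht, a, 1, e, by simp⟩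
          have k : ∀ (c : ℂ) (x : E), c ≠ 0 → ((c • x) 0)⁻¹ • c • x = (x 0)⁻¹ • x :=
            fun c x hc => by
              rw [smul_smul, Pi.smul_apply, smul_eq_mul, mul_inv, mul_right_comm,
                inv_mul_cancel₀ hc, one_mul]
          have := hst _ 0 1 (htc φ hφ hL) s hs t ht (hnorm _ (hL s hs))
            (by simp only [e, k a x ha]; exact ih)
          simpa only [e', k b y hb] using this
      simpa [hz.2] using key z hz.1
  obtain ⟨S, hS⟩ := hS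
  obtain ⟨a, ha, hcl⟩ := acc Hy {q | LP (VP F) p q} (fun z hz c hc => hz.smul hF h0 hp hc) hL0
    (fun γ r hr hγ hγ0 t ht => LP.along (fun t ht => ⟨fun e => (hγ t ht).2 0 (by
        have k1 := eval_smul_of_hom h1 0 0
        have k2 := eval_smul_of_hom h2 0 0
        rw [zero_pow (by omega), zero_mul, zero_smul] at k1 k2
        rw [e, zero_smul]
        exact AlgAux.W_eq_zero.2 ⟨k1, k2⟩), fun h => by
          obtain ⟨c, hc⟩ := hsing' _ h
          exact (hγ t ht).2 c hc,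
        -eval (γ t) G, 1, (hγ t ht).1.congr_deriv (by rw [hV, one_smul, neg_smul]; abel)⟩)
      (mem_ball_self hr) ht hγ0)
    S (fun z hz hW => hS z (hsing z 0 (ne0 z hz) (by simpa using hW)))
    (fun k P hk hP hP0 => by
      by_contra hc
      push Not at hc
      exact hna ⟨k, P, hk, hP, hP0, hc⟩)
  obtain ⟨g, ⟨M, hM⟩, hg, q₁, hq₁, q₂, hq₂, hq⟩ := core Hy H ha fun ε hε => by
    have c1 : ∀ i, ContinuousAt (fun z : E => z i / z 1) ![0, 1, a] := fun i =>
      (continuous_apply i).continuousAt.div (continuous_apply 1).continuousAt (by simp)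
    have n1 : ∀ᶠ z : E in 𝓝 ![0, 1, a], z 1 ≠ 0 :=
      (continuous_apply 1).continuousAt.eventually_ne (by simp)
    have n2 : ∀ᶠ z : E in 𝓝 ![0, 1, a], z 2 / z 1 ∈ ball a ε :=
      c1 2 (by simpa using ball_mem_nhds a hε)
    have n3 : ∀ᶠ z : E in 𝓝 ![0, 1, a], z 0 / z 1 ∈ ball (0 : ℂ) ε :=
      c1 0 (by simpa using ball_mem_nhds (0 : ℂ) hε)
    obtain ⟨z, ⟨k1, k2, k3⟩, hz⟩ := mem_closure_iff_nhds.1 hcl _ (n1.and (n2.and n3))
    have k0 := hL0 z hz
    refine ⟨z 2 / z 1, z 0 / z 1, k2, div_ne_zero k0 k1, mem_ball_zero_iff.1 k3, ?_⟩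
    have : emb (z 2 / z 1) (z 0 / z 1) = (z 0)⁻¹ • z := by
      ext i
      fin_cases i <;> simp [emb, k0] <;> field_simp
    rw [this]
    exact hnorm z hz
  refine ⟨fun q => g ((q 0)⁻¹ • q), ⟨M, fun q hq => hM _ (hnorm q hq)⟩, fun q _ c hc => ?_,
    fun φ hφ hL => ?_, q₁, q₂, hq₁.1, hq₂.1, by simpa [hq₁.2, hq₂.2] using hq⟩
  · simp only
    rw [smul_smul, Pi.smul_apply, smul_eq_mul, mul_inv, mul_right_comm, inv_mul_cancel₀ hc, one_mul]
  · have k := fun t ht => hg _ t ((htc φ hφ hL).tg ht) (hnorm _ (hL t ht))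
    exact ⟨ContinuousOn.upperSemicontinuousOn fun t ht => (k t ht).1.continuousAt.continuousWithinAt,
      fun z r hr hz => submean (f := fun t => g ((φ t 0)⁻¹ • φ t)) hr fun t ht => k t (hz ht)⟩

end Pool.Agent.P.MP_a31c1c_an
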