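import Pool.Agent.P.MP_a31c1c_an.Proj

/-!
Reduction to the case where the point `(0 : 0 : 1)` is regular, by a linear shear.
-/

set_option autoImplicit false

namespace Pool.Agent.P.MP_a31c1c_an

open MvPolynomial Metric Set Filter Topology

section
variable {V V' : E → E} {T S : E →L[ℂ] E}

theorem SingP.map (hST : ∀ z, S (T z) = z) (hV : ∀ z, V (T z) = T (V' z)) {z : E} :
    SingP V (T z) ↔ SingP V' z := by
  have hi : Function.Injective T := Function.LeftInverse.injective hST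
  refine and_congr (not_congr ?_) (exists_congr fun c => ?_)
  · exact map_eq_zero_iff T hi
  · rw [hV, ← map_smul, hi.eq_iff]

theorem TanP.map (hST : ∀ z, S (T z) = z) (hV : ∀ z, V (T z) = T (V' z)) {φ : ℂ → E}
    (h : TanP V' φ) : TanP V fun t => T (φ t) := by
  have hi : Function.Injective T := Function.LeftInverse.injective hST
  refine ⟨T.differentiable.comp_differentiableOn h.1, fun t ht => ?_⟩
  obtain ⟨h1, h2, α, β, e⟩ := h.2 t ht
  refine ⟨fun h0 => h1 ((map_eq_zero_iff T hi).1 h0), fun h0 => h2 ((SingP.map hST hV).1 h0),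
    α, β, ?_⟩
  have := (T.hasFDerivAt.comp_hasDerivAt t (h.hasDerivAt ht)).deriv
  rw [e, map_add, map_smul, map_smul, ← hV] at this
  exact this

theorem LP.map (hST : ∀ z, S (T z) = z) (hV : ∀ z, V (T z) = T (V' z)) {p q : E}
    (h : LP V' p q) : LP V (T p) (T q) := by
  induction h with
  | refl => exact Relation.ReflTransGen.refl
  | tail _ h ih =>
    obtain ⟨φ, hφ, s, hs, t, ht, a, b, e, e'⟩ := h
    exact Relation.ReflTransGen.tail ih ⟨_, hφ.map hST hV, s, hs, t, ht, a, b,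
      by simp only [e, map_smul], by simp only [e', map_smul]⟩

theorem Concl.map (hST : ∀ z, S (T z) = z) (hTS : ∀ z, T (S z) = z)
    (hV : ∀ z, V (T z) = T (V' z)) {p : E} (h : Concl V' p) : Concl V (T p) := by
  have hV' : ∀ z, V' (S z) = S (V z) := fun z => by
    conv_rhs => rw [← hTS z, hV, hST]
  have hL : ∀ q, LP V (T p) q → LP V' p (S q) := fun q hq => by
    simpa only [hST] using hq.map hTS hV'
  obtain ⟨u, ⟨M, hM⟩, h1, h2, q₁, q₂, k1, k2, k3⟩ := h
  refine ⟨fun q => u (S q), ⟨M, fun q hq => hM _ (hL q hq)⟩, fun q hq c hc => ?_,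
    fun φ hφ hq => h2 _ (hφ.map hTS hV') fun t ht => hL _ (hq t ht),
    T q₁, T q₂, k1.map hST hV, k2.map hST hV, by simpa only [hST] using k3⟩
  simp only [map_smul]
  exact h1 _ (hL q hq) c hc

end

/-- The shear. -/
noncomputable def sh (c : ℂ) : E →L[ℂ] E :=
  ContinuousLinearMap.id ℂ E +
    c • (ContinuousLinearMap.proj (R := ℂ) (φ := fun _ : Fin 3 => ℂ) 2).smulRight ![0, 1, 0]

theorem sh0 (c : ℂ) (z : E) : sh c z 0 = z 0 := by simp [sh]
theorem sh1 (c : ℂ) (z : E) : sh c z 1 = z 1 + c * z 2 := by simp [sh]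
theorem sh2 (c : ℂ) (z : E) : sh c z 2 = z 2 := by simp [sh]

theorem sh_neg (c : ℂ) (z : E) : sh (-c) (sh c z) = z := by
  ext i
  fin_cases i <;> simp [sh0, sh1, sh2]

theorem sh_neg' (c : ℂ) (z : E) : sh c (sh (-c) z) = z := by
  simpa using sh_neg (-c) z

/-- The shear acting on polynomials. -/
noncomputable def shP (c : ℂ) (H : MP) : MP := aeval ![X 0, X 1 + C c * X 2, X 2] H

theorem eval_shP (c : ℂ) (H : MP) (z : E) : eval z (shP c H) = eval (sh c z) H := by
  induction H using MvPolynomial.induction_on with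
  | C a => simp [shP]
  | add p q hp hq => simp only [shP, map_add] at hp hq ⊢; rw [hp, hq]
  | mul_X p j hp =>
    simp only [shP, map_mul] at hp ⊢
    rw [hp]
    fin_cases j <;> simp [sh0, sh1, sh2]

theorem shP_hom (c : ℂ) {H : MP} {n : ℕ} (h : H.IsHomogeneous n) : (shP c H).IsHomogeneous n := by
  have := h.aeval (n := 1) (![X 0, X 1 + C c * X 2, X 2] : Fin 3 → MP) fun i => by
    fin_cases i
    · exact isHomogeneous_X ℂ 0
    · exact (isHomogeneous_X ℂ 1).add (isHomogeneous_C_mul_X c 2)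
    · exact isHomogeneous_X ℂ 2
  rwa [one_mul] at this

theorem pderiv_shP (c : ℂ) (H : MP) (a : E) (j : Fin 3) : eval a (pderiv j (shP c H)) =
    ∑ i, eval (sh c a) (pderiv i H) * sh c (Pi.single j 1) i := by
  have h0 : HasDerivAt (fun s : ℂ => a + s • (Pi.single j 1 : E)) (Pi.single j 1) 0 := by
    simpa using ((hasDerivAt_id (0 : ℂ)).smul_const (Pi.single j 1 : E)).const_add a
  have h1 := hasDerivAt_eval (shP c H) h0
  have h2 := hasDerivAt_eval H ((sh c).hasFDerivAt.comp_hasDerivAt (0 : ℂ) h0)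
  simp only [eval_shP] at h1
  have h3 := h1.unique h2
  simpa [Pi.single_apply] using h3

/-- The sheared vector field. -/
noncomputable def shF (c : ℂ) (F : Fin 3 → MP) : Fin 3 → MP :=
  ![shP c (F 0), shP c (F 1) - C c * shP c (F 2), shP c (F 2)]

theorem VP_shF (c : ℂ) (F : Fin 3 → MP) (z : E) : VP F (sh c z) = sh c (VP (shF c F) z) := by
  ext i
  fin_cases i <;> simp [VP, shF, sh0, sh1, sh2, eval_shP]

/-- The theorem in homogeneous coordinates. -/
theorem main {d : ℕ} {F : Fin 3 → MP} (hd : 2 ≤ d) (hF : ∀ i, (F i).IsHomogeneous d)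
    (hS : ∃ S : Finset E, ∀ z, SingP (VP F) z → ∃ s ∈ S, ∃ t : ℂ, z = t • s)
    (hinv : ∀ z : E, z 0 = 0 → VP F z 0 = 0) (heig : Eig d F)
    {p : E} (h0 : p ≠ 0) (hp : ¬ SingP (VP F) p)
    (hna : ¬ ∃ (k : ℕ) (P : MP), 0 < k ∧ P.IsHomogeneous k ∧ P ≠ 0 ∧
      ∀ q, LP (VP F) p q → eval q P = 0) : Concl (VP F) p := by
  classical
  obtain ⟨S, hS⟩ := hS
  obtain ⟨c, hc⟩ : ∃ c : ℂ, ¬ SingP (VP F) ![0, c, 1] := by
    obtain ⟨c, hc⟩ := Infinite.exists_notMem_finset (S.image fun s : E => s 1 / s 2)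
    refine ⟨c, fun h => hc ?_⟩
    obtain ⟨s, hs, t, e⟩ := hS _ h
    have e1 : c = t * s 1 := by simpa using congrFun e 1
    have e2 : 1 = t * s 2 := by simpa using congrFun e 2
    have e3 : s 2 ≠ 0 := fun h => by simp [h] at e2
    refine Finset.mem_image.2 ⟨s, hs, ?_⟩
    rw [div_eq_iff e3]
    linear_combination s 1 * e2 - s 2 * e1
  have hV := VP_shF c F
  have hs := fun z => SingP.map (z := z) (sh_neg c) hV
  rw [← sh_neg' c p] at hp hna ⊢
  refine Concl.map (sh_neg c) (sh_neg' c) hV (proj hd (fun i => ?_) ⟨S.image (sh (-c)),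
    fun z hz => ?_⟩ (fun z hz => ?_) (fun a e ha he => ?_) (fun h => hc ?_)
    (fun h => h0 ?_) (fun h => hp ((hs _).2 h)) ?_)
  · fin_cases i
    · exact shP_hom c (hF 0)
    · exact (shP_hom c (hF 1)).sub ((shP_hom c (hF 2)).C_mul c)
    · exact shP_hom c (hF 2)
  · obtain ⟨s, hs, t, e⟩ := hS _ ((hs z).2 hz)
    exact ⟨_, Finset.mem_image_of_mem _ hs, t, by rw [← map_smul, ← e, sh_neg]⟩
  · rw [← sh0 c (VP (shF c F) z), ← hV]
    exact hinv _ (by rw [sh0, hz])
  · obtain ⟨ν₁, ν₂, hν, him⟩ := heig (sh c a) e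
      (fun h => ha (by rw [← sh_neg c a, h, map_zero])) (by rw [hV, he, map_smul])
    refine ⟨ν₁, ν₂, fun x => ?_, him⟩
    rw [← hν x, Matrix.det_fin_three, Matrix.det_fin_three]
    simp [shF, pderiv_shP, Fin.sum_univ_three, sh0, sh1, sh2]
    ring
  · have : sh c ![0, 0, 1] = ![0, c, 1] := by
      ext i
      fin_cases i <;> simp [sh0, sh1, sh2]
    rw [← this]
    exact (hs _).2 h
  · rw [← sh_neg' c p, h, map_zero]
  · rintro ⟨k, P, hk, hP, hP0, h⟩
    refine hna ⟨k, shP (-c) P, hk, shP_hom _ hP, fun e => hP0 (MvPolynomial.funext fun z => ?_),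
      fun q hq => ?_⟩
    · rw [← sh_neg c z, ← eval_shP, e, map_zero, map_zero]
    · rw [eval_shP]
      refine h _ ?_
      have hV' : ∀ z, VP (shF c F) (sh (-c) z) = sh (-c) (VP F z) := fun z => by
        conv_rhs => rw [← sh_neg' c z, hV, sh_neg]
      simpa only [sh_neg] using hq.map (sh_neg' c) hV'

end Pool.Agent.P.MP_a31c1c_an
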