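import Pool.Agent.P.MP_a31c1c_an.Plane

/-!
Variations of the Dirichlet energy, truncation, and minimising sequences.
-/

set_option autoImplicit false

namespace Pool.Agent.P.MP_a31c1c_an

open Metric Set Filter Topology MeasureTheory
open scoped ENNReal

variable {v : E → E} {Λ : Set E} {p : E} {ν : (E → ℝ) → Measure E}

/-- Admissible functions: `C¹` along the leaf and zero far away. -/
def Adm (v : E → E) (Λ : Set E) (φ : E → ℝ) : Prop :=
  Reg v Λ 1 φ ∧ ∃ R : ℝ, ∀ z ∈ Λ, R < ‖z‖ → φ z = 0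

/-- The energy of `φ` on finitely many disjoint plaques is at most `e`. -/
def Bnd (v : E → E) (Λ : Set E) (φ : E → ℝ) (e : ℝ) : Prop :=
  ∀ (S : Finset ℂ) (Γ : ℂ → ℂ → E) (a : ℂ) (ρ : ℝ),
    (∀ w ∈ S, TC v (Γ w) a ρ ∧ InjOn (Γ w) (ball a ρ) ∧ MapsTo (Γ w) (ball a ρ) Λ) →
    (∀ w ∈ S, ∀ w' ∈ S, w ≠ w' → Disjoint (Γ w '' ball a ρ) (Γ w' '' ball a ρ)) →
    ∑ w ∈ S, ∫⁻ t in ball a ρ, ENNReal.ofReal (qd (fun s => φ (Γ w s)) t) ≤ ENNReal.ofReal e

theorem IsEnergy.bnd (h : IsEnergy v Λ ν) {φ : E → ℝ} (hφ : Reg v Λ 1 φ) (hfin : ν φ univ ≠ ⊤) :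
    Bnd v Λ φ (ν φ univ).toReal := by
  intro S Γ a ρ h1 h2
  rw [ENNReal.ofReal_toReal hfin, Finset.sum_congr rfl fun w hw =>
    (h.loc φ hφ (Γ w) a ρ (h1 w hw).1 (h1 w hw).2.1 (h1 w hw).2.2 _ measurableSet_ball
      subset_rfl).symm,
    ← measure_biUnion_finset (fun w hw w' hw' e => h2 w hw w' hw' e) fun w hw =>
      measurableSet_ball.image_of_continuousOn_injOn (h1 w hw).1.continuousOn (h1 w hw).2.1]
  exact measure_mono (subset_univ _)

open Classical in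
/-- Extension by zero of a function given in a chart. -/
noncomputable def ext (ψ : ℂ → E) (r : ℝ) (θ : ℂ → ℝ) (z : E) : ℝ :=
  if z ∈ ψ '' ball 0 r then θ (Function.invFunOn ψ (ball 0 r) z) else 0

section
variable {ψ : ℂ → E} {r ε : ℝ} {θ : ℂ → ℝ} {x : ℂ}

theorem ext_apply (hψ : Chart v ψ r) {t : ℂ} (ht : t ∈ ball (0 : ℂ) r) :
    ext ψ r θ (ψ t) = θ t := by
  rw [ext, if_pos ⟨t, ht, rfl⟩, hψ.2.2.leftInvOn_invFunOn ht]

theorem ext_eventually (hψ : Chart v ψ r) {t : ℂ} (ht : t ∈ ball (0 : ℂ) r) :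
    (fun s => ext ψ r θ (ψ s)) =ᶠ[𝓝 t] θ := by
  filter_upwards [isOpen_ball.mem_nhds ht] with s hs using ext_apply hψ hs

theorem ext_zero (hψ : Chart v ψ r) (hθ : Test θ x ε) {z : E} (hz : z ∉ ψ '' closedBall x ε) :
    ext ψ r θ z = 0 := by
  by_cases h : z ∈ ψ '' ball 0 r
  · obtain ⟨t, ht, rfl⟩ := h
    rw [ext_apply hψ ht]
    exact image_eq_zero_of_notMem_tsupport fun h => hz ⟨t, hθ.supp h, rfl⟩
  · exact if_neg h

theorem ext_nonneg (h : ∀ t, 0 ≤ θ t) (z : E) : 0 ≤ ext ψ r θ z := by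
  unfold ext; split_ifs
  · exact h _
  · exact le_rfl

theorem Chart.isCompact_image (hψ : Chart v ψ r) (hx : closedBall x ε ⊆ ball (0 : ℂ) r) :
    IsCompact (ψ '' closedBall x ε) :=
  (isCompact_closedBall x ε).image_of_continuousOn (hψ.2.1.continuousOn.mono hx)

theorem ext_eventually_zero (hψ : Chart v ψ r) (hθ : Test θ x ε)
    (hx : closedBall x ε ⊆ ball (0 : ℂ) r) {Γ : ℂ → E} {t : ℂ} (hΓ : ContinuousAt Γ t)
    (ht : Γ t ∉ ψ '' closedBall x ε) : (fun s => ext ψ r θ (Γ s)) =ᶠ[𝓝 t] fun _ => 0 := by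
  have : ∀ᶠ s in 𝓝 t, Γ s ∈ (ψ '' closedBall x ε)ᶜ :=
    hΓ ((hψ.isCompact_image hx).isClosed.isOpen_compl.mem_nhds ht)
  filter_upwards [this] with s hs using ext_zero hψ hθ hs

theorem IsLeaf.adm_ext (H : IsLeaf v Λ p) (hψ : Chart v ψ r) (hθ : Test θ x ε)
    (hx : closedBall x ε ⊆ ball (0 : ℂ) r) : Adm v Λ (ext ψ r θ) := by
  refine ⟨H.reg_of_local fun z hz => ?_, ?_⟩
  · by_cases h : z ∈ ψ '' closedBall x ε
    · obtain ⟨t, ht, rfl⟩ := h
      exact ⟨ψ, r, t, hx ht, hψ.2.1, rfl,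
        ((hθ.smooth.of_le (by norm_num)).contDiffAt).congr_of_eventuallyEq
          (ext_eventually hψ (hx ht))⟩
    · obtain ⟨χ, ρ, h0, hχ⟩ := exists_chart H.smooth (H.ne z hz)
      exact ⟨χ, ρ, 0, mem_ball_self hχ.1, hχ.2.1, h0, contDiffAt_const.congr_of_eventuallyEq
        (ext_eventually_zero hψ hθ hx (hχ.2.1 0 (mem_ball_self hχ.1)).continuousAt (h0 ▸ h))⟩
  · obtain ⟨R, hR⟩ := (hψ.isCompact_image hx).isBounded.exists_norm_le
    exact ⟨R, fun z _ hz => ext_zero hψ hθ fun h => (hR z h).not_gt hz⟩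

theorem Adm.comb {φ φ' : E → ℝ} (h : Adm v Λ φ) (h' : Adm v Λ φ') (c s : ℝ) :
    Adm v Λ fun z => c * φ z + s * φ' z := by
  obtain ⟨h1, R, hR⟩ := h
  obtain ⟨h2, R', hR'⟩ := h'
  refine ⟨fun Γ t hΓ ht => (contDiffAt_const.mul (h1 Γ t hΓ ht)).add
    (contDiffAt_const.mul (h2 Γ t hΓ ht)), max R R', fun z hz hz' => ?_⟩
  simp [hR z hz ((le_max_left _ _).trans_lt hz'), hR' z hz ((le_max_right _ _).trans_lt hz')]

theorem fderiv_comb {f g : ℂ → ℝ} {t : ℂ} (hf : DifferentiableAt ℝ f t)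
    (hg : DifferentiableAt ℝ g t) (c s : ℝ) (ξ : ℂ) :
    fderiv ℝ (fun y => c * f y + s * g y) t ξ = c * fderiv ℝ f t ξ + s * fderiv ℝ g t ξ := by
  have := ((hf.hasFDerivAt.const_mul c).add (hg.hasFDerivAt.const_mul s)).fderiv
  rw [show (fun y => c * f y + s * g y) = (fun y => c * f y) + fun y => s * g y from rfl, this]
  simp

theorem integrableOn_qd {f : ℂ → ℝ} (hf : ∀ t ∈ closedBall x ε, ContDiffAt ℝ 1 f t) :
    IntegrableOn (qd f) (closedBall x ε) :=
  ContinuousOn.integrableOn_compact (isCompact_closedBall x ε) fun t ht =>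
    (((continuousAt_fderiv_apply (hf t ht) 1).pow 2).add
      ((continuousAt_fderiv_apply (hf t ht) Complex.I).pow 2)).continuousWithinAt

theorem bil_eq_setIntegral {f : ℂ → ℝ} (hθ : Test θ x ε) : bil f θ = ∫ t in closedBall x ε,
    (fderiv ℝ f t 1 * fderiv ℝ θ t 1 + fderiv ℝ f t Complex.I * fderiv ℝ θ t Complex.I) := by
  refine (setIntegral_eq_integral_of_forall_compl_eq_zero fun t ht => ?_).symm
  rw [fderiv_of_notMem_tsupport ℝ fun h => ht (hθ.supp h)]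
  simp

/-- The energy of `c φ + s θ`. -/
theorem IsEnergy.var (h : IsEnergy v Λ ν) (H : IsLeaf v Λ p) (hψ : Chart v ψ r) (h0 : ψ 0 ∈ Λ)
    (hθ : Test θ x ε) (hx : closedBall x ε ⊆ ball (0 : ℂ) r) {φ : E → ℝ} (hφ : Adm v Λ φ)
    (hfin : ν φ univ ≠ ⊤) (c s : ℝ) :
    ν (fun z => c * φ z + s * ext ψ r θ z) univ ≠ ⊤ ∧
    (ν (fun z => c * φ z + s * ext ψ r θ z) univ).toReal ≤ c ^ 2 * (ν φ univ).toReal +
      2 * c * s * bil (fun t => φ (ψ t)) θ + s ^ 2 * bil θ θ := by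
  set φ' : E → ℝ := fun z => c * φ z + s * ext ψ r θ z with hφ'
  have hadm : Adm v Λ φ' := hφ.comb (H.adm_ext hψ hθ hx) c s
  have hS : MeasurableSet (ψ '' closedBall x ε) := (hψ.isCompact_image hx).isClosed.measurableSet
  have hmem : ∀ t ∈ ball (0 : ℂ) r, ψ t ∈ Λ := fun t ht =>
    H.sol_mem hψ.2.1 (mem_ball_self hψ.1) ht h0
  have htc : TC v ψ 0 r := hψ.2.1.tc H.smooth (mem_ball_self hψ.1) (H.ne _ h0)
  have hloc : ∀ φ, Reg v Λ 1 φ → ν φ (ψ '' closedBall x ε) =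
      ENNReal.ofReal (∫ t in closedBall x ε, qd (fun s => φ (ψ s)) t) := fun φ hφ => by
    rw [h.loc φ hφ ψ 0 r htc hψ.2.2 hmem _ measurableSet_closedBall hx,
      ofReal_integral_eq_lintegral_ofReal (integrableOn_qd fun t ht =>
        hφ ψ t (hψ.2.1.tg (hx ht)) (hmem t (hx ht))) (Eventually.of_forall (qd_nonneg _))]
  have hout : ν φ' (ψ '' closedBall x ε)ᶜ ≤ ENNReal.ofReal (c ^ 2) * ν φ (ψ '' closedBall x ε)ᶜ := by
    refine h.le φ φ' _ _ (sq_nonneg c) hS.compl fun χ ρ hχ t ht hΛ hS' => le_of_eq ?_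
    have h1 := ext_eventually_zero hψ hθ hx (hχ t ht).continuousAt hS'
    have h2 : DifferentiableAt ℝ (fun s => φ (χ s)) t :=
      (hφ.1 χ t (hχ.tg ht) hΛ).differentiableAt (by norm_num)
    have h3 : (fun y => φ' (χ y)) =ᶠ[𝓝 t] fun y => c * φ (χ y) + s * (fun _ => 0) y := by
      filter_upwards [h1] with y hy using by simp [hφ', hy]
    rw [qd_congr h3]
    unfold qd
    rw [fderiv_comb h2 (differentiableAt_const _), fderiv_comb h2 (differentiableAt_const _)]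
    simp; ring
  have hf : ∀ t ∈ closedBall x ε, ContDiffAt ℝ 1 (fun s => φ (ψ s)) t := fun t ht =>
    hφ.1 ψ t (hψ.2.1.tg (hx ht)) (hmem t (hx ht))
  have hθ1 : ∀ t ∈ closedBall x ε, ContDiffAt ℝ 1 θ t := fun t _ =>
    (hθ.smooth.of_le (by norm_num)).contDiffAt
  have hin : ∫ t in closedBall x ε, qd (fun s => φ' (ψ s)) t =
      c ^ 2 * (∫ t in closedBall x ε, qd (fun s => φ (ψ s)) t) +
        2 * c * s * bil (fun t => φ (ψ t)) θ + s ^ 2 * bil θ θ := by
    rw [bil_eq_setIntegral hθ, bil_eq_setIntegral hθ, ← integral_const_mul, ← integral_const_mul,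
      ← integral_const_mul, ← integral_add, ← integral_add]
    · refine setIntegral_congr_fun measurableSet_closedBall fun t ht => ?_
      have h3 : (fun y => φ' (ψ y)) =ᶠ[𝓝 t] fun y => c * φ (ψ y) + s * θ y := by
        filter_upwards [ext_eventually (θ := θ) hψ (hx ht)] with y hy using by simp [hφ', hy]
      have h4 := (hf t ht).differentiableAt (by norm_num)
      have h5 := (hθ1 t ht).differentiableAt (by norm_num)
      rw [qd_congr h3]
      unfold qd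
      rw [fderiv_comb h4 h5, fderiv_comb h4 h5]
      ring
    · exact ((integrableOn_qd hf).const_mul _).add
        (((integrable_bil hθ hf 1).add (integrable_bil hθ hf _)).integrableOn.const_mul _)
    · exact ((integrable_bil hθ hθ1 1).add (integrable_bil hθ hθ1 _)).integrableOn.const_mul _
    · exact (integrableOn_qd hf).const_mul _
    · exact ((integrable_bil hθ hf 1).add (integrable_bil hθ hf _)).integrableOn.const_mul _
  have hc : ν φ (ψ '' closedBall x ε)ᶜ ≠ ⊤ := ne_top_of_le_ne_top hfin (measure_mono (subset_univ _))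
  have hc' : ν φ' (ψ '' closedBall x ε)ᶜ ≠ ⊤ :=
    ne_top_of_le_ne_top (ENNReal.mul_ne_top ENNReal.ofReal_ne_top hc) hout
  have hnn : ∀ f : ℂ → ℝ, 0 ≤ ∫ t in closedBall x ε, qd f t := fun f =>
    integral_nonneg (qd_nonneg f)
  rw [← measure_add_measure_compl hS, ← measure_add_measure_compl (μ := ν φ) hS, hloc _ hadm.1,
    hloc _ hφ.1]
  refine ⟨ENNReal.add_ne_top.2 ⟨ENNReal.ofReal_ne_top, hc'⟩, ?_⟩
  rw [ENNReal.toReal_add ENNReal.ofReal_ne_top hc', ENNReal.toReal_add ENNReal.ofReal_ne_top hc,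
    ENNReal.toReal_ofReal (hnn _), ENNReal.toReal_ofReal (hnn _), hin]
  have := ENNReal.toReal_mono (ENNReal.mul_ne_top ENNReal.ofReal_ne_top hc) hout
  rw [ENNReal.toReal_mul, ENNReal.toReal_ofReal (sq_nonneg c)] at this
  linarith

end

/-- A bounded `C¹` contraction that fixes `0` and keeps `[1, ∞)`. -/
theorem exists_trunc : ∃ T T' : ℝ → ℝ, ContDiff ℝ 1 T ∧ (∀ x, HasDerivAt T (T' x) x) ∧
    (∀ x, |T' x| ≤ 1) ∧ T 0 = 0 ∧ (∀ x, 1 ≤ x → 1 ≤ T x) ∧ ∀ x, |T x| ≤ 2 := by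
  let κ : ℝ → ℝ := fun x => max 0 (min 1 (2 - |x|))
  have hκ : Continuous κ := by fun_prop
  have h0 : ∀ x, 0 ≤ κ x := fun x => le_max_left _ _
  have h1 : ∀ x, κ x ≤ 1 := fun x => max_le zero_le_one (min_le_left _ _)
  have hi : ∀ a b, IntervalIntegrable κ volume a b := fun a b => hκ.intervalIntegrable a b
  let T : ℝ → ℝ := fun x => ∫ y in (0 : ℝ)..x, κ y
  have hT : ∀ x, HasDerivAt T (κ x) x := fun x => (hκ.integral_hasStrictDerivAt 0 x).hasDerivAt
  have hle : ∀ x, |x| ≤ 2 → |T x| ≤ 2 := fun x hx => by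
    have := intervalIntegral.norm_integral_le_of_norm_le_const (a := 0) (b := x) (C := 1) (f := κ)
      fun y _ => by rw [Real.norm_eq_abs, abs_of_nonneg (h0 y)]; exact h1 y
    rw [Real.norm_eq_abs, sub_zero, one_mul] at this
    exact this.trans hx
  have hconst : ∀ a x, (∀ y ∈ uIcc a x, 2 ≤ |y|) → T x = T a := fun a x h => by
    have : ∫ y in a..x, κ y = ∫ _ in a..x, (0 : ℝ) := intervalIntegral.integral_congr fun y hy =>
      max_eq_left ((min_le_right _ _).trans (by linarith [h y hy]))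
    simp only [T]
    rw [← intervalIntegral.integral_add_adjacent_intervals (hi 0 a) (hi a x), this]
    simp
  refine ⟨T, κ, ?_, hT, fun x => by rw [abs_of_nonneg (h0 x)]; exact h1 x, by simp [T],
    fun x hx => ?_, fun x => ?_⟩
  · rw [contDiff_one_iff_deriv]
    refine ⟨fun s => (hT s).differentiableAt, ?_⟩
    rw [show deriv T = κ from funext fun s => (hT s).deriv]
    exact hκ
  · have h2 : ∫ y in (0 : ℝ)..1, κ y = ∫ _ in (0 : ℝ)..1, (1 : ℝ) :=
      intervalIntegral.integral_congr fun y hy => by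
        rw [uIcc_of_le zero_le_one] at hy
        have : min 1 (2 - |y|) = 1 := min_eq_left (by rw [abs_of_nonneg hy.1]; linarith [hy.2])
        simp [κ, this]
    have h3 : 0 ≤ ∫ y in (1 : ℝ)..x, κ y := intervalIntegral.integral_nonneg hx fun y _ => h0 y
    simp only [T]
    rw [← intervalIntegral.integral_add_adjacent_intervals (hi 0 1) (hi 1 x), h2]
    simpa using h3
  · rcases le_or_gt |x| 2 with h | h
    · exact hle x h
    · rcases le_total 0 x with h' | h'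
      · rw [abs_of_nonneg h'] at h
        rw [hconst 2 x fun y hy => by
          rw [uIcc_of_le h.le] at hy; exact hy.1.trans (le_abs_self y)]
        exact hle 2 (by norm_num)
      · rw [abs_of_nonpos h'] at h
        rw [hconst (-2) x fun y hy => by
          rw [uIcc_of_ge (by linarith)] at hy; linarith [hy.2, neg_le_abs y]]
        exact hle (-2) (by norm_num)

/-- Truncation does not increase the energy. -/
theorem IsEnergy.trunc (h : IsEnergy v Λ ν) {φ : E → ℝ} (hφ : Adm v Λ φ) :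
    ∃ φ', Adm v Λ φ' ∧ ν φ' univ ≤ ν φ univ ∧ (∀ z, 1 ≤ φ z → 1 ≤ φ' z) ∧ ∀ z, |φ' z| ≤ 2 := by
  obtain ⟨T, T', hT, hT', hb, h0, h1, h2⟩ := exists_trunc
  obtain ⟨hr, R, hR⟩ := hφ
  refine ⟨fun z => T (φ z), ⟨fun Γ t hΓ ht => hT.contDiffAt.comp t (hr Γ t hΓ ht), R,
    fun z hz hz' => by simp [hR z hz hz', h0]⟩, ?_, fun z hz => h1 _ hz, fun z => h2 _⟩
  have := h.le φ (fun z => T (φ z)) 1 univ zero_le_one MeasurableSet.univ
    fun χ ρ hχ t ht hΛ _ => ?_
  · simpa using this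
  have h3 : DifferentiableAt ℝ (fun s => φ (χ s)) t :=
    (hr χ t (hχ.tg ht) hΛ).differentiableAt (by norm_num)
  have h4 := ((hT' (φ (χ t))).comp_hasFDerivAt t h3.hasFDerivAt).fderiv
  unfold qd
  rw [show (fun s => T (φ (χ s))) = T ∘ fun s => φ (χ s) from rfl, h4]
  have h5 : T' (φ (χ t)) ^ 2 ≤ 1 := by
    rw [← sq_abs]; nlinarith [hb (φ (χ t)), abs_nonneg (T' (φ (χ t)))]
  simp only [_root_.smul_apply, smul_eq_mul, mul_pow, one_mul]
  nlinarith [sq_nonneg (fderiv ℝ (fun s => φ (χ s)) t 1),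
    sq_nonneg (fderiv ℝ (fun s => φ (χ s)) t Complex.I)]

end Pool.Agent.P.MP_a31c1c_an
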