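import Pool.Agent.P.MP_a31c1c_an.Aff
import Pool.Agent.P.MP_a31c1c_an.Var

/-!
Plaques near the line at infinity, and the holonomy along a chain of discs.
-/

set_option autoImplicit false

namespace Pool.Agent.P.MP_a31c1c_an

open MvPolynomial Metric Set Filter Topology MeasureTheory
open scoped ENNReal

/-- Difference of two averages in terms of the energy. -/
theorem avg_sub_le {f : ℂ → ℝ} {b u u' : ℂ} {ρ r l : ℝ}
    (hf : ∀ t ∈ ball b (2 * ρ), ContDiffAt ℝ 1 f t) (hu : u ∈ ball b ρ) (hu' : u' ∈ ball b ρ)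
    (hr : r ≤ ρ) (hl : 0 < l) :
    ‖(∫ t in ball (0 : ℂ) r, f (u + t)) - ∫ t in ball (0 : ℂ) r, f (u' + t)‖ₑ ≤
      ENNReal.ofReal (l / 2) * volume (ball (0 : ℂ) r) +
        ENNReal.ofReal (2 * ρ ^ 2 / l) * ∫⁻ t in ball b (2 * ρ), ENNReal.ofReal (qd f t) := by
  have hm : ∀ x ∈ ball b ρ, ∀ t ∈ closedBall (0 : ℂ) r, x + t ∈ ball b (2 * ρ) := by
    intro x hx t ht
    rw [mem_ball, dist_eq_norm] at hx ⊢
    rw [mem_closedBall_zero_iff] at ht
    have := norm_add_le (x - b) t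
    rw [show x + t - b = x - b + t by ring]
    linarith
  have hi : ∀ x ∈ ball b ρ, IntegrableOn (fun t => f (x + t)) (ball (0 : ℂ) r) := fun x hx =>
    (ContinuousOn.integrableOn_compact (isCompact_closedBall 0 r) fun t ht =>
      (ContinuousAt.comp (f := fun t => x + t) (hf _ (hm x hx t ht)).continuousAt
        (by fun_prop)).continuousWithinAt).mono_set ball_subset_closedBall
  let c : ℝ → ℂ := fun θ => u' + θ • (u - u')
  have hc : ∀ θ ∈ Icc (0 : ℝ) 1, c θ ∈ ball b ρ := fun θ hθ =>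
    (convex_ball b ρ).add_smul_sub_mem hu' hu hθ
  have hξ : ‖u - u'‖ ≤ 2 * ρ := by
    have := dist_triangle_right u u' b
    rw [mem_ball] at hu hu'
    rw [← dist_eq_norm]; linarith
  have hmeas : Measurable fun z : ℂ × ℝ => ENNReal.ofReal (qd f (c z.2 + z.1)) :=
    ((measurable_qd f).comp (by fun_prop : Continuous fun z : ℂ × ℝ => c z.2 + z.1).measurable)
      |>.ennreal_ofReal
  have h1 : ∀ t ∈ ball (0 : ℂ) r, ‖f (u + t) - f (u' + t)‖ₑ ≤ ENNReal.ofReal (l / 2) +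
      ENNReal.ofReal (2 * ρ ^ 2 / l) * ∫⁻ θ in Ioc (0 : ℝ) 1, ENNReal.ofReal (qd f (c θ + t)) := by
    intro t ht
    have hd : ∀ θ ∈ uIcc (0 : ℝ) 1,
        HasDerivAt (fun θ => f (c θ + t)) (fderiv ℝ f (c θ + t) (u - u')) θ := by
      intro θ hθ
      rw [uIcc_of_le zero_le_one] at hθ
      have h2 : HasDerivAt (fun θ => c θ + t) (u - u') θ := by
        simpa [c] using (((hasDerivAt_id θ).smul_const (u - u')).const_add u').add_const t
      exact ((hf _ (hm _ (hc θ hθ) t (ball_subset_closedBall ht))).differentiableAt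
        (by norm_num)).hasFDerivAt.comp_hasDerivAt θ h2
    have hcont : ContinuousOn (fun θ => fderiv ℝ f (c θ + t) (u - u')) (uIcc (0 : ℝ) 1) := by
      intro θ hθ
      rw [uIcc_of_le zero_le_one] at hθ
      exact (ContinuousAt.comp (f := fun θ => c θ + t) (continuousAt_fderiv_apply
        (hf _ (hm _ (hc θ hθ) t (ball_subset_closedBall ht))) _) (by fun_prop)).continuousWithinAt
    have h3 := intervalIntegral.integral_eq_sub_of_hasDerivAt hd hcont.intervalIntegrable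
    have h4 : f (u + t) - f (u' + t) = ∫ θ in Ioc (0 : ℝ) 1, fderiv ℝ f (c θ + t) (u - u') := by
      rw [← intervalIntegral.integral_of_le zero_le_one, h3]; simp [c]
    rw [h4]
    refine (enorm_integral_le_lintegral_enorm _).trans ?_
    calc _ ≤ ∫⁻ θ in Ioc (0 : ℝ) 1, (ENNReal.ofReal (l / 2) +
          ENNReal.ofReal (2 * ρ ^ 2 / l) * ENNReal.ofReal (qd f (c θ + t))) := by
          refine lintegral_mono fun θ => ?_
          have h5 := sq_fderiv_le f (c θ + t) (u - u')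
          have h6 := qd_nonneg f (c θ + t)
          have h7 : ‖u - u'‖ ^ 2 * qd f (c θ + t) ≤ (2 * ρ) ^ 2 * qd f (c θ + t) := by gcongr
          simp only
          rw [← ENNReal.ofReal_mul (by positivity), ← ENNReal.ofReal_add (by positivity)
            (by positivity), ← ofReal_norm, Real.norm_eq_abs]
          refine ENNReal.ofReal_le_ofReal ?_
          set y := fderiv ℝ f (c θ + t) (u - u')
          have h8 : 2 * l * |y| ≤ l ^ 2 + 4 * ρ ^ 2 * qd f (c θ + t) := by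
            nlinarith [sq_nonneg (l - |y|), sq_abs y]
          rw [show l / 2 + 2 * ρ ^ 2 / l * qd f (c θ + t) =
            (l ^ 2 + 4 * ρ ^ 2 * qd f (c θ + t)) / (2 * l) by field_simp; ring,
            le_div_iff₀ (by positivity)]
          linarith
      _ = _ := by
          rw [lintegral_add_left measurable_const, lintegral_const_mul' _ _ ENNReal.ofReal_ne_top]
          simp
  rw [← integral_sub (hi u hu) (hi u' hu')]
  refine (enorm_integral_le_lintegral_enorm _).trans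
    ((setLIntegral_mono' measurableSet_ball h1).trans ?_)
  rw [lintegral_add_left measurable_const, lintegral_const_mul' _ _ ENNReal.ofReal_ne_top,
    setLIntegral_const, lintegral_lintegral_swap hmeas.aemeasurable]
  gcongr
  calc _ ≤ ∫⁻ _ in Ioc (0 : ℝ) 1, ∫⁻ t in ball b (2 * ρ), ENNReal.ofReal (qd f t) := by
        refine setLIntegral_mono' measurableSet_Ioc fun θ hθ => ?_
        rw [← (measurePreserving_add_left volume (c θ)).setLIntegral_comp_preimage_emb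
          (measurableEmbedding_addLeft _) _ (ball b (2 * ρ))]
        exact lintegral_mono_set fun t ht =>
          hm _ (hc θ (Ioc_subset_Icc_self hθ)) t (ball_subset_closedBall ht)
    _ = _ := by simp

/-- The point `(w : 1 : u)` in the affine chart `z 0 = 1`. -/
noncomputable def emb (u w : ℂ) : E := ![1, w⁻¹, u * w⁻¹]

theorem emb_eq {u w : ℂ} (hw : w ≠ 0) : emb u w = w⁻¹ • ![w, 1, u] := by
  ext i
  fin_cases i <;> simp [emb, hw, mul_comm]

theorem emb_inj {u w u' w' : ℂ} (hw : w ≠ 0) (h : emb u w = emb u' w') : u = u' ∧ w = w' := by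
  have h1 : w = w' := by simpa [emb] using congrFun h 1
  subst h1
  exact ⟨by simpa [emb, hw] using congrFun h 2, rfl⟩

namespace Dat

variable (D : Dat)

/-- A solution on the disc of radius `2 ρ` that stays in the disc of radius `a`. -/
def SolU (b : ℂ) (ρ a : ℝ) (σ : ℂ → ℂ) : Prop :=
  ∀ v ∈ ball b (2 * ρ), HasDerivAt σ (D.fld v (σ v)) v ∧ ‖σ v‖ ≤ a

/-- A flow box along the line at infinity. -/
structure Loc (b : ℂ) (ρ a C : ℝ) : Prop where
  ρpos : 0 < ρ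
  apos : 0 < a
  Cpos : 0 < C
  good : D.Good b (2 * ρ) a
  ex : ∀ u ∈ ball b ρ, ∀ w : ℂ, ‖w‖ ≤ a / 2 → ∃ σ, σ u = w ∧ D.SolU b ρ a σ
  lip : ∀ σ₁ σ₂, D.SolU b ρ a σ₁ → D.SolU b ρ a σ₂ → ∀ v ∈ ball b (2 * ρ), ∀ v' ∈ ball b (2 * ρ),
    ‖σ₁ v - σ₂ v‖ ≤ C * ‖σ₁ v' - σ₂ v'‖

theorem contDiffAt_Y {z : ℂ × ℂ} (h : ev (RR D.F1 D.F2) z.1 z.2 ≠ 0) :
    ContDiffAt ℂ 1 (fun z : ℂ × ℂ => ((1 : ℂ), D.fld z.1 z.2)) z :=
  contDiffAt_const.prodMk ((contDiffAt_snd.mul (contDiff_ev D.F1).contDiffAt).neg.div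
    (contDiff_ev _).contDiffAt h)

theorem exists_loc {b : ℂ} (hb : D.R.eval b ≠ 0) : ∃ ρ a C, D.Loc b ρ a C := by
  have h1 : ev (RR D.F1 D.F2) b 0 ≠ 0 := by rwa [ev_zero]
  have h2 : ev D.Φ b 0 ≠ 0 := by rwa [ev_Φ_zero]
  have hS : {z : ℂ × ℂ | ev D.Φ z.1 z.2 ≠ 0 ∧ ev (RR D.F1 D.F2) z.1 z.2 ≠ 0} ∈ 𝓝 (b, (0 : ℂ)) :=
    ((continuous_ev D.Φ).continuousAt.eventually_ne h2).and
      ((continuous_ev _).continuousAt.eventually_ne h1)
  obtain ⟨a, r, K, ha, hr, hS', hK, H⟩ := exists_sol (D.contDiffAt_Y (z := (b, 0)) h1) hS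
  set ρ := min (a / 2) (r / 3) with hρ
  have hρ1 : ρ ≤ a / 2 := min_le_left _ _
  have hρ2 : ρ ≤ r / 3 := min_le_right _ _
  have hρ0 : 0 < ρ := by positivity
  have hmem : ∀ u ∈ closedBall b (2 * ρ), ∀ w ∈ closedBall (0 : ℂ) a,
      (u, w) ∈ closedBall (b, (0 : ℂ)) a := fun u hu w hw => by
    rw [← closedBall_prod_same]
    exact ⟨closedBall_subset_closedBall (by linarith) hu, hw⟩
  refine ⟨ρ, a, Real.exp (K * (4 * ρ)), hρ0, ha, Real.exp_pos _,
    fun u hu w hw => hS' (hmem u hu w hw), fun u hu w hw => ?_, fun σ₁ σ₂ h₁ h₂ v hv v' hv' => ?_⟩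
  · obtain ⟨γ, h0, hγ⟩ := H (u, w) (by
      rw [← closedBall_prod_same]
      exact ⟨closedBall_subset_closedBall hρ1 (ball_subset_closedBall hu),
        mem_closedBall_zero_iff.2 hw⟩)
    have h3 : ∀ t ∈ ball (0 : ℂ) r, (γ t).1 = u + t := fun t ht => by
      have := gronwall (y := fun t => (γ t).1 - (u + t)) (y' := fun _ => 0) (K := 0)
        (convex_ball 0 r) (fun t ht => by
          have k1 : HasDerivAt (fun t => (γ t).1) 1 t :=
            (ContinuousLinearMap.fst ℂ ℂ ℂ).hasFDerivAt.comp_hasDerivAt t (hγ t ht).1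
          exact (k1.sub ((hasDerivAt_id t).const_add u)).congr_deriv (sub_self _))
        (fun t _ => by simp) (mem_ball_self hr) ht
      simpa [h0, sub_eq_zero] using this
    refine ⟨fun v => (γ (v - u)).2, by simp [h0], fun v hv => ?_⟩
    have h4 : v - u ∈ ball (0 : ℂ) r := by
      rw [mem_ball_zero_iff, ← dist_eq_norm]
      rw [mem_ball] at hu hv
      linarith [dist_triangle_right v u b]
    have h5 : HasDerivAt (fun t => (γ t).2) (D.fld (γ (v - u)).1 (γ (v - u)).2) (v - u) :=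
      (ContinuousLinearMap.snd ℂ ℂ ℂ).hasFDerivAt.comp_hasDerivAt _ (hγ _ h4).1
    have h6 := (hγ _ h4).2
    rw [← closedBall_prod_same] at h6
    refine ⟨?_, mem_closedBall_zero_iff.1 h6.2⟩
    have h7 := HasDerivAt.comp_sub_const v u h5
    simpa [h3 _ h4] using h7
  · have := gronwall_sub (v := D.fld) (S := closedBall (0 : ℂ) a) (K := K) (convex_ball b (2 * ρ))
      (fun t ht x hx y hy => by
        have := hK.dist_le_mul _ (hmem t (ball_subset_closedBall ht) x hx) _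
          (hmem t (ball_subset_closedBall ht) y hy)
        simpa [Prod.dist_eq, dist_eq_norm] using this)
      (fun t ht => ⟨(h₁ t ht).1, mem_closedBall_zero_iff.2 (h₁ t ht).2⟩)
      (fun t ht => ⟨(h₂ t ht).1, mem_closedBall_zero_iff.2 (h₂ t ht).2⟩) hv' hv
    rw [mul_comm]
    refine this.trans ?_
    gcongr
    rw [← dist_eq_norm]
    rw [mem_ball] at hv hv'
    linarith [dist_triangle_right v v' b]

/-- The plaque through `(u, w)` over the disc of radius `r`. -/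
def Plq (u w : ℂ) (r : ℝ) (σ : ℂ → ℂ) : Prop :=
  σ u = w ∧ ∀ v ∈ ball u r, HasDerivAt σ (D.fld v (σ v)) v ∧ ev (RR D.F1 D.F2) v (σ v) ≠ 0

open Classical in
/-- Integral of `φ` over the plaque through `(u, w)`. -/
noncomputable def avg (φ : E → ℝ) (u w : ℂ) (r : ℝ) : ℝ :=
  if h : ∃ σ, D.Plq u w r σ then ∫ t in ball (0 : ℂ) r, φ (emb (u + t) (h.choose (u + t))) else 0

variable {D}

theorem Plq.avg_eq {u w : ℂ} {r : ℝ} {σ : ℂ → ℂ} (h : D.Plq u w r σ) (hr : 0 < r) (φ : E → ℝ) :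
    D.avg φ u w r = ∫ t in ball (0 : ℂ) r, φ (emb (u + t) (σ (u + t))) := by
  have h' : ∃ σ, D.Plq u w r σ := ⟨σ, h⟩
  have h2 := h'.choose_spec
  rw [avg, dif_pos h']
  set σ' := h'.choose
  have h3 : EqOn (fun v => (v, σ' v)) (fun v => (v, σ v)) (ball u r) :=
    unique_ball (v := fun z : ℂ × ℂ => ((1 : ℂ), D.fld z.1 z.2)) (t₀ := u)
      (D.contDiffAt_Y (h2.2 u (mem_ball_self hr)).2)
      (fun t ht => (hasDerivAt_id t).prodMk (h2.2 t ht).1)
      (fun t ht => (hasDerivAt_id t).prodMk (h.2 t ht).1) (mem_ball_self hr) (by simp [h.1, h2.1])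
  refine setIntegral_congr_fun measurableSet_ball fun t ht => ?_
  have := h3 (x := u + t) (by simpa using ht)
  simp only [Prod.mk.injEq, true_and] at this
  simp only [this]

section
variable {b : ℂ} {ρ a C : ℝ} {σ : ℂ → ℂ}

theorem Loc.zero (L : D.Loc b ρ a C) : D.SolU b ρ a fun _ => 0 := fun v _ =>
  ⟨by simpa [fld] using hasDerivAt_const v (0 : ℂ), by simpa using L.apos.le⟩

theorem Loc.norm_le (L : D.Loc b ρ a C) (h : D.SolU b ρ a σ) {v v' : ℂ}
    (hv : v ∈ ball b (2 * ρ)) (hv' : v' ∈ ball b (2 * ρ)) : ‖σ v‖ ≤ C * ‖σ v'‖ := by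
  simpa using L.lip σ _ h L.zero v hv v' hv'

theorem Loc.ne_zero (L : D.Loc b ρ a C) (h : D.SolU b ρ a σ) {v v' : ℂ}
    (hv : v ∈ ball b (2 * ρ)) (hv' : v' ∈ ball b (2 * ρ)) (h0 : σ v ≠ 0) : σ v' ≠ 0 := fun e => by
  have := L.norm_le h hv hv'
  rw [e, norm_zero, mul_zero] at this
  exact h0 (norm_le_zero_iff.1 this)

theorem Loc.RR_ne (L : D.Loc b ρ a C) (h : D.SolU b ρ a σ) {v : ℂ} (hv : v ∈ ball b (2 * ρ)) :
    ev (RR D.F1 D.F2) v (σ v) ≠ 0 :=
  (L.good v (ball_subset_closedBall hv) _ (mem_closedBall_zero_iff.2 (h v hv).2)).2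

theorem Loc.sub (L : D.Loc b ρ a C) : ball b ρ ⊆ ball b (2 * ρ) :=
  ball_subset_ball (by linarith [L.ρpos])

theorem Loc.plq (L : D.Loc b ρ a C) (h : D.SolU b ρ a σ) {x : ℂ} (hx : x ∈ ball b ρ) {r : ℝ}
    (hr : r ≤ ρ) : D.Plq x (σ x) r σ := by
  refine ⟨rfl, fun v hv => ?_⟩
  have : v ∈ ball b (2 * ρ) := by
    rw [mem_ball] at hx hv ⊢
    linarith [dist_triangle v x b]
  exact ⟨(h v this).1, L.RR_ne h this⟩

theorem Loc.tc (L : D.Loc b ρ a C) (h : D.SolU b ρ a σ) {x : ℂ} (hx : x ∈ ball b (2 * ρ))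
    (h0 : σ x ≠ 0) : TC (W D.F1 D.F2) (fun v => emb v (σ v)) b (2 * ρ) := by
  intro v hv
  have hw := L.ne_zero h hx hv h0
  have hR := L.RR_ne h hv
  have hW : W D.F1 D.F2 (emb v (σ v)) =
      ![0, (σ v)⁻¹ ^ D.d * ev D.F1 v (σ v), (σ v)⁻¹ ^ D.d * ev D.F2 v (σ v)] := by
    rw [W, emb_eq hw, eval_smul_of_hom D.h1, eval_smul_of_hom D.h2, ev_def, ev_def]
  have hRR := D.ev_RR v (σ v)
  refine ⟨fun e => hR ?_, σ v ^ D.d / (σ v * ev (RR D.F1 D.F2) v (σ v)), ?_⟩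
  · simp only [hW] at e
    have e1 : ev D.F1 v (σ v) = 0 := by simpa [hw] using congrFun e 1
    have e2 : ev D.F2 v (σ v) = 0 := by simpa [hw] using congrFun e 2
    rw [hRR, e1, e2]; simp
  · have h1 := (h v hv).1.inv hw
    simp only [hW]
    refine hasDerivAt_pi.2 fun i => ?_
    fin_cases i
    · simpa [emb] using hasDerivAt_const v (1 : ℂ)
    · refine h1.congr_deriv ?_
      simp [fld]
      field_simp
    · refine ((hasDerivAt_id v).mul h1).congr_deriv ?_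
      have e2 : ev D.F2 v (σ v) = ev (RR D.F1 D.F2) v (σ v) + v * ev D.F1 v (σ v) := by
        rw [hRR]; ring
      simp [fld, e2]
      field_simp

theorem Loc.injOn (L : D.Loc b ρ a C) (h : D.SolU b ρ a σ) {x : ℂ} (hx : x ∈ ball b (2 * ρ))
    (h0 : σ x ≠ 0) : InjOn (fun v => emb v (σ v)) (ball b (2 * ρ)) := fun _ hv _ _ e =>
  (emb_inj (L.ne_zero h hx hv h0) e).1

end

variable (D) in
/-- Small non-zero points of the leaf on the transversal through `u`. -/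
def In (Λ : Set E) (u : ℂ) (δ : ℝ) (w : ℂ) : Prop := w ≠ 0 ∧ ‖w‖ < δ ∧ emb u w ∈ Λ

variable (D) in
/-- A holonomy map from the transversal at `u` to the one at `u'`, which is nearly
`s ↦ m s + τ` in the coordinate `sf` and moves averages by little. -/
def Link (Λ : Set E) (u u' m τ : ℂ) : Prop :=
  ∃ (r₀ δ₀ C : ℝ) (f : ℂ → ℂ), 0 < r₀ ∧ 0 < δ₀ ∧ 0 < C ∧
    (∀ w, In Λ u δ₀ w → f w ≠ 0 ∧ ‖f w‖ ≤ C * ‖w‖ ∧ emb u' (f w) ∈ Λ) ∧
    InjOn f {w | In Λ u δ₀ w} ∧
    (∀ η : ℝ, 0 < η → ∃ δ : ℝ, 0 < δ ∧ ∀ w, In Λ u δ₀ w → ‖w‖ < δ →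
      ‖D.sf u' (f w) - (m * D.sf u w + τ)‖ ≤ η) ∧
    ∀ r : ℝ, 0 < r → r < r₀ → ∃ C' : ℝ, 0 ≤ C' ∧ ∀ (φ : E → ℝ) (e : ℝ), 0 ≤ e →
      Adm (W D.F1 D.F2) Λ φ → Bnd (W D.F1 D.F2) Λ φ e → ∀ l : ℝ, 0 < l → ∀ S : Finset ℂ,
        (∀ w ∈ S, In Λ u δ₀ w) →
        ∑ w ∈ S, |D.avg φ u w r - D.avg φ u' (f w) r| ≤ C' * (l * S.card + e / l)

variable {Λ : Set E} {p : E}

theorem Link.trans {u u' u'' m τ m' τ' : ℂ} (h₁ : D.Link Λ u u' m τ) (h₂ : D.Link Λ u' u'' m' τ') :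
    D.Link Λ u u'' (m' * m) (m' * τ + τ') := by
  classical
  obtain ⟨r₁, δ₁, C₁, f₁, hr₁, hδ₁, hC₁, a₁, i₁, s₁, e₁⟩ := h₁
  obtain ⟨r₂, δ₂, C₂, f₂, hr₂, hδ₂, hC₂, a₂, i₂, s₂, e₂⟩ := h₂
  have k₁ : ∀ w, In Λ u (min δ₁ (δ₂ / C₁)) w → In Λ u δ₁ w := fun w hw =>
    ⟨hw.1, hw.2.1.trans_le (min_le_left _ _), hw.2.2⟩
  have k₃ : ∀ w δ, In Λ u δ₁ w → ‖w‖ < δ / C₁ → ‖f₁ w‖ < δ := fun w δ hw h => by
    rw [lt_div_iff₀ hC₁] at h
    linarith [(a₁ w hw).2.1]
  have k₂ : ∀ w, In Λ u (min δ₁ (δ₂ / C₁)) w → In Λ u' δ₂ (f₁ w) := fun w hw =>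
    ⟨(a₁ w (k₁ w hw)).1, k₃ w _ (k₁ w hw) (hw.2.1.trans_le (min_le_right _ _)),
      (a₁ w (k₁ w hw)).2.2⟩
  refine ⟨min r₁ r₂, min δ₁ (δ₂ / C₁), C₂ * C₁, fun w => f₂ (f₁ w), by positivity, by positivity,
    by positivity, fun w hw => ⟨(a₂ _ (k₂ w hw)).1, ?_, (a₂ _ (k₂ w hw)).2.2⟩,
    fun w hw w' hw' e => i₁ (k₁ w hw) (k₁ w' hw') (i₂ (k₂ w hw) (k₂ w' hw') e),
    fun η hη => ?_, fun r hr hr' => ?_⟩
  · refine (a₂ _ (k₂ w hw)).2.1.trans ?_
    rw [mul_assoc]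
    gcongr
    exact (a₁ w (k₁ w hw)).2.1
  · obtain ⟨δ, hδ, s₁⟩ := s₁ (η / 2 / (‖m'‖ + 1)) (by positivity)
    obtain ⟨δ', hδ', s₂⟩ := s₂ (η / 2) (by positivity)
    refine ⟨min δ (δ' / C₁), by positivity, fun w hw hw' => ?_⟩
    have t₁ := s₁ w (k₁ w hw) (hw'.trans_le (min_le_left _ _))
    have t₂ := s₂ _ (k₂ w hw) (k₃ w _ (k₁ w hw) (hw'.trans_le (min_le_right _ _)))
    rw [show D.sf u'' (f₂ (f₁ w)) - (m' * m * D.sf u w + (m' * τ + τ')) =
      (D.sf u'' (f₂ (f₁ w)) - (m' * D.sf u' (f₁ w) + τ')) +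
        m' * (D.sf u' (f₁ w) - (m * D.sf u w + τ)) by ring]
    refine (norm_add_le _ _).trans ?_
    rw [norm_mul]
    rw [le_div_iff₀ (by positivity)] at t₁
    nlinarith [norm_nonneg (D.sf u' (f₁ w) - (m * D.sf u w + τ))]
  · obtain ⟨C, hC, e₁⟩ := e₁ r hr (hr'.trans_le (min_le_left _ _))
    obtain ⟨C', hC', e₂⟩ := e₂ r hr (hr'.trans_le (min_le_right _ _))
    refine ⟨C + C', by positivity, fun φ e he hφ hb l hl S hS => ?_⟩
    have hinj : InjOn f₁ S := fun w hw w' hw' => i₁ (k₁ w (hS w hw)) (k₁ w' (hS w' hw'))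
    have t₁ := e₁ φ e he hφ hb l hl S fun w hw => k₁ w (hS w hw)
    have t₂ := e₂ φ e he hφ hb l hl (S.image f₁) fun w hw => by
      obtain ⟨x, hx, rfl⟩ := Finset.mem_image.1 hw
      exact k₂ x (hS x hx)
    rw [Finset.sum_image hinj, Finset.card_image_of_injOn hinj] at t₂
    rw [add_mul]
    refine le_trans ?_ (add_le_add t₁ t₂)
    rw [← Finset.sum_add_distrib]
    exact Finset.sum_le_sum fun w _ => abs_sub_le _ _ _

theorem Loc.link (H : IsLeaf (W D.F1 D.F2) Λ p) {b : ℂ} {ρ a C : ℝ} (L : D.Loc b ρ a C)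
    {u u' : ℂ} (hu : u ∈ ball b ρ) (hu' : u' ∈ ball b ρ) {e c : ℂ → ℂ}
    (hec : ∀ v ∈ ball b ρ, HasDerivAt e (-(D.p * (D.A.eval v / D.R.eval v)) * e v) v ∧ e v ≠ 0 ∧
      HasDerivAt c (-(D.p * (D.A.eval v / D.R.eval v)) * c v + D.g.eval v / D.R.eval v ^ 2) v)
    (he : e u = 1) (hc : c u = 0) : D.Link Λ u u' (e u') (c u') := by
  have hρ := L.ρpos
  have : ∀ w : ℂ, ∃ σ : ℂ → ℂ, ‖w‖ ≤ a / 2 → σ u = w ∧ D.SolU b ρ a σ := fun w => by
    by_cases h : ‖w‖ ≤ a / 2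
    · obtain ⟨σ, hσ⟩ := L.ex u hu w h
      exact ⟨σ, fun _ => hσ⟩
    · exact ⟨0, fun h' => absurd h' h⟩
  choose σ hσ using this
  have h0 : ∀ w, In Λ u (a / 2) w → σ w u = w := fun w hw => (hσ w hw.2.1.le).1
  have h1 : ∀ w, In Λ u (a / 2) w → D.SolU b ρ a (σ w) := fun w hw => (hσ w hw.2.1.le).2
  have h2 : ∀ w, In Λ u (a / 2) w → σ w u ≠ 0 := fun w hw => (h0 w hw).symm ▸ hw.1
  have htc := fun w hw => L.tc (h1 w hw) (L.sub hu) (h2 w hw)
  have hmap : ∀ w, In Λ u (a / 2) w → MapsTo (fun v => emb v (σ w v)) (ball b (2 * ρ)) Λ :=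
    fun w hw v hv => H.inv _ _ _ (htc w hw) u (L.sub hu) v hv (by simpa [h0 w hw] using hw.2.2)
  have hsame : ∀ w w', In Λ u (a / 2) w → In Λ u (a / 2) w' → ∀ v ∈ ball b (2 * ρ),
      σ w v = σ w' v → w = w' := fun w w' hw hw' v hv e => by
    have := L.lip _ _ (h1 w hw) (h1 w' hw') u (L.sub hu) v hv
    rw [e, sub_self, norm_zero, mul_zero, h0 w hw, h0 w' hw'] at this
    exact sub_eq_zero.1 (norm_le_zero_iff.1 this)
  refine ⟨ρ, a / 2, C, fun w => σ w u', hρ, half_pos L.apos, L.Cpos, fun w hw =>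
    ⟨L.ne_zero (h1 w hw) (L.sub hu) (L.sub hu') (h2 w hw), ?_, hmap w hw (L.sub hu')⟩,
    fun w hw w' hw' e => hsame w w' hw hw' u' (L.sub hu') e, fun η hη => ?_, fun r hr hr' => ?_⟩
  · simpa [h0 w hw] using L.norm_le (h1 w hw) (L.sub hu') (L.sub hu)
  · have hseg : segment ℝ u u' ⊆ ball b ρ := (convex_ball b ρ).segment_subset hu hu'
    have hcomp : IsCompact (segment ℝ u u') := by
      rw [segment_eq_image]
      exact isCompact_Icc.image (by fun_prop)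
    obtain ⟨M, hM⟩ := hcomp.exists_bound_of_continuousOn (f := fun v => (e v)⁻¹) fun v hv =>
      ((hec v (hseg hv)).1.continuousAt.inv₀ (hec v (hseg hv)).2.1).continuousWithinAt
    set N := (|M| + 1) * (‖u' - u‖ + 1) * (‖e u'‖ + 1) with hN
    have hN0 : 0 < N := by positivity
    obtain ⟨δ, hδ, hδ'⟩ := err_small L.apos L.good (div_pos hη hN0)
    refine ⟨δ / C, div_pos hδ L.Cpos, fun w hw hw' => ?_⟩
    have h3 : ∀ v ∈ ball b (2 * ρ), ‖σ w v‖ ≤ δ := fun v hv => by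
      have := L.norm_le (h1 w hw) hv (L.sub hu)
      rw [h0 w hw] at this
      rw [lt_div_iff₀ L.Cpos] at hw'
      linarith
    have h4 := (convex_segment u u').norm_image_sub_le_of_norm_hasDerivWithin_le
      (f := fun v => (D.sf v (σ w v) - c v) / e v)
      (f' := fun v => (D.p * Complex.exp (-(D.p * D.β v (σ w v))) * D.J v (σ w v) -
        D.g.eval v / D.R.eval v ^ 2) * (e v)⁻¹) (C := η / N * (|M| + 1))
      (fun v hv => by
        have hv' := L.sub (hseg hv)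
        obtain ⟨k1, k2, k3⟩ := hec v (hseg hv)
        refine (((hasDerivAt_sf L.good (h1 w hw) hv'
          (L.ne_zero (h1 w hw) (L.sub hu) hv' (h2 w hw))).sub k3).div k1 k2).hasDerivWithinAt
          |>.congr_deriv ?_
        simp only [Pi.sub_apply]
        generalize D.A.eval v / D.R.eval v = a0
        generalize D.g.eval v / D.R.eval v ^ 2 = h
        field_simp
        ring)
      (fun v hv => by
        have hv' := L.sub (hseg hv)
        rw [norm_mul]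
        have k1 := hδ' v (ball_subset_closedBall hv') _ (h3 v hv')
        have k2 : ‖(e v)⁻¹‖ ≤ |M| + 1 := by linarith [hM v hv, le_abs_self M]
        gcongr)
      (left_mem_segment ℝ u u') (right_mem_segment ℝ u u')
    simp only [he, hc, h0 w hw, sub_zero, div_one] at h4
    have h5 := (hec u' hu').2.1
    rw [show D.sf u' (σ w u') - (e u' * D.sf u w + c u') =
      e u' * ((D.sf u' (σ w u') - c u') / e u' - D.sf u w) by field_simp; ring, norm_mul]
    calc _ ≤ (‖e u'‖ + 1) * (η / N * (|M| + 1) * (‖u' - u‖ + 1)) := by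
          gcongr
          · linarith
          · exact h4.trans (by gcongr; linarith)
      _ = η := by rw [hN]; field_simp
  · have hv : volume (ball (0 : ℂ) r) ≠ ⊤ := measure_ball_lt_top.ne
    set V := (volume (ball (0 : ℂ) r)).toReal
    have hV : 0 ≤ V := ENNReal.toReal_nonneg
    refine ⟨V / 2 + 2 * ρ ^ 2, by positivity, fun φ e' he' hφ hb l hl S hS => ?_⟩
    have h3 := hb S (fun w v => emb v (σ w v)) b (2 * ρ)
      (fun w hw => ⟨htc w (hS w hw), L.injOn (h1 w (hS w hw)) (L.sub hu) (h2 w (hS w hw)),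
        hmap w (hS w hw)⟩)
      (fun w hw w' hw' hne => by
        rw [Set.disjoint_left]
        rintro _ ⟨v, hv, rfl⟩ ⟨v', hv', e⟩
        obtain ⟨rfl, e'⟩ :=
          emb_inj (L.ne_zero (h1 w' (hS w' hw')) (L.sub hu) hv' (h2 w' (hS w' hw'))) e
        exact hne (hsame w w' (hS w hw) (hS w' hw') _ hv e'.symm))
    have h4 : ∀ w ∈ S, ENNReal.ofReal |D.avg φ u w r - D.avg φ u' (σ w u') r| ≤
        ENNReal.ofReal (l / 2) * volume (ball (0 : ℂ) r) + ENNReal.ofReal (2 * ρ ^ 2 / l) *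
          ∫⁻ t in ball b (2 * ρ), ENNReal.ofReal (qd (fun s => φ (emb s (σ w s))) t) := by
      intro w hw
      have k1 := (L.plq (h1 w (hS w hw)) hu hr'.le).avg_eq hr φ
      rw [h0 w (hS w hw)] at k1
      rw [k1, (L.plq (h1 w (hS w hw)) hu' hr'.le).avg_eq hr φ, ← Real.norm_eq_abs,
        ofReal_norm]
      exact avg_sub_le (f := fun s => φ (emb s (σ w s)))
        (fun t ht => hφ.1 _ t ((htc w (hS w hw)).tg ht) (hmap w (hS w hw) ht)) hu hu' hr'.le hl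
    have h5 := Finset.sum_le_sum h4
    rw [← ENNReal.ofReal_sum_of_nonneg fun _ _ => abs_nonneg _, Finset.sum_add_distrib,
      Finset.sum_const, ← Finset.mul_sum] at h5
    have h6 := h5.trans (add_le_add le_rfl (mul_le_mul' le_rfl h3))
    rw [← ENNReal.ofReal_toReal hv, ← ENNReal.ofReal_mul (by positivity),
      ← ENNReal.ofReal_mul (by positivity), ← ENNReal.ofReal_nsmul,
      ← ENNReal.ofReal_add (by positivity) (by positivity),
      ENNReal.ofReal_le_ofReal_iff (by positivity)] at h6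
    refine h6.trans ?_
    have k1 : 0 ≤ e' / l := by positivity
    have k2 : 0 ≤ l * S.card := by positivity
    rw [nsmul_eq_mul, show 2 * ρ ^ 2 / l * e' = 2 * ρ ^ 2 * (e' / l) by ring]
    nlinarith [mul_nonneg hV k1, mul_nonneg (sq_nonneg ρ) k2]

end Dat

end Pool.Agent.P.MP_a31c1c_an
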