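import Pool.Agent.P.MP_a31c1c_an.Step
import Pool.Agent.P.MP_a31c1c_an.Pot
import Pool.Agent.P.MP_a31c1c_an.Mono

/-!
A binary tree of plaques inside the leaf gives positive capacity.
-/

set_option autoImplicit false

namespace Pool.Agent.P.MP_a31c1c_an

open MvPolynomial Metric Set Filter Topology MeasureTheory
open scoped ENNReal

/-- The levels of the binary tree generated by two maps. -/
noncomputable def lev (f₀ f₁ : ℂ → ℂ) (w₀ : ℂ) : ℕ → Finset ℂ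
  | 0 => {w₀}
  | k + 1 => (lev f₀ f₁ w₀ k).image f₀ ∪ (lev f₀ f₁ w₀ k).image f₁

/-- The abstract tree argument. -/
theorem tree {f₀ f₁ s : ℂ → ℂ} {P : ℕ → ℂ → Prop} {M τ₀ τ₁ w₀ : ℂ} (hM : 4 ≤ ‖M‖)
    (hτ : τ₀ ≠ τ₁) (h0 : P 0 w₀) (hP : ∀ k w, P k w → P (k + 1) (f₀ w) ∧ P (k + 1) (f₁ w))
    (hs : ∀ k w, P k w → ‖s (f₀ w) - (M * s w + τ₀)‖ ≤ ‖τ₀ - τ₁‖ / 8 ∧
      ‖s (f₁ w) - (M * s w + τ₁)‖ ≤ ‖τ₀ - τ₁‖ / 8)
    {A : ℂ → ℝ} (hA : ∃ k, ∀ w, P k w → A w = 0) {C e μ : ℝ} (hC : 0 ≤ C) (he : 0 ≤ e)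
    (hμ : 0 < μ)
    (hE : ∀ l : ℝ, 0 < l → ∀ k, ∀ S : Finset ℂ, (∀ w ∈ S, P k w) →
      ∑ w ∈ S, |A w - A (f₀ w)| ≤ C * (l * S.card + e / l) ∧
      ∑ w ∈ S, |A w - A (f₁ w)| ≤ C * (l * S.card + e / l)) :
    A w₀ ≤ C * (3 * μ + 4 * (e / μ)) := by
  set Θ := ‖τ₀ - τ₁‖ with hΘ
  have hΘ0 : 0 < Θ := norm_pos_iff.2 (sub_ne_zero.2 hτ)
  have sep : ∀ {x y x' y' σ σ' : ℂ}, ‖x' - (M * x + σ)‖ ≤ Θ / 8 → ‖y' - (M * y + σ')‖ ≤ Θ / 8 →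
      ‖σ - σ'‖ ≤ Θ → 3 * Θ / 4 ≤ ‖x - y‖ → 3 * Θ / 4 ≤ ‖x' - y'‖ := by
    intro x y x' y' σ σ' h1 h2 h3 h4
    have e : M * (x - y) = (x' - y') - (x' - (M * x + σ)) + (y' - (M * y + σ')) - (σ - σ') := by
      ring
    have h5 : ‖M‖ * ‖x - y‖ ≤ ‖x' - y'‖ + Θ / 8 + Θ / 8 + Θ := by
      rw [← norm_mul, e]
      refine (norm_sub_le _ _).trans (add_le_add ((norm_add_le _ _).trans
        (add_le_add ((norm_sub_le _ _).trans (add_le_add le_rfl h1)) h2)) h3)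
    nlinarith
  have sep' : ∀ {x x' y' : ℂ}, ‖x' - (M * x + τ₀)‖ ≤ Θ / 8 → ‖y' - (M * x + τ₁)‖ ≤ Θ / 8 →
      3 * Θ / 4 ≤ ‖x' - y'‖ := by
    intro x x' y' h1 h2
    have e : τ₀ - τ₁ = (x' - y') - (x' - (M * x + τ₀)) + (y' - (M * x + τ₁)) := by ring
    have h5 : Θ ≤ ‖x' - y'‖ + Θ / 8 + Θ / 8 := by
      rw [hΘ, e]
      refine (norm_add_le _ _).trans (add_le_add ((norm_sub_le _ _).trans (add_le_add le_rfl ?_)) ?_)
      · rw [← e]; exact h1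
      · rw [← e]; exact h2
    linarith
  have h00 : ‖τ₀ - τ₀‖ ≤ Θ := by simpa using hΘ0.le
  have h11 : ‖τ₁ - τ₁‖ ≤ Θ := by simpa using hΘ0.le
  let Q : ℕ → Finset ℂ → Prop := fun k S => (∀ w ∈ S, P k w) ∧
    ∀ w ∈ S, ∀ w' ∈ S, w ≠ w' → 3 * Θ / 4 ≤ ‖s w - s w'‖
  have ne : ∀ {x y : ℂ}, 3 * Θ / 4 ≤ ‖s x - s y‖ → x ≠ y := by
    rintro x y h rfl
    rw [sub_self, norm_zero] at h
    linarith
  have s00 : ∀ k S, Q k S → ∀ w ∈ S, ∀ w' ∈ S, w ≠ w' → 3 * Θ / 4 ≤ ‖s (f₀ w) - s (f₀ w')‖ :=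
    fun k S h w hw w' hw' hne =>
      sep (hs k w (h.1 w hw)).1 (hs k w' (h.1 w' hw')).1 h00 (h.2 w hw w' hw' hne)
  have s11 : ∀ k S, Q k S → ∀ w ∈ S, ∀ w' ∈ S, w ≠ w' → 3 * Θ / 4 ≤ ‖s (f₁ w) - s (f₁ w')‖ :=
    fun k S h w hw w' hw' hne =>
      sep (hs k w (h.1 w hw)).2 (hs k w' (h.1 w' hw')).2 h11 (h.2 w hw w' hw' hne)
  have s01 : ∀ k S, Q k S → ∀ w ∈ S, ∀ w' ∈ S, 3 * Θ / 4 ≤ ‖s (f₀ w) - s (f₁ w')‖ := by
    intro k S h w hw w' hw'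
    by_cases hne : w = w'
    · subst hne; exact sep' (hs k w (h.1 w hw)).1 (hs k w (h.1 w hw)).2
    · exact sep (hs k w (h.1 w hw)).1 (hs k w' (h.1 w' hw')).2 le_rfl (h.2 w hw w' hw' hne)
  have hQ : ∀ k, Q k (lev f₀ f₁ w₀ k) := by
    intro k
    induction k with
    | zero => exact ⟨by simpa [lev] using h0, by simp [lev]⟩
    | succ k ih =>
      constructor
      · intro w hw
        simp only [lev, Finset.mem_union, Finset.mem_image] at hw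
        rcases hw with ⟨x, hx, rfl⟩ | ⟨x, hx, rfl⟩
        · exact (hP k x (ih.1 x hx)).1
        · exact (hP k x (ih.1 x hx)).2
      · intro w hw w' hw' hne
        simp only [lev, Finset.mem_union, Finset.mem_image] at hw hw'
        rcases hw with ⟨x, hx, rfl⟩ | ⟨x, hx, rfl⟩ <;> rcases hw' with ⟨y, hy, rfl⟩ | ⟨y, hy, rfl⟩
        · exact s00 k _ ih x hx y hy fun e => hne (e ▸ rfl)
        · exact s01 k _ ih x hx y hy
        · rw [norm_sub_rev]; exact s01 k _ ih y hy x hx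
        · exact s11 k _ ih x hx y hy fun e => hne (e ▸ rfl)
  have hsum : ∀ k (B : ℂ → ℝ), ∑ w ∈ lev f₀ f₁ w₀ (k + 1), B w =
      ∑ w ∈ lev f₀ f₁ w₀ k, B (f₀ w) + ∑ w ∈ lev f₀ f₁ w₀ k, B (f₁ w) := by
    intro k B
    rw [lev, Finset.sum_union, Finset.sum_image, Finset.sum_image]
    · intro x hx y hy e
      by_contra hne
      exact ne (s11 k _ (hQ k) x hx y hy hne) e
    · intro x hx y hy e
      by_contra hne
      exact ne (s00 k _ (hQ k) x hx y hy hne) e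
    · rw [Finset.disjoint_left]
      intro w hw hw'
      obtain ⟨x, hx, rfl⟩ := Finset.mem_image.1 hw
      obtain ⟨y, hy, e⟩ := Finset.mem_image.1 hw'
      exact ne (s01 k _ (hQ k) x hx y hy) e.symm
  have hcard : ∀ k, ((lev f₀ f₁ w₀ k).card : ℝ) = 2 ^ k := by
    intro k
    induction k with
    | zero => simp [lev]
    | succ k ih =>
      have := hsum k fun _ => 1
      simp only [Finset.sum_const, nsmul_eq_mul, mul_one] at this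
      rw [this, ih]; ring
  have main : ∀ k, A w₀ - C * (3 * μ * (1 - (2 / 3) ^ k) + 4 * (e / μ) * (1 - (3 / 4) ^ k)) ≤
      (1 / 2) ^ k * ∑ w ∈ lev f₀ f₁ w₀ k, A w := by
    intro k
    induction k with
    | zero => simp [lev]
    | succ k ih =>
      obtain ⟨t₀, t₁⟩ := hE (μ * (2 / 3) ^ k) (by positivity) k _ (hQ k).1
      rw [hcard] at t₀ t₁
      have u₀ := (Finset.sum_le_sum fun w _ => le_abs_self _).trans t₀
      have u₁ := (Finset.sum_le_sum fun w _ => le_abs_self _).trans t₁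
      rw [Finset.sum_sub_distrib] at u₀ u₁
      rw [hsum]
      have e1 : (1 / 2 : ℝ) ^ k * (C * (μ * (2 / 3) ^ k * 2 ^ k + e / (μ * (2 / 3) ^ k))) =
          C * (μ * (2 / 3) ^ k + e / μ * (3 / 4) ^ k) := by
        have a1 : (1 / 2 : ℝ) ^ k * 2 ^ k = 1 := by rw [← mul_pow]; norm_num
        have a2 : (3 / 4 : ℝ) ^ k * (2 / 3) ^ k = (1 / 2) ^ k := by rw [← mul_pow]; norm_num
        have a3 : (2 / 3 : ℝ) ^ k ≠ 0 := by positivity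
        have a4 : (1 / 2 : ℝ) ^ k * (e / (μ * (2 / 3) ^ k)) = e / μ * (3 / 4) ^ k := by
          rw [← a2]; field_simp
        linear_combination C * μ * (2 / 3) ^ k * a1 + C * a4
      have a5 : (0 : ℝ) < (1 / 2) ^ k := by positivity
      have u₂ := mul_le_mul_of_nonneg_left (add_le_add u₀ u₁) a5.le
      rw [mul_add ((1 / 2 : ℝ) ^ k) (C * _), e1] at u₂
      simp only [pow_succ]
      nlinarith
  obtain ⟨k, hk⟩ := hA
  have := main k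
  rw [Finset.sum_eq_zero fun w hw => hk w ((hQ k).1 w hw), mul_zero, sub_nonpos] at this
  refine this.trans ?_
  have b1 : (0 : ℝ) ≤ (2 / 3) ^ k := by positivity
  have b2 : (0 : ℝ) ≤ (3 / 4) ^ k := by positivity
  have b3 : 0 ≤ e / μ := by positivity
  refine mul_le_mul_of_nonneg_left ?_ hC
  nlinarith

namespace Dat

variable {D : Dat} {Λ : Set E} {p : E}

theorem Loc.sf_bounds {a : ℂ} {ρ b C : ℝ} (L : D.Loc a ρ b C) :
    ∃ c K : ℝ, 0 < c ∧ 0 < K ∧ ∀ w : ℂ, w ≠ 0 → ‖w‖ ≤ b →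
      c ≤ ‖w‖ ^ D.p * ‖D.sf a w‖ ∧ ‖w‖ ^ D.p * ‖D.sf a w‖ ≤ K := by
  obtain ⟨M, hM0, hM⟩ := exists_bound_β L.good
  refine ⟨Real.exp (-(D.p * (M * b))), Real.exp (D.p * (M * b)), Real.exp_pos _, Real.exp_pos _,
    fun w hw hb => ?_⟩
  have h1 := hM a (mem_closedBall_self (by linarith [L.ρpos])) w (mem_closedBall_zero_iff.2 hb)
  have h2 : ‖w‖ ^ D.p * ‖D.sf a w‖ = Real.exp (-(D.p * D.β a w)).re := by
    rw [sf, norm_mul, norm_inv, norm_pow, Complex.norm_exp, ← mul_assoc,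
      mul_inv_cancel₀ (pow_ne_zero _ (norm_ne_zero_iff.2 hw)), one_mul]
  have h3 : |(-(D.p * D.β a w)).re| ≤ D.p * (M * b) := by
    refine (Complex.abs_re_le_norm _).trans ?_
    rw [norm_neg, norm_mul, Complex.norm_natCast]
    gcongr
    exact h1.trans (by gcongr)
  rw [h2, Real.exp_le_exp, Real.exp_le_exp]
  exact abs_le.1 h3

/-- Two loops with the same multiplier give a point of the leaf with positive capacity. -/
theorem capacity (H : IsLeaf (W D.F1 D.F2) Λ p) {a : ℂ} (ha : D.R.eval a ≠ 0)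
    (hacc : ∀ δ : ℝ, 0 < δ → ∃ w, In Λ a δ w) {M τ₀ τ₁ : ℂ} (hM : 4 ≤ ‖M‖) (hτ : τ₀ ≠ τ₁)
    (h₀ : D.Link Λ a a M τ₀) (h₁ : D.Link Λ a a M τ₁) :
    ∃ z₀ ∈ Λ, ∀ ψ R, ψ 0 = z₀ → Chart (W D.F1 D.F2) ψ R → ∀ r, 0 < r → r < R →
      ∃ c : ℝ, 0 < c ∧ ∀ φ e, 0 ≤ e → Adm (W D.F1 D.F2) Λ φ → Bnd (W D.F1 D.F2) Λ φ e →
        (∀ t ∈ closedBall (0 : ℂ) r, 1 ≤ φ (ψ t)) → c ≤ e := by
  obtain ⟨ρ, b, C, L⟩ := D.exists_loc ha
  obtain ⟨c, K, hc, hK, hb⟩ := L.sf_bounds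
  obtain ⟨r₀, δ₀, C₀, f₀, hr₀, hδ₀, hC₀, a₀, -, s₀, e₀⟩ := h₀
  obtain ⟨r₁, δ₁, C₁, f₁, hr₁, hδ₁, hC₁, a₁, -, s₁, e₁⟩ := h₁
  have hΘ : 0 < ‖τ₀ - τ₁‖ / 8 := by have := norm_pos_iff.2 (sub_ne_zero.2 hτ); positivity
  obtain ⟨δ₀', hδ₀', s₀⟩ := s₀ _ hΘ
  obtain ⟨δ₁', hδ₁', s₁⟩ := s₁ _ hΘ
  have hb0 := L.apos
  have hρ := L.ρpos
  have hp0 : D.p ≠ 0 := Nat.ne_zero_of_lt D.hp
  obtain ⟨δ, hδ, d1, d2, d3, d4, d5, d6, d7⟩ : ∃ δ : ℝ, 0 < δ ∧ δ ≤ δ₀ ∧ δ ≤ δ₁ ∧ δ ≤ δ₀' ∧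
      δ ≤ δ₁' ∧ δ ≤ b / 2 ∧ C₀ * δ ≤ b ∧ C₁ * δ ≤ b := by
    refine ⟨min (min (min δ₀ δ₁) (min δ₀' δ₁')) (min (b / 2) (min (b / C₀) (b / C₁))),
      by positivity, by simp, by simp, by simp, by simp, by simp, ?_, ?_⟩
    · rw [← le_div_iff₀' hC₀]; simp
    · rw [← le_div_iff₀' hC₁]; simp
  set S₀ := K / δ ^ D.p + ‖τ₀‖ + ‖τ₁‖ + ‖τ₀ - τ₁‖ / 8 with hS₀
  have hKδ : 0 < K / δ ^ D.p := by positivity
  have hS₀0 : 0 < S₀ := by positivity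
  let P : ℕ → ℂ → Prop := fun k w => In Λ a δ w ∧ 2 ^ k * S₀ ≤ ‖D.sf a w‖
  have in₀ : ∀ w, In Λ a δ w → In Λ a δ₀ w := fun w h => ⟨h.1, h.2.1.trans_le d1, h.2.2⟩
  have in₁ : ∀ w, In Λ a δ w → In Λ a δ₁ w := fun w h => ⟨h.1, h.2.1.trans_le d2, h.2.2⟩
  have small : ∀ (w : ℂ) (x T : ℝ), w ≠ 0 → ‖w‖ ≤ b → 0 < x → K / x ^ D.p < T → T ≤ ‖D.sf a w‖ →
      ‖w‖ < x := by
    intro w x T hw hwb hx h1 h2
    refine lt_of_pow_lt_pow_left₀ D.p hx.le ?_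
    by_contra h3
    rw [div_lt_iff₀ (by positivity)] at h1
    have h4 : x ^ D.p * T ≤ ‖w‖ ^ D.p * ‖D.sf a w‖ := by
      have : 0 ≤ T := by
        by_contra h
        nlinarith [pow_pos hx D.p, not_le.1 h]
      exact mul_le_mul (not_lt.1 h3) h2 this (by positivity)
    linarith [(hb w hw hwb).2]
  have step : ∀ k (w w' τ : ℂ) (C' : ℝ), P k w → w' ≠ 0 → ‖w'‖ ≤ C' * ‖w‖ → emb a w' ∈ Λ →
      0 < C' → C' * δ ≤ b → ‖τ‖ ≤ ‖τ₀‖ + ‖τ₁‖ →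
      ‖D.sf a w' - (M * D.sf a w + τ)‖ ≤ ‖τ₀ - τ₁‖ / 8 → P (k + 1) w' := by
    intro k w w' τ C' hw h1 h2 h3 h4 h5 h6 h7
    have h8 : ‖M‖ * ‖D.sf a w‖ ≤ ‖D.sf a w'‖ + ‖τ₀ - τ₁‖ / 8 + ‖τ‖ := by
      rw [← norm_mul, show M * D.sf a w = D.sf a w' - (D.sf a w' - (M * D.sf a w + τ)) - τ by ring]
      exact (norm_sub_le _ _).trans (add_le_add ((norm_sub_le _ _).trans (add_le_add le_rfl h7))
        le_rfl)
    have h9 : (1 : ℝ) ≤ 2 ^ k := one_le_pow₀ (by norm_num)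
    have h10 : S₀ ≤ 2 ^ k * S₀ := le_mul_of_one_le_left hS₀0.le h9
    have h11 := hw.2
    have h12 : 2 ^ (k + 1) * S₀ ≤ ‖D.sf a w'‖ := by
      rw [pow_succ]
      nlinarith [norm_nonneg (D.sf a w)]
    refine ⟨⟨h1, small w' δ (2 ^ (k + 1) * S₀) h1 ?_ hδ ?_ h12, h3⟩, h12⟩
    · exact h2.trans ((mul_le_mul_of_nonneg_left hw.1.2.1.le h4.le).trans h5)
    · rw [pow_succ]
      nlinarith [norm_nonneg τ₀, norm_nonneg τ₁]
  obtain ⟨w₀, hw₀⟩ := hacc (min δ (min 1 (c / S₀))) (by positivity)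
  have hw₀δ : In Λ a δ w₀ := ⟨hw₀.1, hw₀.2.1.trans_le (min_le_left _ _), hw₀.2.2⟩
  have hP0 : P 0 w₀ := by
    refine ⟨hw₀δ, ?_⟩
    have h1 : ‖w₀‖ ≤ 1 := (hw₀.2.1.trans_le ((min_le_right _ _).trans (min_le_left _ _))).le
    have h2 : ‖w₀‖ < c / S₀ := hw₀.2.1.trans_le ((min_le_right _ _).trans (min_le_right _ _))
    have h3 : ‖w₀‖ ^ D.p ≤ ‖w₀‖ := pow_le_of_le_one (norm_nonneg _) h1 hp0
    have h4 := (hb w₀ hw₀.1 (by linarith [hw₀δ.2.1])).1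
    rw [lt_div_iff₀ hS₀0] at h2
    rw [pow_zero, one_mul]
    by_contra h5
    have h6 : ‖w₀‖ ^ D.p * ‖D.sf a w₀‖ ≤ ‖w₀‖ * S₀ := by
      gcongr
      exact (not_le.1 h5).le
    linarith
  have haρ : a ∈ ball a ρ := mem_ball_self hρ
  refine ⟨emb a w₀, hw₀.2.2, fun ψ R hψ0 hψ rK hrK hrR => ?_⟩
  obtain ⟨σ₀, hσ₀, hσ₀'⟩ := L.ex a haρ w₀ (by linarith [hw₀δ.2.1])
  have htc := L.tc hσ₀' (L.sub haρ) (hσ₀.symm ▸ hw₀.1)
  obtain ⟨τ, hτa, hτ0, hτe⟩ := factor H.smooth (htc.tg (L.sub haρ)) (htc a (L.sub haρ)).1 hψ.2.1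
    (mem_ball_self hψ.1) (by simp only [hσ₀, hψ0])
  have h1 : ∀ᶠ v in 𝓝 a, τ v ∈ closedBall (0 : ℂ) rK :=
    hτa.continuousAt (by rw [hτ0]; exact closedBall_mem_nhds 0 hrK)
  obtain ⟨r', hr', hr''⟩ := Metric.eventually_nhds_iff_ball.1 (h1.and hτe)
  obtain ⟨r, hr, r1, r2, r3, r4⟩ : ∃ r : ℝ, 0 < r ∧ r < r₀ ∧ r < r₁ ∧ r < ρ ∧ r ≤ r' := by
    refine ⟨min (min r₀ r₁) (min ρ r') / 2, by positivity, ?_, ?_, ?_, ?_⟩
    all_goals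
      have := min_le_left (min r₀ r₁) (min ρ r')
      have := min_le_right (min r₀ r₁) (min ρ r')
      have := min_le_left r₀ r₁
      have := min_le_right r₀ r₁
      have := min_le_left ρ r'
      have := min_le_right ρ r'
      linarith
  obtain ⟨E₀, hE₀, e₀⟩ := e₀ r hr r1
  obtain ⟨E₁, hE₁, e₁⟩ := e₁ r hr r2
  set V := (volume : Measure ℂ).real (ball 0 r) with hV
  have hV0 : 0 < V := ENNReal.toReal_pos (measure_ball_pos _ _ hr).ne' measure_ball_lt_top.ne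
  set C' := E₀ + E₁ + 1 with hC'
  have hC'0 : 0 < C' := by positivity
  set μ := V / (6 * C') with hμ
  have hμ0 : 0 < μ := by positivity
  refine ⟨μ * V / (8 * C'), by positivity, fun φ e he hφ hbn hone => ?_⟩
  have hball : ∀ t ∈ closedBall (0 : ℂ) r, a + t ∈ ball a (2 * ρ) := fun t ht => by
    rw [mem_closedBall_zero_iff] at ht
    rw [mem_ball, dist_self_add_left]; linarith
  have hlow : V ≤ D.avg φ a w₀ r := by
    have k1 := (L.plq hσ₀' haρ r3.le).avg_eq hr φ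
    rw [hσ₀] at k1
    rw [k1]
    have k2 : IntegrableOn (fun t => φ (emb (a + t) (σ₀ (a + t)))) (ball (0 : ℂ) r) :=
      (ContinuousOn.integrableOn_compact (isCompact_closedBall 0 r) fun t ht =>
        (ContinuousAt.comp (f := fun t => a + t) (hφ.1 _ _ (htc.tg (hball t ht))
          (H.inv _ _ _ htc a (L.sub haρ) _ (hball t ht)
            (by simpa [hσ₀] using hw₀.2.2))).continuousAt
          (by fun_prop)).continuousWithinAt).mono_set ball_subset_closedBall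
    have k3 := setIntegral_mono_on (integrableOn_const measure_ball_lt_top.ne) k2
      measurableSet_ball (f := fun _ => (1 : ℝ)) fun t ht => by
        obtain ⟨k4, k5⟩ := hr'' (a + t) (by
          rw [mem_ball, dist_self_add_left]; exact (mem_ball_zero_iff.1 ht).trans_le r4)
        simp only at k5
        rw [k5]
        exact hone _ k4
    simpa using k3
  have hzero : ∃ k, ∀ w, P k w → D.avg φ a w r = 0 := by
    obtain ⟨R₀, hR₀⟩ := hφ.2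
    have hC := L.Cpos
    set x := 1 / (C * (|R₀| + 1)) with hx
    have hx0 : 0 < x := by positivity
    obtain ⟨k, hk⟩ := pow_unbounded_of_one_lt (K / x ^ D.p / S₀) (one_lt_two (α := ℝ))
    rw [div_lt_iff₀ hS₀0] at hk
    refine ⟨k, fun w hw => ?_⟩
    have k0 : ‖w‖ ≤ b / 2 := by linarith [hw.1.2.1]
    have k1 := small w x _ hw.1.1 (by linarith) hx0 hk hw.2
    obtain ⟨σ, hσ, hσ'⟩ := L.ex a haρ w k0
    have k2 := (L.plq hσ' haρ r3.le).avg_eq hr φ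
    have k3 : σ a ≠ 0 := hσ.symm ▸ hw.1.1
    rw [hσ] at k2
    rw [k2]
    refine setIntegral_eq_zero_of_forall_eq_zero fun t ht => ?_
    have k4 := hball t (ball_subset_closedBall ht)
    refine hR₀ _ (H.inv _ _ _ (L.tc hσ' (L.sub haρ) k3) a (L.sub haρ) _ k4
      (by simpa [hσ] using hw.1.2.2)) ?_
    have k5 := L.norm_le hσ' k4 (L.sub haρ)
    have k6 := norm_pos_iff.2 (L.ne_zero hσ' (L.sub haρ) k4 k3)
    rw [hσ] at k5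
    rw [hx, lt_div_iff₀ (by positivity)] at k1
    refine lt_of_lt_of_le ?_ (norm_le_pi_norm _ 1)
    have k7 : ‖σ (a + t)‖ * (|R₀| + 1) < 1 := by nlinarith [abs_nonneg R₀]
    simp only [emb, Matrix.cons_val_one, Matrix.cons_val_zero, norm_inv]
    rw [← one_div, lt_div_iff₀ k6]
    nlinarith [le_abs_self R₀]
  have key := tree (f₀ := f₀) (f₁ := f₁) (s := D.sf a) (P := P) hM hτ hP0
    (fun k w hw => ⟨step k w _ τ₀ C₀ hw (a₀ w (in₀ w hw.1)).1 (a₀ w (in₀ w hw.1)).2.1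
        (a₀ w (in₀ w hw.1)).2.2 hC₀ d6 (by linarith [norm_nonneg τ₁])
        (s₀ w (in₀ w hw.1) (hw.1.2.1.trans_le d3)),
      step k w _ τ₁ C₁ hw (a₁ w (in₁ w hw.1)).1 (a₁ w (in₁ w hw.1)).2.1
        (a₁ w (in₁ w hw.1)).2.2 hC₁ d7 (by linarith [norm_nonneg τ₀])
        (s₁ w (in₁ w hw.1) (hw.1.2.1.trans_le d4))⟩)
    (fun k w hw => ⟨s₀ w (in₀ w hw.1) (hw.1.2.1.trans_le d3),
      s₁ w (in₁ w hw.1) (hw.1.2.1.trans_le d4)⟩)
    (A := fun w => D.avg φ a w r) hzero hC'0.le he hμ0 fun l hl k S hS => by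
      have k1 : 0 ≤ l * S.card + e / l := by positivity
      exact ⟨(e₀ φ e he hφ hbn l hl S fun w hw => in₀ w (hS w hw).1).trans (by gcongr; linarith),
        (e₁ φ e he hφ hbn l hl S fun w hw => in₁ w (hS w hw).1).trans (by gcongr; linarith)⟩
  have k8 : C' * (3 * μ) = V / 2 := by rw [hμ]; field_simp; ring
  have k9 : V / 2 ≤ C' * (4 * (e / μ)) := by linarith [mul_add C' (3 * μ) (4 * (e / μ))]
  rw [div_le_iff₀ (by positivity)]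
  have k10 : C' * (4 * (e / μ)) * μ = 4 * C' * e := by field_simp
  nlinarith

/-- Accumulation at a regular point of the line at infinity, on the transversal. -/
theorem exists_in (H : IsLeaf (W D.F1 D.F2) Λ p) {a : ℂ} (ha : D.R.eval a ≠ 0)
    (h : ∀ ε : ℝ, 0 < ε → ∃ u w : ℂ, dist u a < ε ∧ In Λ u ε w) (δ : ℝ) (hδ : 0 < δ) :
    ∃ w, In Λ a δ w := by
  obtain ⟨ρ, b, C, L⟩ := D.exists_loc ha
  have := L.ρpos
  have := L.apos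
  have hC := L.Cpos
  obtain ⟨u, w, hu, hw⟩ := h (min ρ (min (b / 2) (δ / C))) (by positivity)
  have hu' : u ∈ ball a ρ := hu.trans_le (min_le_left _ _)
  have haρ : a ∈ ball a ρ := mem_ball_self L.ρpos
  obtain ⟨σ, hσ, hσ'⟩ :=
    L.ex u hu' w (hw.2.1.trans_le ((min_le_right _ _).trans (min_le_left _ _))).le
  have h0 : σ u ≠ 0 := hσ.symm ▸ hw.1
  refine ⟨σ a, L.ne_zero hσ' (L.sub hu') (L.sub haρ) h0, ?_,
    H.inv _ _ _ (L.tc hσ' (L.sub hu') h0) u (L.sub hu') a (L.sub haρ)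
      (by simpa [hσ] using hw.2.2)⟩
  have h1 := L.norm_le hσ' (L.sub haρ) (L.sub hu')
  have h2 := (lt_div_iff₀ hC).1 (hw.2.1.trans_le ((min_le_right _ _).trans (min_le_right _ _)))
  rw [hσ] at h1
  linarith

theorem core (H : IsLeaf (W D.F1 D.F2) Λ p) (hdeg : D.A.degree < D.R.degree)
    (hR : 0 < D.R.degree)
    (hinf : ∀ u : ℂ, D.R.eval u = 0 → (D.A.eval u / D.R.derivative.eval u).im ≠ 0)
    (hno : ¬ ∃ c : Polynomial ℂ,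
      D.R * c.derivative + (Polynomial.C (D.p : ℂ) * D.A - D.R.derivative) * c = -D.g)
    {a : ℂ} (ha : D.R.eval a ≠ 0)
    (h : ∀ ε : ℝ, 0 < ε → ∃ u w : ℂ, dist u a < ε ∧ In Λ u ε w) :
    ∃ g : E → ℝ, (∃ M, ∀ z ∈ Λ, |g z| ≤ M) ∧
      (∀ Γ t, TG (W D.F1 D.F2) Γ t → Γ t ∈ Λ →
        ContDiffAt ℝ 2 (fun s => g (Γ s)) t ∧ 0 ≤ lap (fun s => g (Γ s)) t) ∧
      ∃ q₁ ∈ Λ, ∃ q₂ ∈ Λ, g q₁ ≠ g q₂ := by
  have h1 := mono D.hp hdeg hinf hno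
  have : ∀ b : ℂ, ∃ ρ a C : ℝ, D.R.eval b ≠ 0 → D.Loc b ρ a C := fun b => by
    by_cases hb : D.R.eval b = 0
    · exact ⟨0, 0, 0, fun h => absurd hb h⟩
    · obtain ⟨ρ, a, C, L⟩ := D.exists_loc hb
      exact ⟨ρ, a, C, fun _ => L⟩
  choose ρ a' C L using this
  obtain ⟨M, τ₀, τ₁, hM, hτ, l₀, l₁⟩ := two_loops D.hp hR hinf h1 ρ
    (fun b hb => ⟨(L b hb).ρpos, fun v hv => by
      have := (L b hb).RR_ne (L b hb).zero ((L b hb).sub hv)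
      rwa [ev_zero] at this⟩)
    (D.Link Λ) (fun _ _ _ _ _ _ _ => Link.trans)
    (fun b hb u hu u' hu' e c hec he hc => (L b hb).link H hu hu' hec he hc) a ha
  obtain ⟨z₀, hz₀, hcap⟩ := capacity H ha (exists_in H ha h) hM hτ l₀ l₁
  exact H.pot hz₀ hcap

end Dat

/-- The affine core of the theorem. -/
theorem core {d : ℕ} {F1 F2 : MP} (Hy : Hyp d F1 F2) {Λ : Set E} {p : E}
    (H : IsLeaf (W F1 F2) Λ p) {a : ℂ} (ha : (res (RR F1 F2)).eval a ≠ 0)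
    (h : ∀ ε : ℝ, 0 < ε → ∃ u w : ℂ, dist u a < ε ∧ Dat.In Λ u ε w) :
    ∃ g : E → ℝ, (∃ M, ∀ z ∈ Λ, |g z| ≤ M) ∧
      (∀ Γ t, TG (W F1 F2) Γ t → Γ t ∈ Λ →
        ContDiffAt ℝ 2 (fun s => g (Γ s)) t ∧ 0 ≤ lap (fun s => g (Γ s)) t) ∧
      ∃ q₁ ∈ Λ, ∃ q₂ ∈ Λ, g q₁ ≠ g q₂ := by
  obtain ⟨k, Φ, G, hk, hres, hΦ, hG, hno⟩ := alg Hy
  have h1 : res (RR F1 F2 - Φ) = 0 := by rw [AlgAux.res_sub, hres, sub_self]
  obtain ⟨B, hB⟩ := AlgAux.X0_dvd ((AlgAux.RR_hom Hy).sub hΦ) h1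
  have hdeg := Hy.degree_res
  refine Dat.core (D := ⟨d, k, F1, F2, Φ, B, G, hk, Hy.h1, Hy.h2, hΦ, hB, hG⟩) H ?_ ?_ ?_ hno ha h
  · simp only [Dat.A, Dat.R, Polynomial.degree_neg, hdeg.1, hdeg.2]
    exact_mod_cast Nat.lt_succ_self d
  · simp only [Dat.R, hdeg.2]
    exact_mod_cast Nat.succ_pos d
  · intro u hu
    have := Hy.inf u hu
    simpa [Dat.A, Dat.R, neg_div] using this

end Pool.Agent.P.MP_a31c1c_an
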